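import Pool.Agent.Lib.MP_284513_co.Units

/-!
# Vertex sets of parts and of grids
-/

set_option linter.unusedSectionVars false

namespace Pool.Agent.MP284513

variable {V : Type} [DecidableEq V]

/-- the vertices of `K` and the new vertices of the members of `K` -/
def full (K : Finset (Finset V)) (q : Finset V → V) : Finset V := ver K ∪ K.image q

theorem mem_full {K : Finset (Finset V)} {q : Finset V → V} {v : V} :
    v ∈ full K q ↔ ∃ t ∈ K, v ∈ insert (q t) t := by
  unfold full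
  rw [Finset.mem_union, mem_ver, Finset.mem_image]
  constructor
  · rintro (⟨t, ht, hv⟩ | ⟨t, ht, rfl⟩)
    · exact ⟨t, ht, Finset.mem_insert_of_mem hv⟩
    · exact ⟨t, ht, Finset.mem_insert_self _ _⟩
  · rintro ⟨t, ht, hv⟩
    rcases Finset.mem_insert.1 hv with rfl | hv
    · exact Or.inr ⟨t, ht, rfl⟩
    · exact Or.inl ⟨t, ht, hv⟩

/-- the union of the edges of `H` which meet `e` -/
def around (H : Finset (Finset V)) (e : Finset V) : Finset V :=
  ver (H.filter fun f => ∃ x ∈ e, x ∈ f)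

theorem mem_around {H : Finset (Finset V)} {e : Finset V} {v : V} :
    v ∈ around H e ↔ ∃ f ∈ H, (∃ x ∈ e, x ∈ f) ∧ v ∈ f := by
  unfold around
  rw [mem_ver]
  constructor
  · rintro ⟨f, hf, hv⟩
    obtain ⟨h1, h2⟩ := Finset.mem_filter.1 hf
    exact ⟨f, h1, h2, hv⟩
  · rintro ⟨f, h1, h2, hv⟩
    exact ⟨f, Finset.mem_filter.2 ⟨h1, h2⟩, hv⟩

/-- a grid is the union of the edges which meet one of its rows -/
theorem around_row {H : Finset (Finset V)} {g : Fin 4 → Fin 4 → V}
    (h : ∀ f, (f ∈ H ∧ ∃ i j, g i j ∈ f) ↔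
      (∃ i, f = Finset.univ.image (g i)) ∨ ∃ j, f = Finset.univ.image fun i => g i j)
    (i : Fin 4) : around H (Finset.univ.image (g i)) =
      Finset.univ.image fun z : Fin 4 × Fin 4 => g z.1 z.2 := by
  ext v
  rw [mem_around, Finset.mem_image]
  constructor
  · rintro ⟨f, hf, ⟨x, hx, hxf⟩, hv⟩
    obtain ⟨j, -, rfl⟩ := Finset.mem_image.1 hx
    rcases (h f).1 ⟨hf, i, j, hxf⟩ with ⟨k, rfl⟩ | ⟨k, rfl⟩
    · obtain ⟨l, -, rfl⟩ := Finset.mem_image.1 hv
      exact ⟨(k, l), Finset.mem_univ _, rfl⟩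
    · obtain ⟨l, -, rfl⟩ := Finset.mem_image.1 hv
      exact ⟨(l, k), Finset.mem_univ _, rfl⟩
  · rintro ⟨⟨k, l⟩, -, rfl⟩
    refine ⟨Finset.univ.image fun i => g i l, ((h _).2 (Or.inr ⟨l, rfl⟩)).1, ⟨g i l, ?_, ?_⟩, ?_⟩
    · exact Finset.mem_image_of_mem _ (Finset.mem_univ _)
    · exact Finset.mem_image.2 ⟨i, Finset.mem_univ _, rfl⟩
    · exact Finset.mem_image.2 ⟨k, Finset.mem_univ _, rfl⟩

/-- a partition into sets which contain at least a quarter of their vertices of `D` -/
theorem card_le_of_partition [Fintype V] {P : Finset (Finset V)} {D : Finset V}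
    (hcov : ∀ v, ∃ U ∈ P, v ∈ U)
    (hdisj : ∀ U ∈ P, ∀ U' ∈ P, ∀ v, v ∈ U → v ∈ U' → U = U')
    (h : ∀ U ∈ P, U.card ≤ 4 * (D ∩ U).card) : Fintype.card V ≤ 4 * D.card := by
  have h1 : (Finset.univ : Finset V) ⊆ P.biUnion id := by
    intro v _
    obtain ⟨U, hU, hv⟩ := hcov v
    exact Finset.mem_biUnion.2 ⟨U, hU, hv⟩
  have h2 := (Finset.card_le_card h1).trans Finset.card_biUnion_le
  rw [Finset.card_univ] at h2
  have h3 : (P.biUnion fun U => D ∩ U).card = ∑ U ∈ P, (D ∩ U).card := by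
    refine Finset.card_biUnion ?_
    intro U hU U' hU' hne
    rw [Function.onFun, Finset.disjoint_left]
    intro v hv hv'
    exact hne (hdisj U hU U' hU' v (Finset.mem_inter.1 hv).2 (Finset.mem_inter.1 hv').2)
  have h4 : (P.biUnion fun U => D ∩ U) ⊆ D := by
    intro v hv
    obtain ⟨U, -, hv⟩ := Finset.mem_biUnion.1 hv
    exact (Finset.mem_inter.1 hv).1
  have h5 := Finset.card_le_card h4
  rw [h3] at h5
  have h6 : ∑ U ∈ P, (id U).card ≤ ∑ U ∈ P, 4 * (D ∩ U).card := Finset.sum_le_sum h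
  rw [← Finset.mul_sum] at h6
  omega

/-- a set which meets all enlarged members of an extremal hypergraph -/
theorem Ext.card_le_hit {T : Finset (Finset V)} (h : Ext T) {q : Finset V → V}
    (hinj : ∀ s ∈ T, ∀ t ∈ T, q s = q t → s = t) (hnew : ∀ t ∈ T, q t ∉ ver T) {D : Finset V}
    (hD : ∀ t ∈ T, ∃ x ∈ D, x ∈ insert (q t) t) : (ver T).card + T.card ≤ 4 * D.card := by
  classical
  have hne : ∀ t : Finset V, ∃ x : V, t ∈ T → x ∈ t := by
    intro t
    by_cases ht : t ∈ T
    · obtain ⟨x, hx⟩ := Finset.card_pos.1 (by rw [h.1 t ht]; norm_num : 0 < t.card)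
      exact ⟨x, fun _ => hx⟩
    · exact ⟨q t, fun h => absurd h ht⟩
  choose r hr using hne
  let g : V → V := fun v => if h : ∃ t ∈ T, q t = v then r h.choose else v
  have hS : Trans T (D.image g) := by
    intro t ht
    obtain ⟨x, hx, hxt⟩ := hD t ht
    refine ⟨g x, Finset.mem_image_of_mem _ hx, ?_⟩
    by_cases hex : ∃ s ∈ T, q s = x
    · have h1 : g x = r hex.choose := dif_pos hex
      obtain ⟨h2, h3⟩ := hex.choose_spec
      rcases Finset.mem_insert.1 hxt with h4 | h4
      · rw [h1, hinj _ h2 t ht (h3.trans h4)]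
        exact hr t ht
      · exact absurd (mem_ver.2 ⟨t, ht, h4⟩) (h3 ▸ hnew _ h2)
    · have h1 : g x = x := dif_neg hex
      rw [h1]
      rcases Finset.mem_insert.1 hxt with h4 | h4
      · exact absurd ⟨t, ht, h4.symm⟩ hex
      · exact h4
  have h1 := h.2 _ hS
  have h2 : (D.image g).card ≤ D.card := Finset.card_image_le
  omega

theorem card_full_le (K : Finset (Finset V)) (q : Finset V → V) :
    (full K q).card ≤ (ver K).card + K.card := by
  unfold full
  have h1 := Finset.card_union_le (ver K) (K.image q)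
  have h2 : (K.image q).card ≤ K.card := Finset.card_image_le
  omega

end Pool.Agent.MP284513
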