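import Pool.Agent.Lib.MP_284513_co.Defs

/-!
# Transversals of 3-uniform hypergraphs: basic definitions
-/

namespace Pool.Agent.MP284513

variable {V : Type} [DecidableEq V]

/-- `S` is a transversal of `T`: it meets every member of `T`. -/
def Trans (T : Finset (Finset V)) (S : Finset V) : Prop := ∀ e ∈ T, ∃ x ∈ S, x ∈ e

/-- The members of `T` which contain `x`. -/
def star (T : Finset (Finset V)) (x : V) : Finset (Finset V) := T.filter fun e => x ∈ e

theorem mem_ver {T : Finset (Finset V)} {x : V} : x ∈ ver T ↔ ∃ e ∈ T, x ∈ e := by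
  simp [ver]

theorem mem_star {T : Finset (Finset V)} {x : V} {e : Finset V} :
    e ∈ star T x ↔ e ∈ T ∧ x ∈ e := by
  simp [star]

theorem ver_mono {T T' : Finset (Finset V)} (h : T ⊆ T') : ver T ⊆ ver T' :=
  Finset.biUnion_subset_biUnion_of_subset_left _ h

/-- if the vertices in `D` disappear -/
theorem card_ver_add {T T' : Finset (Finset V)} (D : Finset V) (h : T' ⊆ T) (hD : D ⊆ ver T)
    (hd : ∀ x ∈ D, x ∉ ver T') : (ver T').card + D.card ≤ (ver T).card := by
  rw [← Finset.card_union_of_disjoint]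
  · exact Finset.card_le_card (Finset.union_subset (ver_mono h) hD)
  · rw [Finset.disjoint_left]
    intro x hx hx'
    exact hd x hx' hx

/-- A system of distinct vertices such that every edge contains at most one of them. -/
def Indep (T : Finset (Finset V)) (X : Finset V) : Prop :=
  X ⊆ ver T ∧ ∀ e ∈ T, ∀ x ∈ X, ∀ y ∈ X, x ∈ e → y ∈ e → x = y

theorem exists_max_indep (T : Finset (Finset V)) :
    ∃ X, Indep T X ∧ ∀ Y, Indep T Y → Y.card ≤ X.card := by
  classical
  have h1 : ((ver T).powerset.filter fun X => Indep T X).Nonempty := by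
    refine ⟨∅, Finset.mem_filter.2 ⟨Finset.mem_powerset.2 (Finset.empty_subset _),
      Finset.empty_subset _, ?_⟩⟩
    intro e _ x hx
    exact absurd hx (Finset.notMem_empty x)
  obtain ⟨X, hX, hmax⟩ := Finset.exists_max_image _ Finset.card h1
  refine ⟨X, (Finset.mem_filter.1 hX).2, fun Y hY => hmax Y ?_⟩
  rw [Finset.mem_filter, Finset.mem_powerset]
  exact ⟨hY.1, hY⟩

/-- `T` is linear and every vertex has degree two. -/
structure Reg2 (T : Finset (Finset V)) : Prop where
  three : ∀ e ∈ T, e.card = 3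
  two : ∀ x ∈ ver T, (star T x).card = 2
  lin : ∀ e ∈ T, ∀ f ∈ T, e ≠ f → ∀ x ∈ e, ∀ y ∈ e, x ∈ f → y ∈ f → x = y

theorem Reg2.double {T : Finset (Finset V)} (h : Reg2 T) : 2 * (ver T).card = 3 * T.card := by
  have h1 : ∑ x ∈ ver T, (star T x).card = ∑ e ∈ T, e.card := by
    have h2 : ∀ x ∈ ver T, (star T x).card = ∑ e ∈ T, if x ∈ e then 1 else 0 := by
      intro x _
      rw [star, Finset.card_filter]
    rw [Finset.sum_congr rfl h2, Finset.sum_comm]
    refine Finset.sum_congr rfl fun e he => ?_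
    rw [← Finset.card_filter]
    congr 1
    ext x
    simp only [Finset.mem_filter, and_iff_right_iff_imp]
    intro hx
    exact mem_ver.2 ⟨e, he, hx⟩
  rw [Finset.sum_congr rfl h.two, Finset.sum_congr rfl h.three, Finset.sum_const,
    Finset.sum_const, smul_eq_mul, smul_eq_mul] at h1
  omega

/-- the other edge through a vertex -/
theorem Reg2.other {T : Finset (Finset V)} (h : Reg2 T) {e : Finset V} (he : e ∈ T) {x : V}
    (hx : x ∈ e) : ∃ f ∈ T, f ≠ e ∧ x ∈ f ∧ ∀ g ∈ T, x ∈ g → g = e ∨ g = f := by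
  have h1 := h.two x (mem_ver.2 ⟨e, he, hx⟩)
  obtain ⟨a, b, hab, hs⟩ := Finset.card_eq_two.1 h1
  have hea : e ∈ star T x := mem_star.2 ⟨he, hx⟩
  rw [hs, Finset.mem_insert, Finset.mem_singleton] at hea
  have ha : a ∈ star T x := by rw [hs]; simp
  have hb : b ∈ star T x := by rw [hs]; simp
  have hall : ∀ g ∈ T, x ∈ g → g = a ∨ g = b := by
    intro g hg hxg
    have : g ∈ star T x := mem_star.2 ⟨hg, hxg⟩
    rw [hs, Finset.mem_insert, Finset.mem_singleton] at this
    exact this
  rcases hea with rfl | rfl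
  · exact ⟨b, (mem_star.1 hb).1, hab.symm, (mem_star.1 hb).2, hall⟩
  · refine ⟨a, (mem_star.1 ha).1, hab, (mem_star.1 ha).2, fun g hg hxg => ?_⟩
    rcases hall g hg hxg with h1 | h1
    · exact Or.inr h1
    · exact Or.inl h1

end Pool.Agent.MP284513
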