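import Pool.Agent.Lib.MP_284513_co.Units

/-!
# The sporadic hypergraphs with seven and with eight vertices
-/

set_option linter.unusedSectionVars false

namespace Pool.Agent.MP284513

variable {V : Type} [DecidableEq V] {x y a₁ a₂ a₃ b₁ b₂ b₃ : V}

/-- symmetry -/
theorem seven_swap : sevenFam x a₁ a₂ a₃ b₁ b₂ b₃ = sevenFam x b₁ b₂ b₃ a₁ a₂ a₃ := by
  have h1 : ({x, a₁, b₁} : Finset V) = {x, b₁, a₁} := by rw [Finset.pair_comm a₁ b₁]
  have h2 : ({x, a₂, b₂} : Finset V) = {x, b₂, a₂} := by rw [Finset.pair_comm a₂ b₂]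
  have h3 : ({x, a₃, b₃} : Finset V) = {x, b₃, a₃} := by rw [Finset.pair_comm a₃ b₃]
  unfold sevenFam
  rw [h1, h2, h3]
  ext e
  simp only [Finset.mem_insert, Finset.mem_singleton]
  tauto

/-- symmetry -/
theorem seven_perm₁ : sevenFam x a₁ a₂ a₃ b₁ b₂ b₃ = sevenFam x a₂ a₁ a₃ b₂ b₁ b₃ := by
  have h1 : ({a₁, a₂, a₃} : Finset V) = {a₂, a₁, a₃} := Finset.insert_comm _ _ _
  have h2 : ({b₁, b₂, b₃} : Finset V) = {b₂, b₁, b₃} := Finset.insert_comm _ _ _
  unfold sevenFam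
  rw [h1, h2]
  ext e
  simp only [Finset.mem_insert, Finset.mem_singleton]
  tauto

/-- symmetry -/
theorem seven_perm₂ : sevenFam x a₁ a₂ a₃ b₁ b₂ b₃ = sevenFam x a₁ a₃ a₂ b₁ b₃ b₂ := by
  have h1 : ({a₁, a₂, a₃} : Finset V) = {a₁, a₃, a₂} := by rw [Finset.pair_comm a₂ a₃]
  have h2 : ({b₁, b₂, b₃} : Finset V) = {b₁, b₃, b₂} := by rw [Finset.pair_comm b₂ b₃]
  unfold sevenFam
  rw [h1, h2]
  ext e
  simp only [Finset.mem_insert, Finset.mem_singleton]
  tauto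

theorem seven_ver : ver (sevenFam x a₁ a₂ a₃ b₁ b₂ b₃) = {x, a₁, a₂, a₃, b₁, b₂, b₃} := by
  ext v
  simp only [ver, sevenFam, Finset.mem_biUnion, Finset.mem_insert, Finset.mem_singleton, id_eq,
    exists_eq_or_imp, exists_eq_left]
  tauto

section Tr

variable {m : ℕ}

/-- the image of a family -/
private def im (f : Fin m ↪ V) (T : Finset (Finset (Fin m))) : Finset (Finset V) :=
  T.map (Finset.mapEmbedding f).toEmbedding

private theorem mem_im {f : Fin m ↪ V} {T : Finset (Finset (Fin m))} {e : Finset V} :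
    e ∈ im f T ↔ ∃ e' ∈ T, e'.map f = e := by
  simp [im]

private theorem ver_im (f : Fin m ↪ V) (T : Finset (Finset (Fin m))) :
    ver (im f T) = (ver T).map f := by
  ext v
  simp only [mem_ver, mem_im, Finset.mem_map]
  constructor
  · rintro ⟨e, ⟨e', he', rfl⟩, hv⟩
    obtain ⟨i, hi, rfl⟩ := Finset.mem_map.1 hv
    exact ⟨i, ⟨e', he', hi⟩, rfl⟩
  · rintro ⟨i, ⟨e', he', hi⟩, rfl⟩
    exact ⟨_, ⟨e', he', rfl⟩, Finset.mem_map_of_mem f hi⟩

private theorem star_im (f : Fin m ↪ V) (T : Finset (Finset (Fin m))) (i : Fin m) :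
    star (im f T) (f i) = im f (star T i) := by
  ext e
  simp only [mem_star, mem_im]
  constructor
  · rintro ⟨⟨e', he', rfl⟩, hv⟩
    exact ⟨e', ⟨he', (Finset.mem_map' f).1 hv⟩, rfl⟩
  · rintro ⟨e', ⟨he', hi⟩, rfl⟩
    exact ⟨⟨e', he', rfl⟩, Finset.mem_map_of_mem f hi⟩

private theorem card_im (f : Fin m ↪ V) (T : Finset (Finset (Fin m))) :
    (im f T).card = T.card := Finset.card_map _

private theorem ext_im {f : Fin m ↪ V} {T : Finset (Finset (Fin m))} (h : Ext T) :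
    Ext (im f T) := by
  refine ⟨fun e he => ?_, fun S hS => ?_⟩
  · obtain ⟨e', he', rfl⟩ := mem_im.1 he
    rw [Finset.card_map]
    exact h.1 e' he'
  · rw [ver_im, Finset.card_map, card_im]
    have h1 := h.2 (Finset.univ.filter fun i => f i ∈ S) (by
      intro e' he'
      obtain ⟨v, hv, hve⟩ := hS _ (mem_im.2 ⟨e', he', rfl⟩)
      obtain ⟨i, hi, rfl⟩ := Finset.mem_map.1 hve
      exact ⟨i, Finset.mem_filter.2 ⟨Finset.mem_univ _, hv⟩, hi⟩)
    have h2 : ((Finset.univ.filter fun i => f i ∈ S).map f).card ≤ S.card := by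
      apply Finset.card_le_card
      intro v hv
      obtain ⟨i, hi, rfl⟩ := Finset.mem_map.1 hv
      exact (Finset.mem_filter.1 hi).2
    rw [Finset.card_map] at h2
    omega

private theorem opt_im {f : Fin m ↪ V} {T : Finset (Finset (Fin m))} {S : Finset (Fin m)}
    (h : Opt T S) : Opt (im f T) (S.map f) := by
  refine ⟨fun e he => ?_, ?_⟩
  · obtain ⟨e', he', rfl⟩ := mem_im.1 he
    obtain ⟨i, hi, hie⟩ := h.1 e' he'
    exact ⟨f i, Finset.mem_map_of_mem f hi, Finset.mem_map_of_mem f hie⟩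
  · rw [ver_im, Finset.card_map, card_im, Finset.card_map]
    exact h.2

private def emb (l : List V) (h : l.Nodup) : Fin l.length ↪ V := ⟨l.get, List.nodup_iff_injective_get.1 h⟩

private theorem seven_im (h : [x, a₁, a₂, a₃, b₁, b₂, b₃].Nodup) :
    sevenFam x a₁ a₂ a₃ b₁ b₂ b₃ = im (emb _ h) (sevenFam (0 : Fin 7) 1 2 3 4 5 6) := by
  simp only [im, sevenFam, Finset.map_insert, Finset.map_singleton, RelEmbedding.coe_toEmbedding,
    Finset.mapEmbedding_apply]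
  rfl

private theorem eight_im (h : [x, y, a₁, a₂, a₃, b₁, b₂, b₃].Nodup) : ∃ f : Fin 8 ↪ V,
    eightFam x y a₁ a₂ a₃ b₁ b₂ b₃ = im f (eightFam (0 : Fin 8) 1 2 3 4 5 6 7) := by
  refine ⟨emb _ h, ?_⟩
  simp only [im, eightFam, sevenFam, Finset.map_union, Finset.map_insert, Finset.map_singleton,
    RelEmbedding.coe_toEmbedding, Finset.mapEmbedding_apply]
  rfl

private instance (T : Finset (Finset (Fin m))) (S : Finset (Fin m)) : Decidable (Trans T S) := by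
  unfold Trans
  infer_instance

private theorem seven_ext₀ : Ext (sevenFam (0 : Fin 7) 1 2 3 4 5 6) := by
  unfold Ext
  decide +kernel

private theorem eight_ext₀ : Ext (eightFam (0 : Fin 8) 1 2 3 4 5 6 7) := by
  unfold Ext
  decide +kernel

private theorem seven_low₀ : ¬ (star (sevenFam (0 : Fin 7) 1 2 3 4 5 6) 0).card ≤ 2 := by
  decide +kernel

private theorem seven_star₀ : (star (sevenFam (0 : Fin 7) 1 2 3 4 5 6) 1).card = 2 := by
  decide +kernel

private theorem eight_low₀ (i : Fin 8) :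
    ¬ (star (eightFam (0 : Fin 8) 1 2 3 4 5 6 7) i).card ≤ 2 := by
  revert i
  decide +kernel

end Tr

/-- `n + m = 12`. If `x ∈ S` then `S` contains some `aᵢ` and some `bⱼ`; otherwise it contains one of
`aᵢ`, `bᵢ` for every `i`. -/
theorem seven_ext (h : [x, a₁, a₂, a₃, b₁, b₂, b₃].Nodup) :
    Ext (sevenFam x a₁ a₂ a₃ b₁ b₂ b₃) := by
  rw [seven_im h]
  exact ext_im seven_ext₀

/-- the degree of `x` is three -/
theorem seven_low (h : [x, a₁, a₂, a₃, b₁, b₂, b₃].Nodup) {v : V}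
    (hv : Low (sevenFam x a₁ a₂ a₃ b₁ b₂ b₃) v) :
    (v = a₁ ∨ v = a₂ ∨ v = a₃) ∨ (v = b₁ ∨ v = b₂ ∨ v = b₃) := by
  have h1 := hv.1
  rw [seven_ver] at h1
  simp only [Finset.mem_insert, Finset.mem_singleton] at h1
  rcases h1 with h1 | h1
  · exfalso
    have h2 := hv.2
    have h3 : star (im (emb _ h) (sevenFam (0 : Fin 7) 1 2 3 4 5 6)) x
        = im (emb _ h) (star (sevenFam (0 : Fin 7) 1 2 3 4 5 6) 0) := star_im (emb _ h) _ (0 : Fin 7)
    rw [h1, seven_im h, h3, card_im] at h2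
    exact seven_low₀ h2
  · tauto

/-- the degrees of the other vertices are two -/
theorem seven_star (h : [x, a₁, a₂, a₃, b₁, b₂, b₃].Nodup) :
    (star (sevenFam x a₁ a₂ a₃ b₁ b₂ b₃) a₁).card = 2 := by
  rw [seven_im h]
  have h2 : star (im (emb _ h) (sevenFam (0 : Fin 7) 1 2 3 4 5 6)) a₁
      = im (emb _ h) (star (sevenFam (0 : Fin 7) 1 2 3 4 5 6) 1) := star_im (emb _ h) _ (1 : Fin 7)
  rw [h2, card_im]
  exact seven_star₀

theorem seven_opt_x (h : [x, a₁, a₂, a₃, b₁, b₂, b₃].Nodup) {u v : V}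
    (hu : u = a₁ ∨ u = a₂ ∨ u = a₃) (hv : v = b₁ ∨ v = b₂ ∨ v = b₃) :
    Opt (sevenFam x a₁ a₂ a₃ b₁ b₂ b₃) {x, u, v} := by
  rw [seven_im h]
  have h1 : ∀ i j : Fin 7, (i = 1 ∨ i = 2 ∨ i = 3) → (j = 4 ∨ j = 5 ∨ j = 6) →
      Opt (sevenFam (0 : Fin 7) 1 2 3 4 5 6) {0, i, j} := by
    unfold Opt
    decide +kernel
  have h2 : ∃ i : Fin 7, (i = 1 ∨ i = 2 ∨ i = 3) ∧ u = emb _ h i := by
    rcases hu with rfl | rfl | rfl
    · exact ⟨1, by decide, rfl⟩
    · exact ⟨2, by decide, rfl⟩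
    · exact ⟨3, by decide, rfl⟩
  have h3 : ∃ j : Fin 7, (j = 4 ∨ j = 5 ∨ j = 6) ∧ v = emb _ h j := by
    rcases hv with rfl | rfl | rfl
    · exact ⟨4, by decide, rfl⟩
    · exact ⟨5, by decide, rfl⟩
    · exact ⟨6, by decide, rfl⟩
  obtain ⟨i, hi, rfl⟩ := h2
  obtain ⟨j, hj, rfl⟩ := h3
  have h4 := opt_im (f := emb _ h) (h1 i j hi hj)
  rw [Finset.map_insert, Finset.map_insert, Finset.map_singleton] at h4
  exact h4

theorem seven_opt_a (h : [x, a₁, a₂, a₃, b₁, b₂, b₃].Nodup) :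
    Opt (sevenFam x a₁ a₂ a₃ b₁ b₂ b₃) {a₁, a₂, b₃} := by
  rw [seven_im h]
  have h1 : Opt (sevenFam (0 : Fin 7) 1 2 3 4 5 6) {1, 2, 6} := by
    unfold Opt
    decide +kernel
  have h4 := opt_im (f := emb _ h) h1
  rw [Finset.map_insert, Finset.map_insert, Finset.map_singleton] at h4
  exact h4

/-- `n + m = 16`. If `y ∈ S` then `S \ {y}` is a transversal of the seven-point hypergraph; if
`y ∉ S` and `x ∈ S` then `S` contains `x` and one of `a₁, b₂`, one of `a₂, b₃` and one of `a₃, b₁`;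
if `x, y ∉ S` and `|S| ≤ 3` then `S` contains exactly one of `aᵢ`, `bᵢ` for every `i`, hence
`a₁ ∈ S → b₁ ∉ S → a₃ ∈ S → b₃ ∉ S → a₂ ∈ S → b₂ ∉ S`, a contradiction to `{b₁, b₂, b₃}`. -/
theorem eight_ext (h : [x, y, a₁, a₂, a₃, b₁, b₂, b₃].Nodup) :
    Ext (eightFam x y a₁ a₂ a₃ b₁ b₂ b₃) := by
  obtain ⟨f, hf⟩ := eight_im h
  rw [hf]
  exact ext_im eight_ext₀

/-- all the degrees are three -/
theorem eight_low (h : [x, y, a₁, a₂, a₃, b₁, b₂, b₃].Nodup) (v : V) :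
    ¬ Low (eightFam x y a₁ a₂ a₃ b₁ b₂ b₃) v := by
  intro hv
  obtain ⟨f, hf⟩ := eight_im h
  rw [hf] at hv
  obtain ⟨h1, h2⟩ := hv
  rw [ver_im] at h1
  obtain ⟨i, hi, rfl⟩ := Finset.mem_map.1 h1
  rw [star_im, card_im] at h2
  exact eight_low₀ i h2

end Pool.Agent.MP284513
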