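import Pool.Agent.Lib.MP_284513_co.Chain

/-!
# The single edge, the four triples of a four-element set, and the closed chains
-/

set_option linter.unusedSectionVars false

namespace Pool.Agent.MP284513

variable {V : Type} [DecidableEq V]

private theorem triple_card {a b c : V} (h1 : a ≠ b) (h2 : a ≠ c) (h3 : b ≠ c) :
    ({a, b, c} : Finset V).card = 3 := Finset.card_eq_three.2 ⟨a, b, c, h1, h2, h3, rfl⟩

private theorem three_le {F : Finset (Finset V)} {e f g : Finset V} (he : e ∈ F) (hf : f ∈ F)
    (hg : g ∈ F) (h1 : e ≠ f) (h2 : e ≠ g) (h3 : f ≠ g) : 3 ≤ F.card := by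
  have h4 : ({e, f, g} : Finset (Finset V)).card = 3 :=
    Finset.card_eq_three.2 ⟨e, f, g, h1, h2, h3, rfl⟩
  rw [← h4]
  refine Finset.card_le_card fun x hx => ?_
  rw [Finset.mem_insert, Finset.mem_insert, Finset.mem_singleton] at hx
  rcases hx with rfl | rfl | rfl <;> assumption

private theorem ne_of_mem {e f : Finset V} {z : V} (h1 : z ∈ e) (h2 : z ∉ f) : e ≠ f := by
  rintro rfl
  exact h2 h1

theorem edge_ext {a b c : V} (h : [a, b, c].Nodup) : Ext ({{a, b, c}} : Finset (Finset V)) := by
  simp only [List.nodup_cons, List.mem_cons, List.not_mem_nil, or_false, not_or,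
    List.nodup_nil, and_true, not_false_eq_true] at h
  obtain ⟨⟨hab, hac⟩, hbc⟩ := h
  have h3 := triple_card hab hac hbc
  refine ⟨fun e he => ?_, fun S hS => ?_⟩
  · rw [Finset.mem_singleton] at he
    rw [he, h3]
  · obtain ⟨x, hx, _⟩ := hS {a, b, c} (Finset.mem_singleton_self _)
    have h4 : 0 < S.card := Finset.card_pos.2 ⟨x, hx⟩
    have h5 : ver ({{a, b, c}} : Finset (Finset V)) = {a, b, c} := by
      rw [ver, Finset.singleton_biUnion, id]
    rw [h5, h3, Finset.card_singleton]
    omega

/-- the vertices of the four triples -/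
private theorem four_ver {a b c d v : V}
    (hv : v ∈ ver ({{a, b, c}, {a, b, d}, {a, c, d}, {b, c, d}} : Finset (Finset V))) :
    v = a ∨ v = b ∨ v = c ∨ v = d := by
  obtain ⟨e, he, hve⟩ := mem_ver.1 hv
  simp only [Finset.mem_insert, Finset.mem_singleton] at he
  rcases he with rfl | rfl | rfl | rfl <;>
    (simp only [Finset.mem_insert, Finset.mem_singleton] at hve
     rcases hve with h1 | h1 | h1 <;> simp [h1])

/-- `n + m = 8`, and one vertex does not hit all the edges. -/
theorem four_ext {a b c d : V} (h : [a, b, c, d].Nodup) :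
    Ext ({{a, b, c}, {a, b, d}, {a, c, d}, {b, c, d}} : Finset (Finset V)) := by
  simp only [List.nodup_cons, List.mem_cons, List.not_mem_nil, or_false, not_or,
    List.nodup_nil, and_true, not_false_eq_true] at h
  obtain ⟨⟨hab, hac, had⟩, ⟨hbc, hbd⟩, hcd⟩ := h
  refine ⟨fun e he => ?_, fun S hS => ?_⟩
  · simp only [Finset.mem_insert, Finset.mem_singleton] at he
    rcases he with rfl | rfl | rfl | rfl
    · exact triple_card hab hac hbc
    · exact triple_card hab had hbd
    · exact triple_card hac had hcd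
    · exact triple_card hbc hbd hcd
  · have h1 : (ver ({{a, b, c}, {a, b, d}, {a, c, d}, {b, c, d}} : Finset (Finset V))).card
        ≤ 4 := by
      refine (Finset.card_le_card (t := {a, b, c, d}) ?_).trans Finset.card_le_four
      intro v hv
      simp only [Finset.mem_insert, Finset.mem_singleton]
      exact four_ver hv
    have h2 : ({{a, b, c}, {a, b, d}, {a, c, d}, {b, c, d}} : Finset (Finset V)).card ≤ 4 :=
      Finset.card_le_four
    have h3 : 2 ≤ S.card := by
      by_contra hlt
      have h4 : S.card ≤ 1 := by omega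
      rw [Finset.card_le_one] at h4
      obtain ⟨x, hx, hx'⟩ := hS {a, b, c} (by simp)
      obtain ⟨y, hy, hy'⟩ := hS {a, b, d} (by simp)
      obtain ⟨z, hz, hz'⟩ := hS {a, c, d} (by simp)
      obtain ⟨w, hw, hw'⟩ := hS {b, c, d} (by simp)
      have e1 := h4 y hy x hx
      have e2 := h4 z hz x hx
      have e3 := h4 w hw x hx
      subst e1 e2 e3
      simp only [Finset.mem_insert, Finset.mem_singleton] at hx' hy' hz' hw'
      rcases hx' with rfl | rfl | rfl
      · rcases hw' with h5 | h5 | h5
        · exact hab h5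
        · exact hac h5
        · exact had h5
      · rcases hz' with h5 | h5 | h5
        · exact hab h5.symm
        · exact hbc h5
        · exact hbd h5
      · rcases hy' with h5 | h5 | h5
        · exact hac h5.symm
        · exact hbc h5.symm
        · exact hcd h5
    omega

theorem four_low {a b c d : V} (h : [a, b, c, d].Nodup) (v : V) :
    ¬ Low ({{a, b, c}, {a, b, d}, {a, c, d}, {b, c, d}} : Finset (Finset V)) v := by
  simp only [List.nodup_cons, List.mem_cons, List.not_mem_nil, or_false, not_or,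
    List.nodup_nil, and_true, not_false_eq_true] at h
  obtain ⟨⟨hab, hac, had⟩, ⟨hbc, hbd⟩, hcd⟩ := h
  have n1 : ({a, b, c} : Finset V) ≠ {a, b, d} := ne_of_mem (z := c) (by simp) (by
    simp [Ne.symm hac, Ne.symm hbc, hcd])
  have n2 : ({a, b, c} : Finset V) ≠ {a, c, d} := ne_of_mem (z := b) (by simp) (by
    simp [Ne.symm hab, hbc, hbd])
  have n3 : ({a, b, c} : Finset V) ≠ {b, c, d} := ne_of_mem (z := a) (by simp) (by
    simp [hab, hac, had])
  have n4 : ({a, b, d} : Finset V) ≠ {a, c, d} := ne_of_mem (z := b) (by simp) (by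
    simp [Ne.symm hab, hbc, hbd])
  have n5 : ({a, b, d} : Finset V) ≠ {b, c, d} := ne_of_mem (z := a) (by simp) (by
    simp [hab, hac, had])
  have n6 : ({a, c, d} : Finset V) ≠ {b, c, d} := ne_of_mem (z := a) (by simp) (by
    simp [hab, hac, had])
  have t1 : ({a, b, c} : Finset V) ∈ ({{a, b, c}, {a, b, d}, {a, c, d}, {b, c, d}} :
      Finset (Finset V)) := by simp
  have t2 : ({a, b, d} : Finset V) ∈ ({{a, b, c}, {a, b, d}, {a, c, d}, {b, c, d}} :
      Finset (Finset V)) := by simp
  have t3 : ({a, c, d} : Finset V) ∈ ({{a, b, c}, {a, b, d}, {a, c, d}, {b, c, d}} :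
      Finset (Finset V)) := by simp
  have t4 : ({b, c, d} : Finset V) ∈ ({{a, b, c}, {a, b, d}, {a, c, d}, {b, c, d}} :
      Finset (Finset V)) := by simp
  rintro ⟨hv, hc⟩
  have key : 3 ≤ (star ({{a, b, c}, {a, b, d}, {a, c, d}, {b, c, d}} :
      Finset (Finset V)) v).card := by
    have hv4 := four_ver hv
    rcases hv4 with hv4 | hv4 | hv4 | hv4
    · exact three_le (mem_star.2 ⟨t1, by simp [hv4]⟩) (mem_star.2 ⟨t2, by simp [hv4]⟩)
        (mem_star.2 ⟨t3, by simp [hv4]⟩) n1 n2 n4
    · exact three_le (mem_star.2 ⟨t1, by simp [hv4]⟩) (mem_star.2 ⟨t2, by simp [hv4]⟩)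
        (mem_star.2 ⟨t4, by simp [hv4]⟩) n1 n3 n5
    · exact three_le (mem_star.2 ⟨t1, by simp [hv4]⟩) (mem_star.2 ⟨t3, by simp [hv4]⟩)
        (mem_star.2 ⟨t4, by simp [hv4]⟩) n2 n3 n6
    · exact three_le (mem_star.2 ⟨t2, by simp [hv4]⟩) (mem_star.2 ⟨t3, by simp [hv4]⟩)
        (mem_star.2 ⟨t4, by simp [hv4]⟩) n4 n5 n6
  omega

/-- the vertices of the closed chain -/
private theorem cycle_ver {K : Finset (Finset V)} {a b c p q x : V} (h : Chain K a b c p q) {v : V}
    (hv : v ∈ ver (K ∪ {{x, c, p}, {x, c, q}, {x, a, b}})) : v = x ∨ v ∈ ver K := by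
  obtain ⟨ha, hb, hc, hp, hq⟩ := h.mem_ver
  rw [ver_union, Finset.mem_union] at hv
  rcases hv with hv | hv
  · exact Or.inr hv
  · obtain ⟨e, he, hve⟩ := mem_ver.1 hv
    simp only [Finset.mem_insert, Finset.mem_singleton] at he
    rcases he with rfl | rfl | rfl
    · simp only [Finset.mem_insert, Finset.mem_singleton] at hve
      rcases hve with rfl | rfl | rfl
      · exact Or.inl rfl
      · exact Or.inr hc
      · exact Or.inr hp
    · simp only [Finset.mem_insert, Finset.mem_singleton] at hve
      rcases hve with rfl | rfl | rfl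
      · exact Or.inl rfl
      · exact Or.inr hc
      · exact Or.inr hq
    · simp only [Finset.mem_insert, Finset.mem_singleton] at hve
      rcases hve with rfl | rfl | rfl
      · exact Or.inl rfl
      · exact Or.inr ha
      · exact Or.inr hb

/-- One more vertex and three more edges. If `x ∈ S` then `S \ {x}` is a transversal of `K`. If
`x ∉ S` then `S` contains `c` and one of `a`, `b`, or it contains `p` and `q`: `Chain.lower`. -/
theorem cycle_ext {K : Finset (Finset V)} {a b c p q x : V} (h : Chain K a b c p q)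
    (hx : x ∉ ver K) : Ext (K ∪ {{x, c, p}, {x, c, q}, {x, a, b}}) := by
  obtain ⟨ha, hb, hc, hp, hq⟩ := h.mem_ver
  have hnd := h.nodup
  simp only [List.nodup_cons, List.mem_cons, List.not_mem_nil, or_false, not_or,
    List.nodup_nil, and_true, not_false_eq_true] at hnd
  obtain ⟨⟨hab, hac, hap, haq⟩, ⟨hbc, hbp, hbq⟩, ⟨hcp, hcq⟩, hpq⟩ := hnd
  have hne : ∀ y, y ∈ ver K → x ≠ y := by
    rintro y hy rfl
    exact hx hy
  refine ⟨fun e he => ?_, fun S hS => ?_⟩
  · rcases Finset.mem_union.1 he with he | he
    · exact h.three e he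
    · simp only [Finset.mem_insert, Finset.mem_singleton] at he
      rcases he with rfl | rfl | rfl
      · exact triple_card (hne c hc) (hne p hp) hcp
      · exact triple_card (hne c hc) (hne q hq) hcq
      · exact triple_card (hne a ha) (hne b hb) hab
  · have h1 : (ver (K ∪ {{x, c, p}, {x, c, q}, {x, a, b}})).card ≤ (ver K).card + 1 := by
      refine (Finset.card_le_card (t := insert x (ver K)) ?_).trans (Finset.card_insert_le _ _)
      intro v hv
      rw [Finset.mem_insert]
      exact cycle_ver h hv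
    have h2 : (K ∪ {{x, c, p}, {x, c, q}, {x, a, b}}).card ≤ K.card + 3 :=
      (Finset.card_union_le _ _).trans (Nat.add_le_add_left Finset.card_le_three _)
    have hSK : Trans K S := hS.anti Finset.subset_union_left
    have h3 : (ver K).card + K.card + 4 ≤ 4 * S.card := by
      by_cases hxS : x ∈ S
      · have h4 : Trans K (S.erase x) := by
          intro e he
          obtain ⟨y, hy, hye⟩ := hSK e he
          refine ⟨y, Finset.mem_erase.2 ⟨?_, hy⟩, hye⟩
          exact (hne y (mem_ver.2 ⟨e, he, hye⟩)).symm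
        have h5 := h.ext.2 _ h4
        have h6 := Finset.card_erase_add_one hxS
        omega
      · have h4 := h.lower hSK
        obtain ⟨y, hy, hy'⟩ := hS {x, c, p} (Finset.mem_union_right _ (by simp))
        obtain ⟨z, hz, hz'⟩ := hS {x, c, q} (Finset.mem_union_right _ (by simp))
        obtain ⟨w, hw, hw'⟩ := hS {x, a, b} (Finset.mem_union_right _ (by simp))
        simp only [Finset.mem_insert, Finset.mem_singleton] at hy' hz' hw'
        have hab' : a ∈ S ∨ b ∈ S := by
          rcases hw' with rfl | rfl | rfl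
          · exact absurd hw hxS
          · exact Or.inl hw
          · exact Or.inr hw
        by_cases hcS : c ∈ S
        · have h7 : (if c ∈ S ∧ (a ∈ S ∨ b ∈ S) then 4 else 0) = 4 := if_pos ⟨hcS, hab'⟩
          rw [h7] at h4
          omega
        · have hpS : p ∈ S := by
            rcases hy' with rfl | rfl | rfl
            · exact absurd hy hxS
            · exact absurd hy hcS
            · exact hy
          have hqS : q ∈ S := by
            rcases hz' with rfl | rfl | rfl
            · exact absurd hz hxS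
            · exact absurd hz hcS
            · exact hz
          have h7 : (if p ∈ S ∧ q ∈ S then 4 else 0) = 4 := if_pos ⟨hpS, hqS⟩
          rw [h7] at h4
          omega
    omega

/-- All vertices have degree three: `Chain.low`. -/
theorem cycle_low {K : Finset (Finset V)} {a b c p q x : V} (h : Chain K a b c p q)
    (hx : x ∉ ver K) (v : V) : ¬ Low (K ∪ {{x, c, p}, {x, c, q}, {x, a, b}}) v := by
  obtain ⟨ha, hb, hc, hp, hq⟩ := h.mem_ver
  have hnd := h.nodup
  simp only [List.nodup_cons, List.mem_cons, List.not_mem_nil, or_false, not_or,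
    List.nodup_nil, and_true, not_false_eq_true] at hnd
  obtain ⟨⟨hab, hac, hap, haq⟩, ⟨hbc, hbp, hbq⟩, ⟨hcp, hcq⟩, hpq⟩ := hnd
  have hne : ∀ y, y ∈ ver K → x ≠ y := by
    rintro y hy rfl
    exact hx hy
  rintro ⟨hv, hcard⟩
  have hxc := hne c hc
  have hxp := hne p hp
  have hxq := hne q hq
  have hxa := hne a ha
  have hxb := hne b hb
  -- the new edges
  have m1 : ({x, c, p} : Finset V) ∈ (K ∪ {{x, c, p}, {x, c, q}, {x, a, b}} :
      Finset (Finset V)) := Finset.mem_union_right _ (by simp)
  have m2 : ({x, c, q} : Finset V) ∈ (K ∪ {{x, c, p}, {x, c, q}, {x, a, b}} :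
      Finset (Finset V)) := Finset.mem_union_right _ (by simp)
  have m3 : ({x, a, b} : Finset V) ∈ (K ∪ {{x, c, p}, {x, c, q}, {x, a, b}} :
      Finset (Finset V)) := Finset.mem_union_right _ (by simp)
  have n1 : ({x, c, p} : Finset V) ≠ {x, c, q} := ne_of_mem (z := p) (by simp) (by
    simp [Ne.symm hxp, Ne.symm hcp, hpq])
  have n2 : ({x, c, p} : Finset V) ≠ {x, a, b} := ne_of_mem (z := c) (by simp) (by
    simp [Ne.symm hxc, Ne.symm hac, Ne.symm hbc])
  have n3 : ({x, c, q} : Finset V) ≠ {x, a, b} := ne_of_mem (z := c) (by simp) (by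
    simp [Ne.symm hxc, Ne.symm hac, Ne.symm hbc])
  -- one more edge at a vertex of degree two
  have key : ∀ (u : V) (e : Finset V), (star K u).card = 2 → x ∈ e → u ∈ e →
      e ∈ (K ∪ {{x, c, p}, {x, c, q}, {x, a, b}} : Finset (Finset V)) →
      3 ≤ (star (K ∪ {{x, c, p}, {x, c, q}, {x, a, b}}) u).card := by
    intro u e h2 hxe hue he
    have h3 : insert e (star K u) ⊆ star (K ∪ {{x, c, p}, {x, c, q}, {x, a, b}}) u := by
      intro f hf
      rcases Finset.mem_insert.1 hf with rfl | hf
      · exact mem_star.2 ⟨he, hue⟩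
      · exact mem_star.2 ⟨Finset.mem_union_left _ (mem_star.1 hf).1, (mem_star.1 hf).2⟩
    have h4 : e ∉ star K u := by
      intro h5
      exact hx (mem_ver.2 ⟨e, (mem_star.1 h5).1, hxe⟩)
    have h5 := Finset.card_le_card h3
    rw [Finset.card_insert_of_notMem h4, h2] at h5
    exact h5
  have hgoal : 3 ≤ (star (K ∪ {{x, c, p}, {x, c, q}, {x, a, b}}) v).card := by
    rcases cycle_ver h hv with h6 | hvK
    · rw [h6]
      exact three_le (mem_star.2 ⟨m1, by simp⟩) (mem_star.2 ⟨m2, by simp⟩)
        (mem_star.2 ⟨m3, by simp⟩) n1 n2 n3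
    · have hlow : Low K v := by
        refine ⟨hvK, (Finset.card_le_card ?_).trans hcard⟩
        rw [star_union]
        exact Finset.subset_union_left
      rcases h.low hlow with h6 | h6 | h6 | h6 | h6
      · rw [h6]
        exact key a {x, a, b} h.star_a (by simp) (by simp) m3
      · rw [h6]
        exact key b {x, a, b} h.swapAB.star_a (by simp) (by simp) m3
      · rw [h6]
        have h0 : ({a, b, c} : Finset V) ∈ K := h.mem_first
        refine three_le (mem_star.2 ⟨Finset.mem_union_left _ h0, by simp⟩)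
          (mem_star.2 ⟨m1, by simp⟩) (mem_star.2 ⟨m2, by simp⟩) ?_ ?_ n1
        · intro h1
          exact hx (mem_ver.2 ⟨_, h0, by rw [h1]; simp⟩)
        · intro h1
          exact hx (mem_ver.2 ⟨_, h0, by rw [h1]; simp⟩)
      · rw [h6]
        exact key p {x, c, p} h.star_p (by simp) (by simp) m1
      · rw [h6]
        exact key q {x, c, q} h.swapPQ.star_p (by simp) (by simp) m2
  omega

end Pool.Agent.MP284513
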