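import Pool.Agent.Lib.MP_284513_co.Double
import Pool.Agent.Lib.MP_284513_co.Small
import Pool.Agent.Lib.MP_284513_co.Seven

/-!
# Classes of the vertices of degree at most two
-/

set_option linter.unusedSectionVars false

namespace Pool.Agent.MP284513

variable {V : Type} [DecidableEq V]

/-- the class of `w` is contained in `F` -/
def Fib (T : Finset (Finset V)) (β : V → V) (w : V) (F : Finset V) : Prop :=
  ∀ v, Low T v → β v = β w → v ∈ F

/-- the possible classes -/
inductive Kind (T : Finset (Finset V)) (β : V → V) : V → Prop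
  | edge {a b c : V} (h : [a, b, c].Nodup) (hc : Closed T {{a, b, c}})
      (hf : Fib T β a {a, b, c}) : Kind T β a
  | centre {K : Finset (Finset V)} {a b c p q w : V} (h : Chain K a b c p q) (hc : Closed T K)
      (hw : w = a ∨ w = b ∨ w = c) (hf : Fib T β w {a, b, c}) (hp : Fib T β p {p, q})
      (hq : Fib T β q {p, q}) : Kind T β w
  | tail {K : Finset (Finset V)} {a b c p q : V} (h : Chain K a b c p q) (hc : Closed T K)
      (hf : Fib T β p {p, q}) : Kind T β p
  | dcentre {K₁ K₂ : Finset (Finset V)} {a b c p q p' q' : V} (h₁ : Chain K₁ a b c p q)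
      (h₂ : Chain K₂ c b a p' q') (h : ver K₁ ∩ ver K₂ ⊆ {a, b, c}) (hc : Closed T (K₁ ∪ K₂))
      (hf : Fib T β a {a, c}) : Kind T β a
  | dtail {K₁ K₂ : Finset (Finset V)} {a b c p q p' q' : V} (h₁ : Chain K₁ a b c p q)
      (h₂ : Chain K₂ c b a p' q') (h : ver K₁ ∩ ver K₂ ⊆ {a, b, c}) (hc : Closed T (K₁ ∪ K₂))
      (hf : Fib T β p {p, q}) : Kind T β p
  | seven {x a₁ a₂ a₃ b₁ b₂ b₃ : V} (h : [x, a₁, a₂, a₃, b₁, b₂, b₃].Nodup)
      (hc : Closed T (sevenFam x a₁ a₂ a₃ b₁ b₂ b₃)) (hf : Fib T β a₁ {a₁, a₂, a₃})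
      (hf' : ∀ v, v = b₁ ∨ v = b₂ ∨ v = b₃ → Fib T β v {b₁, b₂, b₃}) : Kind T β a₁

/-- `β` describes a partition of the vertices of degree at most two into classes. -/
structure Blocks (T : Finset (Finset V)) (β : V → V) : Prop where
  mem : ∀ v ∈ ver T, β v ∈ ver T
  opt : ∀ W : Finset V, (∀ w ∈ W, Low T w) → (∀ w ∈ W, ∀ w' ∈ W, β w = β w' → w = w') →
    ∃ S, Opt T S ∧ W ⊆ S
  kind : ∀ w, Low T w → Kind T β w

theorem pick {W : Finset V} {β : V → V} (hinj : ∀ w ∈ W, ∀ w' ∈ W, β w = β w' → w = w')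
    (F : Finset V) (hF : F.Nonempty) (hβ : ∀ u ∈ F, ∀ v ∈ F, β u = β v) :
    ∃ z ∈ F, ∀ w ∈ W, w ∈ F → w = z := by
  by_cases h : ∃ w ∈ W, w ∈ F
  · obtain ⟨w, hw, hwF⟩ := h
    exact ⟨w, hwF, fun v hv hvF => hinj v hv w hw (hβ v hvF w hwF)⟩
  · obtain ⟨z, hz⟩ := hF
    exact ⟨z, hz, fun w hw hwF => absurd ⟨w, hw, hwF⟩ h⟩

theorem low_left {K R : Finset (Finset V)} (hd : Disjoint (ver K) (ver R)) {v : V}
    (hv : v ∈ ver K) : Low (K ∪ R) v ↔ Low K v := by
  have h1 : v ∉ ver R := fun h => Finset.disjoint_left.1 hd hv h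
  unfold Low
  rw [star_union, star_eq_empty h1, Finset.union_empty, ver_union, Finset.mem_union]
  tauto

theorem low_right {K R : Finset (Finset V)} (hd : Disjoint (ver K) (ver R)) {v : V}
    (hv : v ∈ ver R) : Low (K ∪ R) v ↔ Low R v := by
  rw [Finset.union_comm]
  exact low_left hd.symm hv

theorem Closed.left {K K' R : Finset (Finset V)} (h : Closed K K')
    (hd : Disjoint (ver K) (ver R)) : Closed (K ∪ R) K' := by
  refine ⟨h.1.trans Finset.subset_union_left, fun e he v hv hv' => ?_⟩
  rcases Finset.mem_union.1 he with he | he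
  · exact h.2 e he v hv hv'
  · exact absurd (mem_ver.2 ⟨e, he, hv⟩) (Finset.disjoint_left.1 hd (ver_mono h.1 hv'))

theorem Closed.right {K K' R : Finset (Finset V)} (h : Closed R K')
    (hd : Disjoint (ver K) (ver R)) : Closed (K ∪ R) K' := by
  rw [Finset.union_comm]
  exact h.left hd.symm

theorem Closed.refl (K : Finset (Finset V)) : Closed K K :=
  ⟨Finset.Subset.refl _, fun _ he _ _ _ => he⟩

theorem Kind.transfer {K T : Finset (Finset V)} {β γ : V → V} {w : V} (hk : Kind K β w)
    (hw : w ∈ ver K)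
    (hc : ∀ K', Closed K K' → Closed T K')
    (hf : ∀ u ∈ ver K, ∀ F, Fib K β u F → Fib T γ u F) : Kind T γ w := by
  cases hk with
  | edge h hc' hf' => exact Kind.edge h (hc _ hc') (hf _ hw _ hf')
  | centre h hc' hw' hf' hp hq =>
    exact Kind.centre h (hc _ hc') hw' (hf _ hw _ hf')
      (hf _ (ver_mono hc'.1 h.mem_ver.2.2.2.1) _ hp) (hf _ (ver_mono hc'.1 h.mem_ver.2.2.2.2) _ hq)
  | tail h hc' hf' => exact Kind.tail h (hc _ hc') (hf _ hw _ hf')
  | dcentre h₁ h₂ h hc' hf' => exact Kind.dcentre h₁ h₂ h (hc _ hc') (hf _ hw _ hf')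
  | dtail h₁ h₂ h hc' hf' => exact Kind.dtail h₁ h₂ h (hc _ hc') (hf _ hw _ hf')
  | seven h hc' hf' hf'' =>
    refine Kind.seven h (hc _ hc') (hf _ hw _ hf') fun v hv =>
      hf _ (ver_mono hc'.1 ?_) _ (hf'' v hv)
    rw [seven_ver]
    simp only [Finset.mem_insert, Finset.mem_singleton]
    tauto

theorem Blocks.union {K R : Finset (Finset V)} {β γ : V → V} (hβ : Blocks K β) (hγ : Blocks R γ)
    (h3 : ∀ e ∈ K, e.card = 3) (hd : Disjoint (ver K) (ver R)) :
    Blocks (K ∪ R) (fun v => if v ∈ ver K then β v else γ v) := by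
  have hnK : ∀ {v}, v ∈ ver R → v ∉ ver K := fun hv h => Finset.disjoint_left.1 hd h hv
  refine ⟨fun v hv => ?_, fun W hW hinj => ?_, fun w hw => ?_⟩
  · rw [ver_union, Finset.mem_union] at hv ⊢
    by_cases hK : v ∈ ver K
    · simp only [hK, if_true]
      exact Or.inl (hβ.mem v hK)
    · simp only [hK, if_false]
      exact Or.inr (hγ.mem v (hv.resolve_left hK))
  · obtain ⟨S₁, hS₁, hW₁⟩ := hβ.opt (W.filter fun v => v ∈ ver K) (by
      intro w hw
      obtain ⟨hw1, hw2⟩ := Finset.mem_filter.1 hw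
      exact (low_left hd hw2).1 (hW w hw1)) (by
      intro w hw w' hw' h
      obtain ⟨hw1, hw2⟩ := Finset.mem_filter.1 hw
      obtain ⟨hw1', hw2'⟩ := Finset.mem_filter.1 hw'
      exact hinj w hw1 w' hw1' (by simpa only [hw2, hw2', if_true] using h))
    obtain ⟨S₂, hS₂, hW₂⟩ := hγ.opt (W.filter fun v => v ∈ ver R) (by
      intro w hw
      obtain ⟨hw1, hw2⟩ := Finset.mem_filter.1 hw
      exact (low_right hd hw2).1 (hW w hw1)) (by
      intro w hw w' hw' h
      obtain ⟨hw1, hw2⟩ := Finset.mem_filter.1 hw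
      obtain ⟨hw1', hw2'⟩ := Finset.mem_filter.1 hw'
      exact hinj w hw1 w' hw1' (by simpa only [hnK hw2, hnK hw2', if_false] using h))
    refine ⟨S₁ ∪ S₂, hS₁.union hS₂ h3 hd, fun w hw => ?_⟩
    have h1 := (hW w hw).1
    rw [ver_union, Finset.mem_union] at h1
    rcases h1 with h1 | h1
    · exact Finset.mem_union_left _ (hW₁ (Finset.mem_filter.2 ⟨hw, h1⟩))
    · exact Finset.mem_union_right _ (hW₂ (Finset.mem_filter.2 ⟨hw, h1⟩))
  · have h1 := hw.1
    rw [ver_union, Finset.mem_union] at h1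
    rcases h1 with h1 | h1
    · refine (hβ.kind w ((low_left hd h1).1 hw)).transfer h1 (fun K' hK' => hK'.left hd) ?_
      intro u hu F hF v hv hvu
      have h2 := hv.1
      rw [ver_union, Finset.mem_union] at h2
      simp only [hu, if_true] at hvu
      by_cases hvK : v ∈ ver K
      · simp only [hvK, if_true] at hvu
        exact hF v ((low_left hd hvK).1 hv) hvu
      · have h3 := h2.resolve_left hvK
        simp only [hvK, if_false] at hvu
        have h4 := hγ.mem v h3
        rw [hvu] at h4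
        exact absurd (hβ.mem u hu) (hnK h4)
    · refine (hγ.kind w ((low_right hd h1).1 hw)).transfer h1 (fun K' hK' => hK'.right hd) ?_
      intro u hu F hF v hv hvu
      have h2 := hv.1
      rw [ver_union, Finset.mem_union] at h2
      have huK := hnK hu
      simp only [huK, if_false] at hvu
      by_cases hvK : v ∈ ver K
      · simp only [hvK, if_true] at hvu
        have h4 := hβ.mem v hvK
        rw [hvu] at h4
        exact absurd h4 (hnK (hγ.mem u hu))
      · have h3 := h2.resolve_left hvK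
        simp only [hvK, if_false] at hvu
        exact hF v ((low_right hd h3).1 hv) hvu

theorem blocks_of_no_low {T : Finset (Finset V)} (h : Ext T) (hl : ∀ v, ¬ Low T v) :
    Blocks T id := by
  refine ⟨fun v hv => hv, fun W hW _ => ?_, fun w hw => absurd hw (hl w)⟩
  obtain ⟨S, hS⟩ := h.exists_opt
  exact ⟨S, hS, fun w hw => absurd (hW w hw) (hl w)⟩

theorem blocks_edge {a b c : V} (h : [a, b, c].Nodup) :
    Blocks ({{a, b, c}} : Finset (Finset V)) (fun _ => a) := by
  have hv : ∀ v, v ∈ ver ({{a, b, c}} : Finset (Finset V)) ↔ v = a ∨ v = b ∨ v = c := by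
    intro v
    simp [mem_ver]
  have hx := edge_ext h
  refine ⟨fun v _ => (hv a).2 (Or.inl rfl), fun W hW hinj => ?_, fun w hw => ?_⟩
  · rcases W.eq_empty_or_nonempty with rfl | ⟨w, hw⟩
    · obtain ⟨S, hS⟩ := hx.exists_opt
      exact ⟨S, hS, Finset.empty_subset _⟩
    · obtain ⟨S, hS, hwS⟩ := hx.opt_mem (hW w hw).1
      exact ⟨S, hS, fun v hv' => hinj w hw v hv' rfl ▸ hwS⟩
  · have hfib : ∀ u, Fib ({{a, b, c}} : Finset (Finset V)) (fun _ => a) u {a, b, c} := by
      intro u v hv' _
      have := (hv v).1 hv'.1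
      simp only [Finset.mem_insert, Finset.mem_singleton]
      exact this
    rcases (hv w).1 hw.1 with rfl | rfl | rfl
    · exact Kind.edge h (Closed.refl _) (hfib _)
    · have e1 : ({w, a, c} : Finset V) = {a, w, c} := Finset.insert_comm _ _ _
      refine Kind.edge (b := a) (c := c) ?_ ?_ ?_
      · simp only [List.nodup_cons, List.mem_cons, List.not_mem_nil] at h ⊢
        grind
      · rw [e1]
        exact Closed.refl _
      · rw [e1]
        exact hfib _
    · have e1 : ({w, a, b} : Finset V) = {a, b, w} := by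
        ext v
        simp only [Finset.mem_insert, Finset.mem_singleton]
        tauto
      refine Kind.edge (b := a) (c := b) ?_ ?_ ?_
      · simp only [List.nodup_cons, List.mem_cons, List.not_mem_nil] at h ⊢
        grind
      · rw [e1]
        exact Closed.refl _
      · rw [e1]
        exact hfib _

theorem blocks_chain {K : Finset (Finset V)} {a b c p q : V} (h : Chain K a b c p q) :
    Blocks K (fun v => if v = p ∨ v = q then p else a) := by
  have hn := h.nodup
  simp only [List.nodup_cons, List.mem_cons, List.not_mem_nil] at hn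
  obtain ⟨ha, hb, hc, hp, hq⟩ := h.mem_ver
  have hβ : ∀ v, v = a ∨ v = b ∨ v = c → ¬ (v = p ∨ v = q) := by grind
  refine ⟨fun v _ => ?_, fun W hW hinj => ?_, fun w hw => ?_⟩
  · split_ifs
    · exact hp
    · exact ha
  · obtain ⟨z, hz, hzW⟩ := pick hinj {p, q} ⟨p, by simp⟩ (by
      intro u hu v hv
      simp only [Finset.mem_insert, Finset.mem_singleton] at hu hv
      simp only [hu, hv, if_true])
    obtain ⟨w, hw, hwW⟩ := pick hinj {a, b, c} ⟨a, by simp⟩ (by
      intro u hu v hv
      simp only [Finset.mem_insert, Finset.mem_singleton] at hu hv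
      simp only [hβ u hu, hβ v hv, if_false])
    simp only [Finset.mem_insert, Finset.mem_singleton] at hz hw hzW hwW
    obtain ⟨S, hS, hzS, hwS⟩ := h.opt hz hw
    refine ⟨S, hS, fun v hv => ?_⟩
    have h1 := h.low (hW v hv)
    by_cases hpq : v = p ∨ v = q
    · rw [hzW v hv hpq]
      exact hzS
    · rw [hwW v hv (by tauto)]
      exact hwS
  · have hfp : ∀ u, u = p ∨ u = q → Fib K (fun v => if v = p ∨ v = q then p else a) u {p, q} := by
      intro u hu v hv hvu
      simp only [hu, if_true] at hvu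
      simp only [Finset.mem_insert, Finset.mem_singleton]
      by_contra hcon
      simp only [hcon, if_false] at hvu
      exact hβ a (Or.inl rfl) (Or.inl hvu)
    by_cases hpq : w = p ∨ w = q
    · rcases hpq with rfl | rfl
      · exact Kind.tail h (Closed.refl _) (hfp _ (Or.inl rfl))
      · refine Kind.tail h.swapPQ (Closed.refl _) ?_
        rw [Finset.pair_comm]
        exact hfp _ (Or.inr rfl)
    · have h1 := h.low hw
      refine Kind.centre h (Closed.refl _) (by tauto) ?_ (hfp _ (Or.inl rfl)) (hfp _ (Or.inr rfl))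
      intro v hv hvu
      simp only [hpq, if_false] at hvu
      have h2 := h.low hv
      simp only [Finset.mem_insert, Finset.mem_singleton]
      by_contra hcon
      have h3 : v = p ∨ v = q := by tauto
      simp only [h3, if_true] at hvu
      exact hβ a (Or.inl rfl) (Or.inl hvu.symm)

theorem blocks_double {K₁ K₂ : Finset (Finset V)} {a b c p q p' q' : V} (h₁ : Chain K₁ a b c p q)
    (h₂ : Chain K₂ c b a p' q') (h : ver K₁ ∩ ver K₂ ⊆ {a, b, c}) :
    Blocks (K₁ ∪ K₂) (fun v => if v = p ∨ v = q then p else if v = p' ∨ v = q' then p' else a) := by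
  have hn := double_nodup h₁ h₂ h
  simp only [List.nodup_cons, List.mem_cons, List.not_mem_nil] at hn
  obtain ⟨ha, hb, hc, hp, hq⟩ := h₁.mem_ver
  obtain ⟨-, -, -, hp', hq'⟩ := h₂.mem_ver
  have h' : ver K₂ ∩ ver K₁ ⊆ {c, b, a} := by
    rw [Finset.inter_comm]
    refine h.trans ?_
    intro v
    simp only [Finset.mem_insert, Finset.mem_singleton]
    tauto
  have hac : ∀ v, v = a ∨ v = c → ¬ (v = p ∨ v = q) ∧ ¬ (v = p' ∨ v = q') := by grind
  have hpp : ∀ v, v = p' ∨ v = q' → ¬ (v = p ∨ v = q) := by grind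
  have hpp' : p ≠ p' := by grind
  refine ⟨fun v _ => ?_, fun W hW hinj => ?_, fun w hw => ?_⟩
  · rw [ver_union, Finset.mem_union]
    split_ifs
    · exact Or.inl hp
    · exact Or.inr hp'
    · exact Or.inl ha
  · obtain ⟨z, hz, hzW⟩ := pick hinj {p, q} ⟨p, by simp⟩ (by
      intro u hu v hv
      simp only [Finset.mem_insert, Finset.mem_singleton] at hu hv
      simp only [hu, hv, if_true])
    obtain ⟨z', hz', hzW'⟩ := pick hinj {p', q'} ⟨p', by simp⟩ (by
      intro u hu v hv
      simp only [Finset.mem_insert, Finset.mem_singleton] at hu hv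
      simp only [hu, hv, if_true, hpp u hu, hpp v hv, if_false])
    obtain ⟨w, hw, hwW⟩ := pick hinj {a, c} ⟨a, by simp⟩ (by
      intro u hu v hv
      simp only [Finset.mem_insert, Finset.mem_singleton] at hu hv
      simp only [hac u hu, hac v hv, if_false])
    simp only [Finset.mem_insert, Finset.mem_singleton] at hz hw hzW hwW hz' hzW'
    obtain ⟨S, hS, hzS, hzS', hwS⟩ := double_opt h₁ h₂ h hz hz' (w := w) (by tauto)
    refine ⟨S, hS, fun v hv => ?_⟩
    have h1 := double_low h₁ h₂ h (hW v hv)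
    by_cases hpq : v = p ∨ v = q
    · rw [hzW v hv hpq]
      exact hzS
    · by_cases hpq' : v = p' ∨ v = q'
      · rw [hzW' v hv hpq']
        exact hzS'
      · rw [hwW v hv (by tauto)]
        exact hwS
  · have hfp : ∀ u, u = p ∨ u = q → Fib (K₁ ∪ K₂)
        (fun v => if v = p ∨ v = q then p else if v = p' ∨ v = q' then p' else a) u {p, q} := by
      intro u hu v hv hvu
      simp only [hu, if_true] at hvu
      simp only [Finset.mem_insert, Finset.mem_singleton]
      by_contra hcon
      simp only [hcon, if_false] at hvu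
      split_ifs at hvu
      · exact hpp' hvu.symm
      · exact (hac a (Or.inl rfl)).1 (Or.inl hvu)
    have hfp' : ∀ u, u = p' ∨ u = q' → Fib (K₁ ∪ K₂)
        (fun v => if v = p ∨ v = q then p else if v = p' ∨ v = q' then p' else a) u {p', q'} := by
      intro u hu v hv hvu
      simp only [hpp u hu, hu, if_false, if_true] at hvu
      simp only [Finset.mem_insert, Finset.mem_singleton]
      by_contra hcon
      simp only [hcon, if_false] at hvu
      split_ifs at hvu
      · exact hpp' hvu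
      · exact (hac a (Or.inl rfl)).2 (Or.inl hvu)
    have hfa : ∀ u, u = a ∨ u = c → Fib (K₁ ∪ K₂)
        (fun v => if v = p ∨ v = q then p else if v = p' ∨ v = q' then p' else a) u {a, c} := by
      intro u hu v hv hvu
      simp only [hac u hu, if_false] at hvu
      have h2 := double_low h₁ h₂ h hv
      simp only [Finset.mem_insert, Finset.mem_singleton]
      by_cases hpq : v = p ∨ v = q
      · simp only [hpq, if_true] at hvu
        exact absurd (Or.inl hvu.symm) (hac a (Or.inl rfl)).1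
      · by_cases hpq' : v = p' ∨ v = q'
        · simp only [hpq, hpq', if_true, if_false] at hvu
          exact absurd (Or.inl hvu.symm) (hac a (Or.inl rfl)).2
        · tauto
    have hcl : Closed (K₁ ∪ K₂) (K₂ ∪ K₁) := by
      rw [Finset.union_comm]
      exact Closed.refl _
    rcases double_low h₁ h₂ h hw with rfl | rfl | rfl | rfl | rfl | rfl
    · exact Kind.dcentre h₁ h₂ h (Closed.refl _) (hfa _ (Or.inl rfl))
    · refine Kind.dcentre h₂ h₁ h' hcl ?_
      rw [Finset.pair_comm]
      exact hfa _ (Or.inr rfl)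
    · exact Kind.dtail h₁ h₂ h (Closed.refl _) (hfp _ (Or.inl rfl))
    · refine Kind.dtail h₁.swapPQ h₂ h (Closed.refl _) ?_
      rw [Finset.pair_comm]
      exact hfp _ (Or.inr rfl)
    · exact Kind.dtail h₂ h₁ h' hcl (hfp' _ (Or.inl rfl))
    · refine Kind.dtail h₂.swapPQ h₁ h' hcl ?_
      rw [Finset.pair_comm]
      exact hfp' _ (Or.inr rfl)

theorem blocks_seven {x a₁ a₂ a₃ b₁ b₂ b₃ : V} (h : [x, a₁, a₂, a₃, b₁, b₂, b₃].Nodup) :
    Blocks (sevenFam x a₁ a₂ a₃ b₁ b₂ b₃) (fun v => if v = a₁ ∨ v = a₂ ∨ v = a₃ then a₁ else b₁) := by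
  have hn := h
  simp only [List.nodup_cons, List.mem_cons, List.not_mem_nil] at hn
  have hb : ∀ v, v = b₁ ∨ v = b₂ ∨ v = b₃ → ¬ (v = a₁ ∨ v = a₂ ∨ v = a₃) := by grind
  refine ⟨fun v _ => ?_, fun W hW hinj => ?_, fun w hw => ?_⟩
  · rw [seven_ver]
    split_ifs <;> simp
  · obtain ⟨z, hz, hzW⟩ := pick hinj {a₁, a₂, a₃} ⟨a₁, by simp⟩ (by
      intro u hu v hv
      simp only [Finset.mem_insert, Finset.mem_singleton] at hu hv
      simp only [hu, hv, if_true])
    obtain ⟨w, hw, hwW⟩ := pick hinj {b₁, b₂, b₃} ⟨b₁, by simp⟩ (by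
      intro u hu v hv
      simp only [Finset.mem_insert, Finset.mem_singleton] at hu hv
      simp only [hb u hu, hb v hv, if_false])
    simp only [Finset.mem_insert, Finset.mem_singleton] at hz hw hzW hwW
    refine ⟨_, seven_opt_x h hz hw, fun v hv => ?_⟩
    simp only [Finset.mem_insert, Finset.mem_singleton]
    rcases seven_low h (hW v hv) with h1 | h1
    · exact Or.inr (Or.inl (hzW v hv h1))
    · exact Or.inr (Or.inr (hwW v hv h1))
  · have hfa : ∀ u, u = a₁ ∨ u = a₂ ∨ u = a₃ → Fib (sevenFam x a₁ a₂ a₃ b₁ b₂ b₃)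
        (fun v => if v = a₁ ∨ v = a₂ ∨ v = a₃ then a₁ else b₁) u {a₁, a₂, a₃} := by
      intro u hu v hv hvu
      simp only [hu, if_true] at hvu
      simp only [Finset.mem_insert, Finset.mem_singleton]
      by_contra hcon
      simp only [hcon, if_false] at hvu
      exact hb b₁ (Or.inl rfl) (Or.inl hvu)
    have hfb : ∀ u, u = b₁ ∨ u = b₂ ∨ u = b₃ → Fib (sevenFam x a₁ a₂ a₃ b₁ b₂ b₃)
        (fun v => if v = a₁ ∨ v = a₂ ∨ v = a₃ then a₁ else b₁) u {b₁, b₂, b₃} := by
      intro u hu v hv hvu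
      simp only [hb u hu, if_false] at hvu
      simp only [Finset.mem_insert, Finset.mem_singleton]
      rcases seven_low h hv with h1 | h1
      · simp only [h1, if_true] at hvu
        exact absurd (Or.inl hvu.symm) (hb b₁ (Or.inl rfl))
      · exact h1
    have key : ∀ (a₁ a₂ a₃ b₁ b₂ b₃ : V) (T : Finset (Finset V)) (β : V → V),
        [x, a₁, a₂, a₃, b₁, b₂, b₃].Nodup → T = sevenFam x a₁ a₂ a₃ b₁ b₂ b₃ →
        (∀ u, u = a₁ ∨ u = a₂ ∨ u = a₃ → Fib T β u {a₁, a₂, a₃}) →
        (∀ u, u = b₁ ∨ u = b₂ ∨ u = b₃ → Fib T β u {b₁, b₂, b₃}) →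
        ∀ w, w = a₁ ∨ w = a₂ ∨ w = a₃ → Kind T β w := by
      intro a₁ a₂ a₃ b₁ b₂ b₃ T β h hT hfa hfb w hw
      have hn := h
      simp only [List.nodup_cons, List.mem_cons, List.not_mem_nil] at hn
      rcases hw with rfl | rfl | rfl
      · refine Kind.seven (x := x) h ?_ (hfa _ (by simp)) hfb
        rw [hT]
        exact Closed.refl _
      · have e1 : ({w, a₁, a₃} : Finset V) = {a₁, w, a₃} := Finset.insert_comm _ _ _
        have e2 : ({b₂, b₁, b₃} : Finset V) = {b₁, b₂, b₃} := Finset.insert_comm _ _ _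
        refine Kind.seven (x := x) (a₂ := a₁) (a₃ := a₃) (b₁ := b₂) (b₂ := b₁) (b₃ := b₃)
          ?_ ?_ (by rw [e1]; exact hfa _ (by simp))
          (by rw [e2]; exact fun v hv => hfb v (by tauto))
        · simp only [List.nodup_cons, List.mem_cons, List.not_mem_nil]
          grind
        · rw [hT, seven_perm₁]
          exact Closed.refl _
      · have e1 : ({w, a₂, a₁} : Finset V) = {a₁, a₂, w} := by
          ext v
          simp only [Finset.mem_insert, Finset.mem_singleton]
          tauto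
        have e2 : ({b₃, b₂, b₁} : Finset V) = {b₁, b₂, b₃} := by
          ext v
          simp only [Finset.mem_insert, Finset.mem_singleton]
          tauto
        refine Kind.seven (x := x) (a₂ := a₂) (a₃ := a₁) (b₁ := b₃) (b₂ := b₂) (b₃ := b₁)
          ?_ ?_ (by rw [e1]; exact hfa _ (by simp))
          (by rw [e2]; exact fun v hv => hfb v (by tauto))
        · simp only [List.nodup_cons, List.mem_cons, List.not_mem_nil]
          grind
        · have e3 : T = sevenFam x w a₂ a₁ b₃ b₂ b₁ := by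
            rw [hT, seven_perm₁, seven_perm₂, seven_perm₁]
          rw [e3]
          exact Closed.refl _
    rcases seven_low h hw with h1 | h1
    · exact key a₁ a₂ a₃ b₁ b₂ b₃ _ _ h rfl hfa hfb w h1
    · refine key b₁ b₂ b₃ a₁ a₂ a₃ _ _ ?_ seven_swap hfb hfa w h1
      simp only [List.nodup_cons, List.mem_cons, List.not_mem_nil]
      grind

theorem Unit3.ext {K : Finset (Finset V)} (h : Unit3 K) : Ext K := by
  cases h with
  | edge h => exact edge_ext h
  | chain h => exact h.ext
  | double h₁ h₂ h => exact double_ext h₁ h₂ h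
  | four h => exact four_ext h
  | cycle h hx => exact cycle_ext h hx
  | seven h => exact seven_ext h
  | eight h => exact eight_ext h

theorem Unit3.blocks {K : Finset (Finset V)} (h : Unit3 K) : ∃ β, Blocks K β := by
  cases h with
  | edge h => exact ⟨_, blocks_edge h⟩
  | chain h => exact ⟨_, blocks_chain h⟩
  | double h₁ h₂ h => exact ⟨_, blocks_double h₁ h₂ h⟩
  | four h => exact ⟨_, blocks_of_no_low (four_ext h) (four_low h)⟩
  | cycle h hx => exact ⟨_, blocks_of_no_low (cycle_ext h hx) (cycle_low h hx)⟩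
  | seven h => exact ⟨_, blocks_seven h⟩
  | eight h => exact ⟨_, blocks_of_no_low (eight_ext h) (eight_low h)⟩

theorem Good.ext {T : Finset (Finset V)} (h : Good T) : Ext T := by
  induction h with
  | empty => exact ⟨fun e he => absurd he (Finset.notMem_empty e), fun S _ => by simp [ver]⟩
  | add hK hT hd ih => exact hK.ext.union ih hd

theorem Good.blocks {T : Finset (Finset V)} (h : Good T) : ∃ β, Blocks T β := by
  induction h with
  | empty =>
    refine ⟨id, fun v hv => hv, fun W hW _ => ⟨∅, ⟨fun e he => absurd he (Finset.notMem_empty e),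
      by simp⟩, fun w hw => ?_⟩, fun w hw => ?_⟩
    · have := (hW w hw).1
      simp [ver] at this
    · have := hw.1
      simp [ver] at this
  | add hK hT hd ih =>
    obtain ⟨β, hβ⟩ := hK.blocks
    obtain ⟨γ, hγ⟩ := ih
    exact ⟨_, hβ.union hγ hK.ext.1 hd⟩

end Pool.Agent.MP284513
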