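import Pool.Agent.Lib.MP_284513_co.Reg

/-!
# The bound `4 τ ≤ n + m` for 3-uniform hypergraphs (Chvátal - McDiarmid, Tuza), and extremal
hypergraphs
-/

namespace Pool.Agent.MP284513

variable {V : Type} [DecidableEq V]

/-- The family obtained by deleting the vertex `x` and all the members which contain it. -/
def del (T : Finset (Finset V)) (x : V) : Finset (Finset V) := T.filter fun e => x ∉ e

theorem mem_del {T : Finset (Finset V)} {x : V} {e : Finset V} :
    e ∈ del T x ↔ e ∈ T ∧ x ∉ e := by
  simp [del]

theorem del_subset (T : Finset (Finset V)) (x : V) : del T x ⊆ T := Finset.filter_subset _ _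

theorem card_star_add_del (T : Finset (Finset V)) (x : V) :
    (star T x).card + (del T x).card = T.card := Finset.card_filter_add_card_filter_not _

theorem notMem_ver_del (T : Finset (Finset V)) (x : V) : x ∉ ver (del T x) := by
  rw [mem_ver]
  rintro ⟨e, he, hx⟩
  exact (mem_del.1 he).2 hx

theorem Trans.insert {T : Finset (Finset V)} {x : V} {S : Finset V} (h : Trans (del T x) S) :
    Trans T (insert x S) := by
  intro e he
  by_cases hx : x ∈ e
  · exact ⟨x, Finset.mem_insert_self _ _, hx⟩
  · obtain ⟨y, hy, hye⟩ := h e (mem_del.2 ⟨he, hx⟩)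
    exact ⟨y, Finset.mem_insert_of_mem hy, hye⟩

theorem card_star_pos {T : Finset (Finset V)} {x : V} (hx : x ∈ ver T) : 0 < (star T x).card := by
  obtain ⟨e, he, hxe⟩ := mem_ver.1 hx
  exact Finset.card_pos.2 ⟨e, mem_star.2 ⟨he, hxe⟩⟩

/-- if some vertex has `drop ≤ 3` everywhere then the family is regular of degree two and
linear -/
theorem reg2_of_drop {T : Finset (Finset V)} (h3 : ∀ e ∈ T, e.card = 3)
    (hd : ∀ x ∈ ver T, (star T x).card + (ver T).card ≤ 3 + (ver (del T x)).card) : Reg2 T := by
  -- if `D` vanishes with `x`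
  have hD : ∀ x ∈ ver T, ∀ D ⊆ ver T, (∀ y ∈ D, y ∉ ver (del T x)) →
      (star T x).card + D.card ≤ 3 := by
    intro x hx D hD hd'
    have h1 := card_ver_add D (del_subset T x) hD hd'
    have h2 := hd x hx
    omega
  have hle : ∀ x ∈ ver T, (star T x).card ≤ 2 := by
    intro x hx
    have h1 := hD x hx {x} (by simpa using hx) (by
      intro y hy
      rw [Finset.mem_singleton] at hy
      rw [hy]
      exact notMem_ver_del T x)
    rw [Finset.card_singleton] at h1
    omega
  have hlin : ∀ e ∈ T, ∀ f ∈ T, e ≠ f → ∀ x ∈ e, ∀ y ∈ e, x ∈ f → y ∈ f → x = y := by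
    intro e he f hf hef x hx y hy hxf hyf
    by_contra hxy
    have hsub : ∀ z, z ∈ e → z ∈ f → star T z = {e, f} := by
      intro z hz hz'
      have h1 := hle z (mem_ver.2 ⟨e, he, hz⟩)
      have h2 : ({e, f} : Finset (Finset V)) ⊆ star T z := by
        intro g hg
        rw [Finset.mem_insert, Finset.mem_singleton] at hg
        rcases hg with rfl | rfl
        · exact mem_star.2 ⟨he, hz⟩
        · exact mem_star.2 ⟨hf, hz'⟩
      exact (Finset.eq_of_subset_of_card_le h2 (by rw [Finset.card_pair hef]; exact h1)).symm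
    have hxv : x ∈ ver T := mem_ver.2 ⟨e, he, hx⟩
    have hyv : y ∈ ver T := mem_ver.2 ⟨e, he, hy⟩
    have h1 := hD x hxv {x, y} (by
      intro z hz
      rw [Finset.mem_insert, Finset.mem_singleton] at hz
      rcases hz with rfl | rfl <;> assumption) (by
      intro z hz
      rw [Finset.mem_insert, Finset.mem_singleton] at hz
      rw [mem_ver]
      rintro ⟨g, hg, hzg⟩
      obtain ⟨hgT, hxg⟩ := mem_del.1 hg
      apply hxg
      have h2 : g ∈ star T z := mem_star.2 ⟨hgT, hzg⟩
      have h3 : g ∈ ({e, f} : Finset (Finset V)) := by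
        rcases hz with rfl | rfl
        · rw [← hsub _ hx hxf]; exact h2
        · rw [← hsub _ hy hyf]; exact h2
      rw [Finset.mem_insert, Finset.mem_singleton] at h3
      rcases h3 with rfl | rfl <;> assumption)
    rw [hsub x hx hxf, Finset.card_pair hef, Finset.card_pair hxy] at h1
    omega
  refine ⟨h3, ?_, hlin⟩
  intro x hx
  have h1 := hle x hx
  have h2 := card_star_pos hx
  by_contra hne
  have hone : (star T x).card = 1 := by omega
  obtain ⟨e, hse⟩ := Finset.card_eq_one.1 hone
  have hes : e ∈ star T x := by rw [hse]; simp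
  obtain ⟨he, hxe⟩ := mem_star.1 hes
  have hxall : ∀ g ∈ T, x ∈ g → g = e := by
    intro g hg hxg
    have : g ∈ star T x := mem_star.2 ⟨hg, hxg⟩
    rw [hse, Finset.mem_singleton] at this
    exact this
  by_cases hall : ∀ y ∈ e, (star T y).card = 1
  · -- an isolated edge
    have h4 := hD x hx e (fun y hy => mem_ver.2 ⟨e, he, hy⟩) (by
      intro y hy
      rw [mem_ver]
      rintro ⟨g, hg, hyg⟩
      obtain ⟨hgT, hxg⟩ := mem_del.1 hg
      obtain ⟨e', he'⟩ := Finset.card_eq_one.1 (hall y hy)
      have h5 : g ∈ star T y := mem_star.2 ⟨hgT, hyg⟩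
      have h6 : e ∈ star T y := mem_star.2 ⟨he, hy⟩
      rw [he', Finset.mem_singleton] at h5 h6
      rw [h5, ← h6] at hxg
      exact hxg hxe)
    rw [hone, h3 e he] at h4
    omega
  · push Not at hall
    obtain ⟨y, hy, hy1⟩ := hall
    have hyv : y ∈ ver T := mem_ver.2 ⟨e, he, hy⟩
    have h4 := card_star_pos hyv
    have h5 := hle y hyv
    have hy2 : (star T y).card = 2 := by omega
    have hxy : x ≠ y := by
      rintro rfl
      omega
    have h6 := hD y hyv {x, y} (by
      intro z hz
      rw [Finset.mem_insert, Finset.mem_singleton] at hz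
      rcases hz with rfl | rfl <;> assumption) (by
      intro z hz
      rw [Finset.mem_insert, Finset.mem_singleton] at hz
      rw [mem_ver]
      rintro ⟨g, hg, hzg⟩
      obtain ⟨hgT, hyg⟩ := mem_del.1 hg
      rcases hz with rfl | rfl
      · exact hyg ((hxall g hgT hzg) ▸ hy)
      · exact hyg hzg)
    rw [hy2, Finset.card_pair hxy] at h6
    omega

/-- `4 τ ≤ n + m` -/
theorem cm (T : Finset (Finset V)) (h3 : ∀ e ∈ T, e.card = 3) :
    ∃ S, Trans T S ∧ 4 * S.card ≤ (ver T).card + T.card := by
  induction hm : T.card using Nat.strong_induction_on generalizing T with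
  | _ m ih =>
    subst hm
    by_cases hd : ∀ x ∈ ver T, (star T x).card + (ver T).card ≤ 3 + (ver (del T x)).card
    · rcases T.eq_empty_or_nonempty with rfl | hne
      · exact ⟨∅, fun e he => absurd he (Finset.notMem_empty e), by simp⟩
      · obtain ⟨S, hS, hc⟩ := (reg2_of_drop h3 hd).small hne
        exact ⟨S, hS, hc.le⟩
    · push Not at hd
      obtain ⟨x, hx, hdx⟩ := hd
      have h1 := card_star_add_del T x
      have h2 := card_star_pos hx
      obtain ⟨S, hS, hc⟩ := ih (del T x).card (by omega) (del T x)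
        (fun e he => h3 e (del_subset T x he)) rfl
      refine ⟨insert x S, hS.insert, ?_⟩
      have h4 := Finset.card_insert_le x S
      omega

/-- `T` is 3-uniform, and no transversal has less than `(n + m) / 4` elements. -/
def Ext (T : Finset (Finset V)) : Prop :=
  (∀ e ∈ T, e.card = 3) ∧ ∀ S, Trans T S → (ver T).card + T.card ≤ 4 * S.card

theorem Ext.drop_le {T : Finset (Finset V)} (h : Ext T) (x : V) :
    (star T x).card + (ver T).card ≤ 4 + (ver (del T x)).card := by
  obtain ⟨S, hS, hc⟩ := cm (del T x) fun e he => h.1 e (del_subset T x he)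
  have h1 := h.2 _ hS.insert
  have h2 := Finset.card_insert_le x S
  have h3 := card_star_add_del T x
  omega

theorem Ext.delete {T : Finset (Finset V)} (h : Ext T) {x : V}
    (hx : 4 + (ver (del T x)).card ≤ (star T x).card + (ver T).card) : Ext (del T x) := by
  refine ⟨fun e he => h.1 e (del_subset T x he), fun S hS => ?_⟩
  have h1 := h.2 _ hS.insert
  have h2 := Finset.card_insert_le x S
  have h3 := card_star_add_del T x
  omega

/-- a nonempty extremal hypergraph has a vertex with `drop = 4` -/
theorem Ext.exists_drop {T : Finset (Finset V)} (h : Ext T) (hne : T.Nonempty) :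
    ∃ x ∈ ver T, (star T x).card + (ver T).card = 4 + (ver (del T x)).card := by
  by_contra hcon
  push Not at hcon
  have h1 : ∀ x ∈ ver T, (star T x).card + (ver T).card ≤ 3 + (ver (del T x)).card := by
    intro x hx
    have h2 := h.drop_le x
    have h3 := hcon x hx
    omega
  obtain ⟨S, hS, hc⟩ := (reg2_of_drop h.1 h1).small hne
  have h2 := h.2 S hS
  omega

end Pool.Agent.MP284513
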