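import Pool.Agent.Lib.MP_284513_co.Units

/-!
# Chains
-/

set_option linter.unusedSectionVars false

namespace Pool.Agent.MP284513

variable {V : Type} [DecidableEq V] {K : Finset (Finset V)} {a b c p q : V}

private theorem cg_ver {K : Finset (Finset V)} {p q r s : V} (hp : p ∈ ver K) (hq : q ∈ ver K) :
    ver (K ∪ {{r, s, p}, {r, s, q}}) = insert r (insert s (ver K)) := by
  ext v
  rw [ver_union, Finset.mem_union, mem_ver (T := ({{r, s, p}, {r, s, q}} : Finset (Finset V))),
    Finset.mem_insert, Finset.mem_insert]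
  constructor
  · rintro (h | ⟨e, he, hv⟩)
    · exact Or.inr (Or.inr h)
    · rw [Finset.mem_insert, Finset.mem_singleton] at he
      rcases he with rfl | rfl
      · rw [Finset.mem_insert, Finset.mem_insert, Finset.mem_singleton] at hv
        rcases hv with rfl | rfl | rfl
        · exact Or.inl rfl
        · exact Or.inr (Or.inl rfl)
        · exact Or.inr (Or.inr hp)
      · rw [Finset.mem_insert, Finset.mem_insert, Finset.mem_singleton] at hv
        rcases hv with rfl | rfl | rfl
        · exact Or.inl rfl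
        · exact Or.inr (Or.inl rfl)
        · exact Or.inr (Or.inr hq)
  · rintro (rfl | rfl | h)
    · exact Or.inr ⟨{v, s, p}, by simp, by simp⟩
    · exact Or.inr ⟨{r, v, p}, by simp, by simp⟩
    · exact Or.inl h

private theorem cg_notMem {K : Finset (Finset V)} {x y r : V} (hr : r ∉ ver K) :
    ({r, x, y} : Finset V) ∉ K := fun h => hr (mem_ver.2 ⟨_, h, by simp⟩)

private theorem cg_ne {p q r s : V} (hpq : p ≠ q) (hpr : p ≠ r) (hps : p ≠ s) :
    ({r, s, p} : Finset V) ≠ {r, s, q} := by
  intro h
  have h1 : p ∈ ({r, s, q} : Finset V) := by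
    rw [← h]
    simp
  rw [Finset.mem_insert, Finset.mem_insert, Finset.mem_singleton] at h1
  rcases h1 with h1 | h1 | h1
  · exact hpr h1
  · exact hps h1
  · exact hpq h1

private theorem cg_mem (h : Chain K a b c p q) :
    a ∈ ver K ∧ b ∈ ver K ∧ c ∈ ver K ∧ p ∈ ver K ∧ q ∈ ver K := by
  induction h with
  | @base a b c p q h =>
    refine ⟨mem_ver.2 ⟨{a, b, c}, by simp, by simp⟩, mem_ver.2 ⟨{a, b, c}, by simp, by simp⟩,
      mem_ver.2 ⟨{a, b, c}, by simp, by simp⟩, mem_ver.2 ⟨{p, q, a}, by simp, by simp⟩,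
      mem_ver.2 ⟨{p, q, a}, by simp, by simp⟩⟩
  | @grow K a b c p q r s h hr hs hrs ih =>
    obtain ⟨h1, h2, h3, h4, h5⟩ := ih
    rw [cg_ver h4 h5]
    simp only [Finset.mem_insert]
    tauto

private theorem cg_nd (h : [a, b, c, p, q].Nodup) :
    a ≠ b ∧ a ≠ c ∧ a ≠ p ∧ a ≠ q ∧ b ≠ c ∧ b ≠ p ∧ b ≠ q ∧ c ≠ p ∧ c ≠ q ∧ p ≠ q := by
  simp only [List.nodup_cons, List.mem_cons, List.not_mem_nil, or_false, not_or,
    List.nodup_nil, and_true, not_false_eq_true] at h
  tauto

private theorem cg_nd' (h : a ≠ b ∧ a ≠ c ∧ a ≠ p ∧ a ≠ q ∧ b ≠ c ∧ b ≠ p ∧ b ≠ q ∧ c ≠ p ∧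
    c ≠ q ∧ p ≠ q) : [a, b, c, p, q].Nodup := by
  simp only [List.nodup_cons, List.mem_cons, List.not_mem_nil, or_false, not_or,
    List.nodup_nil, and_true, not_false_eq_true]
  tauto

/-- Induction; in the step `r ≠ s` are not in `ver K`, which contains `a, b, c`. -/
theorem Chain.nodup (h : Chain K a b c p q) : [a, b, c, p, q].Nodup := by
  induction h with
  | base h => exact h
  | @grow K a b c p q r s h hr hs hrs ih =>
    obtain ⟨h1, h2, h3, h4, h5⟩ := cg_mem h
    obtain ⟨g1, g2, -, -, g5, -⟩ := cg_nd ih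
    refine cg_nd' ⟨g1, g2, ?_, ?_, g5, ?_, ?_, ?_, ?_, hrs⟩
    · rintro rfl
      exact hr h1
    · rintro rfl
      exact hs h1
    · rintro rfl
      exact hr h2
    · rintro rfl
      exact hs h2
    · rintro rfl
      exact hr h3
    · rintro rfl
      exact hs h3

theorem Chain.mem_ver (h : Chain K a b c p q) :
    a ∈ ver K ∧ b ∈ ver K ∧ c ∈ ver K ∧ p ∈ ver K ∧ q ∈ ver K := cg_mem h

theorem Chain.mem_first (h : Chain K a b c p q) : ({a, b, c} : Finset V) ∈ K := by
  induction h with
  | base h => simp
  | grow h hr hs hrs ih => exact Finset.mem_union_left _ ih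

theorem Chain.three (h : Chain K a b c p q) : ∀ e ∈ K, e.card = 3 := by
  induction h with
  | @base a b c p q h =>
    obtain ⟨g1, g2, g3, g4, g5, g6, g7, g8, g9, g10⟩ := cg_nd h
    intro e he
    rw [Finset.mem_insert, Finset.mem_insert, Finset.mem_singleton] at he
    rcases he with rfl | rfl | rfl
    · exact Finset.card_eq_three.2 ⟨a, b, c, g1, g2, g5, rfl⟩
    · exact Finset.card_eq_three.2 ⟨p, q, a, g10, g3.symm, g4.symm, rfl⟩
    · exact Finset.card_eq_three.2 ⟨p, q, b, g10, g6.symm, g7.symm, rfl⟩
  | @grow K a b c p q r s h hr hs hrs ih =>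
    obtain ⟨h1, h2, h3, h4, h5⟩ := cg_mem h
    intro e he
    rw [Finset.mem_union, Finset.mem_insert, Finset.mem_singleton] at he
    rcases he with he | rfl | rfl
    · exact ih e he
    · refine Finset.card_eq_three.2 ⟨r, s, p, hrs, ?_, ?_, rfl⟩
      · rintro rfl
        exact hr h4
      · rintro rfl
        exact hs h4
    · refine Finset.card_eq_three.2 ⟨r, s, q, hrs, ?_, ?_, rfl⟩
      · rintro rfl
        exact hr h5
      · rintro rfl
        exact hs h5

theorem Chain.swapAB (h : Chain K a b c p q) : Chain K b a c p q := by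
  induction h with
  | @base a b c p q h =>
    have e : ({{a, b, c}, {p, q, a}, {p, q, b}} : Finset (Finset V)) =
        {{b, a, c}, {p, q, b}, {p, q, a}} := by
      rw [Finset.insert_comm a b, Finset.pair_comm ({p, q, a} : Finset V) {p, q, b}]
    rw [e]
    refine Chain.base (cg_nd' ?_)
    obtain ⟨g1, g2, g3, g4, g5, g6, g7, g8, g9, g10⟩ := cg_nd h
    exact ⟨g1.symm, g5, g6, g7, g2, g3, g4, g8, g9, g10⟩
  | grow h hr hs hrs ih => exact Chain.grow ih hr hs hrs

theorem Chain.swapPQ (h : Chain K a b c p q) : Chain K a b c q p := by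
  cases h with
  | base h =>
    have e : ({{a, b, c}, {p, q, a}, {p, q, b}} : Finset (Finset V)) =
        {{a, b, c}, {q, p, a}, {q, p, b}} := by
      rw [Finset.insert_comm p q {a}, Finset.insert_comm p q {b}]
    rw [e]
    refine Chain.base (cg_nd' ?_)
    obtain ⟨g1, g2, g3, g4, g5, g6, g7, g8, g9, g10⟩ := cg_nd h
    exact ⟨g1, g2, g4, g3, g5, g7, g6, g9, g8, g10.symm⟩
  | @grow K _ _ _ p' q' _ _ h hr hs hrs =>
    have e : ({{p, q, p'}, {p, q, q'}} : Finset (Finset V)) = {{q, p, p'}, {q, p, q'}} := by
      rw [Finset.insert_comm p q {p'}, Finset.insert_comm p q {q'}]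
    rw [e]
    exact Chain.grow h hs hr hrs.symm

/-- the two ends are twins -/
theorem Chain.twin (h : Chain K a b c p q) : ∀ e ∈ K, p ∈ e ↔ q ∈ e := by
  cases h with
  | base h =>
    obtain ⟨g1, g2, g3, g4, g5, g6, g7, g8, g9, g10⟩ := cg_nd h
    intro e he
    rw [Finset.mem_insert, Finset.mem_insert, Finset.mem_singleton] at he
    rcases he with rfl | rfl | rfl
    · simp only [Finset.mem_insert, Finset.mem_singleton]
      constructor
      · rintro (h | h | h)
        · exact absurd h.symm g3
        · exact absurd h.symm g6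
        · exact absurd h.symm g8
      · rintro (h | h | h)
        · exact absurd h.symm g4
        · exact absurd h.symm g7
        · exact absurd h.symm g9
    · simp
    · simp
  | @grow K _ _ _ p' q' _ _ h hr hs hrs =>
    intro e he
    rw [Finset.mem_union, Finset.mem_insert, Finset.mem_singleton] at he
    rcases he with he | rfl | rfl
    · constructor
      · intro h'
        exact absurd (Pool.Agent.MP284513.mem_ver.2 ⟨e, he, h'⟩) hr
      · intro h'
        exact absurd (Pool.Agent.MP284513.mem_ver.2 ⟨e, he, h'⟩) hs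
    · simp
    · simp

theorem Chain.star_p (h : Chain K a b c p q) : (star K p).card = 2 := by
  cases h with
  | base h =>
    obtain ⟨g1, g2, g3, g4, g5, g6, g7, g8, g9, g10⟩ := cg_nd h
    have e : star ({{a, b, c}, {p, q, a}, {p, q, b}} : Finset (Finset V)) p =
        {{p, q, a}, {p, q, b}} := by
      rw [star, Finset.filter_insert, if_neg, Finset.filter_true_of_mem]
      · intro x hx
        rw [Finset.mem_insert, Finset.mem_singleton] at hx
        rcases hx with rfl | rfl <;> simp
      · simp only [Finset.mem_insert, Finset.mem_singleton]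
        rintro (h | h | h)
        · exact g3 h.symm
        · exact g6 h.symm
        · exact g8 h.symm
    rw [e, Finset.card_pair (cg_ne g1 g3 g4)]
  | @grow K _ _ _ p' q' _ _ h hr hs hrs =>
    obtain ⟨h1, h2, h3, h4, h5⟩ := cg_mem h
    obtain ⟨g1, g2, g3, g4, g5, g6, g7, g8, g9, g10⟩ := cg_nd h.nodup
    have e : star ({{p, q, p'}, {p, q, q'}} : Finset (Finset V)) p =
        {{p, q, p'}, {p, q, q'}} := by
      rw [star, Finset.filter_true_of_mem]
      intro x hx
      rw [Finset.mem_insert, Finset.mem_singleton] at hx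
      rcases hx with rfl | rfl <;> simp
    rw [star_union, star_eq_empty hr, Finset.empty_union, e, Finset.card_pair]
    refine cg_ne g10 ?_ ?_
    · rintro rfl
      exact hr h4
    · rintro rfl
      exact hs h4

/-- a vertex of the chain which is not one of the two ends is not in the new edges -/
private theorem cg_star {K : Finset (Finset V)} {v p q r s : V} (hvr : v ≠ r) (hvs : v ≠ s)
    (hvp : v ≠ p) (hvq : v ≠ q) : star (K ∪ {{r, s, p}, {r, s, q}}) v = star K v := by
  rw [star_union]
  have e : star ({{r, s, p}, {r, s, q}} : Finset (Finset V)) v = ∅ := by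
    rw [Finset.eq_empty_iff_forall_notMem]
    intro x hx
    obtain ⟨hx, hv⟩ := mem_star.1 hx
    rw [Finset.mem_insert, Finset.mem_singleton] at hx
    rcases hx with rfl | rfl
    · rw [Finset.mem_insert, Finset.mem_insert, Finset.mem_singleton] at hv
      tauto
    · rw [Finset.mem_insert, Finset.mem_insert, Finset.mem_singleton] at hv
      tauto
  rw [e, Finset.union_empty]

theorem Chain.star_a (h : Chain K a b c p q) : (star K a).card = 2 := by
  induction h with
  | @base a b c p q h =>
    obtain ⟨g1, g2, g3, g4, g5, g6, g7, g8, g9, g10⟩ := cg_nd h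
    have e : star ({{a, b, c}, {p, q, a}, {p, q, b}} : Finset (Finset V)) a =
        {{a, b, c}, {p, q, a}} := by
      have h0 : a ∉ ({p, q, b} : Finset V) := by
        simp only [Finset.mem_insert, Finset.mem_singleton]
        tauto
      rw [star, Finset.filter_insert, if_pos (by simp), Finset.filter_insert, if_pos (by simp),
        Finset.filter_singleton, if_neg h0, insert_empty_eq]
    rw [e, Finset.card_pair]
    intro h
    have h1 : b ∈ ({p, q, a} : Finset V) := by
      rw [← h]
      simp
    rw [Finset.mem_insert, Finset.mem_insert, Finset.mem_singleton] at h1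
    rcases h1 with h1 | h1 | h1
    · exact g6 h1
    · exact g7 h1
    · exact g1 h1.symm
  | @grow K a b c p q r s h hr hs hrs ih =>
    obtain ⟨h1, h2, h3, h4, h5⟩ := cg_mem h
    obtain ⟨g1, g2, g3, g4, g5, g6, g7, g8, g9, g10⟩ := cg_nd h.nodup
    rw [cg_star _ _ g3 g4]
    · exact ih
    · rintro rfl
      exact hr h1
    · rintro rfl
      exact hs h1

theorem Chain.of_mem_c (h : Chain K a b c p q) : ∀ e ∈ K, c ∈ e → e = {a, b, c} := by
  induction h with
  | @base a b c p q h =>
    obtain ⟨g1, g2, g3, g4, g5, g6, g7, g8, g9, g10⟩ := cg_nd h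
    intro e he hc
    rw [Finset.mem_insert, Finset.mem_insert, Finset.mem_singleton] at he
    rcases he with rfl | rfl | rfl
    · rfl
    · rw [Finset.mem_insert, Finset.mem_insert, Finset.mem_singleton] at hc
      rcases hc with hc | hc | hc
      · exact absurd hc g8
      · exact absurd hc g9
      · exact absurd hc.symm g2
    · rw [Finset.mem_insert, Finset.mem_insert, Finset.mem_singleton] at hc
      rcases hc with hc | hc | hc
      · exact absurd hc g8
      · exact absurd hc g9
      · exact absurd hc.symm g5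
  | @grow K a b c p q r s h hr hs hrs ih =>
    obtain ⟨h1, h2, h3, h4, h5⟩ := cg_mem h
    obtain ⟨g1, g2, g3, g4, g5, g6, g7, g8, g9, g10⟩ := cg_nd h.nodup
    intro e he hc
    have hcr : c ≠ r := by
      rintro rfl
      exact hr h3
    have hcs : c ≠ s := by
      rintro rfl
      exact hs h3
    rw [Finset.mem_union, Finset.mem_insert, Finset.mem_singleton] at he
    rcases he with he | rfl | rfl
    · exact ih e he hc
    · rw [Finset.mem_insert, Finset.mem_insert, Finset.mem_singleton] at hc
      rcases hc with hc | hc | hc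
      · exact absurd hc hcr
      · exact absurd hc hcs
      · exact absurd hc g8
    · rw [Finset.mem_insert, Finset.mem_insert, Finset.mem_singleton] at hc
      rcases hc with hc | hc | hc
      · exact absurd hc hcr
      · exact absurd hc hcs
      · exact absurd hc g9

/-- in the step the degree of `p` grows -/
private theorem cg_deg {K : Finset (Finset V)} {p r s : V} (N : Finset (Finset V))
    (h2 : (star K p).card = 2) (hr : r ∉ ver K) (hN : ({r, s, p} : Finset V) ∈ N) :
    ¬ (star (K ∪ N) p).card ≤ 2 := by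
  intro h
  have h3 : insert ({r, s, p} : Finset V) (star K p) ⊆ star (K ∪ N) p := by
    intro e he
    rw [Finset.mem_insert] at he
    rcases he with rfl | he
    · exact mem_star.2 ⟨Finset.mem_union_right _ hN, by simp⟩
    · exact mem_star.2 ⟨Finset.mem_union_left _ (mem_star.1 he).1, (mem_star.1 he).2⟩
  have h4 := Finset.card_le_card h3
  rw [Finset.card_insert_of_notMem] at h4
  · omega
  · intro h5
    exact cg_notMem hr (mem_star.1 h5).1

/-- All vertices except `a, b, c, p, q` have degree (at least) three: induction, using `star_p` for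
`p` and `q` in the step. -/
theorem Chain.low (h : Chain K a b c p q) {v : V} (hv : Low K v) :
    v = a ∨ v = b ∨ v = c ∨ v = p ∨ v = q := by
  induction h with
  | @base a b c p q h =>
    obtain ⟨e, he, hve⟩ := Pool.Agent.MP284513.mem_ver.1 hv.1
    rw [Finset.mem_insert, Finset.mem_insert, Finset.mem_singleton] at he
    rcases he with rfl | rfl | rfl <;>
    · rw [Finset.mem_insert, Finset.mem_insert, Finset.mem_singleton] at hve
      tauto
  | @grow K a b c p q r s h hr hs hrs ih =>
    obtain ⟨h1, h2, h3, h4, h5⟩ := cg_mem h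
    obtain ⟨hv1, hv2⟩ := hv
    rw [cg_ver h4 h5, Finset.mem_insert, Finset.mem_insert] at hv1
    rcases hv1 with rfl | rfl | hv1
    · exact Or.inr (Or.inr (Or.inr (Or.inl rfl)))
    · exact Or.inr (Or.inr (Or.inr (Or.inr rfl)))
    · have hlow : Low K v := by
        refine ⟨hv1, le_trans (Finset.card_le_card ?_) hv2⟩
        rw [star_union]
        exact Finset.subset_union_left
      rcases ih hlow with rfl | rfl | rfl | rfl | rfl
      · exact Or.inl rfl
      · exact Or.inr (Or.inl rfl)
      · exact Or.inr (Or.inr (Or.inl rfl))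
      · exact absurd hv2 (cg_deg (s := s) _ h.star_p hr (by simp))
      · exact absurd hv2 (cg_deg (s := s) _ h.swapPQ.star_p hr (by simp))

/-- `K ∪ {{r, s, p}, {r, s, q}}` has two more vertices and two more edges. -/
private theorem cg_card {K : Finset (Finset V)} {p q r s : V} (hp : p ∈ ver K) (hq : q ∈ ver K)
    (hpq : p ≠ q) (hr : r ∉ ver K) (hs : s ∉ ver K) (hrs : r ≠ s) :
    (ver (K ∪ {{r, s, p}, {r, s, q}})).card = (ver K).card + 2 ∧
      (K ∪ {{r, s, p}, {r, s, q}} : Finset (Finset V)).card = K.card + 2 := by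
  constructor
  · rw [cg_ver hp hq, Finset.card_insert_of_notMem, Finset.card_insert_of_notMem hs]
    rw [Finset.mem_insert]
    rintro (h | h)
    · exact hrs h
    · exact hr h
  · rw [Finset.card_union_of_disjoint, Finset.card_pair]
    · refine cg_ne hpq ?_ ?_
      · rintro rfl
        exact hr hp
      · rintro rfl
        exact hs hp
    · rw [Finset.disjoint_right]
      intro e he
      rw [Finset.mem_insert, Finset.mem_singleton] at he
      rcases he with rfl | rfl
      · exact cg_notMem hr
      · exact cg_notMem hr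

private theorem cg_base (h : [a, b, c, p, q].Nodup) :
    (ver ({{a, b, c}, {p, q, a}, {p, q, b}} : Finset (Finset V))).card = 5 ∧
      ({{a, b, c}, {p, q, a}, {p, q, b}} : Finset (Finset V)).card = 3 := by
  obtain ⟨g1, g2, g3, g4, g5, g6, g7, g8, g9, g10⟩ := cg_nd h
  constructor
  · have e : ver ({{a, b, c}, {p, q, a}, {p, q, b}} : Finset (Finset V)) = {a, b, c, p, q} := by
      ext v
      rw [mem_ver]
      simp only [Finset.mem_insert, Finset.mem_singleton]
      constructor
      · rintro ⟨e, rfl | rfl | rfl, hv⟩ <;>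
        · simp only [Finset.mem_insert, Finset.mem_singleton] at hv
          tauto
      · rintro (rfl | rfl | rfl | rfl | rfl)
        · exact ⟨{v, b, c}, Or.inl rfl, by simp⟩
        · exact ⟨{a, v, c}, Or.inl rfl, by simp⟩
        · exact ⟨{a, b, v}, Or.inl rfl, by simp⟩
        · exact ⟨{v, q, a}, Or.inr (Or.inl rfl), by simp⟩
        · exact ⟨{p, v, a}, Or.inr (Or.inl rfl), by simp⟩
    rw [e]
    have h1 : ({a, b, c, p, q} : Finset V) = [a, b, c, p, q].toFinset := by
      ext v
      simp
    rw [h1, List.toFinset_card_of_nodup h]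
    rfl
  · refine Finset.card_eq_three.2 ⟨{a, b, c}, {p, q, a}, {p, q, b}, ?_, ?_, cg_ne g1 g3 g4, rfl⟩
    · intro h
      have h1 : b ∈ ({p, q, a} : Finset V) := by
        rw [← h]
        simp
      rw [Finset.mem_insert, Finset.mem_insert, Finset.mem_singleton] at h1
      rcases h1 with h1 | h1 | h1
      · exact g6 h1
      · exact g7 h1
      · exact g1 h1.symm
    · intro h
      have h1 : a ∈ ({p, q, b} : Finset V) := by
        rw [← h]
        simp
      rw [Finset.mem_insert, Finset.mem_insert, Finset.mem_singleton] at h1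
      rcases h1 with h1 | h1 | h1
      · exact g3 h1
      · exact g4 h1
      · exact g1 h1

private theorem cg_opt_base (h : [a, b, c, p, q].Nodup) {z w : V}
    (hT : Trans {{a, b, c}, {p, q, a}, {p, q, b}} ({z, w} : Finset V)) :
    Opt {{a, b, c}, {p, q, a}, {p, q, b}} ({z, w} : Finset V) := by
  refine ⟨hT, ?_⟩
  obtain ⟨h1, h2⟩ := cg_base h
  rw [h1, h2]
  have h3 : ({z, w} : Finset V).card ≤ 2 := Finset.card_le_two
  omega

private theorem cg_opt_grow {K : Finset (Finset V)} {a b c p q r s z : V}
    (h : Chain K a b c p q) (hr : r ∉ ver K) (hs : s ∉ ver K) (hrs : r ≠ s) {S : Finset V}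
    (hS : Opt K S) (hz : z = r ∨ z = s) :
    Opt (K ∪ {{r, s, p}, {r, s, q}}) (insert z S) := by
  obtain ⟨h1, h2, h3, h4, h5⟩ := cg_mem h
  obtain ⟨g1, g2, g3, g4, g5, g6, g7, g8, g9, g10⟩ := cg_nd h.nodup
  obtain ⟨k1, k2⟩ := cg_card h4 h5 g10 hr hs hrs
  refine ⟨fun e he => ?_, ?_⟩
  · rw [Finset.mem_union, Finset.mem_insert, Finset.mem_singleton] at he
    rcases he with he | rfl | rfl
    · obtain ⟨x, hx, hxe⟩ := hS.1 e he
      exact ⟨x, Finset.mem_insert_of_mem hx, hxe⟩
    · refine ⟨z, Finset.mem_insert_self _ _, ?_⟩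
      rcases hz with rfl | rfl <;> simp
    · refine ⟨z, Finset.mem_insert_self _ _, ?_⟩
      rcases hz with rfl | rfl <;> simp
  · rw [k1, k2]
    have h6 := Finset.card_insert_le z S
    have h7 := hS.2
    omega

/-- Induction: base `{z, w}`; step: add `z ∈ {r, s}` to the set for `p` and `w`. -/
theorem Chain.opt (h : Chain K a b c p q) {z w : V} (hz : z = p ∨ z = q)
    (hw : w = a ∨ w = b ∨ w = c) : ∃ S, Opt K S ∧ z ∈ S ∧ w ∈ S := by
  induction h generalizing z with
  | @base a b c p q h =>
    refine ⟨{z, w}, cg_opt_base h ?_, by simp, by simp⟩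
    intro e he
    rw [Finset.mem_insert, Finset.mem_insert, Finset.mem_singleton] at he
    rcases he with rfl | rfl | rfl
    · refine ⟨w, by simp, ?_⟩
      rcases hw with rfl | rfl | rfl <;> simp
    · refine ⟨z, by simp, ?_⟩
      rcases hz with rfl | rfl <;> simp
    · refine ⟨z, by simp, ?_⟩
      rcases hz with rfl | rfl <;> simp
  | @grow K a b c p q r s h hr hs hrs ih =>
    obtain ⟨S, hS, -, hwS⟩ := ih (Or.inl rfl) hw
    exact ⟨insert z S, cg_opt_grow h hr hs hrs hS hz, Finset.mem_insert_self _ _,
      Finset.mem_insert_of_mem hwS⟩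

/-- Induction: base `{a, b}`; step: add `r`. -/
theorem Chain.opt_ab (h : Chain K a b c p q) : ∃ S, Opt K S ∧ a ∈ S ∧ b ∈ S := by
  induction h with
  | @base a b c p q h =>
    refine ⟨{a, b}, cg_opt_base h ?_, by simp, by simp⟩
    intro e he
    rw [Finset.mem_insert, Finset.mem_insert, Finset.mem_singleton] at he
    rcases he with rfl | rfl | rfl
    · exact ⟨a, by simp, by simp⟩
    · exact ⟨a, by simp, by simp⟩
    · exact ⟨b, by simp, by simp⟩
  | @grow K a b c p q r s h hr hs hrs ih =>
    obtain ⟨S, hS, haS, hbS⟩ := ih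
    exact ⟨insert r S, cg_opt_grow h hr hs hrs hS (Or.inl rfl), Finset.mem_insert_of_mem haS,
      Finset.mem_insert_of_mem hbS⟩

private theorem cg_count (h : [a, b, c, p, q].Nodup) (S : Finset V) :
    (if a ∈ S then 1 else 0) + (if b ∈ S then 1 else 0) + (if c ∈ S then 1 else 0) +
      (if p ∈ S then 1 else 0) + (if q ∈ S then 1 else 0) ≤ S.card := by
  obtain ⟨g1, g2, g3, g4, g5, g6, g7, g8, g9, g10⟩ := cg_nd h
  have h1 : (({a, b, c, p, q} : Finset V).filter fun x => x ∈ S).card ≤ S.card :=
    Finset.card_le_card fun x hx => (Finset.mem_filter.1 hx).2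
  rw [Finset.card_filter, Finset.sum_insert, Finset.sum_insert, Finset.sum_insert,
    Finset.sum_insert, Finset.sum_singleton] at h1
  · omega
  · simp only [Finset.mem_singleton]
    exact g10
  · simp only [Finset.mem_insert, Finset.mem_singleton]
    tauto
  · simp only [Finset.mem_insert, Finset.mem_singleton]
    tauto
  · simp only [Finset.mem_insert, Finset.mem_singleton]
    tauto

/-- Induction. Base: `n + m = 8`; a transversal has an element in `{a, b, c}`, and `p`, `q` or both of
`a`, `b`. Step: `S' = S \ {r, s}` is a transversal of `K`; if `S` contains `r` and `s` then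
`|S'| = |S| - 2`, if it contains one of them then `|S'| = |S| - 1`, and if it contains none of them
then it contains `p` and `q`. -/
theorem Chain.lower (h : Chain K a b c p q) {S : Finset V} (hS : Trans K S) :
    (ver K).card + K.card + (if p ∈ S ∧ q ∈ S then 4 else 0) +
      (if c ∈ S ∧ (a ∈ S ∨ b ∈ S) then 4 else 0) ≤ 4 * S.card := by
  induction h generalizing S with
  | @base a b c p q h =>
    obtain ⟨k1, k2⟩ := cg_base h
    rw [k1, k2]
    have h0 := cg_count h S
    obtain ⟨x, hx, hx'⟩ := hS {a, b, c} (by simp)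
    obtain ⟨y, hy, hy'⟩ := hS {p, q, a} (by simp)
    obtain ⟨z, hz, hz'⟩ := hS {p, q, b} (by simp)
    rw [Finset.mem_insert, Finset.mem_insert, Finset.mem_singleton] at hx' hy' hz'
    have e1 : a ∈ S ∨ b ∈ S ∨ c ∈ S := by
      rcases hx' with rfl | rfl | rfl
      · exact Or.inl hx
      · exact Or.inr (Or.inl hx)
      · exact Or.inr (Or.inr hx)
    have e2 : p ∈ S ∨ q ∈ S ∨ a ∈ S := by
      rcases hy' with rfl | rfl | rfl
      · exact Or.inl hy
      · exact Or.inr (Or.inl hy)
      · exact Or.inr (Or.inr hy)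
    have e3 : p ∈ S ∨ q ∈ S ∨ b ∈ S := by
      rcases hz' with rfl | rfl | rfl
      · exact Or.inl hz
      · exact Or.inr (Or.inl hz)
      · exact Or.inr (Or.inr hz)
    by_cases ha : a ∈ S <;> by_cases hb : b ∈ S <;> by_cases hc : c ∈ S <;>
      by_cases hp : p ∈ S <;> by_cases hq : q ∈ S <;>
      simp only [ha, hb, hc, hp, hq, if_true, if_false, and_true, and_false, or_true, or_false,
        and_self, or_self] at h0 e1 e2 e3 ⊢ <;>
      omega
  | @grow K a b c p q r s h hr hs hrs ih =>
    obtain ⟨h1, h2, h3, h4, h5⟩ := cg_mem h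
    obtain ⟨g1, g2, g3, g4, g5, g6, g7, g8, g9, g10⟩ := cg_nd h.nodup
    obtain ⟨k1, k2⟩ := cg_card h4 h5 g10 hr hs hrs
    rw [k1, k2]
    have hmem : ∀ x ∈ ver K, (x ∈ (S.erase r).erase s ↔ x ∈ S) := by
      intro x hx
      rw [Finset.mem_erase, Finset.mem_erase]
      constructor
      · exact fun h => h.2.2
      · intro h
        refine ⟨?_, ?_, h⟩
        · rintro rfl
          exact hs hx
        · rintro rfl
          exact hr hx
    have hT : Trans K ((S.erase r).erase s) := by
      intro e he
      obtain ⟨x, hx, hxe⟩ := hS e (Finset.mem_union_left _ he)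
      exact ⟨x, (hmem x (Pool.Agent.MP284513.mem_ver.2 ⟨e, he, hxe⟩)).2 hx, hxe⟩
    have h6 := ih hT
    simp only [hmem p h4, hmem q h5, hmem c h3, hmem a h1, hmem b h2] at h6
    by_cases hrS : r ∈ S
    · have c1 : (S.erase r).card + 1 = S.card := Finset.card_erase_add_one hrS
      by_cases hsS : s ∈ S
      · have c2 : ((S.erase r).erase s).card + 1 = (S.erase r).card :=
          Finset.card_erase_add_one (Finset.mem_erase.2 ⟨hrs.symm, hsS⟩)
        rw [if_pos (⟨hrS, hsS⟩ : r ∈ S ∧ s ∈ S)]
        omega
      · have c2 : (S.erase r).erase s = S.erase r :=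
          Finset.erase_eq_of_notMem fun h => hsS (Finset.mem_of_mem_erase h)
        rw [c2] at h6
        rw [if_neg (fun h : r ∈ S ∧ s ∈ S => hsS h.2)]
        omega
    · have c1 : S.erase r = S := Finset.erase_eq_of_notMem hrS
      rw [c1] at h6
      rw [if_neg (fun h : r ∈ S ∧ s ∈ S => hrS h.1)]
      by_cases hsS : s ∈ S
      · have c2 : (S.erase s).card + 1 = S.card := Finset.card_erase_add_one hsS
        omega
      · have c2 : S.erase s = S := Finset.erase_eq_of_notMem hsS
        rw [c2] at h6
        obtain ⟨x, hx, hx'⟩ := hS {r, s, p} (by simp)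
        obtain ⟨y, hy, hy'⟩ := hS {r, s, q} (by simp)
        rw [Finset.mem_insert, Finset.mem_insert, Finset.mem_singleton] at hx' hy'
        have e1 : p ∈ S := by
          rcases hx' with rfl | rfl | rfl
          · exact absurd hx hrS
          · exact absurd hx hsS
          · exact hx
        have e2 : q ∈ S := by
          rcases hy' with rfl | rfl | rfl
          · exact absurd hy hrS
          · exact absurd hy hsS
          · exact hy
        rw [if_pos (⟨e1, e2⟩ : p ∈ S ∧ q ∈ S)] at h6
        omega

theorem Chain.ext (h : Chain K a b c p q) : Ext K :=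
  ⟨h.three, fun S hS => by
    have := h.lower hS
    omega⟩

/-- `K ∪ {{r, s, p}, {r, s, q}}` has two more vertices and two more edges. -/
theorem card_grow {K : Finset (Finset V)} {p q r s : V} (hp : p ∈ ver K) (hq : q ∈ ver K)
    (hpq : p ≠ q) (hr : r ∉ ver K) (hs : s ∉ ver K) (hrs : r ≠ s) :
    (ver (K ∪ {{r, s, p}, {r, s, q}})).card = (ver K).card + 2 ∧
      (K ∪ {{r, s, p}, {r, s, q}} : Finset (Finset V)).card = K.card + 2 :=
  cg_card hp hq hpq hr hs hrs

end Pool.Agent.MP284513
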