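import Mathlib

/-!
# Definitions

Domination in hypergraphs, minimal covers by four-element sets, and the list of the connected
3-uniform hypergraphs `T` with `4 τ(T) = n(T) + m(T)`.
-/

namespace Pool.Agent.MP284513

variable {V : Type} [DecidableEq V]

/-- The vertices of a family of sets, that is, the union of its members. -/
def ver (T : Finset (Finset V)) : Finset V := T.biUnion id

/-- `S` is a dominating set of the hypergraph `H`: every vertex outside `S` lies in an edge which
contains a vertex of `S`. -/
def Dominating (H : Finset (Finset V)) (S : Finset V) : Prop :=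
  ∀ v, v ∉ S → ∃ u ∈ S, ∃ e ∈ H, u ∈ e ∧ v ∈ e

/-- The domination number of `H`, the minimum size of a dominating set. -/
noncomputable def domNumber (H : Finset (Finset V)) : ℕ :=
  sInf {k | ∃ S : Finset V, Dominating H S ∧ S.card = k}

/-- `C` is a minimal cover of the vertex set by sets with four elements which are contained in edges
of `H`. -/
structure IsMinCover (H C : Finset (Finset V)) : Prop where
  four : ∀ c ∈ C, c.card = 4 ∧ ∃ e ∈ H, c ⊆ e
  cover : ∀ v : V, ∃ c ∈ C, v ∈ c
  minimal : ∀ D ⊂ C, ∃ v : V, ∀ d ∈ D, v ∉ d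

/-- Chains. A chain starts with the three edges `{a, b, c}`, `{p, q, a}`, `{p, q, b}` (on five
distinct vertices), and it is prolonged by two new vertices `r`, `s` and the two edges `{r, s, p}`,
`{r, s, q}`, where `p`, `q` is the last pair. The predicate `Chain K a b c p q` says that `K` is a
chain with first edge `{a, b, c}` and last pair `p`, `q`. -/
inductive Chain : Finset (Finset V) → V → V → V → V → V → Prop
  | base {a b c p q : V} (h : [a, b, c, p, q].Nodup) :
      Chain {{a, b, c}, {p, q, a}, {p, q, b}} a b c p q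
  | grow {K : Finset (Finset V)} {a b c p q r s : V} (h : Chain K a b c p q)
      (hr : r ∉ ver K) (hs : s ∉ ver K) (hrs : r ≠ s) :
      Chain (K ∪ {{r, s, p}, {r, s, q}}) a b c r s

/-- Five edges on seven vertices. -/
def sevenFam (x a₁ a₂ a₃ b₁ b₂ b₃ : V) : Finset (Finset V) :=
  {{a₁, a₂, a₃}, {b₁, b₂, b₃}, {x, a₁, b₁}, {x, a₂, b₂}, {x, a₃, b₃}}

/-- Eight edges on eight vertices (the Möbius-Kantor configuration). -/
def eightFam (x y a₁ a₂ a₃ b₁ b₂ b₃ : V) : Finset (Finset V) :=
  sevenFam x a₁ a₂ a₃ b₁ b₂ b₃ ∪ {{y, a₁, b₂}, {y, a₂, b₃}, {y, a₃, b₁}}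

/-- The list: a single edge, the chains, two chains with the same first edge `{a, b, c}` and no
other common vertex (the first pair of one of them is joined to `a` and `b`, the first pair of the
other to `c` and `b`), the four triples of a set with four elements, the closed chains (a chain with
last pair `p`, `q`, a new vertex `x` and the edges `{x, c, p}`, `{x, c, q}`, `{x, a, b}`), and two
sporadic hypergraphs with seven and with eight vertices. -/
inductive Unit3 : Finset (Finset V) → Prop
  | edge {a b c : V} (h : [a, b, c].Nodup) : Unit3 {{a, b, c}}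
  | chain {K : Finset (Finset V)} {a b c p q : V} (h : Chain K a b c p q) : Unit3 K
  | double {K₁ K₂ : Finset (Finset V)} {a b c p q p' q' : V} (h₁ : Chain K₁ a b c p q)
      (h₂ : Chain K₂ c b a p' q') (h : ver K₁ ∩ ver K₂ ⊆ {a, b, c}) : Unit3 (K₁ ∪ K₂)
  | four {a b c d : V} (h : [a, b, c, d].Nodup) :
      Unit3 {{a, b, c}, {a, b, d}, {a, c, d}, {b, c, d}}
  | cycle {K : Finset (Finset V)} {a b c p q x : V} (h : Chain K a b c p q) (hx : x ∉ ver K) :
      Unit3 (K ∪ {{x, c, p}, {x, c, q}, {x, a, b}})
  | seven {x a₁ a₂ a₃ b₁ b₂ b₃ : V} (h : [x, a₁, a₂, a₃, b₁, b₂, b₃].Nodup) :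
      Unit3 (sevenFam x a₁ a₂ a₃ b₁ b₂ b₃)
  | eight {x y a₁ a₂ a₃ b₁ b₂ b₃ : V} (h : [x, y, a₁, a₂, a₃, b₁, b₂, b₃].Nodup) :
      Unit3 (eightFam x y a₁ a₂ a₃ b₁ b₂ b₃)

/-- Unions of members of the list with pairwise disjoint vertex sets. -/
inductive Good : Finset (Finset V) → Prop
  | empty : Good ∅
  | add {K T : Finset (Finset V)} (hK : Unit3 K) (hT : Good T) (hd : Disjoint (ver K) (ver T)) :
      Good (K ∪ T)

/-- `C` arises from a disjoint union `T` of members of the list by adding one new vertex `q e` to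
every edge `e` of `T`. -/
def Corona (C : Finset (Finset V)) : Prop :=
  ∃ (T : Finset (Finset V)) (q : {e // e ∈ T} → V), Good T ∧ Function.Injective q ∧
    (∀ e, q e ∉ ver T) ∧ C = T.attach.image fun e => insert (q e) e.1

end Pool.Agent.MP284513
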