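import Pool.Agent.Lib.MP_284513_co.Chain

/-!
# Two chains with the same first edge
-/

set_option linter.unusedSectionVars false

namespace Pool.Agent.MP284513

variable {V : Type} [DecidableEq V] {K₁ K₂ : Finset (Finset V)} {a b c p q p' q' : V}

private theorem double_rev (a b c : V) : ({c, b, a} : Finset V) = {a, b, c} := by
  ext x
  simp only [Finset.mem_insert, Finset.mem_singleton]
  tauto

private theorem double_three (h₁ : Chain K₁ a b c p q) : ({a, b, c} : Finset V).card = 3 :=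
  h₁.three _ h₁.mem_first

/-- the common vertices -/
private theorem double_ver (h₁ : Chain K₁ a b c p q) (h₂ : Chain K₂ c b a p' q')
    (h : ver K₁ ∩ ver K₂ ⊆ {a, b, c}) : ver K₁ ∩ ver K₂ = {a, b, c} := by
  refine Finset.Subset.antisymm h fun x hx => ?_
  obtain ⟨m1, m2, m3, -, -⟩ := h₁.mem_ver
  obtain ⟨n1, n2, n3, -, -⟩ := h₂.mem_ver
  simp only [Finset.mem_insert, Finset.mem_singleton] at hx
  rcases hx with rfl | rfl | rfl
  · exact Finset.mem_inter.2 ⟨m1, n3⟩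
  · exact Finset.mem_inter.2 ⟨m2, n2⟩
  · exact Finset.mem_inter.2 ⟨m3, n1⟩

/-- the common edge -/
private theorem double_edge (h₁ : Chain K₁ a b c p q) (h : ver K₁ ∩ ver K₂ ⊆ {a, b, c})
    {e : Finset V} (he₁ : e ∈ K₁) (he₂ : e ∈ K₂) : e = {a, b, c} := by
  refine Finset.eq_of_subset_of_card_le (fun x hx => ?_) ?_
  · exact h (Finset.mem_inter.2 ⟨mem_ver.2 ⟨e, he₁, hx⟩, mem_ver.2 ⟨e, he₂, hx⟩⟩)
  · rw [double_three h₁, h₁.three e he₁]

private theorem double_p (h₁ : Chain K₁ a b c p q) (h : ver K₁ ∩ ver K₂ ⊆ {a, b, c}) :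
    p ∉ ver K₂ ∧ q ∉ ver K₂ := by
  obtain ⟨-, -, -, m4, m5⟩ := h₁.mem_ver
  have hn := h₁.nodup
  simp only [List.nodup_cons, List.mem_cons, not_or, List.not_mem_nil, not_false_eq_true,
    List.nodup_nil, and_true, and_self] at hn
  constructor
  · intro hp
    have := h (Finset.mem_inter.2 ⟨m4, hp⟩)
    simp only [Finset.mem_insert, Finset.mem_singleton] at this
    grind
  · intro hq
    have := h (Finset.mem_inter.2 ⟨m5, hq⟩)
    simp only [Finset.mem_insert, Finset.mem_singleton] at this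
    grind

private theorem double_symm (h : ver K₁ ∩ ver K₂ ⊆ {a, b, c}) :
    ver K₂ ∩ ver K₁ ⊆ ({c, b, a} : Finset V) := by
  rw [Finset.inter_comm, double_rev]
  exact h

/-- the union of two optimal transversals with a common vertex -/
private theorem double_join (hc : (ver (K₁ ∪ K₂)).card + 3 = (ver K₁).card + (ver K₂).card ∧
      (K₁ ∪ K₂).card + 1 = K₁.card + K₂.card) {S₁ S₂ : Finset V} (o₁ : Opt K₁ S₁)
    (o₂ : Opt K₂ S₂) {w : V} (w₁ : w ∈ S₁) (w₂ : w ∈ S₂) : Opt (K₁ ∪ K₂) (S₁ ∪ S₂) := by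
  refine ⟨o₁.1.union o₂.1, ?_⟩
  have h1 := Finset.card_union_add_card_inter S₁ S₂
  have h2 : 0 < (S₁ ∩ S₂).card := Finset.card_pos.2 ⟨w, Finset.mem_inter.2 ⟨w₁, w₂⟩⟩
  have h3 := o₁.2
  have h4 := o₂.2
  omega

/-- `ver K₁ ∩ ver K₂ = {a, b, c}`, `K₁ ∩ K₂ = {{a, b, c}}`. -/
theorem double_card (h₁ : Chain K₁ a b c p q) (h₂ : Chain K₂ c b a p' q')
    (h : ver K₁ ∩ ver K₂ ⊆ {a, b, c}) :
    (ver (K₁ ∪ K₂)).card + 3 = (ver K₁).card + (ver K₂).card ∧
      (K₁ ∪ K₂).card + 1 = K₁.card + K₂.card := by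
  have h1 := Finset.card_union_add_card_inter (ver K₁) (ver K₂)
  have h2 := Finset.card_union_add_card_inter K₁ K₂
  rw [double_ver h₁ h₂ h, double_three h₁, ← ver_union] at h1
  have h3 : K₁ ∩ K₂ = {{a, b, c}} := by
    ext e
    rw [Finset.mem_inter, Finset.mem_singleton]
    constructor
    · rintro ⟨h3, h4⟩
      exact double_edge h₁ h h3 h4
    · rintro rfl
      refine ⟨h₁.mem_first, ?_⟩
      rw [← double_rev a b c]
      exact h₂.mem_first
  rw [h3, Finset.card_singleton] at h2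
  exact ⟨h1, h2⟩

/-- `|S ∩ ver K₁| + |S ∩ ver K₂| - |S ∩ {a, b, c}| ≤ |S|`, and `Chain.lower` for both. -/
theorem double_lower (h₁ : Chain K₁ a b c p q) (h₂ : Chain K₂ c b a p' q')
    (h : ver K₁ ∩ ver K₂ ⊆ {a, b, c}) {S : Finset V} (hS : Trans (K₁ ∪ K₂) S) :
    (ver (K₁ ∪ K₂)).card + (K₁ ∪ K₂).card + (if p ∈ S ∧ q ∈ S then 4 else 0) +
      (if p' ∈ S ∧ q' ∈ S then 4 else 0) ≤ 4 * S.card := by
  obtain ⟨hc1, hc2⟩ := double_card h₁ h₂ h
  have hv := double_ver h₁ h₂ h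
  have l1 := h₁.lower (hS.anti Finset.subset_union_left).inter
  have l2 := h₂.lower (hS.anti Finset.subset_union_right).inter
  obtain ⟨m1, m2, m3, m4, m5⟩ := h₁.mem_ver
  obtain ⟨n1, n2, n3, n4, n5⟩ := h₂.mem_ver
  simp only [Finset.mem_inter, m1, m2, m3, m4, m5, and_true] at l1
  simp only [Finset.mem_inter, n1, n2, n3, n4, n5, and_true] at l2
  have h1 := Finset.card_union_add_card_inter (S ∩ ver K₁) (S ∩ ver K₂)
  have h2 : (S ∩ ver K₁ ∪ S ∩ ver K₂).card ≤ S.card :=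
    Finset.card_le_card (Finset.union_subset Finset.inter_subset_left Finset.inter_subset_left)
  have h3 : (S ∩ ver K₁) ∩ (S ∩ ver K₂) = S ∩ {a, b, c} := by
    rw [← hv]
    ext x
    simp only [Finset.mem_inter]
    tauto
  rw [h3] at h1
  have h4 : (S ∩ {a, b, c}).card ≤ (if a ∈ S then 1 else 0) + (if b ∈ S then 1 else 0) +
      (if c ∈ S then 1 else 0) := by
    have h5 : S ∩ {a, b, c} ⊆ ((if a ∈ S then {a} else ∅) ∪ (if b ∈ S then {b} else ∅)) ∪
        (if c ∈ S then {c} else ∅) := by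
      intro x hx
      simp only [Finset.mem_inter, Finset.mem_insert, Finset.mem_singleton] at hx
      rcases hx with ⟨hx, rfl | rfl | rfl⟩ <;> simp [hx]
    refine (Finset.card_le_card h5).trans ((Finset.card_union_le _ _).trans
      (Nat.add_le_add ((Finset.card_union_le _ _).trans (Nat.add_le_add ?_ ?_)) ?_))
    · split_ifs <;> simp
    · split_ifs <;> simp
    · split_ifs <;> simp
  by_cases ha : a ∈ S <;> by_cases hb : b ∈ S <;> by_cases hc : c ∈ S <;>
    simp only [ha, hb, hc, if_true, if_false, true_and, false_and, or_true, true_or, or_false,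
      false_or, or_self, and_self, and_false] at l1 l2 h4 <;>
    omega

theorem double_ext (h₁ : Chain K₁ a b c p q) (h₂ : Chain K₂ c b a p' q')
    (h : ver K₁ ∩ ver K₂ ⊆ {a, b, c}) : Ext (K₁ ∪ K₂) := by
  refine ⟨fun e he => ?_, fun S hS => ?_⟩
  · rcases Finset.mem_union.1 he with he | he
    · exact h₁.three e he
    · exact h₂.three e he
  · have := double_lower h₁ h₂ h hS
    omega

/-- the six special vertices are different from each other -/
theorem double_nodup (h₁ : Chain K₁ a b c p q) (h₂ : Chain K₂ c b a p' q')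
    (h : ver K₁ ∩ ver K₂ ⊆ {a, b, c}) : [a, b, c, p, q, p', q'].Nodup := by
  have hn := h₁.nodup
  have hn' := h₂.nodup
  obtain ⟨-, -, -, n4, n5⟩ := h₂.mem_ver
  obtain ⟨hp, hq⟩ := double_p h₁ h
  have e1 : p ≠ p' := fun h0 => hp (h0 ▸ n4)
  have e2 : p ≠ q' := fun h0 => hp (h0 ▸ n5)
  have e3 : q ≠ p' := fun h0 => hq (h0 ▸ n4)
  have e4 : q ≠ q' := fun h0 => hq (h0 ▸ n5)
  simp only [List.nodup_cons, List.mem_cons, not_or, List.not_mem_nil, not_false_eq_true,
    List.nodup_nil, and_true, and_self] at hn hn' ⊢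
  grind

/-- `p`, `q` are twins in the union. -/
theorem double_twin (h₁ : Chain K₁ a b c p q) (h₂ : Chain K₂ c b a p' q')
    (h : ver K₁ ∩ ver K₂ ⊆ {a, b, c}) : ∀ e ∈ K₁ ∪ K₂, p ∈ e ↔ q ∈ e := by
  intro e he
  obtain ⟨hp, hq⟩ := double_p h₁ h
  rcases Finset.mem_union.1 he with he | he
  · exact h₁.twin e he
  · exact ⟨fun h1 => absurd (mem_ver.2 ⟨e, he, h1⟩) hp, fun h1 => absurd (mem_ver.2 ⟨e, he, h1⟩) hq⟩

/-- The degree of `b` is three, because the stars of `b` in `K₁` and in `K₂` have only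
`{a, b, c}` in common. A vertex of degree at most two in the union has degree at most two in the
chain which contains it. -/
theorem double_low (h₁ : Chain K₁ a b c p q) (h₂ : Chain K₂ c b a p' q')
    (h : ver K₁ ∩ ver K₂ ⊆ {a, b, c}) {v : V} (hv : Low (K₁ ∪ K₂) v) :
    v = a ∨ v = c ∨ v = p ∨ v = q ∨ v = p' ∨ v = q' := by
  obtain ⟨hv1, hv2⟩ := hv
  have hb : v ≠ b := by
    rintro rfl
    rw [star_union] at hv2
    have h1 := Finset.card_union_add_card_inter (star K₁ v) (star K₂ v)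
    have h2 := h₁.swapAB.star_a
    have h3 := h₂.swapAB.star_a
    have h4 : (star K₁ v ∩ star K₂ v).card ≤ 1 := by
      refine (Finset.card_le_card (t := {{a, v, c}}) fun e he => ?_).trans
        (Finset.card_singleton _).le
      rw [Finset.mem_inter, mem_star, mem_star] at he
      exact Finset.mem_singleton.2 (double_edge h₁ h he.1.1 he.2.1)
    omega
  rw [ver_union, Finset.mem_union] at hv1
  have hs1 : (star K₁ v).card ≤ 2 := by
    refine (Finset.card_le_card ?_).trans hv2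
    rw [star_union]
    exact Finset.subset_union_left
  have hs2 : (star K₂ v).card ≤ 2 := by
    refine (Finset.card_le_card ?_).trans hv2
    rw [star_union]
    exact Finset.subset_union_right
  rcases hv1 with hv1 | hv1
  · have := h₁.low ⟨hv1, hs1⟩
    tauto
  · have := h₂.low ⟨hv1, hs2⟩
    tauto

/-- The union of `S₁ ∋ z, w` and `S₂ ∋ z', w` from `Chain.opt`. -/
theorem double_opt (h₁ : Chain K₁ a b c p q) (h₂ : Chain K₂ c b a p' q')
    (h : ver K₁ ∩ ver K₂ ⊆ {a, b, c}) {z z' w : V} (hz : z = p ∨ z = q) (hz' : z' = p' ∨ z' = q')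
    (hw : w = a ∨ w = b ∨ w = c) : ∃ S, Opt (K₁ ∪ K₂) S ∧ z ∈ S ∧ z' ∈ S ∧ w ∈ S := by
  obtain ⟨S₁, o₁, z₁, w₁⟩ := h₁.opt hz hw
  obtain ⟨S₂, o₂, z₂, w₂⟩ := h₂.opt (w := w) hz' (by tauto)
  exact ⟨S₁ ∪ S₂, double_join (double_card h₁ h₂ h) o₁ o₂ w₁ w₂, Finset.mem_union_left _ z₁,
    Finset.mem_union_right _ z₂, Finset.mem_union_left _ w₁⟩

/-- The union of `S₁ ∋ a, b` and `S₂ ∋ c, b` from `Chain.opt_ab`. -/
theorem double_opt_ac (h₁ : Chain K₁ a b c p q) (h₂ : Chain K₂ c b a p' q')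
    (h : ver K₁ ∩ ver K₂ ⊆ {a, b, c}) : ∃ S, Opt (K₁ ∪ K₂) S ∧ a ∈ S ∧ c ∈ S := by
  obtain ⟨S₁, o₁, z₁, w₁⟩ := h₁.opt_ab
  obtain ⟨S₂, o₂, z₂, w₂⟩ := h₂.opt_ab
  exact ⟨S₁ ∪ S₂, double_join (double_card h₁ h₂ h) o₁ o₂ w₁ w₂, Finset.mem_union_left _ z₁,
    Finset.mem_union_right _ z₂⟩

end Pool.Agent.MP284513
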