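import Pool.Agent.Lib.MP_284513_co.Final
import Pool.Agent.Lib.MP_284513_co.Around

/-!
# The criterion with its explicit parts
-/

set_option linter.unusedSectionVars false

namespace Pool.Agent.MP284513

variable {V : Type} [DecidableEq V]

/-- the situation of a corona with total choice of the new vertices -/
theorem Corona.total [Nonempty V] {E : Finset (Finset V)} (h : Corona E) :
    ∃ (T : Finset (Finset V)) (q : Finset V → V), Good T ∧ (∀ s ∈ T, ∀ t ∈ T, q s = q t → s = t) ∧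
      (∀ t ∈ T, q t ∉ ver T) ∧ E = T.image fun t => insert (q t) t := by
  classical
  obtain ⟨T, q', hg, hinj, hnew, rfl⟩ := h
  let q : Finset V → V := fun t => if h : t ∈ T then q' ⟨t, h⟩ else Classical.arbitrary V
  have hq : ∀ (t : Finset V) (h : t ∈ T), q t = q' ⟨t, h⟩ := fun t h => dif_pos h
  refine ⟨T, q, hg, ?_, ?_, ?_⟩
  · intro s hs t ht hst
    rw [hq s hs, hq t ht] at hst
    exact congrArg Subtype.val (hinj hst)
  · intro t ht
    rw [hq t ht]
    exact hnew _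
  · ext e
    simp only [Finset.mem_image, Finset.mem_attach, true_and, Subtype.exists]
    constructor
    · rintro ⟨t, ht, rfl⟩
      exact ⟨t, ht, by rw [hq t ht]⟩
    · rintro ⟨t, ht, rfl⟩
      exact ⟨t, ht, by rw [hq t ht]⟩

/-- a spanning corona all of whose edges have a vertex of degree one -/
theorem eq_of_corona [Fintype V] {H C : Finset (Finset V)} (h4 : ∀ e ∈ H, 4 ≤ e.card)
    (hCH : C ⊆ H) (hC : Corona C) (hcov : ∀ v : V, ∃ c ∈ C, v ∈ c)
    (hdeg : ∀ c ∈ C, ∃ v ∈ c, ∀ f ∈ H, v ∈ f → f = c) :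
    4 * domNumber H = Fintype.card V := by
  classical
  have hcov' : ∀ v : V, ∃ e ∈ H, v ∈ e := fun v => by
    obtain ⟨c, hc, hv⟩ := hcov v
    exact ⟨c, hCH hc, hv⟩
  obtain ⟨D, hD, hDc⟩ := exists_dom H
  obtain ⟨C', hC', -⟩ := exists_minCover h4 hcov' hD
  have hle := dom_le hC'
  rcases isEmpty_or_nonempty V with hV | hV
  · rw [Fintype.card_eq_zero] at hle ⊢
    omega
  obtain ⟨T, q, hg, hinj, hnew, rfl⟩ := hC.total
  have hcard : Fintype.card V ≤ (ver T).card + T.card := by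
    have h1 : (Finset.univ : Finset V) ⊆ full T q := by
      intro v _
      obtain ⟨c, hc, hv⟩ := hcov v
      obtain ⟨t, ht, rfl⟩ := Finset.mem_image.1 hc
      exact mem_full.2 ⟨t, ht, hv⟩
    have h2 := Finset.card_le_card h1
    rw [Finset.card_univ] at h2
    exact h2.trans (card_full_le T q)
  have h1 := hg.ext.card_le_hit hinj hnew (D := D) fun t ht => by
    obtain ⟨v, hv, hall⟩ := hdeg _ (Finset.mem_image_of_mem _ ht)
    by_cases hvD : v ∈ D
    · exact ⟨v, hvD, hv⟩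
    · obtain ⟨u, hu, f, hf, huf, hvf⟩ := hD v hvD
      rw [hall f hf hvf] at huf
      exact ⟨u, hu, huf⟩
  omega

theorem main_explicit [Fintype V] (H : Finset (Finset V)) (h4 : ∀ e ∈ H, 4 ≤ e.card)
    (hcov : ∀ v : V, ∃ e ∈ H, v ∈ e) :
    (4 * domNumber H = Fintype.card V ↔ ∀ C, IsMinCover H C → Corona C) ∧
    (∀ C ⊆ H, Corona C → (∀ v : V, ∃ c ∈ C, v ∈ c) →
      (∀ c ∈ C, ∃ v ∈ c, ∀ f ∈ H, v ∈ f → f = c) → 4 * domNumber H = Fintype.card V) ∧
    ((∀ e ∈ H, e.card = 4) → (∀ D ⊂ H, ∃ v : V, ∀ d ∈ D, v ∉ d) →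
      (4 * domNumber H = Fintype.card V ↔ Corona H)) :=
  ⟨main_corona H h4 hcov, fun _ hCH hC hC' hdeg => eq_of_corona h4 hCH hC hC' hdeg,
    fun h4' hmin => main_minimal H h4' hcov hmin⟩

end Pool.Agent.MP284513
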