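import Pool.Agent.Lib.MP_284513_co.List

/-!
# The hypergraphs with all edges of size at least four and domination number `n / 4`
-/

set_option linter.unusedSectionVars false

namespace Pool.Agent.MP284513

variable {V : Type} [DecidableEq V]

/-- the upper bound -/
theorem dom_le [Fintype V] {H C : Finset (Finset V)} (hC : IsMinCover H C) :
    4 * domNumber H ≤ Fintype.card V := by
  have hpr : ∀ c ∈ C, ∃ v : V, v ∈ c ∧ ∀ d ∈ C, v ∈ d → d = c := fun c hc =>
    hC.exists_private hc
  rcases isEmpty_or_nonempty V with hV | hV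
  · have h2 : Dominating H ∅ := fun v => (hV.false v).elim
    have h3 := domNumber_le h2
    rw [Finset.card_empty] at h3
    omega
  choose! p hp using hpr
  obtain ⟨S, hS, hc⟩ := cm (shrink C p) (shrink_three hC hp)
  have h5 := domNumber_le (dominating_of_trans hC hS)
  have h6 := card_ver_shrink hC hp
  have h7 : (shrink C p).card ≤ C.card := Finset.card_image_le
  omega

theorem corona_of_good {C : Finset (Finset V)} {p : Finset V → V} (hp : IsPrivate C p)
    (hinj : Set.InjOn (fun c => c.erase (p c)) (C : Set (Finset V)))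
    (hg : Good (shrink C p)) : Corona C := by
  classical
  have hex : ∀ e : {e // e ∈ shrink C p}, ∃ c ∈ C, c.erase (p c) = e.1 := by
    intro e
    obtain ⟨c, hc, hce⟩ := Finset.mem_image.1 e.2
    exact ⟨c, hc, hce⟩
  choose r hrC hre using hex
  refine ⟨shrink C p, fun e => p (r e), hg, ?_, ?_, ?_⟩
  · intro e f hef
    have hef' : p (r e) = p (r f) := hef
    have h3 : r e = r f := (hp _ (hrC f)).2 _ (hrC e) (hef' ▸ (hp _ (hrC e)).1)
    apply Subtype.ext
    rw [← hre e, ← hre f, h3]
  · intro e hv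
    obtain ⟨f, hf, hpf⟩ := mem_ver.1 hv
    obtain ⟨d, hd, rfl⟩ := Finset.mem_image.1 hf
    obtain ⟨h1, h2⟩ := Finset.mem_erase.1 hpf
    have h3 := (hp _ (hrC e)).2 d hd h2
    rw [h3] at h1
    exact h1 rfl
  · have h4 : ∀ e : {e // e ∈ shrink C p}, insert (p (r e)) e.1 = r e := by
      intro e
      have h5 := Finset.insert_erase (hp _ (hrC e)).1
      rw [hre e] at h5
      exact h5
    ext c
    rw [Finset.mem_image]
    constructor
    · intro hc
      have he : c.erase (p c) ∈ shrink C p := Finset.mem_image_of_mem _ hc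
      refine ⟨⟨_, he⟩, Finset.mem_attach _ _, ?_⟩
      rw [h4]
      exact hinj (hrC _) hc (hre ⟨_, he⟩)
    · rintro ⟨e, -, rfl⟩
      rw [h4]
      exact hrC e

/-- a set which meets all the edges of a corona has at least `n / 4` elements -/
theorem card_le_of_corona [Fintype V] {T : Finset (Finset V)} {q : {e // e ∈ T} → V}
    (hT : Ext T) (hinj : Function.Injective q) (hq : ∀ e, q e ∉ ver T)
    (hcov : ∀ v : V, v ∈ ver T ∨ ∃ e, v = q e) {S : Finset V}
    (hS : ∀ e : {e // e ∈ T}, ∃ y ∈ S, y ∈ insert (q e) e.1) :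
    Fintype.card V ≤ 4 * S.card := by
  classical
  have hcard : Fintype.card V ≤ (ver T).card + T.card := by
    have h1 : (Finset.univ : Finset V) ⊆ ver T ∪ T.attach.image q := by
      intro v _
      rcases hcov v with h | ⟨e, rfl⟩
      · exact Finset.mem_union_left _ h
      · exact Finset.mem_union_right _ (Finset.mem_image_of_mem _ (Finset.mem_attach _ _))
    have h2 := Finset.card_le_card h1
    have h3 := Finset.card_union_le (ver T) (T.attach.image q)
    have h4 : (T.attach.image q).card ≤ T.card := Finset.card_image_le.trans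
      (Finset.card_attach).le
    rw [Finset.card_univ] at h2
    omega
  have hne : ∀ e : {e // e ∈ T}, ∃ x : V, x ∈ e.1 := by
    intro e
    have h1 : 0 < e.1.card := by rw [hT.1 e.1 e.2]; omega
    exact Finset.card_pos.1 h1
  choose r hr using hne
  let g : V → V := fun v => if h : ∃ e, q e = v then r h.choose else v
  have hS' : Trans T (S.image g) := by
    intro e he
    obtain ⟨y, hy, hye⟩ := hS ⟨e, he⟩
    refine ⟨g y, Finset.mem_image_of_mem _ hy, ?_⟩
    by_cases h : ∃ f, q f = y
    · have h2 : g y = r h.choose := dif_pos h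
      have h4 := h.choose_spec
      have h5 : h.choose = ⟨e, he⟩ := by
        rcases Finset.mem_insert.1 hye with h6 | h6
        · exact hinj (h4.trans h6)
        · exact absurd (mem_ver.2 ⟨e, he, h6⟩) (h4 ▸ hq _)
      rw [h2, h5]
      exact hr _
    · have h2 : g y = y := dif_neg h
      rw [h2]
      rcases Finset.mem_insert.1 hye with h6 | h6
      · exact absurd ⟨_, h6.symm⟩ h
      · exact h6
  have h1 := hT.2 _ hS'
  have h2 : (S.image g).card ≤ S.card := Finset.card_image_le
  omega

theorem main_corona [Fintype V] (H : Finset (Finset V)) (h4 : ∀ e ∈ H, 4 ≤ e.card)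
    (hcov : ∀ v : V, ∃ e ∈ H, v ∈ e) :
    4 * domNumber H = Fintype.card V ↔ ∀ C, IsMinCover H C → Corona C := by
  constructor
  · intro h C hC
    have hpr : ∀ c ∈ C, ∃ v : V, v ∈ c ∧ ∀ d ∈ C, v ∈ d → d = c := fun c hc =>
      hC.exists_private hc
    rcases C.eq_empty_or_nonempty with rfl | ⟨c₀, hc₀⟩
    · exact ⟨∅, fun e => absurd e.2 (Finset.notMem_empty _), Good.empty,
        fun e => absurd e.2 (Finset.notMem_empty _), fun e => absurd e.2 (Finset.notMem_empty _),
        rfl⟩
    · have hV : Nonempty V := ⟨(hpr c₀ hc₀).choose⟩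
      choose! p hp using hpr
      obtain ⟨h1, h2⟩ := (main_list H h4 hcov).1 h C hC p hp
      exact corona_of_good hp h1 h2
  · intro h
    obtain ⟨S, hS, hSc⟩ := exists_dom H
    obtain ⟨C, hC, hCS⟩ := exists_minCover h4 hcov hS
    have hle := dom_le hC
    obtain ⟨T, q, hg, hinj, hq, rfl⟩ := h C hC
    have h1 := card_le_of_corona hg.ext hinj hq (fun v => by
      obtain ⟨c, hc, hvc⟩ := hC.cover v
      obtain ⟨e, -, rfl⟩ := Finset.mem_image.1 hc
      rcases Finset.mem_insert.1 hvc with h | h
      · exact Or.inr ⟨e, h⟩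
      · exact Or.inl (mem_ver.2 ⟨e.1, e.2, h⟩)) (S := S) (fun e =>
      hCS _ (Finset.mem_image_of_mem _ (Finset.mem_attach _ e)))
    omega

/-- 4-uniform hypergraphs in which no edge can be omitted -/
theorem main_minimal [Fintype V] (H : Finset (Finset V)) (h4 : ∀ e ∈ H, e.card = 4)
    (hcov : ∀ v : V, ∃ e ∈ H, v ∈ e) (hmin : ∀ D ⊂ H, ∃ v : V, ∀ d ∈ D, v ∉ d) :
    4 * domNumber H = Fintype.card V ↔ Corona H := by
  rw [main_corona H (fun e he => (h4 e he).ge) hcov]
  constructor
  · intro h
    exact h H ⟨fun c hc => ⟨h4 c hc, c, hc, Finset.Subset.refl _⟩, hcov, hmin⟩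
  · intro h C hC
    have hsub : C ⊆ H := by
      intro c hc
      obtain ⟨h1, e, he, hce⟩ := hC.four c hc
      rw [Finset.eq_of_subset_of_card_le hce (by rw [h1, h4 e he])]
      exact he
    have heq : C = H := by
      by_contra hne
      obtain ⟨v, hv⟩ := hmin C (Finset.ssubset_iff_subset_ne.2 ⟨hsub, hne⟩)
      obtain ⟨c, hc, hvc⟩ := hC.cover v
      exact hv c hc hvc
    rw [heq]
    exact h

/-- the coronas with arbitrary further edges which avoid the new vertices -/
theorem link [Fintype V] (H T : Finset (Finset V)) (q : {e // e ∈ T} → V) (hT : Good T)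
    (hinj : Function.Injective q) (hq : ∀ e, q e ∉ ver T)
    (hcov : ∀ v : V, v ∈ ver T ∨ ∃ e, v = q e) (h4 : ∀ e ∈ H, 4 ≤ e.card)
    (hTH : ∀ e : {e // e ∈ T}, insert (q e) e.1 ∈ H)
    (hH : ∀ f ∈ H, f ⊆ ver T ∨ ∃ e : {e // e ∈ T}, f = insert (q e) e.1) :
    4 * domNumber H = Fintype.card V := by
  have hcov' : ∀ v : V, ∃ e ∈ H, v ∈ e := by
    intro v
    rcases hcov v with h | ⟨e, rfl⟩
    · obtain ⟨e, he, hve⟩ := mem_ver.1 h
      exact ⟨_, hTH ⟨e, he⟩, Finset.mem_insert_of_mem hve⟩
    · exact ⟨_, hTH e, Finset.mem_insert_self _ _⟩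
  obtain ⟨S, hS, hSc⟩ := exists_dom H
  obtain ⟨C, hC, -⟩ := exists_minCover h4 hcov' hS
  have hle := dom_le hC
  have h1 := card_le_of_corona hT.ext hinj hq hcov (S := S) (fun e => by
    by_cases hqS : q e ∈ S
    · exact ⟨q e, hqS, Finset.mem_insert_self _ _⟩
    · obtain ⟨u, hu, f, hf, huf, hqf⟩ := hS (q e) hqS
      rcases hH f hf with h | ⟨e', rfl⟩
      · exact absurd (h hqf) (hq e)
      · rcases Finset.mem_insert.1 hqf with h | h
        · rw [← hinj h] at huf
          exact ⟨u, hu, huf⟩
        · exact absurd (mem_ver.2 ⟨e'.1, e'.2, h⟩) (hq e))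
  omega

end Pool.Agent.MP284513
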