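import Mathlib

/-!
# A combinatorial lemma: three disjoint pairs and a partition into small classes
-/

namespace Pool.Agent.MP284513

/-- Six elements are given in three pairs `x₁ y₁`, `x₂ y₂`, `x₃ y₃`, and no four of them are equal.
If every choice of one element in every pair contains two equal elements, then the six elements form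
two classes with three elements. -/
theorem sdr {α : Type} (x₁ y₁ x₂ y₂ x₃ y₃ : α)
    (k1 : ¬ (x₁ = y₁ ∧ y₁ = x₂ ∧ x₂ = y₂)) (k2 : ¬ (x₁ = y₁ ∧ y₁ = x₂ ∧ x₂ = x₃))
    (k3 : ¬ (x₁ = y₁ ∧ y₁ = x₂ ∧ x₂ = y₃)) (k4 : ¬ (x₁ = y₁ ∧ y₁ = y₂ ∧ y₂ = x₃))
    (k5 : ¬ (x₁ = y₁ ∧ y₁ = y₂ ∧ y₂ = y₃)) (k6 : ¬ (x₁ = y₁ ∧ y₁ = x₃ ∧ x₃ = y₃))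
    (k7 : ¬ (x₁ = x₂ ∧ x₂ = y₂ ∧ y₂ = x₃)) (k8 : ¬ (x₁ = x₂ ∧ x₂ = y₂ ∧ y₂ = y₃))
    (k9 : ¬ (x₁ = x₂ ∧ x₂ = x₃ ∧ x₃ = y₃)) (k10 : ¬ (x₁ = y₂ ∧ y₂ = x₃ ∧ x₃ = y₃))
    (k11 : ¬ (y₁ = x₂ ∧ x₂ = y₂ ∧ y₂ = x₃)) (k12 : ¬ (y₁ = x₂ ∧ x₂ = y₂ ∧ y₂ = y₃))
    (k13 : ¬ (y₁ = x₂ ∧ x₂ = x₃ ∧ x₃ = y₃)) (k14 : ¬ (y₁ = y₂ ∧ y₂ = x₃ ∧ x₃ = y₃))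
    (k15 : ¬ (x₂ = y₂ ∧ y₂ = x₃ ∧ x₃ = y₃))
    (h1 : x₁ = x₂ ∨ x₁ = x₃ ∨ x₂ = x₃) (h2 : x₁ = x₂ ∨ x₁ = y₃ ∨ x₂ = y₃)
    (h3 : x₁ = y₂ ∨ x₁ = x₃ ∨ y₂ = x₃) (h4 : x₁ = y₂ ∨ x₁ = y₃ ∨ y₂ = y₃)
    (h5 : y₁ = x₂ ∨ y₁ = x₃ ∨ x₂ = x₃) (h6 : y₁ = x₂ ∨ y₁ = y₃ ∨ x₂ = y₃)
    (h7 : y₁ = y₂ ∨ y₁ = x₃ ∨ y₂ = x₃) (h8 : y₁ = y₂ ∨ y₁ = y₃ ∨ y₂ = y₃) :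
    (x₁ = x₂ ∧ x₂ = x₃ ∧ y₁ = y₂ ∧ y₂ = y₃) ∨ (x₁ = x₂ ∧ x₂ = y₃ ∧ y₁ = y₂ ∧ y₂ = x₃) ∨
    (x₁ = y₂ ∧ y₂ = x₃ ∧ y₁ = x₂ ∧ x₂ = y₃) ∨ (x₁ = y₂ ∧ y₂ = y₃ ∧ y₁ = x₂ ∧ x₂ = x₃) ∨
    (x₁ = y₁ ∧ y₁ = x₂ ∧ y₂ = x₃ ∧ x₃ = y₃) ∨ (x₁ = y₁ ∧ y₁ = y₂ ∧ x₂ = x₃ ∧ x₃ = y₃) ∨
    (x₁ = y₁ ∧ y₁ = x₃ ∧ y₃ = x₂ ∧ x₂ = y₂) ∨ (x₁ = y₁ ∧ y₁ = y₃ ∧ x₃ = x₂ ∧ x₂ = y₂) ∨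
    (x₂ = y₂ ∧ y₂ = x₁ ∧ y₁ = x₃ ∧ x₃ = y₃) ∨ (x₂ = y₂ ∧ y₂ = y₁ ∧ x₁ = x₃ ∧ x₃ = y₃) := by
  grind (splits := 25)

end Pool.Agent.MP284513
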