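import Pool.Agent.Lib.MP_284513_co.Blocks
import Pool.Agent.Lib.MP_284513_co.Sdr

/-!
# Every extremal hypergraph is a disjoint union of members of the list: tools, and twins
-/

set_option linter.unusedSectionVars false

namespace Pool.Agent.MP284513

variable {V : Type} [DecidableEq V]

theorem Unit3.nonempty {K : Finset (Finset V)} (h : Unit3 K) : K.Nonempty := by
  cases h with
  | edge h => exact ⟨_, Finset.mem_singleton_self _⟩
  | chain h => exact ⟨_, h.mem_first⟩
  | double h₁ h₂ h => exact ⟨_, Finset.mem_union_left _ h₁.mem_first⟩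
  | four h => exact ⟨_, Finset.mem_insert_self _ _⟩
  | cycle h hx => exact ⟨_, Finset.mem_union_left _ h.mem_first⟩
  | seven h => exact ⟨_, Finset.mem_insert_self _ _⟩
  | eight h => exact ⟨_, Finset.mem_union_left _ (Finset.mem_insert_self _ _)⟩

theorem finish {T U : Finset (Finset V)} (h : Ext T)
    (ih : ∀ T' : Finset (Finset V), T'.card < T.card → Ext T' → Good T') (hU : Unit3 U)
    (hc : Closed T U) : Good T := by
  have hx : Ext (T \ U) := Ext.right (K := U) (by rw [hc.eq]; exact h) hc.sdiff
  have hlt : (T \ U).card < T.card :=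
    Finset.card_lt_card (Finset.sdiff_ssubset hc.1 hU.nonempty)
  have hg : Good (U ∪ (T \ U)) := Good.add hU (ih _ hlt hx) hc.sdiff
  rw [hc.eq] at hg
  exact hg

theorem Closed.opt_mem {T K : Finset (Finset V)} {S : Finset V} (hc : Closed T K) (h : Ext T)
    (hS : Opt K S) {v : V} (hv : v ∈ ver T) (hvK : v ∉ ver K) :
    ∃ S', Opt T S' ∧ S ⊆ S' ∧ v ∈ S' := by
  have hx : Ext (T \ K) := Ext.right (K := K) (by rw [hc.eq]; exact h) hc.sdiff
  have hv' : v ∈ ver (T \ K) := by
    rw [← hc.eq, ver_union, Finset.mem_union] at hv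
    exact hv.resolve_left hvK
  obtain ⟨S₂, hS₂, hvS⟩ := hx.opt_mem hv'
  have h1 := hS.union hS₂ (fun e he => h.1 e (hc.1 he)) hc.sdiff
  rw [hc.eq] at h1
  exact ⟨_, h1, Finset.subset_union_left, Finset.mem_union_right _ hvS⟩

theorem Closed.opt {T K : Finset (Finset V)} {S : Finset V} (hc : Closed T K) (h : Ext T)
    (hS : Opt K S) : ∃ S', Opt T S' ∧ S ⊆ S' := by
  have hx : Ext (T \ K) := Ext.right (K := K) (by rw [hc.eq]; exact h) hc.sdiff
  obtain ⟨S₂, hS₂⟩ := hx.exists_opt
  have h1 := hS.union hS₂ (fun e he => h.1 e (hc.1 he)) hc.sdiff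
  rw [hc.eq] at h1
  exact ⟨_, h1, Finset.subset_union_left⟩

theorem three_one {e : Finset V} (h : e.card = 3) {x : V} (hx : x ∈ e) :
    ∃ u v, u ≠ x ∧ v ≠ x ∧ u ≠ v ∧ e = {x, u, v} := by
  have h1 : (e.erase x).card = 2 := by rw [Finset.card_erase_of_mem hx, h]
  obtain ⟨u, v, huv, he⟩ := Finset.card_eq_two.1 h1
  have hu : u ∈ e.erase x := by rw [he]; simp
  have hv : v ∈ e.erase x := by rw [he]; simp
  refine ⟨u, v, (Finset.mem_erase.1 hu).1, (Finset.mem_erase.1 hv).1, huv, ?_⟩
  rw [← Finset.insert_erase hx, he]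

theorem three_pair {e : Finset V} (h : e.card = 3) {x y : V} (hx : x ∈ e) (hy : y ∈ e)
    (hxy : x ≠ y) : ∃ z, z ≠ x ∧ z ≠ y ∧ e = {x, y, z} := by
  obtain ⟨u, v, hu, hv, huv, rfl⟩ := three_one h hx
  simp only [Finset.mem_insert, Finset.mem_singleton] at hy
  rcases hy with rfl | rfl | rfl
  · exact absurd rfl hxy
  · exact ⟨v, hv, huv.symm, rfl⟩
  · exact ⟨u, hu, huv, by rw [Finset.pair_comm]⟩

/-- the degrees of the vertices of the deleted edges -/
theorem star_add {T : Finset (Finset V)} (h : Ext T) {x z : V} (E : Finset (Finset V))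
    (hE : E ⊆ star T x) (hz : ∀ e ∈ E, z ∈ e) (hzT : z ∈ ver (del T x)) :
    (star (del T x) z).card + E.card ≤ 3 := by
  have h1 : star (del T x) z ∪ E ⊆ star T z := by
    intro e he
    rcases Finset.mem_union.1 he with he | he
    · exact mem_star.2 ⟨del_subset T x (mem_star.1 he).1, (mem_star.1 he).2⟩
    · exact mem_star.2 ⟨(mem_star.1 (hE he)).1, hz e he⟩
  have h2 : Disjoint (star (del T x) z) E := by
    rw [Finset.disjoint_left]
    intro e he he'
    exact (mem_del.1 (mem_star.1 he).1).2 (mem_star.1 (hE he')).2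
  rw [← Finset.card_union_of_disjoint h2]
  exact (Finset.card_le_card h1).trans (h.deg_le (ver_mono (del_subset T x) hzT))

theorem low_of_star {T : Finset (Finset V)} (h : Ext T) {x z : V} {e : Finset V}
    (he : e ∈ star T x) (hz : z ∈ e) (hzT : z ∈ ver (del T x)) : Low (del T x) z := by
  have h1 := star_add h {e} (by simpa using he) (by simpa using hz) hzT
  rw [Finset.card_singleton] at h1
  exact ⟨hzT, by omega⟩

/-- two vertices of degree at most two in the same class -/
theorem Blocks.same {T : Finset (Finset V)} {β : V → V} (hβ : Blocks T β) {z w : V}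
    (hz : Low T z) (hw : Low T w) (hno : ∀ S, Opt T S → z ∈ S → w ∈ S → False) :
    β z = β w := by
  by_contra hne
  obtain ⟨S, hS, hW⟩ := hβ.opt {z, w} (by
    intro v hv
    rw [Finset.mem_insert, Finset.mem_singleton] at hv
    rcases hv with rfl | rfl <;> assumption) (by
    intro v hv v' hv' h
    rw [Finset.mem_insert, Finset.mem_singleton] at hv hv'
    rcases hv with rfl | rfl <;> rcases hv' with rfl | rfl
    · rfl
    · exact absurd h hne
    · exact absurd h.symm hne
    · rfl)
  exact hno S hS (hW (by simp)) (hW (by simp))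

/-- a transversal of the hypergraph without `x` which meets the edges containing `x` -/
theorem trans_of_star {T : Finset (Finset V)} {x : V} {S : Finset V} (hS : Trans (del T x) S)
    (h : ∀ e ∈ star T x, ∃ y ∈ S, y ∈ e) : Trans T S := by
  intro e he
  by_cases hx : x ∈ e
  · exact h e (mem_star.2 ⟨he, hx⟩)
  · exact hS e (mem_del.2 ⟨he, hx⟩)

theorem seven_opt_a' {x a₁ a₂ a₃ b₁ b₂ b₃ : V} (h : [x, a₁, a₂, a₃, b₁, b₂, b₃].Nodup) :
    Opt (sevenFam x a₁ a₂ a₃ b₁ b₂ b₃) {a₁, a₃, b₂} := by
  rw [seven_perm₂]
  refine seven_opt_a ?_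
  simp only [List.nodup_cons, List.mem_cons, List.not_mem_nil] at h ⊢
  grind

theorem seven_opt_a'' {x a₁ a₂ a₃ b₁ b₂ b₃ : V} (h : [x, a₁, a₂, a₃, b₁, b₂, b₃].Nodup) :
    Opt (sevenFam x a₁ a₂ a₃ b₁ b₂ b₃) {a₂, a₃, b₁} := by
  rw [seven_perm₁]
  refine seven_opt_a' ?_
  simp only [List.nodup_cons, List.mem_cons, List.not_mem_nil] at h ⊢
  grind

/-- twins -/
theorem caseA {T : Finset (Finset V)} (h : Ext T)
    (ih : ∀ T' : Finset (Finset V), T'.card < T.card → Ext T' → Good T') {u v : V} (huv : u ≠ v)
    (hu : u ∈ ver T) (htw : ∀ e ∈ T, u ∈ e ↔ v ∈ e) : Good T := by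
  have hv : v ∈ ver T := by
    obtain ⟨e, he, hue⟩ := mem_ver.1 hu
    exact mem_ver.2 ⟨e, he, (htw e he).1 hue⟩
  have hvd : v ∉ ver (del T u) := by
    rw [mem_ver]
    rintro ⟨e, he, hve⟩
    exact (mem_del.1 he).2 ((htw e (mem_del.1 he).1).2 hve)
  have hpos := card_star_pos hu
  have hdrop := h.drop_le u
  have hver := card_ver_add {u, v} (del_subset T u) (by
    intro z hz
    rw [Finset.mem_insert, Finset.mem_singleton] at hz
    rcases hz with rfl | rfl <;> assumption) (by
    intro z hz
    rw [Finset.mem_insert, Finset.mem_singleton] at hz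
    rcases hz with rfl | rfl
    · exact notMem_ver_del T z
    · exact hvd)
  rw [Finset.card_pair huv] at hver
  have hcase : (star T u).card = 1 ∨ (star T u).card = 2 := by omega
  rcases hcase with h1 | h2
  · -- an isolated edge
    obtain ⟨e, hse⟩ := Finset.card_eq_one.1 h1
    have hes : e ∈ star T u := by rw [hse]; simp
    obtain ⟨he, hue⟩ := mem_star.1 hes
    have hall : ∀ f ∈ T, u ∈ f → f = e := by
      intro f hf huf
      have : f ∈ star T u := mem_star.2 ⟨hf, huf⟩
      rwa [hse, Finset.mem_singleton] at this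
    have hve := (htw e he).1 hue
    obtain ⟨w, hwu, hwv, rfl⟩ := three_pair (h.1 e he) hue hve huv
    have hwe : w ∈ ({u, v, w} : Finset V) := by simp
    have hdw := h.drop_le w
    have hver' := card_ver_add {u, v, w} (del_subset T w) (by
      intro z hz
      exact mem_ver.2 ⟨_, he, hz⟩) (by
      intro z hz
      rw [mem_ver]
      rintro ⟨f, hf, hzf⟩
      obtain ⟨hfT, hwf⟩ := mem_del.1 hf
      simp only [Finset.mem_insert, Finset.mem_singleton] at hz
      rcases hz with rfl | rfl | rfl
      · exact hwf ((hall f hfT hzf) ▸ hwe)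
      · exact hwf ((hall f hfT ((htw f hfT).2 hzf)) ▸ hwe)
      · exact hwf hzf)
    rw [h.1 _ he] at hver'
    have hw1 : (star T w).card = 1 := by
      have := card_star_pos (mem_ver.2 ⟨_, he, hwe⟩)
      omega
    obtain ⟨e', hse'⟩ := Finset.card_eq_one.1 hw1
    have hallw : ∀ f ∈ T, w ∈ f → f = {u, v, w} := by
      intro f hf hwf
      have h3 : f ∈ star T w := mem_star.2 ⟨hf, hwf⟩
      have h4 : ({u, v, w} : Finset V) ∈ star T w := mem_star.2 ⟨he, hwe⟩
      rw [hse', Finset.mem_singleton] at h3 h4
      rw [h3, h4]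
    refine finish h ih (Unit3.edge (a := u) (b := v) (c := w) ?_) ⟨by simpa using he, ?_⟩
    · simp only [List.nodup_cons, List.mem_cons, List.not_mem_nil]
      grind
    · intro f hf t ht ht'
      rw [Finset.mem_singleton]
      simp only [mem_ver, Finset.mem_singleton, exists_eq_left, Finset.mem_insert] at ht'
      rcases ht' with rfl | rfl | rfl
      · exact hall f hf ht
      · exact hall f hf ((htw f hf).2 ht)
      · exact hallw f hf ht
  · -- two edges
    obtain ⟨e₁, e₂, h12, hse⟩ := Finset.card_eq_two.1 h2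
    have hes₁ : e₁ ∈ star T u := by rw [hse]; simp
    have hes₂ : e₂ ∈ star T u := by rw [hse]; simp
    obtain ⟨he₁, hue₁⟩ := mem_star.1 hes₁
    obtain ⟨he₂, hue₂⟩ := mem_star.1 hes₂
    obtain ⟨z, hzu, hzv, rfl⟩ := three_pair (h.1 e₁ he₁) hue₁ ((htw e₁ he₁).1 hue₁) huv
    obtain ⟨w, hwu, hwv, rfl⟩ := three_pair (h.1 e₂ he₂) hue₂ ((htw e₂ he₂).1 hue₂) huv
    have hzw : z ≠ w := by
      rintro rfl
      exact h12 rfl
    have h4 : 4 + (ver (del T u)).card ≤ (star T u).card + (ver T).card := by omega
    have hT' : Ext (del T u) := h.delete h4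
    have hlost : ∀ t, t ≠ u → t ≠ v → t ∈ ver T → t ∈ ver (del T u) := by
      intro t htu htv ht
      by_contra hcon
      have := card_ver_add {u, v, t} (del_subset T u) (by
        intro z hz
        simp only [Finset.mem_insert, Finset.mem_singleton] at hz
        rcases hz with rfl | rfl | rfl <;> assumption) (by
        intro z hz
        simp only [Finset.mem_insert, Finset.mem_singleton] at hz
        rcases hz with rfl | rfl | rfl
        · exact notMem_ver_del T z
        · exact hvd
        · exact hcon)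
      rw [Finset.card_eq_three.2 ⟨u, v, t, huv, htu.symm, htv.symm, rfl⟩] at this
      omega
    have hz' : z ∈ ver (del T u) := hlost z hzu hzv (mem_ver.2 ⟨_, he₁, by simp⟩)
    have hw' : w ∈ ver (del T u) := hlost w hwu hwv (mem_ver.2 ⟨_, he₂, by simp⟩)
    have hlz := low_of_star h hes₁ (z := z) (by simp) hz'
    have hlw := low_of_star h hes₂ (z := w) (by simp) hw'
    have hno : ∀ S, Opt (del T u) S → z ∈ S → w ∈ S → False := by
      intro S hS hzS hwS
      refine h.not_trans h4 hS (trans_of_star hS.1 fun e he => ?_)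
      rw [hse, Finset.mem_insert, Finset.mem_singleton] at he
      rcases he with rfl | rfl
      · exact ⟨z, hzS, by simp⟩
      · exact ⟨w, hwS, by simp⟩
    have hlt : (del T u).card < T.card := by
      have := card_star_add_del T u
      omega
    obtain ⟨β, hβ⟩ := (ih _ hlt hT').blocks
    have hzw' := hβ.same hlz hlw hno
    -- the new unit
    have hcl : ∀ K, Closed (del T u) K → z ∈ ver K → w ∈ ver K →
        Closed T (K ∪ {{u, v, z}, {u, v, w}}) := by
      intro K hK hzK hwK
      rw [← hse]
      refine hK.attach fun e he t ht => ?_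
      rw [hse, Finset.mem_insert, Finset.mem_singleton] at he
      rcases he with rfl | rfl
      · simp only [Finset.mem_insert, Finset.mem_singleton] at ht
        rcases ht with rfl | rfl | rfl
        · exact Or.inr (notMem_ver_del T t)
        · exact Or.inr hvd
        · exact Or.inl hzK
      · simp only [Finset.mem_insert, Finset.mem_singleton] at ht
        rcases ht with rfl | rfl | rfl
        · exact Or.inr (notMem_ver_del T t)
        · exact Or.inr hvd
        · exact Or.inl hwK
    have hud : ∀ K, Closed (del T u) K → u ∉ ver K ∧ v ∉ ver K := fun K hK =>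
      ⟨fun h => notMem_ver_del T u (ver_mono hK.1 h), fun h => hvd (ver_mono hK.1 h)⟩
    -- the double chain
    have hdouble : ∀ {K : Finset (Finset V)} {a b c p q : V}, Chain K a b c p q →
        Closed (del T u) K → (z = b ∧ w = c ∨ z = c ∧ w = b) → Good T := by
      intro K a b c p q hK hc hzw
      have hn := hK.nodup
      simp only [List.nodup_cons, List.mem_cons, List.not_mem_nil] at hn
      obtain ⟨ha, hb, hcv, hp, hq⟩ := hK.mem_ver
      obtain ⟨hu', hv'⟩ := hud K hc
      have hune : ∀ t ∈ ver K, u ≠ t ∧ v ≠ t := fun t ht =>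
        ⟨fun h => hu' (h ▸ ht), fun h => hv' (h ▸ ht)⟩
      have hK₂ : Chain {{c, b, a}, {u, v, c}, {u, v, b}} c b a u v := by
        refine Chain.base ?_
        have h1 := hune a ha
        have h2 := hune b hb
        have h3 := hune c hcv
        simp only [List.nodup_cons, List.mem_cons, List.not_mem_nil]
        grind
      have hU : Unit3 (K ∪ {{c, b, a}, {u, v, c}, {u, v, b}}) := by
        refine Unit3.double hK hK₂ ?_
        intro t ht
        rw [Finset.mem_inter] at ht
        obtain ⟨ht1, ht2⟩ := ht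
        have h1 := hune t ht1
        simp only [mem_ver, Finset.mem_insert, Finset.mem_singleton, exists_eq_or_imp,
          exists_eq_left] at ht2 ⊢
        grind
      have heq : K ∪ {{c, b, a}, {u, v, c}, {u, v, b}} =
          K ∪ ({{u, v, z}, {u, v, w}} : Finset (Finset V)) := by
        have h1 : ({c, b, a} : Finset V) = {a, b, c} := by
          ext t
          simp only [Finset.mem_insert, Finset.mem_singleton]
          tauto
        have h2 := hK.mem_first
        ext f
        simp only [Finset.mem_union, Finset.mem_insert, Finset.mem_singleton, h1]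
        rcases hzw with ⟨rfl, rfl⟩ | ⟨rfl, rfl⟩
        · constructor
          · rintro (h3 | rfl | rfl | rfl)
            · exact Or.inl h3
            · exact Or.inl h2
            · exact Or.inr (Or.inr rfl)
            · exact Or.inr (Or.inl rfl)
          · rintro (h3 | rfl | rfl)
            · exact Or.inl h3
            · exact Or.inr (Or.inr (Or.inr rfl))
            · exact Or.inr (Or.inr (Or.inl rfl))
        · constructor
          · rintro (h3 | rfl | rfl | rfl)
            · exact Or.inl h3
            · exact Or.inl h2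
            · exact Or.inr (Or.inl rfl)
            · exact Or.inr (Or.inr rfl)
          · rintro (h3 | rfl | rfl)
            · exact Or.inl h3
            · exact Or.inr (Or.inr (Or.inl rfl))
            · exact Or.inr (Or.inr (Or.inr rfl))
      rw [heq] at hU
      refine finish h ih hU (hcl K hc ?_ ?_)
      · rcases hzw with ⟨rfl, rfl⟩ | ⟨rfl, rfl⟩ <;> assumption
      · rcases hzw with ⟨rfl, rfl⟩ | ⟨rfl, rfl⟩ <;> assumption
    have hpairab : ∀ {K : Finset (Finset V)} {a b c p q : V}, Chain K a b c p q →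
        Closed (del T u) K → (z = a ∧ w = b ∨ z = b ∧ w = a) → Good T := by
      intro K a b c p q hK hc hzw
      obtain ⟨S, hS, haS, hbS⟩ := hK.opt_ab
      obtain ⟨S', hS', hSS⟩ := hc.opt hT' hS
      exfalso
      rcases hzw with ⟨rfl, rfl⟩ | ⟨rfl, rfl⟩
      · exact hno S' hS' (hSS haS) (hSS hbS)
      · exact hno S' hS' (hSS hbS) (hSS haS)
    have hk := hβ.kind z hlz
    cases hk with
    | @edge a b c hn hc hf =>
      have hw3 := hf w hlw hzw'.symm
      simp only [Finset.mem_insert, Finset.mem_singleton] at hw3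
      obtain ⟨hu', hv'⟩ := hud _ hc
      simp only [mem_ver, Finset.mem_singleton, exists_eq_left, Finset.mem_insert, not_or]
        at hu' hv'
      simp only [List.nodup_cons, List.mem_cons, List.not_mem_nil] at hn
      rcases hw3 with hw3 | rfl | rfl
      · exact absurd hw3.symm hzw
      · refine finish h ih (Unit3.chain (Chain.base (a := z) (b := w) (c := c) (p := u) (q := v)
          ?_)) ?_
        · simp only [List.nodup_cons, List.mem_cons, List.not_mem_nil]
          grind
        · exact hcl {{z, w, c}} hc (by simp [mem_ver]) (by simp [mem_ver])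
      · have e1 : ({z, w, b} : Finset V) = {z, b, w} := by rw [Finset.pair_comm]
        refine finish h ih (Unit3.chain (Chain.base (a := z) (b := w) (c := b) (p := u) (q := v)
          ?_)) ?_
        · simp only [List.nodup_cons, List.mem_cons, List.not_mem_nil]
          grind
        · rw [e1]
          exact hcl {{z, b, w}} hc (by simp [mem_ver]) (by simp [mem_ver])
    | @centre K a b c p q _ hK hc hz3 hf hp hq =>
      have hw3 := hf w hlw hzw'.symm
      simp only [Finset.mem_insert, Finset.mem_singleton] at hw3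
      rcases hz3 with hz3 | hz3 | hz3 <;> rcases hw3 with hw3 | hw3 | hw3
      · exact absurd (hz3.trans hw3.symm) hzw
      · exact hpairab hK hc (Or.inl ⟨hz3, hw3⟩)
      · exact hdouble hK.swapAB hc (Or.inl ⟨hz3, hw3⟩)
      · exact hpairab hK hc (Or.inr ⟨hz3, hw3⟩)
      · exact absurd (hz3.trans hw3.symm) hzw
      · exact hdouble hK hc (Or.inl ⟨hz3, hw3⟩)
      · exact hdouble hK.swapAB hc (Or.inr ⟨hz3, hw3⟩)
      · exact hdouble hK hc (Or.inr ⟨hz3, hw3⟩)
      · exact absurd (hz3.trans hw3.symm) hzw
    | @tail K a b c p q hK hc hf =>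
      have hw3 := hf w hlw hzw'.symm
      simp only [Finset.mem_insert, Finset.mem_singleton] at hw3
      have hw4 := hw3.resolve_left (fun h => hzw h.symm)
      subst hw4
      obtain ⟨ha, hb, hcv, hp, hq⟩ := hK.mem_ver
      obtain ⟨hu', hv'⟩ := hud _ hc
      exact finish h ih (Unit3.chain (hK.grow hu' hv' huv)) (hcl K hc hp hq)
    | @dcentre K₁ K₂ a b c p q p' q' h₁ h₂ h0 hc hf =>
      exfalso
      have hw3 := hf w hlw hzw'.symm
      simp only [Finset.mem_insert, Finset.mem_singleton] at hw3
      have hw4 := hw3.resolve_left (fun h => hzw h.symm)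
      subst hw4
      obtain ⟨S, hS, haS, hcS⟩ := double_opt_ac h₁ h₂ h0
      obtain ⟨S', hS', hSS⟩ := hc.opt hT' hS
      exact hno S' hS' (hSS haS) (hSS hcS)
    | @dtail K₁ K₂ a b c p q p' q' h₁ h₂ h0 hc hf =>
      have hw3 := hf w hlw hzw'.symm
      simp only [Finset.mem_insert, Finset.mem_singleton] at hw3
      have hw4 := hw3.resolve_left (fun h => hzw h.symm)
      subst hw4
      obtain ⟨ha, hb, hcv, hp, hq⟩ := h₁.mem_ver
      obtain ⟨hu', hv'⟩ := hud _ hc
      rw [ver_union, Finset.mem_union, not_or] at hu' hv'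
      have hU : Unit3 ((K₁ ∪ {{u, v, z}, {u, v, w}}) ∪ K₂) := by
        refine Unit3.double (h₁.grow hu'.1 hv'.1 huv) h₂ ?_
        intro t ht
        rw [Finset.mem_inter, ver_union, Finset.mem_union] at ht
        obtain ⟨ht1 | ht1, ht2⟩ := ht
        · exact h0 (Finset.mem_inter.2 ⟨ht1, ht2⟩)
        · simp only [mem_ver (x := t) (T := {{u, v, z}, {u, v, w}}), Finset.mem_insert,
            Finset.mem_singleton, exists_eq_or_imp, exists_eq_left] at ht1
          rcases ht1 with (rfl | rfl | rfl) | (rfl | rfl | rfl)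
          · exact absurd ht2 hu'.2
          · exact absurd ht2 hv'.2
          · exact h0 (Finset.mem_inter.2 ⟨hp, ht2⟩)
          · exact absurd ht2 hu'.2
          · exact absurd ht2 hv'.2
          · exact h0 (Finset.mem_inter.2 ⟨hq, ht2⟩)
      have heq : (K₁ ∪ {{u, v, z}, {u, v, w}}) ∪ K₂ =
          (K₁ ∪ K₂) ∪ ({{u, v, z}, {u, v, w}} : Finset (Finset V)) := by
        rw [Finset.union_assoc, Finset.union_assoc, Finset.union_comm K₂]
      rw [heq] at hU
      refine finish h ih hU (hcl _ hc ?_ ?_)
      · rw [ver_union, Finset.mem_union]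
        exact Or.inl hp
      · rw [ver_union, Finset.mem_union]
        exact Or.inl hq
    | @seven x a₁ a₂ a₃ b₁ b₂ b₃ hn hc hf hf' =>
      exfalso
      have hw3 := hf w hlw hzw'.symm
      simp only [Finset.mem_insert, Finset.mem_singleton] at hw3
      rcases hw3 with hw3 | rfl | rfl
      · exact hzw hw3.symm
      · obtain ⟨S', hS', hSS⟩ := hc.opt hT' (seven_opt_a hn)
        exact hno S' hS' (hSS (by simp)) (hSS (by simp))
      · obtain ⟨S', hS', hSS⟩ := hc.opt hT' (seven_opt_a' hn)
        exact hno S' hS' (hSS (by simp)) (hSS (by simp))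

end Pool.Agent.MP284513
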