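import Pool.Agent.Lib.MP_284513_co.Fwd1

/-!
# Extremal hypergraphs without twins
-/

set_option linter.unusedSectionVars false

namespace Pool.Agent.MP284513

variable {V : Type} [DecidableEq V]

/-- no two vertices lie in the same edges -/
def NoTwins (T : Finset (Finset V)) : Prop :=
  ∀ u v, u ≠ v → u ∈ ver T → (∀ e ∈ T, u ∈ e ↔ v ∈ e) → False

theorem no_twin_chain {T K : Finset (Finset V)} {x a b c p q : V} (hnt : NoTwins T)
    (hK : Chain K a b c p q) (hc : Closed (del T x) K) (hp : ∀ e ∈ star T x, p ∉ e)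
    (hq : ∀ e ∈ star T x, q ∉ e) : False := by
  have hn := hK.nodup
  simp only [List.nodup_cons, List.mem_cons, List.not_mem_nil] at hn
  have hpq : p ≠ q := by grind
  obtain ⟨-, -, -, hpv, hqv⟩ := hK.mem_ver
  refine hnt p q hpq (ver_mono (hc.1.trans (del_subset T x)) hpv) fun e he => ?_
  by_cases hx : x ∈ e
  · have h1 := mem_star.2 ⟨he, hx⟩
    exact ⟨fun h => absurd h (hp e h1), fun h => absurd h (hq e h1)⟩
  · have hd := mem_del.2 ⟨he, hx⟩
    exact ⟨fun h => (hK.twin e (hc.2 e hd p h hpv)).1 h,
      fun h => (hK.twin e (hc.2 e hd q h hqv)).2 h⟩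

theorem kind3 {T : Finset (Finset V)} {β : V → V} (hβ : Blocks T β) {w₁ w₂ w₃ : V}
    (h1 : Low T w₁) (h2 : Low T w₂) (h3 : Low T w₃) (h12 : w₁ ≠ w₂) (h13 : w₁ ≠ w₃)
    (h23 : w₂ ≠ w₃) (e12 : β w₁ = β w₂) (e13 : β w₁ = β w₃) :
    Fib T β w₁ {w₁, w₂, w₃} ∧
    (Closed T {{w₁, w₂, w₃}} ∨
    (∃ K a b c p q, Chain K a b c p q ∧ Closed T K ∧
      (∀ v, v = a ∨ v = b ∨ v = c ↔ v = w₁ ∨ v = w₂ ∨ v = w₃) ∧
      Fib T β p {p, q} ∧ Fib T β q {p, q}) ∨
    (∃ x b₁ b₂ b₃, [x, w₁, w₂, w₃, b₁, b₂, b₃].Nodup ∧
      Closed T (sevenFam x w₁ w₂ w₃ b₁ b₂ b₃))) := by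
  have hk := hβ.kind w₁ h1
  cases hk with
  | @edge a b c hn hc hf =>
    have h4 := hf w₂ h2 e12.symm
    have h5 := hf w₃ h3 e13.symm
    simp only [Finset.mem_insert, Finset.mem_singleton] at h4 h5
    have e : ({w₁, b, c} : Finset V) = {w₁, w₂, w₃} := by
      ext t
      simp only [Finset.mem_insert, Finset.mem_singleton]
      grind
    rw [e] at hf hc
    exact ⟨hf, Or.inl hc⟩
  | @centre K a b c p q _ hK hc hw hf hp hq =>
    have h4 := hf w₂ h2 e12.symm
    have h5 := hf w₃ h3 e13.symm
    simp only [Finset.mem_insert, Finset.mem_singleton] at h4 h5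
    have hn := hK.nodup
    simp only [List.nodup_cons, List.mem_cons, List.not_mem_nil] at hn
    have hiff : ∀ v, v = a ∨ v = b ∨ v = c ↔ v = w₁ ∨ v = w₂ ∨ v = w₃ := by
      intro v
      grind
    have e : ({a, b, c} : Finset V) = {w₁, w₂, w₃} := by
      ext t
      simp only [Finset.mem_insert, Finset.mem_singleton]
      exact hiff t
    refine ⟨e ▸ hf, Or.inr (Or.inl ⟨K, a, b, c, p, q, hK, hc, hiff, hp, hq⟩)⟩
  | @tail K a b c p q hK hc hf =>
    have h4 := hf w₂ h2 e12.symm
    have h5 := hf w₃ h3 e13.symm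
    simp only [Finset.mem_insert, Finset.mem_singleton] at h4 h5
    exfalso
    grind
  | @dcentre K₁ K₂ a b c p q p' q' h₁ h₂ h0 hc hf =>
    have h4 := hf w₂ h2 e12.symm
    have h5 := hf w₃ h3 e13.symm
    simp only [Finset.mem_insert, Finset.mem_singleton] at h4 h5
    exfalso
    grind
  | @dtail K₁ K₂ a b c p q p' q' h₁ h₂ h0 hc hf =>
    have h4 := hf w₂ h2 e12.symm
    have h5 := hf w₃ h3 e13.symm
    simp only [Finset.mem_insert, Finset.mem_singleton] at h4 h5
    exfalso
    grind
  | @seven x a₁ a₂ a₃ b₁ b₂ b₃ hn hc hf hf' =>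
    have h4 := hf w₂ h2 e12.symm
    have h5 := hf w₃ h3 e13.symm
    simp only [Finset.mem_insert, Finset.mem_singleton] at h4 h5
    have h6 : (w₂ = a₂ ∧ w₃ = a₃) ∨ (w₂ = a₃ ∧ w₃ = a₂) := by grind
    rcases h6 with ⟨rfl, rfl⟩ | ⟨rfl, rfl⟩
    · exact ⟨hf, Or.inr (Or.inr ⟨x, b₁, b₂, b₃, hn, hc⟩)⟩
    · refine ⟨?_, Or.inr (Or.inr ⟨x, b₁, b₃, b₂, ?_, ?_⟩)⟩
      · rw [Finset.pair_comm]
        exact hf
      · simp only [List.nodup_cons, List.mem_cons, List.not_mem_nil] at hn ⊢
        grind
      · rw [seven_perm₂]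
        exact hc

/-- three vertices of degree at most two in different classes -/
theorem Blocks.opt3 {T : Finset (Finset V)} {β : V → V} (hβ : Blocks T β) {w₁ w₂ w₃ : V}
    (h1 : Low T w₁) (h2 : Low T w₂) (h3 : Low T w₃) (h12 : β w₁ ≠ β w₂) (h13 : β w₁ ≠ β w₃)
    (h23 : β w₂ ≠ β w₃) : ∃ S, Opt T S ∧ w₁ ∈ S ∧ w₂ ∈ S ∧ w₃ ∈ S := by
  obtain ⟨S, hS, hW⟩ := hβ.opt {w₁, w₂, w₃} (by
    intro v hv
    simp only [Finset.mem_insert, Finset.mem_singleton] at hv
    rcases hv with rfl | rfl | rfl <;> assumption) (by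
    intro v hv v' hv' h
    simp only [Finset.mem_insert, Finset.mem_singleton] at hv hv'
    grind)
  exact ⟨S, hS, hW (by simp), hW (by simp), hW (by simp)⟩

theorem Closed.low {T K : Finset (Finset V)} (hc : Closed T K) {v : V} (hv : Low T v)
    (hvK : v ∈ ver K) : Low K v :=
  ⟨hvK, (Finset.card_le_card (Finset.filter_subset_filter _ hc.1)).trans hv.2⟩

/-- the situation: `x` is a vertex of degree three, no other vertex vanishes with `x` -/
structure Ctx (T : Finset (Finset V)) (x : V) (β : V → V) : Prop where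
  ext : Ext T
  ih : ∀ T' : Finset (Finset V), T'.card < T.card → Ext T' → Good T'
  nt : NoTwins T
  drop : 4 + (ver (del T x)).card ≤ (star T x).card + (ver T).card
  bl : Blocks (del T x) β
  keep : ∀ e ∈ star T x, ∀ v ∈ e, v ≠ x → v ∈ ver (del T x)

theorem Ctx.ext' {T : Finset (Finset V)} {x : V} {β : V → V} (c : Ctx T x β) : Ext (del T x) :=
  c.ext.delete c.drop

theorem Ctx.low {T : Finset (Finset V)} {x : V} {β : V → V} (c : Ctx T x β) {e : Finset V}
    (he : e ∈ star T x) {v : V} (hv : v ∈ e) (hvx : v ≠ x) : Low (del T x) v :=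
  low_of_star c.ext he hv (c.keep e he v hv hvx)

theorem Ctx.no {T : Finset (Finset V)} {x : V} {β : V → V} (c : Ctx T x β) {S : Finset V}
    (hS : Opt (del T x) S) (h : ∀ e ∈ star T x, ∃ y ∈ S, y ∈ e) : False :=
  c.ext.not_trans c.drop hS (trans_of_star hS.1 h)

theorem Ctx.no3 {T : Finset (Finset V)} {x : V} {β : V → V} (c : Ctx T x β)
    {e₁ e₂ e₃ : Finset V} (hs : star T x = {e₁, e₂, e₃}) {S : Finset V}
    (hS : Opt (del T x) S) {y₁ y₂ y₃ : V} (h1 : y₁ ∈ S) (h1' : y₁ ∈ e₁) (h2 : y₂ ∈ S)
    (h2' : y₂ ∈ e₂) (h3 : y₃ ∈ S) (h3' : y₃ ∈ e₃) : False := by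
  refine c.no hS fun e he => ?_
  rw [hs] at he
  simp only [Finset.mem_insert, Finset.mem_singleton] at he
  rcases he with rfl | rfl | rfl
  · exact ⟨y₁, h1, h1'⟩
  · exact ⟨y₂, h2, h2'⟩
  · exact ⟨y₃, h3, h3'⟩

theorem Ctx.done {T K : Finset (Finset V)} {x : V} {β : V → V} (c : Ctx T x β)
    (hU : Unit3 (K ∪ star T x)) (hc : Closed (del T x) K)
    (he : ∀ e ∈ star T x, ∀ v ∈ e, v = x ∨ v ∈ ver K) : Good T := by
  refine finish c.ext c.ih hU (hc.attach fun e hes v hv => ?_)
  rcases he e hes v hv with rfl | h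
  · exact Or.inr (notMem_ver_del T v)
  · exact Or.inl h

/-- a common vertex of two edges, the edge `{s, u, v}` -/
theorem Ctx.alpha1 {T : Finset (Finset V)} {x : V} {β : V → V} (c : Ctx T x β) {s t u v : V}
    (hs : star T x = {{x, s, u}, {x, s, t}, {x, u, v}}) (hsx : s ≠ x) (htx : t ≠ x) (hux : u ≠ x)
    (hvx : v ≠ x) (hsu : s ≠ u) (hst : s ≠ t) (hsv : s ≠ v) (htu : t ≠ u) (huv : u ≠ v)
    (hc : Closed (del T x) {{s, u, v}}) (hf : Fib (del T x) β s {s, u, v})
    (hsu' : β s = β u) : Good T := by
  have m1 : ({x, s, u} : Finset V) ∈ star T x := by rw [hs]; simp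
  have m2 : ({x, s, t} : Finset V) ∈ star T x := by rw [hs]; simp
  have m3 : ({x, u, v} : Finset V) ∈ star T x := by rw [hs]; simp
  have lu := c.low m1 (v := u) (by simp) hux
  have lt := c.low m2 (v := t) (by simp) htx
  have h1 := c.bl.same lu lt (by
    intro S hS huS htS
    exact c.no3 hs hS huS (by simp) htS (by simp) huS (by simp))
  have h2 := hf t lt (by rw [hsu', h1])
  simp only [Finset.mem_insert, Finset.mem_singleton] at h2
  have h3 : t = v := by
    rcases h2 with h2 | h2 | h2
    · exact absurd h2.symm hst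
    · exact absurd h2 htu
    · exact h2
  subst h3
  have hU : Unit3 ({{s, u, t}} ∪ star T x) := by
    have h4 : ({{s, u, t}} : Finset (Finset V)) ∪ star T x =
        {{s, u, t}, {s, u, x}, {s, t, x}, {u, t, x}} := by
      rw [hs]
      have e1 : ({x, s, u} : Finset V) = {s, u, x} := by
        ext w; simp only [Finset.mem_insert, Finset.mem_singleton]; tauto
      have e2 : ({x, s, t} : Finset V) = {s, t, x} := by
        ext w; simp only [Finset.mem_insert, Finset.mem_singleton]; tauto
      have e3 : ({x, u, t} : Finset V) = {u, t, x} := by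
        ext w; simp only [Finset.mem_insert, Finset.mem_singleton]; tauto
      rw [e1, e2, e3]
      rfl
    rw [h4]
    refine Unit3.four ?_
    simp only [List.nodup_cons, List.mem_cons, List.not_mem_nil]
    grind
  refine c.done hU hc fun e he w hw => ?_
  rw [hs] at he
  simp only [Finset.mem_insert, Finset.mem_singleton] at he
  simp only [mem_ver, Finset.mem_singleton, exists_eq_left, Finset.mem_insert]
  rcases he with rfl | rfl | rfl <;> simp only [Finset.mem_insert, Finset.mem_singleton] at hw <;>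
    tauto

/-- a common vertex of two edges, the centre of a chain -/
theorem Ctx.alpha2 {T K : Finset (Finset V)} {x : V} {β : V → V} (c : Ctx T x β) {t a b d p q : V}
    (hs : star T x = {{x, d, p}, {x, d, t}, {x, a, b}}) (hK : Chain K a b d p q)
    (hc : Closed (del T x) K) (htx : t ≠ x) (hdt : d ≠ t) (htp : t ≠ p)
    (hf : Fib (del T x) β d {a, b, d}) (hp : Fib (del T x) β p {p, q})
    (hda : β d = β a) : Good T := by
  have hn := hK.nodup
  simp only [List.nodup_cons, List.mem_cons, List.not_mem_nil] at hn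
  obtain ⟨ha, hb, hd, hpv, hqv⟩ := hK.mem_ver
  have hxK : ∀ y ∈ ver K, y ≠ x := by
    rintro y hy rfl
    exact notMem_ver_del T y (ver_mono hc.1 hy)
  have m1 : ({x, d, p} : Finset V) ∈ star T x := by rw [hs]; simp
  have m2 : ({x, d, t} : Finset V) ∈ star T x := by rw [hs]; simp
  have m3 : ({x, a, b} : Finset V) ∈ star T x := by rw [hs]; simp
  have lp := c.low m1 (v := p) (by simp) (hxK p hpv)
  have ld := c.low m1 (v := d) (by simp) (hxK d hd)
  have lt := c.low m2 (v := t) (by simp) htx
  have la := c.low m3 (v := a) (by simp) (hxK a ha)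
  have hpd : β p ≠ β d := by
    intro h
    have h1 := hf p lp h
    simp only [Finset.mem_insert, Finset.mem_singleton] at h1
    grind
  have htq : t = q := by
    by_contra htq
    have hpt : β p ≠ β t := by
      intro h
      have h1 := hp t lt h.symm
      simp only [Finset.mem_insert, Finset.mem_singleton] at h1
      rcases h1 with h1 | h1
      · exact htp h1
      · exact htq h1
    by_cases htd : β t = β d
    · have h1 := hf t lt htd
      simp only [Finset.mem_insert, Finset.mem_singleton] at h1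
      have h2 : t = a ∨ t = b := by
        rcases h1 with h1 | h1 | h1
        · exact Or.inl h1
        · exact Or.inr h1
        · exact absurd h1.symm hdt
      refine hpt (c.bl.same lp lt fun S hS hpS htS => ?_)
      refine c.no3 hs hS hpS (by simp) htS (by simp) htS ?_
      simp only [Finset.mem_insert, Finset.mem_singleton]
      exact Or.inr h2
    · obtain ⟨S, hS, hpS, htS, haS⟩ := c.bl.opt3 lp lt la hpt (by rw [← hda]; exact hpd)
        (by rw [← hda]; exact htd)
      exact c.no3 hs hS hpS (by simp) htS (by simp) haS (by simp)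
  subst htq
  have hU : Unit3 (K ∪ star T x) := by
    rw [hs]
    exact Unit3.cycle hK fun h => hxK x h rfl
  refine c.done hU hc fun e he w hw => ?_
  rw [hs] at he
  simp only [Finset.mem_insert, Finset.mem_singleton] at he
  rcases he with rfl | rfl | rfl <;> simp only [Finset.mem_insert, Finset.mem_singleton] at hw <;>
    rcases hw with rfl | rfl | rfl <;> tauto

/-- two of the three edges through `x` have a second common vertex -/
theorem Ctx.alpha {T : Finset (Finset V)} {x : V} {β : V → V} (c : Ctx T x β) {s t₁ t₂ u v : V}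
    (hs : star T x = {{x, s, t₁}, {x, s, t₂}, {x, u, v}}) (hsx : s ≠ x) (ht₁x : t₁ ≠ x)
    (ht₂x : t₂ ≠ x) (hux : u ≠ x) (hvx : v ≠ x) (hst₁ : s ≠ t₁) (hst₂ : s ≠ t₂) (ht : t₁ ≠ t₂)
    (huv : u ≠ v) (hsu : s ≠ u) (hsv : s ≠ v) : Good T := by
  have m1 : ({x, s, t₁} : Finset V) ∈ star T x := by rw [hs]; simp
  have m2 : ({x, s, t₂} : Finset V) ∈ star T x := by rw [hs]; simp
  have m3 : ({x, u, v} : Finset V) ∈ star T x := by rw [hs]; simp
  have ls := c.low m1 (v := s) (by simp) hsx
  have lu := c.low m3 (v := u) (by simp) hux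
  have lv := c.low m3 (v := v) (by simp) hvx
  -- other forms of the star
  have hs2 : star T x = {{x, s, t₂}, {x, s, t₁}, {x, u, v}} := by
    rw [hs, Finset.insert_comm]
  have hs3 : star T x = {{x, s, t₁}, {x, s, t₂}, {x, v, u}} := by
    rw [hs, Finset.pair_comm u v]
  have hs4 : star T x = {{x, s, t₂}, {x, s, t₁}, {x, v, u}} := by
    rw [hs2, Finset.pair_comm u v]
  have esu : β s = β u := c.bl.same ls lu fun S hS h1 h2 =>
    c.no3 hs hS h1 (by simp) h1 (by simp) h2 (by simp)
  have esv : β s = β v := c.bl.same ls lv fun S hS h1 h2 =>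
    c.no3 hs hS h1 (by simp) h1 (by simp) h2 (by simp)
  have hdeg : (star (del T x) s).card ≤ 1 := by
    have h1 := star_add c.ext {({x, s, t₁} : Finset V), {x, s, t₂}} (by
      intro e he
      simp only [Finset.mem_insert, Finset.mem_singleton] at he
      rcases he with rfl | rfl <;> assumption) (z := s) (by
      intro e he
      simp only [Finset.mem_insert, Finset.mem_singleton] at he
      rcases he with rfl | rfl <;> simp) ls.1
    rw [Finset.card_pair (by
      intro h
      have h2 : t₁ ∈ ({x, s, t₂} : Finset V) := by rw [← h]; simp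
      simp only [Finset.mem_insert, Finset.mem_singleton] at h2
      rcases h2 with h2 | h2 | h2
      · exact ht₁x h2
      · exact hst₁ h2.symm
      · exact ht h2)] at h1
    omega
  obtain ⟨hf, hk⟩ := kind3 c.bl ls lu lv hsu hsv huv esu esv
  have hf' : Fib (del T x) β s {s, v, u} := by
    rw [Finset.pair_comm v u]
    exact hf
  rcases hk with hc | ⟨K, a, b, d, p, q, hK, hc, hiff, hp, hq⟩ | ⟨y, b₁, b₂, b₃, hn, hc⟩
  · -- a single edge
    have hc' : Closed (del T x) {{s, v, u}} := by
      rw [Finset.pair_comm v u]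
      exact hc
    by_cases h1 : t₁ = u
    · subst h1
      exact c.alpha1 hs hsx ht₂x hux hvx hsu hst₂ hsv ht.symm huv hc hf esu
    by_cases h2 : t₂ = u
    · subst h2
      exact c.alpha1 hs2 hsx ht₁x hux hvx hsu hst₁ hsv ht huv hc hf esu
    by_cases h3 : t₁ = v
    · subst h3
      exact c.alpha1 hs3 hsx ht₂x hvx hux hsv hst₂ hsu ht.symm huv.symm hc' hf' esv
    by_cases h4 : t₂ = v
    · subst h4
      exact c.alpha1 hs4 hsx ht₁x hvx hux hsv hst₁ hsu ht huv.symm hc' hf' esv
    exfalso
    refine c.nt u v huv (ver_mono (del_subset T x) lu.1) fun f hf => ?_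
    by_cases hx : x ∈ f
    · have h5 : f ∈ star T x := mem_star.2 ⟨hf, hx⟩
      rw [hs] at h5
      simp only [Finset.mem_insert, Finset.mem_singleton] at h5
      rcases h5 with rfl | rfl | rfl <;> simp only [Finset.mem_insert, Finset.mem_singleton] <;>
        grind
    · have h5 := mem_del.2 ⟨hf, hx⟩
      constructor
      · intro h6
        have h7 := hc.2 f h5 u h6 (by simp [mem_ver])
        rw [Finset.mem_singleton] at h7
        rw [h7]
        simp
      · intro h6
        have h7 := hc.2 f h5 v h6 (by simp [mem_ver])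
        rw [Finset.mem_singleton] at h7
        rw [h7]
        simp
  · -- the centre of a chain
    obtain ⟨ha, hb, hd, hpv, hqv⟩ := hK.mem_ver
    have hn := hK.nodup
    simp only [List.nodup_cons, List.mem_cons, List.not_mem_nil] at hn
    have hdle : ∀ z, (star K z).card ≤ (star (del T x) z).card := fun z =>
      Finset.card_le_card (Finset.filter_subset_filter _ hc.1)
    have hsd : s = d := by
      rcases (hiff s).2 (Or.inl rfl) with h | h | h
      · have h1 := hK.star_a
        have h2 := hdle a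
        rw [h] at hdeg
        omega
      · have h1 := hK.swapAB.star_a
        have h2 := hdle b
        rw [h] at hdeg
        omega
      · exact h
    subst hsd
    have huab : (u = a ∧ v = b) ∨ (u = b ∧ v = a) := by
      have h1 := (hiff u).2 (by simp)
      have h2 := (hiff v).2 (by simp)
      grind
    have hxK : ∀ y ∈ ver K, y ≠ x := by
      rintro y hy rfl
      exact notMem_ver_del T y (ver_mono hc.1 hy)
    have hpx := hxK p hpv
    have hqx := hxK q hqv
    -- the four cases for the last pair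
    have key : ∀ {a b p q : V}, Chain K a b s p q → Fib (del T x) β p {p, q} →
        star T x = {{x, s, t₁}, {x, s, t₂}, {x, a, b}} → Fib (del T x) β s {a, b, s} →
        β s = β a → (t₁ = p ∨ t₂ = p) → Good T := by
      intro a b p q hK hp hs hf esa h
      rcases h with rfl | rfl
      · exact c.alpha2 hs hK hc ht₂x hst₂ ht.symm hf hp esa
      · refine c.alpha2 (t := t₁) ?_ hK hc ht₁x hst₁ ht hf hp esa
        rw [hs, Finset.insert_comm]
    have hfab : Fib (del T x) β s {a, b, s} := by
      intro w hw hws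
      have := hf w hw hws
      simp only [Finset.mem_insert, Finset.mem_singleton] at this ⊢
      exact (hiff w).2 this
    have hfba : Fib (del T x) β s {b, a, s} := by
      intro w hw hws
      have := hf w hw hws
      simp only [Finset.mem_insert, Finset.mem_singleton] at this ⊢
      have := (hiff w).2 this
      tauto
    by_cases h : (t₁ = p ∨ t₂ = p) ∨ (t₁ = q ∨ t₂ = q)
    · have hq' : Fib (del T x) β q {q, p} := by
        rw [Finset.pair_comm]
        exact hq
      rcases huab with ⟨rfl, rfl⟩ | ⟨rfl, rfl⟩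
      · rcases h with h | h
        · exact key hK hp hs hfab esu h
        · exact key hK.swapPQ hq' hs hfab esu h
      · rcases h with h | h
        · exact key hK.swapAB hp hs hfba esu h
        · exact key hK.swapAB.swapPQ hq' hs hfba esu h
    · exfalso
      push Not at h
      refine no_twin_chain c.nt hK hc ?_ ?_
      · intro e he
        rw [hs] at he
        simp only [Finset.mem_insert, Finset.mem_singleton] at he
        rcases he with rfl | rfl | rfl <;> simp only [Finset.mem_insert, Finset.mem_singleton] <;>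
          grind
      · intro e he
        rw [hs] at he
        simp only [Finset.mem_insert, Finset.mem_singleton] at he
        rcases he with rfl | rfl | rfl <;> simp only [Finset.mem_insert, Finset.mem_singleton] <;>
          grind
  · -- seven points
    exfalso
    have h1 := seven_star hn
    have h2 : (star (sevenFam y s u v b₁ b₂ b₃) s).card ≤ (star (del T x) s).card :=
      Finset.card_le_card (Finset.filter_subset_filter _ hc.1)
    omega

end Pool.Agent.MP284513
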