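import Pool.Agent.Lib.MP_284513_co.Fwd2

/-!
# Extremal hypergraphs without twins: three edges with only one common vertex
-/

set_option linter.unusedSectionVars false

namespace Pool.Agent.MP284513

variable {V : Type} [DecidableEq V]

/-- the star of `x` consists of three edges whose other vertices are different -/
structure Dem (T : Finset (Finset V)) (x u₁ v₁ u₂ v₂ u₃ v₃ : V) : Prop where
  st : star T x = {{x, u₁, v₁}, {x, u₂, v₂}, {x, u₃, v₃}}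
  nodup : [x, u₁, v₁, u₂, v₂, u₃, v₃].Nodup

section

variable {T : Finset (Finset V)} {x u₁ v₁ u₂ v₂ u₃ v₃ : V}

theorem Dem.swap₁ (h : Dem T x u₁ v₁ u₂ v₂ u₃ v₃) : Dem T x v₁ u₁ u₂ v₂ u₃ v₃ := by
  refine ⟨?_, ?_⟩
  · rw [h.st, Finset.pair_comm u₁ v₁]
  · have := h.nodup
    simp only [List.nodup_cons, List.mem_cons, List.not_mem_nil] at this ⊢
    grind

theorem Dem.perm₁₂ (h : Dem T x u₁ v₁ u₂ v₂ u₃ v₃) : Dem T x u₂ v₂ u₁ v₁ u₃ v₃ := by
  refine ⟨?_, ?_⟩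
  · rw [h.st, Finset.insert_comm]
  · have := h.nodup
    simp only [List.nodup_cons, List.mem_cons, List.not_mem_nil] at this ⊢
    grind

theorem Dem.perm₂₃ (h : Dem T x u₁ v₁ u₂ v₂ u₃ v₃) : Dem T x u₁ v₁ u₃ v₃ u₂ v₂ := by
  refine ⟨?_, ?_⟩
  · rw [h.st, Finset.pair_comm ({x, u₂, v₂} : Finset V)]
  · have := h.nodup
    simp only [List.nodup_cons, List.mem_cons, List.not_mem_nil] at this ⊢
    grind

theorem Dem.swap₂ (h : Dem T x u₁ v₁ u₂ v₂ u₃ v₃) : Dem T x u₁ v₁ v₂ u₂ u₃ v₃ :=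
  h.perm₁₂.swap₁.perm₁₂

theorem Dem.swap₃ (h : Dem T x u₁ v₁ u₂ v₂ u₃ v₃) : Dem T x u₁ v₁ u₂ v₂ v₃ u₃ :=
  h.perm₂₃.swap₂.perm₂₃

theorem Dem.low {β : V → V} (h : Dem T x u₁ v₁ u₂ v₂ u₃ v₃) (c : Ctx T x β) :
    Low (del T x) u₁ ∧ Low (del T x) v₁ ∧ Low (del T x) u₂ ∧ Low (del T x) v₂ ∧
      Low (del T x) u₃ ∧ Low (del T x) v₃ := by
  have hn := h.nodup
  simp only [List.nodup_cons, List.mem_cons, List.not_mem_nil] at hn
  have m1 : ({x, u₁, v₁} : Finset V) ∈ star T x := by rw [h.st]; simp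
  have m2 : ({x, u₂, v₂} : Finset V) ∈ star T x := by rw [h.st]; simp
  have m3 : ({x, u₃, v₃} : Finset V) ∈ star T x := by rw [h.st]; simp
  refine ⟨c.low m1 (by simp) ?_, c.low m1 (by simp) ?_, c.low m2 (by simp) ?_,
    c.low m2 (by simp) ?_, c.low m3 (by simp) ?_, c.low m3 (by simp) ?_⟩ <;> grind

/-- no optimal transversal of the rest meets the three pairs -/
theorem Dem.no {β : V → V} (h : Dem T x u₁ v₁ u₂ v₂ u₃ v₃) (c : Ctx T x β) {S : Finset V}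
    (hS : Opt (del T x) S) (h1 : u₁ ∈ S ∨ v₁ ∈ S) (h2 : u₂ ∈ S ∨ v₂ ∈ S)
    (h3 : u₃ ∈ S ∨ v₃ ∈ S) : False := by
  refine c.no hS fun e he => ?_
  rw [h.st] at he
  simp only [Finset.mem_insert, Finset.mem_singleton] at he
  rcases he with rfl | rfl | rfl
  · rcases h1 with h1 | h1
    · exact ⟨_, h1, by simp⟩
    · exact ⟨_, h1, by simp⟩
  · rcases h2 with h1 | h1
    · exact ⟨_, h1, by simp⟩
    · exact ⟨_, h1, by simp⟩
  · rcases h3 with h1 | h1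
    · exact ⟨_, h1, by simp⟩
    · exact ⟨_, h1, by simp⟩

theorem Dem.mem {v : V} (h : Dem T x u₁ v₁ u₂ v₂ u₃ v₃) :
    ∀ e ∈ star T x, v ∈ e →
      v = x ∨ v = u₁ ∨ v = v₁ ∨ v = u₂ ∨ v = v₂ ∨ v = u₃ ∨ v = v₃ := by
  intro e he hv
  rw [h.st] at he
  simp only [Finset.mem_insert, Finset.mem_singleton] at he
  rcases he with rfl | rfl | rfl <;> simp only [Finset.mem_insert, Finset.mem_singleton] at hv <;>
    tauto

theorem rot_three {α : Type} [DecidableEq α] (a b c : α) : ({a, b, c} : Finset α) = {b, c, a} := by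
  ext t
  simp only [Finset.mem_insert, Finset.mem_singleton]
  tauto

/-- the class of `u₁, u₂, u₃` is a part of the hypergraph with seven vertices -/
theorem Dem.seven {β : V → V} (h : Dem T x u₁ v₁ u₂ v₂ u₃ v₃) (c : Ctx T x β) {y b₁ b₂ b₃ : V}
    (hn : [y, u₁, u₂, u₃, b₁, b₂, b₃].Nodup)
    (hc : Closed (del T x) (sevenFam y u₁ u₂ u₃ b₁ b₂ b₃)) : Good T := by
  obtain ⟨lu₁, lv₁, lu₂, lv₂, lu₃, lv₃⟩ := h.low c
  have hv₁ : v₁ ∈ ver (sevenFam y u₁ u₂ u₃ b₁ b₂ b₃) := by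
    by_contra hcon
    obtain ⟨S, hS, hSS, hvS⟩ := hc.opt_mem c.ext' (seven_opt_a'' hn) lv₁.1 hcon
    exact h.no c hS (Or.inr hvS) (Or.inl (hSS (by simp))) (Or.inl (hSS (by simp)))
  have hv₂ : v₂ ∈ ver (sevenFam y u₁ u₂ u₃ b₁ b₂ b₃) := by
    by_contra hcon
    obtain ⟨S, hS, hSS, hvS⟩ := hc.opt_mem c.ext' (seven_opt_a' hn) lv₂.1 hcon
    exact h.no c hS (Or.inl (hSS (by simp))) (Or.inr hvS) (Or.inl (hSS (by simp)))
  have hv₃ : v₃ ∈ ver (sevenFam y u₁ u₂ u₃ b₁ b₂ b₃) := by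
    by_contra hcon
    obtain ⟨S, hS, hSS, hvS⟩ := hc.opt_mem c.ext' (seven_opt_a hn) lv₃.1 hcon
    exact h.no c hS (Or.inl (hSS (by simp))) (Or.inl (hSS (by simp))) (Or.inr hvS)
  have w₁ := seven_low hn (hc.low lv₁ hv₁)
  have w₂ := seven_low hn (hc.low lv₂ hv₂)
  have w₃ := seven_low hn (hc.low lv₃ hv₃)
  have hn' := h.nodup
  simp only [List.nodup_cons, List.mem_cons, List.not_mem_nil] at hn hn'
  by_cases e1 : v₁ = b₁
  · exfalso
    obtain ⟨S, hS, hSS⟩ := hc.opt c.ext' (seven_opt_a'' (by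
      simp only [List.nodup_cons, List.mem_cons, List.not_mem_nil]; exact hn))
    exact h.no c hS (Or.inr (hSS (by simp [e1]))) (Or.inl (hSS (by simp)))
      (Or.inl (hSS (by simp)))
  by_cases e2 : v₂ = b₂
  · exfalso
    obtain ⟨S, hS, hSS⟩ := hc.opt c.ext' (seven_opt_a' (by
      simp only [List.nodup_cons, List.mem_cons, List.not_mem_nil]; exact hn))
    exact h.no c hS (Or.inl (hSS (by simp))) (Or.inr (hSS (by simp [e2])))
      (Or.inl (hSS (by simp)))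
  by_cases e3 : v₃ = b₃
  · exfalso
    obtain ⟨S, hS, hSS⟩ := hc.opt c.ext' (seven_opt_a (by
      simp only [List.nodup_cons, List.mem_cons, List.not_mem_nil]; exact hn))
    exact h.no c hS (Or.inl (hSS (by simp))) (Or.inl (hSS (by simp)))
      (Or.inr (hSS (by simp [e3])))
  have hder : (v₁ = b₂ ∧ v₂ = b₃ ∧ v₃ = b₁) ∨ (v₁ = b₃ ∧ v₂ = b₁ ∧ v₃ = b₂) := by
    clear hc lu₁ lv₁ lu₂ lv₂ lu₃ lv₃ hv₁ hv₂ hv₃
    have w₁' : v₁ = b₂ ∨ v₁ = b₃ := by grind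
    have w₂' : v₂ = b₁ ∨ v₂ = b₃ := by grind
    have w₃' : v₃ = b₁ ∨ v₃ = b₂ := by grind
    grind
  have hyx : y ≠ x := by
    rintro rfl
    exact notMem_ver_del T y (ver_mono hc.1 (by rw [seven_ver]; simp))
  have hbx : ∀ b, b = b₁ ∨ b = b₂ ∨ b = b₃ → b ≠ x := by
    rintro b hb rfl
    refine notMem_ver_del T b (ver_mono hc.1 ?_)
    rw [seven_ver]
    rcases hb with rfl | rfl | rfl <;> simp
  have hx₁ := hbx b₁ (by simp)
  have hx₂ := hbx b₂ (by simp)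
  have hx₃ := hbx b₃ (by simp)
  have hU : Unit3 (sevenFam y u₁ u₂ u₃ b₁ b₂ b₃ ∪ star T x) := by
    rw [h.st]
    rcases hder with ⟨rfl, rfl, rfl⟩ | ⟨rfl, rfl, rfl⟩
    · refine Unit3.eight (y := x) ?_
      simp only [List.nodup_cons, List.mem_cons, List.not_mem_nil]
      grind
    · have e : sevenFam y u₁ u₂ u₃ v₂ v₃ v₁ ∪
          ({{x, u₁, v₁}, {x, u₂, v₂}, {x, u₃, v₃}} : Finset (Finset V)) =
          eightFam y x v₂ v₃ v₁ u₁ u₂ u₃ := by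
        rw [eightFam, seven_swap, Finset.pair_comm u₁ v₁, Finset.pair_comm u₂ v₂,
          Finset.pair_comm u₃ v₃]
        rw [rot_three]
      rw [e]
      refine Unit3.eight ?_
      simp only [List.nodup_cons, List.mem_cons, List.not_mem_nil]
      grind
  refine c.done hU hc fun e he v hv => ?_
  have hu : ∀ u, u = u₁ ∨ u = u₂ ∨ u = u₃ → u ∈ ver (sevenFam y u₁ u₂ u₃ b₁ b₂ b₃) := by
    intro u hu
    rw [seven_ver]
    rcases hu with rfl | rfl | rfl <;> simp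
  rcases h.mem e he hv with rfl | rfl | rfl | rfl | rfl | rfl | rfl
  · exact Or.inl rfl
  · exact Or.inr (hu _ (by simp))
  · exact Or.inr hv₁
  · exact Or.inr (hu _ (by simp))
  · exact Or.inr hv₂
  · exact Or.inr (hu _ (by simp))
  · exact Or.inr hv₃

/-- the class of `u₁, u₂, u₃` is not the centre of a chain if the other three vertices form a class
too -/
theorem Dem.not_centre {β : V → V} (c : Ctx T x β) {w₁ w₂ w₃ w₄ w₅ w₆ : V}
    (hn : [x, w₁, w₂, w₃, w₄, w₅, w₆].Nodup)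
    (hstar : ∀ e ∈ star T x, ∀ v ∈ e, v = x ∨ v = w₁ ∨ v = w₂ ∨ v = w₃ ∨ v = w₄ ∨ v = w₅ ∨ v = w₆)
    (l₄ : Low (del T x) w₄) (l₅ : Low (del T x) w₅) (l₆ : Low (del T x) w₆)
    (h45 : β w₄ = β w₅) (h56 : β w₅ = β w₆)
    (hk : ∃ K a b d p q, Chain K a b d p q ∧ Closed (del T x) K ∧
      (∀ v, v = a ∨ v = b ∨ v = d ↔ v = w₁ ∨ v = w₂ ∨ v = w₃) ∧
      Fib (del T x) β p {p, q} ∧ Fib (del T x) β q {p, q}) : False := by
  obtain ⟨K, a, b, d, p, q, hK, hc, hiff, hp, hq⟩ := hk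
  obtain ⟨ha, hb, hd, hpv, hqv⟩ := hK.mem_ver
  have hn' := hK.nodup
  simp only [List.nodup_cons, List.mem_cons, List.not_mem_nil] at hn hn'
  have hxK : ∀ y ∈ ver K, y ≠ x := by
    rintro y hy rfl
    exact notMem_ver_del T y (ver_mono hc.1 hy)
  have hpx := hxK p hpv
  have hqx := hxK q hqv
  have key : ∀ t, (t = p ∨ t = q) → Fib (del T x) β t {p, q} → ∀ e ∈ star T x, t ∉ e := by
    intro t ht hf e he hte
    have h1 := hstar e he t hte
    have h2 : ¬ (t = w₁ ∨ t = w₂ ∨ t = w₃) := by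
      rw [← hiff]
      grind
    have h3 : t ≠ x := by
      rcases ht with rfl | rfl <;> assumption
    have h4 : t = w₄ ∨ t = w₅ ∨ t = w₆ := by tauto
    have h5 : β t = β w₄ := by
      rcases h4 with rfl | rfl | rfl
      · rfl
      · exact h45.symm
      · rw [h45, h56]
    have f4 := hf w₄ l₄ h5.symm
    have f5 := hf w₅ l₅ (by rw [h5, h45])
    have f6 := hf w₆ l₆ (by rw [h5, h45, h56])
    simp only [Finset.mem_insert, Finset.mem_singleton] at f4 f5 f6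
    grind
  exact no_twin_chain c.nt hK hc (key p (Or.inl rfl) hp) (key q (Or.inr rfl) hq)

/-- two classes which are crossed by the three pairs -/
theorem Dem.cross {β : V → V} (h : Dem T x u₁ v₁ u₂ v₂ u₃ v₃) (c : Ctx T x β)
    (hu12 : β u₁ = β u₂) (hu23 : β u₂ = β u₃) (hv12 : β v₁ = β v₂) (hv23 : β v₂ = β v₃) :
    Good T := by
  obtain ⟨lu₁, lv₁, lu₂, lv₂, lu₃, lv₃⟩ := h.low c
  have hn := h.nodup
  simp only [List.nodup_cons, List.mem_cons, List.not_mem_nil] at hn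
  obtain ⟨-, hku⟩ := kind3 c.bl lu₁ lu₂ lu₃ (by grind) (by grind) (by grind) hu12
    (hu12.trans hu23)
  obtain ⟨-, hkv⟩ := kind3 c.bl lv₁ lv₂ lv₃ (by grind) (by grind) (by grind) hv12
    (hv12.trans hv23)
  rcases hku with hcu | hcu | ⟨y, b₁, b₂, b₃, hb, hcu⟩
  · rcases hkv with hcv | hcv | ⟨y, b₁, b₂, b₃, hb, hcv⟩
    · have e : ({{u₁, u₂, u₃}} ∪ {{v₁, v₂, v₃}} : Finset (Finset V)) ∪ star T x =
          sevenFam x u₁ u₂ u₃ v₁ v₂ v₃ := by
        rw [h.st]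
        ext f
        simp only [sevenFam, Finset.mem_union, Finset.mem_insert, Finset.mem_singleton]
        tauto
      have hU : Unit3 (({{u₁, u₂, u₃}} ∪ {{v₁, v₂, v₃}} : Finset (Finset V)) ∪
          star T x) := by
        rw [e]
        refine Unit3.seven ?_
        simp only [List.nodup_cons, List.mem_cons, List.not_mem_nil]
        grind
      refine c.done hU (hcu.union hcv) fun f hf v hv => ?_
      have h1 := h.mem f hf hv
      simp only [mem_ver, Finset.mem_union, Finset.mem_singleton, or_and_right, exists_or,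
        exists_eq_left, Finset.mem_insert]
      tauto
    · exfalso
      refine Dem.not_centre c (w₁ := v₁) (w₂ := v₂) (w₃ := v₃) (w₄ := u₁) (w₅ := u₂) (w₆ := u₃)
        ?_ ?_ lu₁ lu₂ lu₃ hu12 hu23 hcv
      · simp only [List.nodup_cons, List.mem_cons, List.not_mem_nil]
        grind
      · intro f hf v hv
        have h1 := h.mem f hf hv
        tauto
    · exact h.swap₁.swap₂.swap₃.seven c hb hcv
  · exfalso
    refine Dem.not_centre c (w₁ := u₁) (w₂ := u₂) (w₃ := u₃) (w₄ := v₁) (w₅ := v₂) (w₆ := v₃)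
      ?_ ?_ lv₁ lv₂ lv₃ hv12 hv23 hcu
    · simp only [List.nodup_cons, List.mem_cons, List.not_mem_nil]
      grind
    · intro f hf v hv
      have h1 := h.mem f hf hv
      tauto
  · exact h.seven c hb hcu

/-- two classes which both contain one of the pairs -/
theorem Dem.loops {β : V → V} (h : Dem T x u₁ v₁ u₂ v₂ u₃ v₃) (c : Ctx T x β)
    (h1 : β u₁ = β v₁) (h2 : β v₁ = β u₂) (h3 : β v₂ = β u₃) (h4 : β u₃ = β v₃) : False := by
  obtain ⟨lu₁, lv₁, lu₂, lv₂, lu₃, lv₃⟩ := h.low c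
  have hn := h.nodup
  simp only [List.nodup_cons, List.mem_cons, List.not_mem_nil] at hn
  obtain ⟨-, hk⟩ := kind3 c.bl lu₁ lv₁ lu₂ (by grind) (by grind) (by grind) h1 (h1.trans h2)
  rcases hk with hc | hc | ⟨y, b₁, b₂, b₃, hb, hc⟩
  · refine c.nt u₁ v₁ (by grind) (ver_mono (del_subset T x) lu₁.1) fun f hf => ?_
    by_cases hx : x ∈ f
    · have h5 : f ∈ star T x := mem_star.2 ⟨hf, hx⟩
      rw [h.st] at h5
      simp only [Finset.mem_insert, Finset.mem_singleton] at h5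
      rcases h5 with rfl | rfl | rfl <;> simp only [Finset.mem_insert, Finset.mem_singleton] <;>
        grind
    · have h5 := mem_del.2 ⟨hf, hx⟩
      constructor
      · intro h6
        have h7 := hc.2 f h5 u₁ h6 (by simp [mem_ver])
        rw [Finset.mem_singleton] at h7
        rw [h7]
        simp
      · intro h6
        have h7 := hc.2 f h5 v₁ h6 (by simp [mem_ver])
        rw [Finset.mem_singleton] at h7
        rw [h7]
        simp
  · refine Dem.not_centre c (w₁ := u₁) (w₂ := v₁) (w₃ := u₂) (w₄ := v₂) (w₅ := u₃) (w₆ := v₃)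
      ?_ ?_ lv₂ lu₃ lv₃ h3 h4 hc
    · simp only [List.nodup_cons, List.mem_cons, List.not_mem_nil]
      grind
    · intro f hf v hv
      have h1 := h.mem f hf hv
      tauto
  · have hu₃ : u₃ ∈ ver (sevenFam y u₁ v₁ u₂ b₁ b₂ b₃) := by
      by_contra hcon
      obtain ⟨S, hS, hSS, hvS⟩ := hc.opt_mem c.ext' (seven_opt_a' hb) lu₃.1 hcon
      exact h.no c hS (Or.inl (hSS (by simp))) (Or.inl (hSS (by simp))) (Or.inl hvS)
    have hv₃ : v₃ ∈ ver (sevenFam y u₁ v₁ u₂ b₁ b₂ b₃) := by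
      by_contra hcon
      obtain ⟨S, hS, hSS, hvS⟩ := hc.opt_mem c.ext' (seven_opt_a' hb) lv₃.1 hcon
      exact h.no c hS (Or.inl (hSS (by simp))) (Or.inl (hSS (by simp))) (Or.inr hvS)
    have w₁ := seven_low hb (hc.low lu₃ hu₃)
    have w₂ := seven_low hb (hc.low lv₃ hv₃)
    by_cases e2 : u₃ = b₂ ∨ v₃ = b₂
    · obtain ⟨S, hS, hSS⟩ := hc.opt c.ext' (seven_opt_a' hb)
      have hbS : b₂ ∈ S := hSS (by simp)
      refine h.no c hS (Or.inl (hSS (by simp))) (Or.inl (hSS (by simp))) ?_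
      rcases e2 with e2 | e2
      · exact Or.inl (e2 ▸ hbS)
      · exact Or.inr (e2 ▸ hbS)
    · have e3 : u₃ = b₁ ∨ v₃ = b₁ := by
        clear hc lu₁ lv₁ lu₂ lv₂ lu₃ lv₃ hu₃ hv₃
        have w₁' : u₃ = b₁ ∨ u₃ = b₃ := by grind
        have w₂' : v₃ = b₁ ∨ v₃ = b₃ := by grind
        grind
      obtain ⟨S, hS, hSS⟩ := hc.opt c.ext' (seven_opt_a'' hb)
      have hbS : b₁ ∈ S := hSS (by simp)
      refine h.no c hS (Or.inr (hSS (by simp))) (Or.inl (hSS (by simp))) ?_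
      rcases e3 with e3 | e3
      · exact Or.inl (e3 ▸ hbS)
      · exact Or.inr (e3 ▸ hbS)

/-- no class has four elements -/
theorem Blocks.no_four {β : V → V} (hβ : Blocks T β) {w₁ w₂ w₃ w₄ : V} (l₁ : Low T w₁)
    (l₂ : Low T w₂) (l₃ : Low T w₃) (l₄ : Low T w₄) (hn : [w₁, w₂, w₃, w₄].Nodup) :
    ¬ (β w₁ = β w₂ ∧ β w₂ = β w₃ ∧ β w₃ = β w₄) := by
  rintro ⟨h1, h2, h3⟩
  simp only [List.nodup_cons, List.mem_cons, List.not_mem_nil] at hn
  obtain ⟨hf, -⟩ := kind3 hβ l₁ l₂ l₃ (by grind) (by grind) (by grind) h1 (h1.trans h2)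
  have h4 := hf w₄ l₄ (by rw [← h3, ← h2, ← h1])
  simp only [Finset.mem_insert, Finset.mem_singleton] at h4
  grind

/-- three edges with only one common vertex -/
theorem Dem.good {β : V → V} (h : Dem T x u₁ v₁ u₂ v₂ u₃ v₃) (c : Ctx T x β) : Good T := by
  obtain ⟨lu₁, lv₁, lu₂, lv₂, lu₃, lv₃⟩ := h.low c
  have hn := h.nodup
  simp only [List.nodup_cons, List.mem_cons, List.not_mem_nil] at hn
  have key : ∀ {w₁ w₂ w₃ : V}, Low (del T x) w₁ → Low (del T x) w₂ → Low (del T x) w₃ →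
      (w₁ = u₁ ∨ w₁ = v₁) → (w₂ = u₂ ∨ w₂ = v₂) → (w₃ = u₃ ∨ w₃ = v₃) →
      β w₁ = β w₂ ∨ β w₁ = β w₃ ∨ β w₂ = β w₃ := by
    intro w₁ w₂ w₃ l₁ l₂ l₃ h1 h2 h3
    by_contra hcon
    push Not at hcon
    obtain ⟨S, hS, s1, s2, s3⟩ := c.bl.opt3 l₁ l₂ l₃ hcon.1 hcon.2.1 hcon.2.2
    refine h.no c hS ?_ ?_ ?_
    · rcases h1 with rfl | rfl
      · exact Or.inl s1
      · exact Or.inr s1
    · rcases h2 with rfl | rfl
      · exact Or.inl s2
      · exact Or.inr s2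
    · rcases h3 with rfl | rfl
      · exact Or.inl s3
      · exact Or.inr s3
  have four : ∀ {w₁ w₂ w₃ w₄ : V}, Low (del T x) w₁ → Low (del T x) w₂ → Low (del T x) w₃ →
      Low (del T x) w₄ → (w₁ ≠ w₂ ∧ w₁ ≠ w₃ ∧ w₁ ≠ w₄ ∧ w₂ ≠ w₃ ∧ w₂ ≠ w₄ ∧ w₃ ≠ w₄) →
      ¬ (β w₁ = β w₂ ∧ β w₂ = β w₃ ∧ β w₃ = β w₄) := by
    intro w₁ w₂ w₃ w₄ l₁ l₂ l₃ l₄ hne
    refine c.bl.no_four l₁ l₂ l₃ l₄ ?_
    simp only [List.nodup_cons, List.mem_cons, List.not_mem_nil]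
    grind
  have hs := sdr (β u₁) (β v₁) (β u₂) (β v₂) (β u₃) (β v₃)
    (four lu₁ lv₁ lu₂ lv₂ (by grind)) (four lu₁ lv₁ lu₂ lu₃ (by grind))
    (four lu₁ lv₁ lu₂ lv₃ (by grind)) (four lu₁ lv₁ lv₂ lu₃ (by grind))
    (four lu₁ lv₁ lv₂ lv₃ (by grind)) (four lu₁ lv₁ lu₃ lv₃ (by grind))
    (four lu₁ lu₂ lv₂ lu₃ (by grind)) (four lu₁ lu₂ lv₂ lv₃ (by grind))
    (four lu₁ lu₂ lu₃ lv₃ (by grind)) (four lu₁ lv₂ lu₃ lv₃ (by grind))
    (four lv₁ lu₂ lv₂ lu₃ (by grind)) (four lv₁ lu₂ lv₂ lv₃ (by grind))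
    (four lv₁ lu₂ lu₃ lv₃ (by grind)) (four lv₁ lv₂ lu₃ lv₃ (by grind))
    (four lu₂ lv₂ lu₃ lv₃ (by grind))
    (key lu₁ lu₂ lu₃ (Or.inl rfl) (Or.inl rfl) (Or.inl rfl))
    (key lu₁ lu₂ lv₃ (Or.inl rfl) (Or.inl rfl) (Or.inr rfl))
    (key lu₁ lv₂ lu₃ (Or.inl rfl) (Or.inr rfl) (Or.inl rfl))
    (key lu₁ lv₂ lv₃ (Or.inl rfl) (Or.inr rfl) (Or.inr rfl))
    (key lv₁ lu₂ lu₃ (Or.inr rfl) (Or.inl rfl) (Or.inl rfl))
    (key lv₁ lu₂ lv₃ (Or.inr rfl) (Or.inl rfl) (Or.inr rfl))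
    (key lv₁ lv₂ lu₃ (Or.inr rfl) (Or.inr rfl) (Or.inl rfl))
    (key lv₁ lv₂ lv₃ (Or.inr rfl) (Or.inr rfl) (Or.inr rfl))
  rcases hs with ⟨a, b, d, e⟩ | ⟨a, b, d, e⟩ | ⟨a, b, d, e⟩ | ⟨a, b, d, e⟩ | ⟨a, b, d, e⟩ |
    ⟨a, b, d, e⟩ | ⟨a, b, d, e⟩ | ⟨a, b, d, e⟩ | ⟨a, b, d, e⟩ | ⟨a, b, d, e⟩
  · exact h.cross c a b d e
  · exact h.swap₃.cross c a b d e
  · exact h.swap₂.cross c a b d e
  · exact h.swap₂.swap₃.cross c a b d e
  · exact (h.loops c a b d e).elim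
  · exact (h.swap₂.loops c a b d e).elim
  · exact (h.perm₂₃.loops c a b d e).elim
  · exact (h.swap₃.perm₂₃.loops c a b d e).elim
  · exact (h.perm₁₂.loops c a b d e).elim
  · exact (h.swap₁.perm₁₂.loops c a b d e).elim

end

end Pool.Agent.MP284513
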