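import Pool.Agent.Lib.MP_284513_co.Final

/-!
# Blocks: definitions

Every member of the list has a system of pairwise disjoint blocks, as many as the transversal number,
such that every edge (with its new vertex) contains a block.
-/

set_option linter.unusedSectionVars false

namespace Pool.Agent.MP284513

variable {V : Type} [DecidableEq V]

/-- A system of blocks for `T`, whose members `t` are enlarged by a new vertex `q t`. -/
structure Blk (T : Finset (Finset V)) (q : Finset V → V) (B : Finset (Finset V)) : Prop where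
  disj : ∀ b ∈ B, ∀ b' ∈ B, ∀ v, v ∈ b → v ∈ b' → b = b'
  card : 4 * B.card ≤ (ver T).card + T.card
  sub : ∀ b ∈ B, ∃ t ∈ T, b ⊆ insert (q t) t
  hit : ∀ t ∈ T, ∃ b ∈ B, b ⊆ insert (q t) t
  mem : ∀ v ∈ ver T, ∃ b ∈ B, v ∈ b
  outer : ∀ t ∈ T, ∀ v ∈ t, (∀ s ∈ T, v ∈ s → s = t) → insert (q t) t ∈ B
  kind : ∀ b ∈ B, b.Nonempty ∧ (b.card ≤ 3 ∨ ∃ t ∈ T, b = insert (q t) t)

/-- The pairs of a chain: the first one is `{p, q}` in `Chain.base`, and `{r, s}` in `Chain.grow`. -/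
structure Pairs (K : Finset (Finset V)) (a b c p q : V) (B : Finset (Finset V)) : Prop where
  disj : ∀ b₁ ∈ B, ∀ b₂ ∈ B, ∀ v, v ∈ b₁ → v ∈ b₂ → b₁ = b₂
  card : 4 * B.card + 4 = (ver K).card + K.card
  two : ∀ b' ∈ B, b'.card = 2
  twice : ∀ b' ∈ B, ∃ t ∈ K, ∃ t' ∈ K, t ≠ t' ∧ b' ⊆ t ∧ b' ⊆ t'
  out : ∀ b' ∈ B, a ∉ b' ∧ b ∉ b' ∧ c ∉ b'
  hit : ∀ t ∈ K, t ≠ {a, b, c} → ∃ b' ∈ B, b' ⊆ t
  mem : ∀ v ∈ ver K, v = a ∨ v = b ∨ v = c ∨ ∃ b' ∈ B, v ∈ b'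
  last : {p, q} ∈ B

end Pool.Agent.MP284513
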