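import Pool.Agent.Lib.MP_284513_co.KBlk0

/-!
# Blocks: the small members of the list
-/

set_option linter.unusedSectionVars false

namespace Pool.Agent.MP284513

variable {V : Type} [DecidableEq V]

section Cards

variable {x y a₁ a₂ a₃ b₁ b₂ b₃ : V}

private def kemb (l : List V) (h : l.Nodup) : Fin l.length ↪ V :=
  ⟨l.get, List.nodup_iff_injective_get.1 h⟩

private theorem kcard_four₀ : ({{0, 1, 2}, {0, 1, 3}, {0, 2, 3}, {1, 2, 3}} :
    Finset (Finset (Fin 4))).card = 4 := by decide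

private theorem kcard_seven₀ : (sevenFam (0 : Fin 7) 1 2 3 4 5 6).card = 5 := by decide

private theorem kcard_eight₀ : (eightFam (0 : Fin 8) 1 2 3 4 5 6 7).card = 8 := by decide

private theorem kdisj {a b c d e f : V} (h1 : ¬ a = d) (h2 : ¬ a = e) (h3 : ¬ a = f) (h4 : ¬ b = d)
    (h5 : ¬ b = e) (h6 : ¬ b = f) (h7 : ¬ c = d) (h8 : ¬ c = e) (h9 : ¬ c = f) {v : V}
    (hv : v ∈ ({a, b, c} : Finset V)) (hv' : v ∈ ({d, e, f} : Finset V)) : False := by
  simp only [Finset.mem_insert, Finset.mem_singleton] at hv hv'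
  rcases hv with hv | hv | hv <;> rcases hv' with hv' | hv' | hv' <;>
    exact absurd (hv.symm.trans hv') (by assumption)

private theorem kdisj1 {a d e f : V} (h1 : ¬ a = d) (h2 : ¬ a = e) (h3 : ¬ a = f) {v : V}
    (hv : v ∈ ({a} : Finset V)) (hv' : v ∈ ({d, e, f} : Finset V)) : False := by
  simp only [Finset.mem_insert, Finset.mem_singleton] at hv hv'
  rcases hv' with hv' | hv' | hv' <;> exact absurd (hv.symm.trans hv') (by assumption)

private theorem kcard_four {a b c d : V} (h : [a, b, c, d].Nodup) :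
    ({{a, b, c}, {a, b, d}, {a, c, d}, {b, c, d}} : Finset (Finset V)).card = 4 := by
  have h1 : ({{a, b, c}, {a, b, d}, {a, c, d}, {b, c, d}} : Finset (Finset V)) =
      ({{0, 1, 2}, {0, 1, 3}, {0, 2, 3}, {1, 2, 3}} : Finset (Finset (Fin 4))).map
        (Finset.mapEmbedding (kemb _ h)).toEmbedding := by
    simp only [Finset.map_insert, Finset.map_singleton, RelEmbedding.coe_toEmbedding,
      Finset.mapEmbedding_apply]
    rfl
  rw [h1, Finset.card_map]
  exact kcard_four₀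

private theorem kcard_seven (h : [x, a₁, a₂, a₃, b₁, b₂, b₃].Nodup) :
    (sevenFam x a₁ a₂ a₃ b₁ b₂ b₃).card = 5 := by
  have h1 : sevenFam x a₁ a₂ a₃ b₁ b₂ b₃ =
      (sevenFam (0 : Fin 7) 1 2 3 4 5 6).map (Finset.mapEmbedding (kemb _ h)).toEmbedding := by
    simp only [sevenFam, Finset.map_insert, Finset.map_singleton, RelEmbedding.coe_toEmbedding,
      Finset.mapEmbedding_apply]
    rfl
  rw [h1, Finset.card_map]
  exact kcard_seven₀

private theorem kcard_eight (h : [x, y, a₁, a₂, a₃, b₁, b₂, b₃].Nodup) :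
    (eightFam x y a₁ a₂ a₃ b₁ b₂ b₃).card = 8 := by
  have h1 : eightFam x y a₁ a₂ a₃ b₁ b₂ b₃ =
      (eightFam (0 : Fin 8) 1 2 3 4 5 6 7).map (Finset.mapEmbedding (kemb _ h)).toEmbedding := by
    simp only [eightFam, sevenFam, Finset.map_union, Finset.map_insert, Finset.map_singleton,
      RelEmbedding.coe_toEmbedding, Finset.mapEmbedding_apply]
    rfl
  rw [h1, Finset.card_map]
  exact kcard_eight₀

private theorem kver_eight :
    ver (eightFam x y a₁ a₂ a₃ b₁ b₂ b₃) = {x, y, a₁, a₂, a₃, b₁, b₂, b₃} := by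
  unfold eightFam
  rw [ver_union, seven_ver]
  ext v
  simp only [ver, Finset.mem_biUnion, Finset.mem_union, Finset.mem_insert, Finset.mem_singleton,
    id_eq, exists_eq_or_imp, exists_eq_left]
  tauto

private theorem kver_seven_card (h : [x, a₁, a₂, a₃, b₁, b₂, b₃].Nodup) :
    (ver (sevenFam x a₁ a₂ a₃ b₁ b₂ b₃)).card = 7 := by
  rw [seven_ver]
  have := List.toFinset_card_of_nodup h
  simpa using this

private theorem kver_eight_card (h : [x, y, a₁, a₂, a₃, b₁, b₂, b₃].Nodup) :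
    (ver (eightFam x y a₁ a₂ a₃ b₁ b₂ b₃)).card = 8 := by
  rw [kver_eight]
  have := List.toFinset_card_of_nodup h
  simpa using this

private theorem kver_four {a b c d : V} :
    ver ({{a, b, c}, {a, b, d}, {a, c, d}, {b, c, d}} : Finset (Finset V)) = {a, b, c, d} := by
  ext v
  simp only [ver, Finset.mem_biUnion, Finset.mem_insert, Finset.mem_singleton,
    id_eq, exists_eq_or_imp, exists_eq_left]
  tauto

private theorem kver_four_card {a b c d : V} (h : [a, b, c, d].Nodup) :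
    (ver ({{a, b, c}, {a, b, d}, {a, c, d}, {b, c, d}} : Finset (Finset V))).card = 4 := by
  rw [kver_four]
  have := List.toFinset_card_of_nodup h
  simpa using this

private theorem kpair1 (u v w : V) : ({u, v} : Finset V) ⊆ {u, v, w} := by
  intro z hz
  simp only [Finset.mem_insert, Finset.mem_singleton] at hz ⊢
  rcases hz with hz | hz
  · exact Or.inl hz
  · exact Or.inr (Or.inl hz)

private theorem kpair2 (u v w : V) : ({v, w} : Finset V) ⊆ {u, v, w} := Finset.subset_insert _ _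

private theorem ksub {q : Finset V → V} {t b : Finset V} (h : b ⊆ t) : b ⊆ insert (q t) t :=
  h.trans (Finset.subset_insert _ _)

/-- two different edges at `v` contradict that `v` is private -/
private theorem kouter {T : Finset (Finset V)} {t s s' : Finset V} {v u : V} {P : Prop}
    (hu : ∀ s ∈ T, v ∈ s → s = t) (hs : s ∈ T) (hs' : s' ∈ T) (hv : v ∈ s) (hv' : v ∈ s')
    (h1 : u ∈ s) (h2 : u ∉ s') : P :=
  absurd (((hu s hs hv).trans (hu s' hs' hv').symm) ▸ h1) h2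

end Cards

/-- one block, the enlarged edge -/
theorem blk_edge {a b c : V} (h : [a, b, c].Nodup) {q : Finset V → V}
    (hnew : ∀ t ∈ ({{a, b, c}} : Finset (Finset V)), q t ∉ ver {{a, b, c}}) :
    ∃ B, Blk {{a, b, c}} q B := by
  have h3 : ({a, b, c} : Finset V).card = 3 := by
    have := List.toFinset_card_of_nodup h
    simpa using this
  refine ⟨{insert (q {a, b, c}) {a, b, c}}, ?_, ?_, ?_, ?_, ?_, ?_, ?_⟩
  · intro b hb b' hb' v _ _
    rw [Finset.mem_singleton.1 hb, Finset.mem_singleton.1 hb']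
  · have h4 : ver ({{a, b, c}} : Finset (Finset V)) = {a, b, c} := by
      ext v
      simp [ver]
    rw [h4, h3]
    simp
  · intro b' hb'
    rw [Finset.mem_singleton.1 hb']
    exact ⟨_, Finset.mem_singleton_self _, Finset.Subset.refl _⟩
  · intro t ht
    rw [Finset.mem_singleton.1 ht]
    exact ⟨_, Finset.mem_singleton_self _, Finset.Subset.refl _⟩
  · intro v hv
    obtain ⟨e, he, hve⟩ := mem_ver.1 hv
    rw [Finset.mem_singleton.1 he] at hve
    exact ⟨_, Finset.mem_singleton_self _, Finset.mem_insert_of_mem hve⟩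
  · intro t ht v _ _
    rw [Finset.mem_singleton.1 ht]
    exact Finset.mem_singleton_self _
  · intro b' hb'
    rw [Finset.mem_singleton.1 hb']
    exact ⟨⟨_, Finset.mem_insert_self _ _⟩, Or.inr ⟨_, Finset.mem_singleton_self _, rfl⟩⟩

/-- the blocks are `{a, b}` and `{c, d}` -/
theorem blk_four {a b c d : V} (h : [a, b, c, d].Nodup) {q : Finset V → V}
    (hnew : ∀ t ∈ ({{a, b, c}, {a, b, d}, {a, c, d}, {b, c, d}} : Finset (Finset V)),
      q t ∉ ver {{a, b, c}, {a, b, d}, {a, c, d}, {b, c, d}}) :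
    ∃ B, Blk {{a, b, c}, {a, b, d}, {a, c, d}, {b, c, d}} q B := by
  have hc := kcard_four h
  have hv := kver_four_card h
  have hn := h
  simp only [List.nodup_cons, List.mem_cons, List.not_mem_nil, or_false, not_or, not_false_eq_true,
    List.nodup_nil, and_true] at hn
  obtain ⟨⟨n1, n2, n3⟩, ⟨n4, n5⟩, n6⟩ := hn
  have hab : ∀ {v : V}, v ∈ ({a, b} : Finset V) → v ∈ ({c, d} : Finset V) → False := by
    intro v h1 h2
    simp only [Finset.mem_insert, Finset.mem_singleton] at h1 h2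
    rcases h1 with h1 | h1 <;> rcases h2 with h2 | h2 <;>
      exact absurd (h1.symm.trans h2) (by assumption)
  have m1 : ({a, b, c} : Finset V) ∈
      ({{a, b, c}, {a, b, d}, {a, c, d}, {b, c, d}} : Finset (Finset V)) := by simp
  have m2 : ({a, b, d} : Finset V) ∈
      ({{a, b, c}, {a, b, d}, {a, c, d}, {b, c, d}} : Finset (Finset V)) := by simp
  have m3 : ({a, c, d} : Finset V) ∈
      ({{a, b, c}, {a, b, d}, {a, c, d}, {b, c, d}} : Finset (Finset V)) := by simp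
  have m4 : ({b, c, d} : Finset V) ∈
      ({{a, b, c}, {a, b, d}, {a, c, d}, {b, c, d}} : Finset (Finset V)) := by simp
  refine ⟨{{a, b}, {c, d}}, ?_, ?_, ?_, ?_, ?_, ?_, ?_⟩
  · intro b₁ hb b' hb' v hv hv'
    simp only [Finset.mem_insert, Finset.mem_singleton] at hb hb'
    rcases hb with hb | hb <;> rcases hb' with hb' | hb' <;>
      rw [hb] at hv <;> rw [hb'] at hv' <;> rw [hb, hb'] <;> exfalso
    · exact hab hv hv'
    · exact hab hv' hv
  · rw [hc, hv]
    have h1 : ({{a, b}, {c, d}} : Finset (Finset V)).card ≤ 2 := Finset.card_le_two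
    omega
  · intro b' hb'
    simp only [Finset.mem_insert, Finset.mem_singleton] at hb'
    rcases hb' with rfl | rfl
    · exact ⟨_, m1, ksub (kpair1 a b c)⟩
    · exact ⟨_, m3, ksub (kpair2 a c d)⟩
  · intro t ht
    simp only [Finset.mem_insert, Finset.mem_singleton] at ht
    rcases ht with rfl | rfl | rfl | rfl
    · exact ⟨{a, b}, by simp, ksub (kpair1 a b c)⟩
    · exact ⟨{a, b}, by simp, ksub (kpair1 a b d)⟩
    · exact ⟨{c, d}, by simp, ksub (kpair2 a c d)⟩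
    · exact ⟨{c, d}, by simp, ksub (kpair2 b c d)⟩
  · intro v hv
    rw [kver_four] at hv
    simp only [Finset.mem_insert, Finset.mem_singleton] at hv
    rcases hv with h | h | h | h
    · exact ⟨{a, b}, by simp, by simp [h]⟩
    · exact ⟨{a, b}, by simp, by simp [h]⟩
    · exact ⟨{c, d}, by simp, by simp [h]⟩
    · exact ⟨{c, d}, by simp, by simp [h]⟩
  · intro t ht v hv hu
    have hv' : v ∈ ver ({{a, b, c}, {a, b, d}, {a, c, d}, {b, c, d}} : Finset (Finset V)) :=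
      mem_ver.2 ⟨t, ht, hv⟩
    rw [kver_four] at hv'
    simp only [Finset.mem_insert, Finset.mem_singleton] at hv'
    have e1 : d ∉ ({a, b, c} : Finset V) := by
      simp only [Finset.mem_insert, Finset.mem_singleton, not_or]
      exact ⟨fun h => n3 h.symm, fun h => n5 h.symm, fun h => n6 h.symm⟩
    have e2 : b ∉ ({a, c, d} : Finset V) := by
      simp only [Finset.mem_insert, Finset.mem_singleton, not_or]
      exact ⟨fun h => n1 h.symm, n4, n5⟩
    rcases hv' with rfl | rfl | rfl | rfl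
    · exact kouter hu m2 m1 (by simp) (by simp) (by simp) e1
    · exact kouter hu m2 m1 (by simp) (by simp) (by simp) e1
    · exact kouter hu m4 m3 (by simp) (by simp) (by simp) e2
    · exact kouter hu m4 m3 (by simp) (by simp) (by simp) e2
  · intro b' hb'
    simp only [Finset.mem_insert, Finset.mem_singleton] at hb'
    have h2 : ∀ u v : V, ({u, v} : Finset V).card ≤ 3 := fun u v =>
      (Finset.card_le_two).trans (by omega)
    rcases hb' with rfl | rfl
    · exact ⟨⟨a, by simp⟩, Or.inl (h2 _ _)⟩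
    · exact ⟨⟨c, by simp⟩, Or.inl (h2 _ _)⟩

/-- the blocks are `{a₁, a₂, a₃}`, `{b₁, b₂, b₃}`, `{x}` -/
theorem blk_seven {x a₁ a₂ a₃ b₁ b₂ b₃ : V} (h : [x, a₁, a₂, a₃, b₁, b₂, b₃].Nodup)
    {q : Finset V → V}
    (hnew : ∀ t ∈ sevenFam x a₁ a₂ a₃ b₁ b₂ b₃, q t ∉ ver (sevenFam x a₁ a₂ a₃ b₁ b₂ b₃)) :
    ∃ B, Blk (sevenFam x a₁ a₂ a₃ b₁ b₂ b₃) q B := by
  have hc := kcard_seven h
  have hv := kver_seven_card h
  have hcard : ∀ u v w : V, ({u, v, w} : Finset V).card ≤ 3 := fun u v w => Finset.card_le_three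
  have hn := h
  simp only [List.nodup_cons, List.mem_cons, List.not_mem_nil, or_false, not_or, not_false_eq_true,
    List.nodup_nil, and_true] at hn
  obtain ⟨⟨x1, x2, x3, x4, x5, x6⟩, ⟨p1, p2, p3, p4, p5⟩, ⟨r1, r2, r3, r4⟩, ⟨s1, s2, s3⟩,
    ⟨t1, t2⟩, t3⟩ := hn
  have hab : ∀ {v : V}, v ∈ ({a₁, a₂, a₃} : Finset V) → v ∈ ({b₁, b₂, b₃} : Finset V) → False :=
    fun h1 h2 => kdisj p3 p4 p5 r2 r3 r4 s1 s2 s3 h1 h2
  have hxa : ∀ {v : V}, v ∈ ({x} : Finset V) → v ∈ ({a₁, a₂, a₃} : Finset V) → False :=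
    fun h1 h2 => kdisj1 x1 x2 x3 h1 h2
  have hxb : ∀ {v : V}, v ∈ ({x} : Finset V) → v ∈ ({b₁, b₂, b₃} : Finset V) → False :=
    fun h1 h2 => kdisj1 x4 x5 x6 h1 h2
  have m1 : ({a₁, a₂, a₃} : Finset V) ∈ sevenFam x a₁ a₂ a₃ b₁ b₂ b₃ := by simp [sevenFam]
  have m2 : ({b₁, b₂, b₃} : Finset V) ∈ sevenFam x a₁ a₂ a₃ b₁ b₂ b₃ := by simp [sevenFam]
  have m3 : ({x, a₁, b₁} : Finset V) ∈ sevenFam x a₁ a₂ a₃ b₁ b₂ b₃ := by simp [sevenFam]
  have m4 : ({x, a₂, b₂} : Finset V) ∈ sevenFam x a₁ a₂ a₃ b₁ b₂ b₃ := by simp [sevenFam]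
  have m5 : ({x, a₃, b₃} : Finset V) ∈ sevenFam x a₁ a₂ a₃ b₁ b₂ b₃ := by simp [sevenFam]
  have ea : x ∉ ({a₁, a₂, a₃} : Finset V) := fun h => hxa (Finset.mem_singleton_self x) h
  have eb : x ∉ ({b₁, b₂, b₃} : Finset V) := fun h => hxb (Finset.mem_singleton_self x) h
  have ex : a₁ ∉ ({x, a₂, b₂} : Finset V) := by
    simp only [Finset.mem_insert, Finset.mem_singleton, not_or]
    exact ⟨fun h => x1 h.symm, p1, p4⟩
  refine ⟨{{a₁, a₂, a₃}, {b₁, b₂, b₃}, {x}}, ?_, ?_, ?_, ?_, ?_, ?_, ?_⟩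
  · intro b hb b' hb' v hv hv'
    simp only [Finset.mem_insert, Finset.mem_singleton] at hb hb'
    rcases hb with hb | hb | hb <;> rcases hb' with hb' | hb' | hb' <;>
      rw [hb] at hv <;> rw [hb'] at hv' <;> rw [hb, hb'] <;> exfalso
    · exact hab hv hv'
    · exact hxa hv' hv
    · exact hab hv' hv
    · exact hxb hv' hv
    · exact hxa hv hv'
    · exact hxb hv hv'
  · rw [hc, hv]
    have h1 : ({{a₁, a₂, a₃}, {b₁, b₂, b₃}, {x}} : Finset (Finset V)).card ≤ 3 :=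
      Finset.card_le_three
    omega
  · intro b hb
    simp only [Finset.mem_insert, Finset.mem_singleton] at hb
    rcases hb with rfl | rfl | rfl
    · exact ⟨_, m1, ksub (Finset.Subset.refl _)⟩
    · exact ⟨_, m2, ksub (Finset.Subset.refl _)⟩
    · exact ⟨_, m3, ksub (by simp)⟩
  · intro t ht
    simp only [sevenFam, Finset.mem_insert, Finset.mem_singleton] at ht
    rcases ht with rfl | rfl | rfl | rfl | rfl
    · exact ⟨{a₁, a₂, a₃}, by simp, ksub (Finset.Subset.refl _)⟩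
    · exact ⟨{b₁, b₂, b₃}, by simp, ksub (Finset.Subset.refl _)⟩
    all_goals exact ⟨{x}, by simp, ksub (by simp)⟩
  · intro v hv
    rw [seven_ver] at hv
    simp only [Finset.mem_insert, Finset.mem_singleton] at hv
    rcases hv with h | h | h | h | h | h | h
    · exact ⟨{x}, by simp, by simp [h]⟩
    · exact ⟨{a₁, a₂, a₃}, by simp, by simp [h]⟩
    · exact ⟨{a₁, a₂, a₃}, by simp, by simp [h]⟩
    · exact ⟨{a₁, a₂, a₃}, by simp, by simp [h]⟩
    · exact ⟨{b₁, b₂, b₃}, by simp, by simp [h]⟩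
    · exact ⟨{b₁, b₂, b₃}, by simp, by simp [h]⟩
    · exact ⟨{b₁, b₂, b₃}, by simp, by simp [h]⟩
  · intro t ht v hv hu
    have hv' : v ∈ ver (sevenFam x a₁ a₂ a₃ b₁ b₂ b₃) := mem_ver.2 ⟨t, ht, hv⟩
    rw [seven_ver] at hv'
    simp only [Finset.mem_insert, Finset.mem_singleton] at hv'
    rcases hv' with rfl | rfl | rfl | rfl | rfl | rfl | rfl
    · exact kouter hu m3 m4 (by simp) (by simp) (by simp : a₁ ∈ _) ex
    · exact kouter hu m3 m1 (by simp) (by simp) (by simp) ea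
    · exact kouter hu m4 m1 (by simp) (by simp) (by simp) ea
    · exact kouter hu m5 m1 (by simp) (by simp) (by simp) ea
    · exact kouter hu m3 m2 (by simp) (by simp) (by simp) eb
    · exact kouter hu m4 m2 (by simp) (by simp) (by simp) eb
    · exact kouter hu m5 m2 (by simp) (by simp) (by simp) eb
  · intro b hb
    simp only [Finset.mem_insert, Finset.mem_singleton] at hb
    rcases hb with rfl | rfl | rfl
    · exact ⟨⟨a₁, by simp⟩, Or.inl (hcard _ _ _)⟩
    · exact ⟨⟨b₁, by simp⟩, Or.inl (hcard _ _ _)⟩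
    · exact ⟨⟨x, by simp⟩, Or.inl (by simp)⟩

/-- the blocks are `{a₁, a₂, a₃}`, `{b₁, b₂, b₃}`, `{x}`, `{y}` -/
theorem blk_eight {x y a₁ a₂ a₃ b₁ b₂ b₃ : V} (h : [x, y, a₁, a₂, a₃, b₁, b₂, b₃].Nodup)
    {q : Finset V → V}
    (hnew : ∀ t ∈ eightFam x y a₁ a₂ a₃ b₁ b₂ b₃, q t ∉ ver (eightFam x y a₁ a₂ a₃ b₁ b₂ b₃)) :
    ∃ B, Blk (eightFam x y a₁ a₂ a₃ b₁ b₂ b₃) q B := by
  have hc := kcard_eight h
  have hv := kver_eight_card h
  have hcard : ∀ u v w : V, ({u, v, w} : Finset V).card ≤ 3 := fun u v w => Finset.card_le_three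
  have hn := h
  simp only [List.nodup_cons, List.mem_cons, List.not_mem_nil, or_false, not_or, not_false_eq_true,
    List.nodup_nil, and_true] at hn
  obtain ⟨⟨x0, x1, x2, x3, x4, x5, x6⟩, ⟨y1, y2, y3, y4, y5, y6⟩, ⟨p1, p2, p3, p4, p5⟩,
    ⟨r1, r2, r3, r4⟩, ⟨s1, s2, s3⟩, ⟨t1, t2⟩, t3⟩ := hn
  have hab : ∀ {v : V}, v ∈ ({a₁, a₂, a₃} : Finset V) → v ∈ ({b₁, b₂, b₃} : Finset V) → False :=
    fun h1 h2 => kdisj p3 p4 p5 r2 r3 r4 s1 s2 s3 h1 h2
  have hxa : ∀ {v : V}, v ∈ ({x} : Finset V) → v ∈ ({a₁, a₂, a₃} : Finset V) → False :=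
    fun h1 h2 => kdisj1 x1 x2 x3 h1 h2
  have hxb : ∀ {v : V}, v ∈ ({x} : Finset V) → v ∈ ({b₁, b₂, b₃} : Finset V) → False :=
    fun h1 h2 => kdisj1 x4 x5 x6 h1 h2
  have hya : ∀ {v : V}, v ∈ ({y} : Finset V) → v ∈ ({a₁, a₂, a₃} : Finset V) → False :=
    fun h1 h2 => kdisj1 y1 y2 y3 h1 h2
  have hyb : ∀ {v : V}, v ∈ ({y} : Finset V) → v ∈ ({b₁, b₂, b₃} : Finset V) → False :=
    fun h1 h2 => kdisj1 y4 y5 y6 h1 h2
  have hxy : ∀ {v : V}, v ∈ ({x} : Finset V) → v ∈ ({y} : Finset V) → False :=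
    fun h1 h2 => x0 ((Finset.mem_singleton.1 h1).symm.trans (Finset.mem_singleton.1 h2))
  have m1 : ({a₁, a₂, a₃} : Finset V) ∈ eightFam x y a₁ a₂ a₃ b₁ b₂ b₃ := by
    simp [eightFam, sevenFam]
  have m2 : ({b₁, b₂, b₃} : Finset V) ∈ eightFam x y a₁ a₂ a₃ b₁ b₂ b₃ := by
    simp [eightFam, sevenFam]
  have m3 : ({x, a₁, b₁} : Finset V) ∈ eightFam x y a₁ a₂ a₃ b₁ b₂ b₃ := by
    simp [eightFam, sevenFam]
  have m4 : ({x, a₂, b₂} : Finset V) ∈ eightFam x y a₁ a₂ a₃ b₁ b₂ b₃ := by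
    simp [eightFam, sevenFam]
  have m5 : ({x, a₃, b₃} : Finset V) ∈ eightFam x y a₁ a₂ a₃ b₁ b₂ b₃ := by
    simp [eightFam, sevenFam]
  have m6 : ({y, a₁, b₂} : Finset V) ∈ eightFam x y a₁ a₂ a₃ b₁ b₂ b₃ := by
    simp [eightFam, sevenFam]
  have m7 : ({y, a₂, b₃} : Finset V) ∈ eightFam x y a₁ a₂ a₃ b₁ b₂ b₃ := by
    simp [eightFam, sevenFam]
  have ea : x ∉ ({a₁, a₂, a₃} : Finset V) := fun h => hxa (Finset.mem_singleton_self x) h
  have eb : x ∉ ({b₁, b₂, b₃} : Finset V) := fun h => hxb (Finset.mem_singleton_self x) h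
  have ex : a₁ ∉ ({x, a₂, b₂} : Finset V) := by
    simp only [Finset.mem_insert, Finset.mem_singleton, not_or]
    exact ⟨fun h => x1 h.symm, p1, p4⟩
  have ey : a₁ ∉ ({y, a₂, b₃} : Finset V) := by
    simp only [Finset.mem_insert, Finset.mem_singleton, not_or]
    exact ⟨fun h => y1 h.symm, p1, p5⟩
  refine ⟨{{a₁, a₂, a₃}, {b₁, b₂, b₃}, {x}, {y}}, ?_, ?_, ?_, ?_, ?_, ?_, ?_⟩
  · intro b hb b' hb' v hv hv'
    simp only [Finset.mem_insert, Finset.mem_singleton] at hb hb'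
    rcases hb with hb | hb | hb | hb <;> rcases hb' with hb' | hb' | hb' | hb' <;>
      rw [hb] at hv <;> rw [hb'] at hv' <;> rw [hb, hb'] <;> exfalso
    · exact hab hv hv'
    · exact hxa hv' hv
    · exact hya hv' hv
    · exact hab hv' hv
    · exact hxb hv' hv
    · exact hyb hv' hv
    · exact hxa hv hv'
    · exact hxb hv hv'
    · exact hxy hv hv'
    · exact hya hv hv'
    · exact hyb hv hv'
    · exact hxy hv' hv
  · rw [hc, hv]
    have h1 : ({{a₁, a₂, a₃}, {b₁, b₂, b₃}, {x}, {y}} : Finset (Finset V)).card ≤ 4 :=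
      Finset.card_le_four
    omega
  · intro b hb
    simp only [Finset.mem_insert, Finset.mem_singleton] at hb
    rcases hb with rfl | rfl | rfl | rfl
    · exact ⟨_, m1, ksub (Finset.Subset.refl _)⟩
    · exact ⟨_, m2, ksub (Finset.Subset.refl _)⟩
    · exact ⟨_, m3, ksub (by simp)⟩
    · exact ⟨_, m6, ksub (by simp)⟩
  · intro t ht
    simp only [eightFam, sevenFam, Finset.mem_union, Finset.mem_insert, Finset.mem_singleton] at ht
    rcases ht with (rfl | rfl | rfl | rfl | rfl) | (rfl | rfl | rfl)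
    · exact ⟨{a₁, a₂, a₃}, by simp, ksub (Finset.Subset.refl _)⟩
    · exact ⟨{b₁, b₂, b₃}, by simp, ksub (Finset.Subset.refl _)⟩
    · exact ⟨{x}, by simp, ksub (by simp)⟩
    · exact ⟨{x}, by simp, ksub (by simp)⟩
    · exact ⟨{x}, by simp, ksub (by simp)⟩
    all_goals exact ⟨{y}, by simp, ksub (by simp)⟩
  · intro v hv
    rw [kver_eight] at hv
    simp only [Finset.mem_insert, Finset.mem_singleton] at hv
    rcases hv with h | h | h | h | h | h | h | h
    · exact ⟨{x}, by simp, by simp [h]⟩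
    · exact ⟨{y}, by simp, by simp [h]⟩
    · exact ⟨{a₁, a₂, a₃}, by simp, by simp [h]⟩
    · exact ⟨{a₁, a₂, a₃}, by simp, by simp [h]⟩
    · exact ⟨{a₁, a₂, a₃}, by simp, by simp [h]⟩
    · exact ⟨{b₁, b₂, b₃}, by simp, by simp [h]⟩
    · exact ⟨{b₁, b₂, b₃}, by simp, by simp [h]⟩
    · exact ⟨{b₁, b₂, b₃}, by simp, by simp [h]⟩
  · intro t ht v hv hu
    have hv' : v ∈ ver (eightFam x y a₁ a₂ a₃ b₁ b₂ b₃) := mem_ver.2 ⟨t, ht, hv⟩
    rw [kver_eight] at hv'
    simp only [Finset.mem_insert, Finset.mem_singleton] at hv'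
    rcases hv' with rfl | rfl | rfl | rfl | rfl | rfl | rfl | rfl
    · exact kouter hu m3 m4 (by simp) (by simp) (by simp : a₁ ∈ _) ex
    · exact kouter hu m6 m7 (by simp) (by simp) (by simp : a₁ ∈ _) ey
    · exact kouter hu m3 m1 (by simp) (by simp) (by simp) ea
    · exact kouter hu m4 m1 (by simp) (by simp) (by simp) ea
    · exact kouter hu m5 m1 (by simp) (by simp) (by simp) ea
    · exact kouter hu m3 m2 (by simp) (by simp) (by simp) eb
    · exact kouter hu m4 m2 (by simp) (by simp) (by simp) eb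
    · exact kouter hu m5 m2 (by simp) (by simp) (by simp) eb
  · intro b hb
    simp only [Finset.mem_insert, Finset.mem_singleton] at hb
    rcases hb with rfl | rfl | rfl | rfl
    · exact ⟨⟨a₁, by simp⟩, Or.inl (hcard _ _ _)⟩
    · exact ⟨⟨b₁, by simp⟩, Or.inl (hcard _ _ _)⟩
    · exact ⟨⟨x, by simp⟩, Or.inl (by simp)⟩
    · exact ⟨⟨y, by simp⟩, Or.inl (by simp)⟩

end Pool.Agent.MP284513
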