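import Pool.Agent.Lib.MP_284513_co.KDouble
import Pool.Agent.Lib.MP_284513_co.KSmall

/-!
# Blocks: unions
-/

set_option linter.unusedSectionVars false

namespace Pool.Agent.MP284513

variable {V : Type} [DecidableEq V]

theorem Blk.union {K R B C : Finset (Finset V)} {q : Finset V → V} (hK : Blk K q B)
    (hR : Blk R q C) (h3 : ∀ e ∈ K, e.card = 3) (hd : Disjoint (ver K) (ver R))
    (hinj : ∀ s ∈ K ∪ R, ∀ t ∈ K ∪ R, q s = q t → s = t)
    (hnew : ∀ t ∈ K ∪ R, q t ∉ ver (K ∪ R)) : Blk (K ∪ R) q (B ∪ C) := by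
  have hKR : ∀ t ∈ K, t ∉ R := by
    intro t ht ht'
    have h1 := h3 t ht
    obtain ⟨v, hv⟩ := Finset.card_pos.1 (by omega : 0 < t.card)
    exact Finset.disjoint_left.1 hd (mem_ver.2 ⟨t, ht, hv⟩) (mem_ver.2 ⟨t, ht', hv⟩)
  have hx : ∀ b ∈ B, ∀ c ∈ C, ∀ v, v ∈ b → v ∈ c → False := by
    intro b hb c hc v hvb hvc
    obtain ⟨t, ht, hbt⟩ := hK.sub b hb
    obtain ⟨s, hs, hcs⟩ := hR.sub c hc
    have h1 := Finset.mem_insert.1 (hbt hvb)
    have h2 := Finset.mem_insert.1 (hcs hvc)
    have htu := Finset.mem_union_left R ht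
    have hsu := Finset.mem_union_right K hs
    rcases h1 with h1 | h1
    · rcases h2 with h2 | h2
      · have h4 := hinj t htu s hsu (h1.symm.trans h2)
        rw [h4] at ht
        exact hKR s ht hs
      · rw [h1] at h2
        exact hnew t htu (mem_ver.2 ⟨s, hsu, h2⟩)
    · rcases h2 with h2 | h2
      · rw [h2] at h1
        exact hnew s hsu (mem_ver.2 ⟨t, htu, h1⟩)
      · exact Finset.disjoint_left.1 hd (mem_ver.2 ⟨t, ht, h1⟩) (mem_ver.2 ⟨s, hs, h2⟩)
  refine ⟨?_, ?_, ?_, ?_, ?_, ?_, ?_⟩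
  · intro b hb b' hb' v hv hv'
    rcases Finset.mem_union.1 hb with hb | hb
    · rcases Finset.mem_union.1 hb' with hb' | hb'
      · exact hK.disj b hb b' hb' v hv hv'
      · exact (hx b hb b' hb' v hv hv').elim
    · rcases Finset.mem_union.1 hb' with hb' | hb'
      · exact (hx b' hb' b hb v hv' hv).elim
      · exact hR.disj b hb b' hb' v hv hv'
  · have h1 : (ver (K ∪ R)).card = (ver K).card + (ver R).card := by
      rw [ver_union, Finset.card_union_of_disjoint hd]
    have h2 : (K ∪ R).card = K.card + R.card :=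
      Finset.card_union_of_disjoint (Finset.disjoint_left.2 fun t ht ht' => hKR t ht ht')
    have h4 := Finset.card_union_le B C
    have h5 := hK.card
    have h6 := hR.card
    omega
  · intro b hb
    rcases Finset.mem_union.1 hb with hb | hb
    · obtain ⟨t, ht, h⟩ := hK.sub b hb
      exact ⟨t, Finset.mem_union_left _ ht, h⟩
    · obtain ⟨t, ht, h⟩ := hR.sub b hb
      exact ⟨t, Finset.mem_union_right _ ht, h⟩
  · intro t ht
    rcases Finset.mem_union.1 ht with ht | ht
    · obtain ⟨b, hb, h⟩ := hK.hit t ht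
      exact ⟨b, Finset.mem_union_left _ hb, h⟩
    · obtain ⟨b, hb, h⟩ := hR.hit t ht
      exact ⟨b, Finset.mem_union_right _ hb, h⟩
  · intro v hv
    rw [ver_union, Finset.mem_union] at hv
    rcases hv with hv | hv
    · obtain ⟨b, hb, h⟩ := hK.mem v hv
      exact ⟨b, Finset.mem_union_left _ hb, h⟩
    · obtain ⟨b, hb, h⟩ := hR.mem v hv
      exact ⟨b, Finset.mem_union_right _ hb, h⟩
  · intro t ht v hv hs
    rcases Finset.mem_union.1 ht with ht | ht
    · exact Finset.mem_union_left _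
        (hK.outer t ht v hv fun s hs1 hs2 => hs s (Finset.mem_union_left _ hs1) hs2)
    · exact Finset.mem_union_right _
        (hR.outer t ht v hv fun s hs1 hs2 => hs s (Finset.mem_union_right _ hs1) hs2)
  · intro b hb
    rcases Finset.mem_union.1 hb with hb | hb
    · obtain ⟨h1, h2⟩ := hK.kind b hb
      refine ⟨h1, h2.imp_right ?_⟩
      rintro ⟨t, ht, h⟩
      exact ⟨t, Finset.mem_union_left _ ht, h⟩
    · obtain ⟨h1, h2⟩ := hR.kind b hb
      refine ⟨h1, h2.imp_right ?_⟩
      rintro ⟨t, ht, h⟩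
      exact ⟨t, Finset.mem_union_right _ ht, h⟩

theorem Good.blk {T : Finset (Finset V)} (h : Good T) {q : Finset V → V}
    (hinj : ∀ s ∈ T, ∀ t ∈ T, q s = q t → s = t) (hnew : ∀ t ∈ T, q t ∉ ver T) :
    ∃ B, Blk T q B := by
  induction h with
  | empty => exact ⟨∅, by constructor <;> simp [ver]⟩
  | @add K T hK hT hd ih =>
    have hsub : K ⊆ K ∪ T := Finset.subset_union_left
    have hsub' : T ⊆ K ∪ T := Finset.subset_union_right
    obtain ⟨C, hC⟩ := ih (fun s hs t ht => hinj s (hsub' hs) t (hsub' ht))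
      fun t ht h => hnew t (hsub' ht) (ver_mono hsub' h)
    have hnew' : ∀ t ∈ K, q t ∉ ver K := fun t ht h => hnew t (hsub ht) (ver_mono hsub h)
    have hinj' : ∀ s ∈ K, ∀ t ∈ K, q s = q t → s = t := fun s hs t ht =>
      hinj s (hsub hs) t (hsub ht)
    have hg : Good K := by
      have := Good.add hK Good.empty (by simp [ver])
      rwa [Finset.union_empty] at this
    obtain ⟨B, hB⟩ : ∃ B, Blk K q B := by
      cases hK with
      | edge h => exact blk_edge h hnew'
      | chain h => exact blk_chain h hinj' hnew'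
      | double h₁ h₂ h => exact blk_double h₁ h₂ h hinj' hnew'
      | four h => exact blk_four h hnew'
      | cycle h hx => exact blk_cycle h hx hinj' hnew'
      | seven h => exact blk_seven h hnew'
      | eight h => exact blk_eight h hnew'
    exact ⟨B ∪ C, hB.union hC hg.ext.1 hd hinj hnew⟩

end Pool.Agent.MP284513
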