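import Pool.Agent.Lib.MP_284513_co.KBlk0

/-!
# Blocks: chains
-/

set_option linter.unusedSectionVars false

namespace Pool.Agent.MP284513

variable {V : Type} [DecidableEq V]

private theorem kc_nd {a b c p q : V} (h : [a, b, c, p, q].Nodup) :
    a ≠ b ∧ a ≠ c ∧ a ≠ p ∧ a ≠ q ∧ b ≠ c ∧ b ≠ p ∧ b ≠ q ∧ c ≠ p ∧ c ≠ q ∧ p ≠ q := by
  simp only [List.nodup_cons, List.mem_cons, List.not_mem_nil, or_false, not_or,
    List.nodup_nil, and_true, not_false_eq_true] at h
  tauto

private theorem kc_ne {p q r s : V} (hpq : p ≠ q) (hpr : p ≠ r) (hps : p ≠ s) :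
    ({r, s, p} : Finset V) ≠ {r, s, q} := by
  intro h
  have h1 : p ∈ ({r, s, q} : Finset V) := by
    rw [← h]
    simp
  rw [Finset.mem_insert, Finset.mem_insert, Finset.mem_singleton] at h1
  rcases h1 with h1 | h1 | h1
  · exact hpr h1
  · exact hps h1
  · exact hpq h1

private theorem kc_sub (r s p : V) : ({r, s} : Finset V) ⊆ {r, s, p} := by
  intro v hv
  rw [Finset.mem_insert, Finset.mem_singleton] at hv
  rcases hv with rfl | rfl <;> simp

private theorem kc_base {a b c p q : V} (h : [a, b, c, p, q].Nodup) :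
    (ver ({{a, b, c}, {p, q, a}, {p, q, b}} : Finset (Finset V))).card = 5 ∧
      ({{a, b, c}, {p, q, a}, {p, q, b}} : Finset (Finset V)).card = 3 := by
  obtain ⟨g1, g2, g3, g4, g5, g6, g7, g8, g9, g10⟩ := kc_nd h
  constructor
  · have e : ver ({{a, b, c}, {p, q, a}, {p, q, b}} : Finset (Finset V)) = {a, b, c, p, q} := by
      ext v
      rw [mem_ver]
      simp only [Finset.mem_insert, Finset.mem_singleton]
      constructor
      · rintro ⟨e, rfl | rfl | rfl, hv⟩ <;>
        · simp only [Finset.mem_insert, Finset.mem_singleton] at hv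
          tauto
      · rintro (rfl | rfl | rfl | rfl | rfl)
        · exact ⟨{v, b, c}, Or.inl rfl, by simp⟩
        · exact ⟨{a, v, c}, Or.inl rfl, by simp⟩
        · exact ⟨{a, b, v}, Or.inl rfl, by simp⟩
        · exact ⟨{v, q, a}, Or.inr (Or.inl rfl), by simp⟩
        · exact ⟨{p, v, a}, Or.inr (Or.inl rfl), by simp⟩
    rw [e]
    have h1 : ({a, b, c, p, q} : Finset V) = [a, b, c, p, q].toFinset := by
      ext v
      simp
    rw [h1, List.toFinset_card_of_nodup h]
    rfl
  · refine Finset.card_eq_three.2 ⟨{a, b, c}, {p, q, a}, {p, q, b}, ?_, ?_, kc_ne g1 g3 g4, rfl⟩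
    · intro h
      have h1 : b ∈ ({p, q, a} : Finset V) := by
        rw [← h]
        simp
      rw [Finset.mem_insert, Finset.mem_insert, Finset.mem_singleton] at h1
      rcases h1 with h1 | h1 | h1
      · exact g6 h1
      · exact g7 h1
      · exact g1 h1.symm
    · intro h
      have h1 : a ∈ ({p, q, b} : Finset V) := by
        rw [← h]
        simp
      rw [Finset.mem_insert, Finset.mem_insert, Finset.mem_singleton] at h1
      rcases h1 with h1 | h1 | h1
      · exact g3 h1
      · exact g4 h1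
      · exact g1 h1

/-- every vertex of a pair is a vertex of the chain -/
private theorem Pairs.mem_ver {K B : Finset (Finset V)} {a b c p q : V} (h : Pairs K a b c p q B)
    {b' : Finset V} (hb : b' ∈ B) {v : V} (hv : v ∈ b') : v ∈ ver K := by
  obtain ⟨t, ht, -, -, -, h1, -⟩ := h.twice b' hb
  exact Pool.Agent.MP284513.mem_ver.2 ⟨t, ht, h1 hv⟩

/-- induction on `h`; `card_grow` for the numbers -/
theorem Chain.pairs {K : Finset (Finset V)} {a b c p q : V} (h : Chain K a b c p q) :
    ∃ B, Pairs K a b c p q B := by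
  induction h with
  | @base a b c p q h =>
    obtain ⟨g1, g2, g3, g4, g5, g6, g7, g8, g9, g10⟩ := kc_nd h
    obtain ⟨k1, k2⟩ := kc_base h
    refine ⟨{{p, q}}, ?_, ?_, ?_, ?_, ?_, ?_, ?_, Finset.mem_singleton_self _⟩
    · intro b₁ h₁ b₂ h₂ v _ _
      rw [Finset.mem_singleton] at h₁ h₂
      rw [h₁, h₂]
    · rw [k1, k2, Finset.card_singleton]
    · intro b' hb
      rw [Finset.mem_singleton] at hb
      rw [hb, Finset.card_pair g10]
    · intro b' hb
      rw [Finset.mem_singleton] at hb
      rw [hb]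
      exact ⟨{p, q, a}, by simp, {p, q, b}, by simp, kc_ne g1 g3 g4, kc_sub p q a, kc_sub p q b⟩
    · intro b' hb
      rw [Finset.mem_singleton] at hb
      rw [hb]
      simp only [Finset.mem_insert, Finset.mem_singleton, not_or]
      exact ⟨⟨g3, g4⟩, ⟨g6, g7⟩, ⟨g8, g9⟩⟩
    · intro t ht hne
      rw [Finset.mem_insert, Finset.mem_insert, Finset.mem_singleton] at ht
      refine ⟨{p, q}, Finset.mem_singleton_self _, ?_⟩
      rcases ht with ht | ht | ht
      · exact absurd ht hne
      · rw [ht]
        exact kc_sub p q a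
      · rw [ht]
        exact kc_sub p q b
    · intro v hv
      obtain ⟨e, he, hv⟩ := Pool.Agent.MP284513.mem_ver.1 hv
      rw [Finset.mem_insert, Finset.mem_insert, Finset.mem_singleton] at he
      have hp : v = p ∨ v = q → ∃ b' ∈ ({{p, q}} : Finset (Finset V)), v ∈ b' := fun h6 =>
        ⟨{p, q}, Finset.mem_singleton_self _, by
          rw [Finset.mem_insert, Finset.mem_singleton]
          exact h6⟩
      rcases he with rfl | rfl | rfl <;>
        rw [Finset.mem_insert, Finset.mem_insert, Finset.mem_singleton] at hv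
      · rcases hv with h1 | h1 | h1
        · exact Or.inl h1
        · exact Or.inr (Or.inl h1)
        · exact Or.inr (Or.inr (Or.inl h1))
      · rcases hv with h1 | h1 | h1
        · exact Or.inr (Or.inr (Or.inr (hp (Or.inl h1))))
        · exact Or.inr (Or.inr (Or.inr (hp (Or.inr h1))))
        · exact Or.inl h1
      · rcases hv with h1 | h1 | h1
        · exact Or.inr (Or.inr (Or.inr (hp (Or.inl h1))))
        · exact Or.inr (Or.inr (Or.inr (hp (Or.inr h1))))
        · exact Or.inr (Or.inl h1)
  | @grow K a b c p q r s h hr hs hrs ih =>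
    obtain ⟨B, hB⟩ := ih
    obtain ⟨h1, h2, h3, h4, h5⟩ := h.mem_ver
    obtain ⟨g1, g2, g3, g4, g5, g6, g7, g8, g9, g10⟩ := kc_nd h.nodup
    obtain ⟨k1, k2⟩ := card_grow h4 h5 g10 hr hs hrs
    have hout : ∀ v ∈ ({r, s} : Finset V), v ∉ ver K := by
      intro v hv
      rw [Finset.mem_insert, Finset.mem_singleton] at hv
      rcases hv with rfl | rfl
      · exact hr
      · exact hs
    have hnot : ({r, s} : Finset V) ∉ B := fun h6 => hr (hB.mem_ver h6 (by simp))
    have n1 : ({r, s, p} : Finset V) ∈ K ∪ {{r, s, p}, {r, s, q}} :=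
      Finset.mem_union_right _ (by simp)
    have n2 : ({r, s, q} : Finset V) ∈ K ∪ {{r, s, p}, {r, s, q}} :=
      Finset.mem_union_right _ (by simp)
    refine ⟨insert {r, s} B, ?_, ?_, ?_, ?_, ?_, ?_, ?_, Finset.mem_insert_self _ _⟩
    · intro b₁ h₁ b₂ h₂ v hv₁ hv₂
      rw [Finset.mem_insert] at h₁ h₂
      rcases h₁ with rfl | h₁ <;> rcases h₂ with rfl | h₂
      · rfl
      · exact absurd (hB.mem_ver h₂ hv₂) (hout v hv₁)
      · exact absurd (hB.mem_ver h₁ hv₁) (hout v hv₂)
      · exact hB.disj b₁ h₁ b₂ h₂ v hv₁ hv₂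
    · rw [k1, k2, Finset.card_insert_of_notMem hnot]
      have := hB.card
      omega
    · intro b' hb
      rw [Finset.mem_insert] at hb
      rcases hb with rfl | hb
      · exact Finset.card_pair hrs
      · exact hB.two b' hb
    · intro b' hb
      rw [Finset.mem_insert] at hb
      rcases hb with rfl | hb
      · refine ⟨_, n1, _, n2, kc_ne g10 ?_ ?_, kc_sub r s p, kc_sub r s q⟩
        · rintro rfl
          exact hr h4
        · rintro rfl
          exact hs h4
      · obtain ⟨t, ht, t', ht', h6, h7, h8⟩ := hB.twice b' hb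
        exact ⟨t, Finset.mem_union_left _ ht, t', Finset.mem_union_left _ ht', h6, h7, h8⟩
    · intro b' hb
      rw [Finset.mem_insert] at hb
      rcases hb with rfl | hb
      · exact ⟨fun h6 => hout a h6 h1, fun h6 => hout b h6 h2, fun h6 => hout c h6 h3⟩
      · exact hB.out b' hb
    · intro t ht hne
      rw [Finset.mem_union, Finset.mem_insert, Finset.mem_singleton] at ht
      rcases ht with ht | rfl | rfl
      · obtain ⟨b', hb, h6⟩ := hB.hit t ht hne
        exact ⟨b', Finset.mem_insert_of_mem hb, h6⟩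
      · exact ⟨{r, s}, Finset.mem_insert_self _ _, kc_sub r s p⟩
      · exact ⟨{r, s}, Finset.mem_insert_self _ _, kc_sub r s q⟩
    · intro v hv
      have hnew : v ∈ ({r, s} : Finset V) → v = a ∨ v = b ∨ v = c ∨
          ∃ b' ∈ insert ({r, s} : Finset V) B, v ∈ b' := fun h6 =>
        Or.inr (Or.inr (Or.inr ⟨{r, s}, Finset.mem_insert_self _ _, h6⟩))
      have hold : v ∈ ver K → v = a ∨ v = b ∨ v = c ∨
          ∃ b' ∈ insert ({r, s} : Finset V) B, v ∈ b' := by
        intro h6
        rcases hB.mem v h6 with h7 | h7 | h7 | ⟨b', hb, h7⟩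
        · exact Or.inl h7
        · exact Or.inr (Or.inl h7)
        · exact Or.inr (Or.inr (Or.inl h7))
        · exact Or.inr (Or.inr (Or.inr ⟨b', Finset.mem_insert_of_mem hb, h7⟩))
      rw [ver_union, Finset.mem_union] at hv
      rcases hv with hv | hv
      · exact hold hv
      · obtain ⟨e, he, hv⟩ := Pool.Agent.MP284513.mem_ver.1 hv
        rw [Finset.mem_insert, Finset.mem_singleton] at he
        rcases he with rfl | rfl
        · rw [Finset.mem_insert, Finset.mem_insert, Finset.mem_singleton] at hv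
          rcases hv with rfl | rfl | rfl
          · exact hnew (by simp)
          · exact hnew (by simp)
          · exact hold h4
        · rw [Finset.mem_insert, Finset.mem_insert, Finset.mem_singleton] at hv
          rcases hv with rfl | rfl | rfl
          · exact hnew (by simp)
          · exact hnew (by simp)
          · exact hold h5

/-- the blocks are `{a, b, c, q {a, b, c}}` and the pairs; `c` is the only vertex which lies in only
one member: if `v ∈ t` lies only in `t` then `t = {a, b, c}`, since every other member `t` contains a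
pair, `v` is `a`, `b` (`Chain.star_a`, `Chain.swapAB`) or in a pair, and every pair is contained in two
members (`Pairs.twice`) -/
theorem blk_chain {K : Finset (Finset V)} {a b c p p' : V} (h : Chain K a b c p p')
    {q : Finset V → V} (hinj : ∀ s ∈ K, ∀ t ∈ K, q s = q t → s = t)
    (hnew : ∀ t ∈ K, q t ∉ ver K) : ∃ B, Blk K q B := by
  obtain ⟨B, hB⟩ := h.pairs
  have hf : ({a, b, c} : Finset V) ∈ K := h.mem_first
  have hsep : ∀ b' ∈ B, ∀ v, v ∈ insert (q {a, b, c}) ({a, b, c} : Finset V) → v ∉ b' := by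
    intro b' hb v hv hv'
    rw [Finset.mem_insert] at hv
    rcases hv with rfl | hv
    · exact hnew _ hf (hB.mem_ver hb hv')
    · obtain ⟨o1, o2, o3⟩ := hB.out b' hb
      rw [Finset.mem_insert, Finset.mem_insert, Finset.mem_singleton] at hv
      rcases hv with rfl | rfl | rfl
      · exact o1 hv'
      · exact o2 hv'
      · exact o3 hv'
  have hstar : ∀ x t, (star K x).card = 2 → ¬ ∀ s ∈ K, x ∈ s → s = t := by
    intro x t h2 h3
    have h4 : star K x ⊆ {t} := fun s hs =>
      Finset.mem_singleton.2 (h3 s (mem_star.1 hs).1 (mem_star.1 hs).2)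
    have h5 := Finset.card_le_card h4
    rw [Finset.card_singleton] at h5
    omega
  refine ⟨insert (insert (q {a, b, c}) {a, b, c}) B, ?_, ?_, ?_, ?_, ?_, ?_, ?_⟩
  · intro b₁ h₁ b₂ h₂ v hv₁ hv₂
    rw [Finset.mem_insert] at h₁ h₂
    rcases h₁ with rfl | h₁ <;> rcases h₂ with rfl | h₂
    · rfl
    · exact absurd hv₂ (hsep b₂ h₂ v hv₁)
    · exact absurd hv₁ (hsep b₁ h₁ v hv₂)
    · exact hB.disj b₁ h₁ b₂ h₂ v hv₁ hv₂
  · have h1 := Finset.card_insert_le (insert (q {a, b, c}) ({a, b, c} : Finset V)) B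
    have h2 := hB.card
    omega
  · intro b' hb
    rw [Finset.mem_insert] at hb
    rcases hb with rfl | hb
    · exact ⟨_, hf, Finset.Subset.refl _⟩
    · obtain ⟨t, ht, -, -, -, h1, -⟩ := hB.twice b' hb
      exact ⟨t, ht, h1.trans (Finset.subset_insert _ _)⟩
  · intro t ht
    by_cases h1 : t = {a, b, c}
    · exact ⟨_, Finset.mem_insert_self _ _, by rw [h1]⟩
    · obtain ⟨b', hb, h2⟩ := hB.hit t ht h1
      exact ⟨b', Finset.mem_insert_of_mem hb, h2.trans (Finset.subset_insert _ _)⟩
  · intro v hv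
    rcases hB.mem v hv with rfl | rfl | rfl | ⟨b', hb, h1⟩
    · exact ⟨_, Finset.mem_insert_self _ _, by simp⟩
    · exact ⟨_, Finset.mem_insert_self _ _, by simp⟩
    · exact ⟨_, Finset.mem_insert_self _ _, by simp⟩
    · exact ⟨b', Finset.mem_insert_of_mem hb, h1⟩
  · intro t ht v hv hall
    have h1 : t = {a, b, c} := by
      rcases hB.mem v (mem_ver.2 ⟨t, ht, hv⟩) with rfl | rfl | rfl | ⟨b', hb, h1⟩
      · exact absurd hall (hstar _ t h.star_a)
      · exact absurd hall (hstar _ t h.swapAB.star_a)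
      · exact h.of_mem_c t ht hv
      · obtain ⟨t₁, ht₁, t₂, ht₂, h2, h3, h4⟩ := hB.twice b' hb
        exact absurd ((hall t₁ ht₁ (h3 h1)).trans (hall t₂ ht₂ (h4 h1)).symm) h2
    rw [h1]
    exact Finset.mem_insert_self _ _
  · intro b' hb
    rw [Finset.mem_insert] at hb
    rcases hb with rfl | hb
    · exact ⟨⟨a, by simp⟩, Or.inr ⟨_, hf, rfl⟩⟩
    · have h2 := hB.two b' hb
      refine ⟨?_, Or.inl (by omega)⟩
      rw [← Finset.card_pos]
      omega

end Pool.Agent.MP284513
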