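import Pool.Agent.Lib.MP_284513_co.Defs

/-!
# Link edges
-/

namespace Pool.Agent.MP284513

variable {V : Type} [DecidableEq V]

/-- `v` is a private vertex of the member `e` of `E`: it lies in no other member of `E`. -/
def Private (E : Finset (Finset V)) (e : Finset V) (v : V) : Prop :=
  v ∈ e ∧ ∀ e' ∈ E, v ∈ e' → e' = e

/-- `f` is a link edge for `E`. Let `f` contain a private vertex `v` of a member `e` of `E`. If `e`
has another private vertex then `f` has at most one vertex in common with every member of `E`; if
`v` is the only private vertex of `e` then `f` meets two components of `E` (there is a union `A` of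
components of `E` such that `f` has vertices in `A` and outside `A`). -/
def LinkEdge (E : Finset (Finset V)) (f : Finset V) : Prop :=
  ∀ e ∈ E, ∀ v ∈ f, Private E e v →
    ((∃ w, w ≠ v ∧ Private E e w) → ∀ e' ∈ E, (e' ∩ f).card ≤ 1) ∧
    ((∀ w, Private E e w → w = v) →
      ∃ A : Finset V, (∀ e' ∈ E, e' ⊆ A ∨ Disjoint e' A) ∧ ¬ f ⊆ A ∧ ¬ Disjoint f A)

/-- `e` is a row of a grid: sixteen vertices in a square, whose rows are members of `E`, such that the
edges of `H` which contain at least one of them are the four rows and the four columns. -/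
def GridRow (H E : Finset (Finset V)) (e : Finset V) : Prop :=
  ∃ g : Fin 4 → Fin 4 → V, (∀ i j k l, g i j = g k l → i = k ∧ j = l) ∧
    (∀ f, (f ∈ H ∧ ∃ i j, g i j ∈ f) ↔
      (∃ i, f = Finset.univ.image (g i)) ∨ ∃ j, f = Finset.univ.image fun i => g i j) ∧
    (∀ i, Finset.univ.image (g i) ∈ E) ∧ ∃ i, e = Finset.univ.image (g i)

end Pool.Agent.MP284513
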