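import Pool.Agent.Lib.MP_284513_co.KChain

/-!
# Blocks: double chains and closed chains
-/

set_option linter.unusedSectionVars false

namespace Pool.Agent.MP284513

variable {V : Type} [DecidableEq V]

private theorem kd_sub {K B : Finset (Finset V)} {a b c p q : V} (P : Pairs K a b c p q B) :
    ∀ b' ∈ B, ∀ v ∈ b', v ∈ ver K := by
  intro b' hb' v hv
  obtain ⟨t, ht, _, _, _, hbt, _⟩ := P.twice b' hb'
  exact mem_ver.2 ⟨t, ht, hbt hv⟩

private theorem kd_out {K B : Finset (Finset V)} {a b c p q : V} (P : Pairs K a b c p q B) :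
    ∀ b' ∈ B, ∀ v ∈ b', v ≠ a ∧ v ≠ b ∧ v ≠ c := by
  intro b' hb' v hv
  obtain ⟨h1, h2, h3⟩ := P.out b' hb'
  refine ⟨?_, ?_, ?_⟩
  · rintro rfl
    exact h1 hv
  · rintro rfl
    exact h2 hv
  · rintro rfl
    exact h3 hv

private theorem kd_two {K : Finset (Finset V)} {a b c p q : V} (h : Chain K a b c p q) :
    ∃ t ∈ K, ∃ t' ∈ K, t ≠ t' ∧ a ∈ t ∧ a ∈ t' := by
  obtain ⟨t, t', hne, hs⟩ := Finset.card_eq_two.1 h.star_a
  have ht : t ∈ star K a := by rw [hs]; simp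
  have ht' : t' ∈ star K a := by rw [hs]; simp
  exact ⟨t, (mem_star.1 ht).1, t', (mem_star.1 ht').1, hne, (mem_star.1 ht).2, (mem_star.1 ht').2⟩

private theorem kd_pair {K B : Finset (Finset V)} {a b c p q : V} (P : Pairs K a b c p q B)
    {b' : Finset V} (hb' : b' ∈ B) {v : V} (hv : v ∈ b') :
    ∃ t ∈ K, ∃ t' ∈ K, t ≠ t' ∧ v ∈ t ∧ v ∈ t' := by
  obtain ⟨t, ht, t', ht', hne, h1, h2⟩ := P.twice b' hb'
  exact ⟨t, ht, t', ht', hne, h1 hv, h2 hv⟩

private theorem kd_nonempty {K B : Finset (Finset V)} {a b c p q : V} (P : Pairs K a b c p q B)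
    {b' : Finset V} (hb' : b' ∈ B) : b'.Nonempty ∧ b'.card ≤ 3 := by
  have h1 := P.two b' hb'
  exact ⟨Finset.card_pos.1 (by omega), by omega⟩

/-- the blocks are `{a, b, c}` and the pairs of both chains; no vertex lies in only one member;
numbers: `double_card` -/
theorem blk_double {K₁ K₂ : Finset (Finset V)} {a b c p₁ p₂ r₁ r₂ : V}
    (h₁ : Chain K₁ a b c p₁ p₂) (h₂ : Chain K₂ c b a r₁ r₂) (h : ver K₁ ∩ ver K₂ ⊆ {a, b, c})
    {q : Finset V → V} (hinj : ∀ s ∈ K₁ ∪ K₂, ∀ t ∈ K₁ ∪ K₂, q s = q t → s = t)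
    (hnew : ∀ t ∈ K₁ ∪ K₂, q t ∉ ver (K₁ ∪ K₂)) : ∃ B, Blk (K₁ ∪ K₂) q B := by
  obtain ⟨B₁, P₁⟩ := h₁.pairs
  obtain ⟨B₂, P₂⟩ := h₂.pairs
  have hrev : ({c, b, a} : Finset V) = {a, b, c} := by
    ext v
    simp only [Finset.mem_insert, Finset.mem_singleton]
    tauto
  have habc : ∀ v, v ∈ ({a, b, c} : Finset V) ↔ v = a ∨ v = b ∨ v = c := by
    intro v
    simp only [Finset.mem_insert, Finset.mem_singleton]
  have hf : ({a, b, c} : Finset V) ∈ K₁ ∪ K₂ := Finset.mem_union_left _ h₁.mem_first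
  have hd : ∀ b₁ ∈ B₁, ∀ b₂ ∈ B₂, ∀ v, v ∈ b₁ → v ∈ b₂ → False := by
    intro b₁ hb₁ b₂ hb₂ v hv₁ hv₂
    have h3 := h (Finset.mem_inter.2 ⟨kd_sub P₁ b₁ hb₁ v hv₁, kd_sub P₂ b₂ hb₂ v hv₂⟩)
    obtain ⟨g1, g2, g3⟩ := kd_out P₁ b₁ hb₁ v hv₁
    rcases (habc v).1 h3 with h4 | h4 | h4
    · exact g1 h4
    · exact g2 h4
    · exact g3 h4
  have ho₁ : ∀ b₁ ∈ B₁, ∀ v, v ∈ b₁ → v ∉ ({a, b, c} : Finset V) := by
    intro b₁ hb₁ v hv₁ hv
    obtain ⟨g1, g2, g3⟩ := kd_out P₁ b₁ hb₁ v hv₁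
    rcases (habc v).1 hv with h4 | h4 | h4
    · exact g1 h4
    · exact g2 h4
    · exact g3 h4
  have ho₂ : ∀ b₂ ∈ B₂, ∀ v, v ∈ b₂ → v ∉ ({a, b, c} : Finset V) := by
    intro b₂ hb₂ v hv₂ hv
    obtain ⟨g1, g2, g3⟩ := kd_out P₂ b₂ hb₂ v hv₂
    rcases (habc v).1 hv with h4 | h4 | h4
    · exact g3 h4
    · exact g2 h4
    · exact g1 h4
  have htw : ∀ v ∈ ver (K₁ ∪ K₂),
      ∃ t ∈ K₁ ∪ K₂, ∃ t' ∈ K₁ ∪ K₂, t ≠ t' ∧ v ∈ t ∧ v ∈ t' := by
    have e₁ : ∀ v, (∃ t ∈ K₁, ∃ t' ∈ K₁, t ≠ t' ∧ v ∈ t ∧ v ∈ t') →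
        ∃ t ∈ K₁ ∪ K₂, ∃ t' ∈ K₁ ∪ K₂, t ≠ t' ∧ v ∈ t ∧ v ∈ t' := by
      rintro v ⟨t, ht, t', ht', h3⟩
      exact ⟨t, Finset.mem_union_left _ ht, t', Finset.mem_union_left _ ht', h3⟩
    have e₂ : ∀ v, (∃ t ∈ K₂, ∃ t' ∈ K₂, t ≠ t' ∧ v ∈ t ∧ v ∈ t') →
        ∃ t ∈ K₁ ∪ K₂, ∃ t' ∈ K₁ ∪ K₂, t ≠ t' ∧ v ∈ t ∧ v ∈ t' := by
      rintro v ⟨t, ht, t', ht', h3⟩
      exact ⟨t, Finset.mem_union_right _ ht, t', Finset.mem_union_right _ ht', h3⟩
    have ea := e₁ a (kd_two h₁)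
    have eb := e₁ b (kd_two h₁.swapAB)
    have ec := e₂ c (kd_two h₂)
    intro v hv
    rw [ver_union, Finset.mem_union] at hv
    rcases hv with hv | hv
    · rcases P₁.mem v hv with rfl | rfl | rfl | ⟨b', hb', hvb⟩
      · exact ea
      · exact eb
      · exact ec
      · exact e₁ v (kd_pair P₁ hb' hvb)
    · rcases P₂.mem v hv with rfl | rfl | rfl | ⟨b', hb', hvb⟩
      · exact ec
      · exact eb
      · exact ea
      · exact e₂ v (kd_pair P₂ hb' hvb)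
  refine ⟨insert {a, b, c} (B₁ ∪ B₂), ?_, ?_, ?_, ?_, ?_, ?_, ?_⟩
  · intro b₁ hb₁ b₂ hb₂ v hv₁ hv₂
    rw [Finset.mem_insert, Finset.mem_union] at hb₁ hb₂
    rcases hb₁ with rfl | g1 | g1
    · rcases hb₂ with rfl | g2 | g2
      · rfl
      · exact absurd hv₁ (ho₁ b₂ g2 v hv₂)
      · exact absurd hv₁ (ho₂ b₂ g2 v hv₂)
    · rcases hb₂ with rfl | g2 | g2
      · exact absurd hv₂ (ho₁ b₁ g1 v hv₁)
      · exact P₁.disj b₁ g1 b₂ g2 v hv₁ hv₂
      · exact (hd b₁ g1 b₂ g2 v hv₁ hv₂).elim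
    · rcases hb₂ with rfl | g2 | g2
      · exact absurd hv₂ (ho₂ b₁ g1 v hv₁)
      · exact (hd b₂ g2 b₁ g1 v hv₂ hv₁).elim
      · exact P₂.disj b₁ g1 b₂ g2 v hv₁ hv₂
  · have g1 := Finset.card_insert_le ({a, b, c} : Finset V) (B₁ ∪ B₂)
    have g2 := Finset.card_union_le B₁ B₂
    have g3 := P₁.card
    have g4 := P₂.card
    obtain ⟨g5, g6⟩ := double_card h₁ h₂ h
    omega
  · intro b' hb'
    rw [Finset.mem_insert, Finset.mem_union] at hb'
    rcases hb' with rfl | g1 | g1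
    · exact ⟨{a, b, c}, hf, Finset.subset_insert _ _⟩
    · obtain ⟨t, ht, _, _, _, hbt, _⟩ := P₁.twice b' g1
      exact ⟨t, Finset.mem_union_left _ ht, hbt.trans (Finset.subset_insert _ _)⟩
    · obtain ⟨t, ht, _, _, _, hbt, _⟩ := P₂.twice b' g1
      exact ⟨t, Finset.mem_union_right _ ht, hbt.trans (Finset.subset_insert _ _)⟩
  · intro t ht
    by_cases hta : t = {a, b, c}
    · exact ⟨{a, b, c}, Finset.mem_insert_self _ _, hta ▸ Finset.subset_insert _ _⟩
    · rcases Finset.mem_union.1 ht with ht | ht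
      · obtain ⟨b', hb', hbt⟩ := P₁.hit t ht hta
        exact ⟨b', Finset.mem_insert_of_mem (Finset.mem_union_left _ hb'),
          hbt.trans (Finset.subset_insert _ _)⟩
      · obtain ⟨b', hb', hbt⟩ := P₂.hit t ht (by rw [hrev]; exact hta)
        exact ⟨b', Finset.mem_insert_of_mem (Finset.mem_union_right _ hb'),
          hbt.trans (Finset.subset_insert _ _)⟩
  · intro v hv
    have hin : v = a ∨ v = b ∨ v = c → ∃ b' ∈ insert {a, b, c} (B₁ ∪ B₂), v ∈ b' := fun g =>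
      ⟨{a, b, c}, Finset.mem_insert_self _ _, (habc v).2 g⟩
    rw [ver_union, Finset.mem_union] at hv
    rcases hv with hv | hv
    · rcases P₁.mem v hv with g | g | g | ⟨b', hb', hvb⟩
      · exact hin (Or.inl g)
      · exact hin (Or.inr (Or.inl g))
      · exact hin (Or.inr (Or.inr g))
      · exact ⟨b', Finset.mem_insert_of_mem (Finset.mem_union_left _ hb'), hvb⟩
    · rcases P₂.mem v hv with g | g | g | ⟨b', hb', hvb⟩
      · exact hin (Or.inr (Or.inr g))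
      · exact hin (Or.inr (Or.inl g))
      · exact hin (Or.inl g)
      · exact ⟨b', Finset.mem_insert_of_mem (Finset.mem_union_right _ hb'), hvb⟩
  · intro t ht v hv hall
    obtain ⟨s, hs, s', hs', hne, hvs, hvs'⟩ := htw v (mem_ver.2 ⟨t, ht, hv⟩)
    exact absurd ((hall s hs hvs).trans (hall s' hs' hvs').symm) hne
  · intro b' hb'
    rw [Finset.mem_insert, Finset.mem_union] at hb'
    rcases hb' with rfl | g1 | g1
    · exact ⟨⟨a, by simp⟩, Or.inl Finset.card_le_three⟩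
    · exact ⟨(kd_nonempty P₁ g1).1, Or.inl (kd_nonempty P₁ g1).2⟩
    · exact ⟨(kd_nonempty P₂ g1).1, Or.inl (kd_nonempty P₂ g1).2⟩

/-- the blocks are `{a, b}`, `{c, x}` and the pairs of the chain; no vertex lies in only one member -/
theorem blk_cycle {K : Finset (Finset V)} {a b c p p' x : V} (h : Chain K a b c p p')
    (hx : x ∉ ver K) {q : Finset V → V}
    (hinj : ∀ s ∈ K ∪ {{x, c, p}, {x, c, p'}, {x, a, b}},
      ∀ t ∈ K ∪ {{x, c, p}, {x, c, p'}, {x, a, b}}, q s = q t → s = t)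
    (hnew : ∀ t ∈ K ∪ {{x, c, p}, {x, c, p'}, {x, a, b}},
      q t ∉ ver (K ∪ {{x, c, p}, {x, c, p'}, {x, a, b}})) :
    ∃ B, Blk (K ∪ {{x, c, p}, {x, c, p'}, {x, a, b}}) q B := by
  obtain ⟨B₀, P⟩ := h.pairs
  obtain ⟨ma, mb, mc, mp, mp'⟩ := h.mem_ver
  have hnd := h.nodup
  simp only [List.nodup_cons, List.mem_cons, List.not_mem_nil, or_false, not_or,
    List.nodup_nil, and_true, not_false_eq_true] at hnd
  have hxa : x ≠ a := fun g => hx (g ▸ ma)
  have hxb : x ≠ b := fun g => hx (g ▸ mb)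
  have hxc : x ≠ c := fun g => hx (g ▸ mc)
  have hxp : x ≠ p := fun g => hx (g ▸ mp)
  have hxp' : x ≠ p' := fun g => hx (g ▸ mp')
  have hab : a ≠ b := hnd.1.1
  have hac : a ≠ c := hnd.1.2.1
  have hbc : b ≠ c := hnd.2.1.1
  have hcp : c ≠ p := hnd.2.2.1.1
  have hcp' : c ≠ p' := hnd.2.2.1.2
  have hpp' : p ≠ p' := hnd.2.2.2
  have n1 : ({x, c, p} : Finset V) ≠ {x, c, p'} := by
    intro g
    have g1 : p ∈ ({x, c, p'} : Finset V) := by
      rw [← g]
      simp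
    simp only [Finset.mem_insert, Finset.mem_singleton] at g1
    rcases g1 with g1 | g1 | g1
    · exact hxp g1.symm
    · exact hcp g1.symm
    · exact hpp' g1
  have n2 : ∀ y, ({x, c, y} : Finset V) ≠ {x, a, b} := by
    intro y g
    have g1 : c ∈ ({x, a, b} : Finset V) := by
      rw [← g]
      simp
    simp only [Finset.mem_insert, Finset.mem_singleton] at g1
    rcases g1 with g1 | g1 | g1
    · exact hxc g1.symm
    · exact hac g1.symm
    · exact hbc g1.symm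
  have n3 : ∀ t : Finset V, x ∈ t → ({a, b, c} : Finset V) ≠ t := by
    rintro t ht rfl
    simp only [Finset.mem_insert, Finset.mem_singleton] at ht
    rcases ht with g1 | g1 | g1
    · exact hxa g1
    · exact hxb g1
    · exact hxc g1
  have hT : ∀ t, t ∈ K ∪ {{x, c, p}, {x, c, p'}, {x, a, b}} ↔
      t ∈ K ∨ t = {x, c, p} ∨ t = {x, c, p'} ∨ t = {x, a, b} := by
    intro t
    simp only [Finset.mem_union, Finset.mem_insert, Finset.mem_singleton]
  have hf : ({a, b, c} : Finset V) ∈ K ∪ {{x, c, p}, {x, c, p'}, {x, a, b}} :=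
    (hT _).2 (Or.inl h.mem_first)
  have t1 : ({x, c, p} : Finset V) ∈ K ∪ {{x, c, p}, {x, c, p'}, {x, a, b}} :=
    (hT _).2 (Or.inr (Or.inl rfl))
  have t2 : ({x, c, p'} : Finset V) ∈ K ∪ {{x, c, p}, {x, c, p'}, {x, a, b}} :=
    (hT _).2 (Or.inr (Or.inr (Or.inl rfl)))
  have t3 : ({x, a, b} : Finset V) ∈ K ∪ {{x, c, p}, {x, c, p'}, {x, a, b}} :=
    (hT _).2 (Or.inr (Or.inr (Or.inr rfl)))
  have hver : ∀ v, v ∈ ver (K ∪ {{x, c, p}, {x, c, p'}, {x, a, b}}) ↔ v = x ∨ v ∈ ver K := by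
    intro v
    rw [mem_ver]
    constructor
    · rintro ⟨t, ht, hv⟩
      rcases (hT t).1 ht with g | rfl | rfl | rfl
      · exact Or.inr (mem_ver.2 ⟨t, g, hv⟩)
      · simp only [Finset.mem_insert, Finset.mem_singleton] at hv
        rcases hv with rfl | rfl | rfl
        · exact Or.inl rfl
        · exact Or.inr mc
        · exact Or.inr mp
      · simp only [Finset.mem_insert, Finset.mem_singleton] at hv
        rcases hv with rfl | rfl | rfl
        · exact Or.inl rfl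
        · exact Or.inr mc
        · exact Or.inr mp'
      · simp only [Finset.mem_insert, Finset.mem_singleton] at hv
        rcases hv with rfl | rfl | rfl
        · exact Or.inl rfl
        · exact Or.inr ma
        · exact Or.inr mb
    · rintro (rfl | hv)
      · exact ⟨_, t1, by simp⟩
      · obtain ⟨t, ht, hvt⟩ := mem_ver.1 hv
        exact ⟨t, (hT t).2 (Or.inl ht), hvt⟩
  have hcv : (ver (K ∪ {{x, c, p}, {x, c, p'}, {x, a, b}})).card = (ver K).card + 1 := by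
    rw [← Finset.card_insert_of_notMem hx]
    congr 1
    ext v
    rw [hver, Finset.mem_insert]
  have hct : (K ∪ {{x, c, p}, {x, c, p'}, {x, a, b}}).card = K.card + 3 := by
    rw [Finset.card_union_of_disjoint]
    · rw [Finset.card_eq_three.2 ⟨_, _, _, n1, n2 p, n2 p', rfl⟩]
    · rw [Finset.disjoint_left]
      intro t ht ht'
      have hxt : x ∈ t := by
        simp only [Finset.mem_insert, Finset.mem_singleton] at ht'
        rcases ht' with rfl | rfl | rfl <;> simp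
      exact hx (mem_ver.2 ⟨t, ht, hxt⟩)
  have oab : ∀ b' ∈ B₀, ∀ v ∈ b', v ∉ ({a, b} : Finset V) ∧ v ∉ ({c, x} : Finset V) := by
    intro b' hb' v hv
    obtain ⟨g1, g2, g3⟩ := kd_out P b' hb' v hv
    have g4 : v ≠ x := fun g => hx (g ▸ kd_sub P b' hb' v hv)
    simp only [Finset.mem_insert, Finset.mem_singleton]
    tauto
  have oo : ∀ v, v ∈ ({a, b} : Finset V) → v ∈ ({c, x} : Finset V) → False := by
    intro v h1 h2
    simp only [Finset.mem_insert, Finset.mem_singleton] at h1 h2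
    rcases h1 with rfl | rfl
    · rcases h2 with g | g
      · exact hac g
      · exact hxa g.symm
    · rcases h2 with g | g
      · exact hbc g
      · exact hxb g.symm
  have hB : ∀ b', b' ∈ insert {a, b} (insert {c, x} B₀) ↔
      b' = {a, b} ∨ b' = {c, x} ∨ b' ∈ B₀ := by
    intro b'
    rw [Finset.mem_insert, Finset.mem_insert]
  have htw : ∀ v ∈ ver (K ∪ {{x, c, p}, {x, c, p'}, {x, a, b}}),
      ∃ t ∈ K ∪ {{x, c, p}, {x, c, p'}, {x, a, b}},
      ∃ t' ∈ K ∪ {{x, c, p}, {x, c, p'}, {x, a, b}}, t ≠ t' ∧ v ∈ t ∧ v ∈ t' := by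
    intro v hv
    rcases (hver v).1 hv with rfl | hv
    · exact ⟨_, t1, _, t2, n1, by simp, by simp⟩
    · rcases P.mem v hv with rfl | rfl | rfl | ⟨b', hb', hvb⟩
      · exact ⟨_, hf, _, t3, n3 _ (by simp), by simp, by simp⟩
      · exact ⟨_, hf, _, t3, n3 _ (by simp), by simp, by simp⟩
      · exact ⟨_, hf, _, t1, n3 _ (by simp), by simp, by simp⟩
      · obtain ⟨t, ht, t', ht', h3⟩ := kd_pair P hb' hvb
        exact ⟨t, (hT t).2 (Or.inl ht), t', (hT t').2 (Or.inl ht'), h3⟩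
  refine ⟨insert {a, b} (insert {c, x} B₀), ?_, ?_, ?_, ?_, ?_, ?_, ?_⟩
  · intro b₁ hb₁ b₂ hb₂ v hv₁ hv₂
    rcases (hB b₁).1 hb₁ with rfl | rfl | g1
    · rcases (hB b₂).1 hb₂ with rfl | rfl | g2
      · rfl
      · exact (oo v hv₁ hv₂).elim
      · exact absurd hv₁ (oab b₂ g2 v hv₂).1
    · rcases (hB b₂).1 hb₂ with rfl | rfl | g2
      · exact (oo v hv₂ hv₁).elim
      · rfl
      · exact absurd hv₁ (oab b₂ g2 v hv₂).2
    · rcases (hB b₂).1 hb₂ with rfl | rfl | g2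
      · exact absurd hv₂ (oab b₁ g1 v hv₁).1
      · exact absurd hv₂ (oab b₁ g1 v hv₁).2
      · exact P.disj b₁ g1 b₂ g2 v hv₁ hv₂
  · have g1 := Finset.card_insert_le ({a, b} : Finset V) (insert {c, x} B₀)
    have g2 := Finset.card_insert_le ({c, x} : Finset V) B₀
    have g3 := P.card
    omega
  · intro b' hb'
    rcases (hB b').1 hb' with rfl | rfl | g1
    · refine ⟨{a, b, c}, hf, fun v hv => Finset.mem_insert_of_mem ?_⟩
      simp only [Finset.mem_insert, Finset.mem_singleton] at hv ⊢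
      tauto
    · refine ⟨{x, c, p}, t1, fun v hv => Finset.mem_insert_of_mem ?_⟩
      simp only [Finset.mem_insert, Finset.mem_singleton] at hv ⊢
      tauto
    · obtain ⟨t, ht, _, _, _, hbt, _⟩ := P.twice b' g1
      exact ⟨t, (hT t).2 (Or.inl ht), hbt.trans (Finset.subset_insert _ _)⟩
  · intro t ht
    have hcx : ∀ y, t = {x, c, y} → ∃ b' ∈ insert {a, b} (insert {c, x} B₀),
        b' ⊆ insert (q t) t := by
      intro y g
      refine ⟨{c, x}, (hB _).2 (Or.inr (Or.inl rfl)), fun v hv => Finset.mem_insert_of_mem ?_⟩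
      rw [g]
      simp only [Finset.mem_insert, Finset.mem_singleton] at hv ⊢
      tauto
    have hab' : a ∈ t → b ∈ t → ∃ b' ∈ insert {a, b} (insert {c, x} B₀),
        b' ⊆ insert (q t) t := by
      intro g g'
      refine ⟨{a, b}, (hB _).2 (Or.inl rfl), fun v hv => Finset.mem_insert_of_mem ?_⟩
      simp only [Finset.mem_insert, Finset.mem_singleton] at hv
      rcases hv with rfl | rfl
      · exact g
      · exact g'
    rcases (hT t).1 ht with ht | ht | ht | ht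
    · by_cases hta : t = {a, b, c}
      · exact hab' (by rw [hta]; simp) (by rw [hta]; simp)
      · obtain ⟨b', hb', hbt⟩ := P.hit t ht hta
        exact ⟨b', (hB _).2 (Or.inr (Or.inr hb')), hbt.trans (Finset.subset_insert _ _)⟩
    · exact hcx p ht
    · exact hcx p' ht
    · exact hab' (by rw [ht]; simp) (by rw [ht]; simp)
  · intro v hv
    rcases (hver v).1 hv with rfl | hv
    · exact ⟨_, (hB _).2 (Or.inr (Or.inl rfl)), by simp⟩
    · rcases P.mem v hv with rfl | rfl | rfl | ⟨b', hb', hvb⟩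
      · exact ⟨_, (hB _).2 (Or.inl rfl), by simp⟩
      · exact ⟨_, (hB _).2 (Or.inl rfl), by simp⟩
      · exact ⟨_, (hB _).2 (Or.inr (Or.inl rfl)), by simp⟩
      · exact ⟨b', (hB _).2 (Or.inr (Or.inr hb')), hvb⟩
  · intro t ht v hv hall
    obtain ⟨s, hs, s', hs', hne, hvs, hvs'⟩ := htw v (mem_ver.2 ⟨t, ht, hv⟩)
    exact absurd ((hall s hs hvs).trans (hall s' hs' hvs').symm) hne
  · intro b' hb'
    rcases (hB b').1 hb' with rfl | rfl | g1
    · exact ⟨⟨a, by simp⟩, Or.inl (Finset.card_le_two.trans (by omega))⟩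
    · exact ⟨⟨c, by simp⟩, Or.inl (Finset.card_le_two.trans (by omega))⟩
    · exact ⟨(kd_nonempty P g1).1, Or.inl (kd_nonempty P g1).2⟩

end Pool.Agent.MP284513
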