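import Pool.Agent.Lib.MP_284513_co.KHall

/-!
# Grids
-/

set_option linter.unusedSectionVars false

namespace Pool.Agent.MP284513

variable {V : Type} [DecidableEq V]

/-- a row has four elements -/
private theorem Lk.row_card {H T B : Finset (Finset V)} {q : Finset V → V} (c : Lk H T q B)
    {t : Finset V} (ht : t ∈ T) : (insert (q t) t).card = 4 := by
  have h1 : q t ∉ t := fun h => c.new t ht (Finset.mem_biUnion.2 ⟨t, ht, h⟩)
  rw [Finset.card_insert_of_notMem h1, c.three t ht]

/-- The rows are `t + q t` and the three members of `C`, the columns are the sets `F y`. Every row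
meets every column in exactly one vertex (`Lk.sep`: all four vertices of `t + q t` are private by
`Lk.four`), `g i j` is this vertex. The rows are pairwise disjoint and so are the columns, and each of
them has four elements, so row `i` is the image of `g i` and column `j` is the image of
`fun i => g i j`. Every vertex of a row `s + q s` lies in a column, so `Lk.cross` can be applied to
every row, and `KCross.uniq` shows that an edge of `H` which contains a vertex of the grid is a row or
a column. -/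
theorem Lk.grid {H T B : Finset (Finset V)} {q : Finset V → V} (c : Lk H T q B)
    {t : Finset V} (ht : t ∈ T)
    (htouch : ∀ y, Exp T q t y → ∃ f ∈ H, f ≠ insert (q t) t ∧ y ∈ f) :
    ∃ g : Fin 4 → Fin 4 → V, (∀ i j k l, g i j = g k l → i = k ∧ j = l) ∧
      (∀ f, (f ∈ H ∧ ∃ i j, g i j ∈ f) ↔
        (∃ i, f = Finset.univ.image (g i)) ∨ ∃ j, f = Finset.univ.image fun i => g i j) ∧
      (∀ i, ∃ s ∈ T, Finset.univ.image (g i) = insert (q s) s) ∧
      Finset.univ.image (g 0) = insert (q t) t := by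
  classical
  obtain ⟨C, F, hx⟩ := c.cross ht htouch
  have hfour := c.four ht htouch
  let e : C ≃ Fin 3 := Finset.equivFinOfCardEq hx.card
  let e₀ : {x // x ∈ insert (q t) t} ≃ Fin 4 := Finset.equivFinOfCardEq (c.row_card ht)
  let y : Fin 4 → V := fun j => (e₀.symm j).1
  have hy : ∀ j, y j ∈ insert (q t) t := fun j => (e₀.symm j).2
  have hyinj : ∀ j l, y j = y l → j = l := by
    intro j l h
    exact e₀.symm.injective (Subtype.ext h)
  have hysurj : ∀ x ∈ insert (q t) t, ∃ j, y j = x := fun x hxm =>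
    ⟨e₀ ⟨x, hxm⟩, congrArg Subtype.val (e₀.symm_apply_apply ⟨x, hxm⟩)⟩
  let r : Fin 4 → Finset V := Fin.cons (insert (q t) t) fun k => (e.symm k).1
  have hr0 : r 0 = insert (q t) t := rfl
  have hrs : ∀ k : Fin 3, r k.succ = (e.symm k).1 := fun k => rfl
  have hrow : ∀ i, ∃ s ∈ T, r i = insert (q s) s := by
    intro i
    refine Fin.cases ?_ (fun k => ?_) i
    · exact ⟨t, ht, rfl⟩
    · obtain ⟨s, hs, -, hb⟩ := hx.row _ (e.symm k).2
      exact ⟨s, hs, hb⟩
  have hdisj : ∀ i k x, x ∈ r i → x ∈ r k → i = k := by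
    have h1 : ∀ (k : Fin 3) (x : V), x ∈ r 0 → x ∈ r k.succ → False := by
      intro k x h0 hk
      obtain ⟨s, hs, hne, hb⟩ := hx.row _ (e.symm k).2
      rw [hrs, hb] at hk
      rw [hr0] at h0
      exact hne ((hfour x h0).2 s hs hk)
    intro i k x
    refine Fin.cases ?_ (fun i => ?_) i
    · refine Fin.cases (fun _ _ => rfl) (fun k h0 hk => (h1 k x h0 hk).elim) k
    · refine Fin.cases (fun hi h0 => (h1 i x h0 hi).elim) (fun k hi hk => ?_) k
      rw [hrs] at hi hk
      have h2 := hx.disj _ (e.symm i).2 _ (e.symm k).2 x hi hk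
      rw [e.symm.injective (Subtype.ext h2)]
  have hmeet : ∀ i j, ∃ x, x ∈ r i ∧ x ∈ F (y j) := by
    intro i j
    refine Fin.cases ?_ (fun k => ?_) i
    · exact ⟨y j, hy j, (hx.mem (y j) (hy j)).2.2.1⟩
    · obtain ⟨x, hx1, hx2⟩ := hx.meet (y j) (hy j) _ (e.symm k).2
      exact ⟨x, hx2, hx1⟩
  choose g hgr hgF using hmeet
  have hinj : ∀ i j k l, g i j = g k l → i = k ∧ j = l := by
    intro i j k l h
    refine ⟨hdisj i k (g i j) (hgr i j) (h ▸ hgr k l), ?_⟩
    exact hyinj j l (hx.disjF _ (hy j) _ (hy l) (g i j) (hgF i j) (h ▸ hgF k l))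
  have hcard : ∀ i, (r i).card = 4 := by
    intro i
    obtain ⟨s, hs, h⟩ := hrow i
    rw [h, c.row_card hs]
  have hrowim : ∀ i, Finset.univ.image (g i) = r i := by
    intro i
    refine Finset.eq_of_subset_of_card_le ?_ ?_
    · intro x hxm
      obtain ⟨j, -, rfl⟩ := Finset.mem_image.1 hxm
      exact hgr i j
    · rw [hcard, Finset.card_image_of_injective _ fun j l h => (hinj i j i l h).2]
      simp
  have hcolim : ∀ j, (Finset.univ.image fun i => g i j) = F (y j) := by
    intro j
    refine Finset.eq_of_subset_of_card_le ?_ ?_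
    · intro x hxm
      obtain ⟨i, -, rfl⟩ := Finset.mem_image.1 hxm
      exact hgF i j
    · rw [(hx.mem _ (hy j)).2.2.2,
        Finset.card_image_of_injective _ fun i k h => (hinj i j k j h).1]
      simp
  have hcolne : ∀ i j, F (y j) ≠ r i := by
    intro i j h
    by_cases hi : i = 0
    · rw [hi, hr0] at h
      exact (hx.mem _ (hy j)).2.1 h
    · have h1 : g 0 j ∈ r i := h ▸ hgF 0 j
      exact hi (hdisj i 0 _ h1 (hgr 0 j))
  refine ⟨g, hinj, fun f => ⟨?_, ?_⟩, ?_, ?_⟩
  · rintro ⟨hf, i, j, hij⟩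
    by_cases hfr : f = r i
    · exact Or.inl ⟨i, by rw [hrowim, hfr]⟩
    right
    refine ⟨j, ?_⟩
    rw [hcolim]
    obtain ⟨s, hs, hri⟩ := hrow i
    have hst : ∀ z, Exp T q s z → ∃ f' ∈ H, f' ≠ insert (q s) s ∧ z ∈ f' := by
      intro z hz'
      have hz := hz'.1
      rw [← hri, ← hrowim, Finset.mem_image] at hz
      obtain ⟨l, -, rfl⟩ := hz
      exact ⟨F (y l), (hx.mem _ (hy l)).1, by rw [← hri]; exact hcolne i l, hgF i l⟩
    obtain ⟨C', F', hx'⟩ := c.cross hs hst
    have hgi : g i j ∈ insert (q s) s := by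
      rw [← hri]
      exact hgr i j
    have h1 := hx'.uniq _ hgi f hf (by rw [← hri]; exact hfr) hij
    have h2 := hx'.uniq _ hgi (F (y j)) (hx.mem _ (hy j)).1 (by rw [← hri]; exact hcolne i j)
      (hgF i j)
    rw [h1, h2]
  · rintro (⟨i, rfl⟩ | ⟨j, rfl⟩)
    · refine ⟨?_, i, 0, Finset.mem_image_of_mem _ (Finset.mem_univ _)⟩
      obtain ⟨s, hs, hri⟩ := hrow i
      rw [hrowim, hri]
      exact c.edge s hs
    · refine ⟨?_, 0, j, Finset.mem_image.2 ⟨0, Finset.mem_univ _, rfl⟩⟩
      rw [hcolim]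
      exact (hx.mem _ (hy j)).1
  · intro i
    obtain ⟨s, hs, hri⟩ := hrow i
    exact ⟨s, hs, by rw [hrowim, hri]⟩
  · rw [hrowim, hr0]

end Pool.Agent.MP284513
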