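import Pool.Agent.Lib.MP_284513_co.KInner

/-!
# Cover edges all of whose private vertices lie in other edges
-/

set_option linter.unusedSectionVars false

namespace Pool.Agent.MP284513

variable {V : Type} [DecidableEq V]

/-- every vertex lies in an enlarged member -/
theorem Lk.exists_mem {H T B : Finset (Finset V)} {q : Finset V → V} (c : Lk H T q B) (v : V) :
    ∃ s ∈ T, v ∈ insert (q s) s := by
  rcases c.all v with h2 | ⟨s, hs, rfl⟩
  · obtain ⟨s, hs, hvs⟩ := mem_ver.1 h2
    exact ⟨s, hs, Finset.mem_insert_of_mem hvs⟩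
  · exact ⟨s, hs, Finset.mem_insert_self _ _⟩

/-- the new vertex is private -/
theorem Lk.exp_new {H T B : Finset (Finset V)} {q : Finset V → V} (c : Lk H T q B)
    {t : Finset V} (ht : t ∈ T) : Exp T q t (q t) := by
  refine ⟨Finset.mem_insert_self _ _, fun s hs h => ?_⟩
  rcases Finset.mem_insert.1 h with h1 | h1
  · exact (c.inj t ht s hs h1).symm
  · exact absurd (mem_ver.2 ⟨s, hs, h1⟩) (c.new t ht)

/-- A partial system of representatives of the blocks other than `t + q t` does not dominate all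
private vertices of `t + q t`: otherwise choose a vertex of every other block; the result has
`B.card - 1` elements, it meets every other `s + q s` (`Blk.hit`: the block in `s + q s` is not
`t + q t`), so it dominates. -/
theorem Lk.no_system {H T B : Finset (Finset V)} {q : Finset V → V} (c : Lk H T q B)
    {t : Finset V} (ht : t ∈ T) (htB : insert (q t) t ∈ B) {W : Finset V}
    (hW : ∀ w ∈ W, ∃ b ∈ B, b ≠ insert (q t) t ∧ w ∈ b)
    (hWd : ∀ b ∈ B, ∀ w ∈ W, ∀ w' ∈ W, w ∈ b → w' ∈ b → w = w')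
    (hdom : ∀ y, Exp T q t y → ∃ w ∈ W, ∃ f ∈ H, w ∈ f ∧ y ∈ f) : False := by
  have hch : ∀ b : Finset V, ∃ x : V, b ∈ B → x ∈ b ∧ ((∃ w ∈ W, w ∈ b) → x ∈ W) := by
    intro b
    by_cases hb : b ∈ B
    · by_cases hw : ∃ w ∈ W, w ∈ b
      · obtain ⟨w, hwW, hwb⟩ := hw
        exact ⟨w, fun _ => ⟨hwb, fun _ => hwW⟩⟩
      · obtain ⟨x, hx⟩ := (c.blk.kind b hb).1
        exact ⟨x, fun _ => ⟨hx, fun h => absurd h hw⟩⟩
    · exact ⟨q t, fun h => absurd h hb⟩
  choose g hg using hch
  have hWg : W ⊆ (B.erase (insert (q t) t)).image g := by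
    intro w hw
    obtain ⟨b, hb, hbt, hwb⟩ := hW w hw
    have h1 := hg b hb
    have h2 : g b ∈ W := h1.2 ⟨w, hw, hwb⟩
    rw [Finset.mem_image]
    exact ⟨b, Finset.mem_erase.2 ⟨hbt, hb⟩, hWd b hb (g b) h2 w hw h1.1 hwb⟩
  have hhit : ∀ s ∈ T, s ≠ t →
      ∃ x ∈ (B.erase (insert (q t) t)).image g, x ∈ insert (q s) s := by
    intro s hs hst
    obtain ⟨b, hb, hbs⟩ := c.blk.hit s hs
    have hbt : b ≠ insert (q t) t := by
      rintro rfl
      exact hst ((c.exp_new ht).2 s hs (hbs (Finset.mem_insert_self _ _)))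
    exact ⟨g b, Finset.mem_image_of_mem _ (Finset.mem_erase.2 ⟨hbt, hb⟩), hbs (hg b hb).1⟩
  have hD : Dominating H ((B.erase (insert (q t) t)).image g) := by
    intro v _
    by_cases hv : Exp T q t v
    · obtain ⟨w, hw, f, hf, hwf, hvf⟩ := hdom v hv
      exact ⟨w, hWg hw, f, hf, hwf, hvf⟩
    · obtain ⟨s, hs, hst, hvs⟩ : ∃ s ∈ T, s ≠ t ∧ v ∈ insert (q s) s := by
        obtain ⟨s, hs, hvs⟩ := c.exists_mem v
        by_cases hst : s = t
        · subst hst
          unfold Exp at hv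
          push Not at hv
          obtain ⟨s', hs', hvs', hne⟩ := hv hvs
          exact ⟨s', hs', hne, hvs'⟩
        · exact ⟨s, hs, hst, hvs⟩
      obtain ⟨x, hx, hxs⟩ := hhit s hs hst
      exact ⟨x, hx, insert (q s) s, c.edge s hs, hxs, hvs⟩
  have h1 := c.low _ hD
  have h3 := c.blk.card
  have h4 : ((B.erase (insert (q t) t)).image g).card ≤ (B.erase (insert (q t) t)).card :=
    Finset.card_image_le
  rw [Finset.card_erase_of_mem htB] at h4
  have h5 : 0 < B.card := Finset.card_pos.2 ⟨_, htB⟩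
  omega

/-- Another edge `f` through a private vertex `y` of `t + q t`, which is not the only one: the other
vertices of `f` are in blocks other than `t + q t` (a vertex `q s` is in the block `s + q s` by
`Blk.outer` if some `v ∈ s` is in no other member; otherwise `Lk.inner` gives `f = s + q s`, but
`y ∈ f` is in no other enlarged member), and they are in distinct blocks (`Lk.sep`, `Blk.sub`). -/
theorem Lk.touch {H T B : Finset (Finset V)} {q : Finset V → V} (c : Lk H T q B)
    {t : Finset V} (ht : t ∈ T) {y : V} (hy : Exp T q t y) (hy' : ∃ y', y' ≠ y ∧ Exp T q t y')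
    {f : Finset V} (hf : f ∈ H) (hne : f ≠ insert (q t) t) (hyf : y ∈ f) :
    (∀ x ∈ f, x ≠ y → ∃ b ∈ B, b ≠ insert (q t) t ∧ x ∈ b) ∧
      ∀ b ∈ B, ∀ x ∈ f, ∀ x' ∈ f, x ∈ b → x' ∈ b → x = x' := by
  have hsep := c.sep t ht y hy hy' f hf hyf hne
  have hxt : ∀ x ∈ f, x ≠ y → x ∉ insert (q t) t := fun x hx hxy hxt =>
    hxy (hsep t ht x hx y hyf hxt hy.1)
  refine ⟨fun x hx hxy => ?_, fun b hb x hx x' hx' hxb hxb' => ?_⟩
  · have hxt' := hxt x hx hxy
    have hnb : ∀ b : Finset V, x ∈ b → b ≠ insert (q t) t := fun b hb h => hxt' (h ▸ hb)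
    rcases c.all x with h2 | ⟨s, hs, rfl⟩
    · obtain ⟨b, hb, hxb⟩ := c.blk.mem x h2
      exact ⟨b, hb, hnb b hxb, hxb⟩
    · by_cases hout : ∃ v ∈ s, ∀ s' ∈ T, v ∈ s' → s' = s
      · obtain ⟨v, hv, hall⟩ := hout
        exact ⟨_, c.blk.outer s hs v hv hall, hnb _ (Finset.mem_insert_self _ _),
          Finset.mem_insert_self _ _⟩
      · exfalso
        have h3 : f = insert (q s) s := by
          refine c.inner s hs (fun z hz => ?_) f hf hx
          by_contra hzq
          have hzs : z ∈ s := Finset.mem_of_mem_insert_of_ne hz.1 hzq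
          exact hout ⟨z, hzs, fun s' hs' hz' => hz.2 s' hs' (Finset.mem_insert_of_mem hz')⟩
        have h4 := hy.2 s hs (h3 ▸ hyf)
        exact hne (by rw [h3, h4])
  · obtain ⟨s, hs, hbs⟩ := c.blk.sub b hb
    exact hsep s hs x hx x' hx' (hbs hxb) (hbs hxb')

/-- Hall's theorem: at most four sets with at least three elements each, in total at least as many
elements as sets (`Finset.all_card_le_biUnion_card_iff_exists_injective`). -/
theorem exists_system' {α β : Type} [DecidableEq α] [DecidableEq β] [Nonempty β] (X : Finset α)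
    (hX : X.card ≤ 4) (F : α → Finset β) (h3 : ∀ x ∈ X, 3 ≤ (F x).card)
    (h4 : X.card ≤ (X.biUnion F).card) :
    ∃ s : α → β, (∀ x ∈ X, s x ∈ F x) ∧ ∀ x ∈ X, ∀ y ∈ X, s x = s y → x = y := by
  classical
  rcases X.eq_empty_or_nonempty with rfl | ⟨x₀, hx₀⟩
  · exact ⟨fun _ => Classical.choice inferInstance, by simp, by simp⟩
  obtain ⟨s, hs1, hs2⟩ :
      ∃ s : {x // x ∈ X} → β, Function.Injective s ∧ ∀ k, s k ∈ F k.1 := by
    rw [← Finset.all_card_le_biUnion_card_iff_exists_injective]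
    intro A
    rcases A.eq_empty_or_nonempty with rfl | ⟨k, hk⟩
    · simp
    · by_cases hA : A = Finset.univ
      · rw [hA, Finset.card_univ, Fintype.card_coe]
        refine h4.trans (Finset.card_le_card ?_)
        intro b hb
        obtain ⟨x, hx, hbx⟩ := Finset.mem_biUnion.1 hb
        exact Finset.mem_biUnion.2 ⟨⟨x, hx⟩, Finset.mem_univ _, hbx⟩
      · have h5 : A.card < X.card := by
          rw [← Fintype.card_coe X, ← Finset.card_univ]
          exact Finset.card_lt_card (Finset.ssubset_univ_iff.2 hA)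
        have h6 : (F k.1).card ≤ (A.biUnion fun k => F k.1).card :=
          Finset.card_le_card (Finset.subset_biUnion_of_mem (fun k : {x // x ∈ X} => F k.1) hk)
        have h7 := h3 k.1 k.2
        omega
  refine ⟨fun x => if h : x ∈ X then s ⟨x, h⟩ else s ⟨x₀, hx₀⟩, fun x hx => ?_,
    fun x hx y hy hxy => ?_⟩
  · simp only [hx, dif_pos]
    exact hs2 ⟨x, hx⟩
  · simp only [hx, hy, dif_pos] at hxy
    exact congrArg Subtype.val (hs1 hxy)

/-- If all private vertices of `t + q t` lie in other edges of `H` then `t + q t` consists of four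
private vertices. Otherwise there are at most three, `q t` is one of them, by `Lk.inner` there is
another one (so `t + q t` is a block by `Blk.outer`), and `exists_system'` (the set of the blocks of
an edge through a private vertex `y`, without the block of `y`, has at least three elements by
`Lk.touch`, `Lk.size`) gives a set `W` which contradicts `Lk.no_system`. -/
theorem Lk.four {H T B : Finset (Finset V)} {q : Finset V → V} (c : Lk H T q B)
    {t : Finset V} (ht : t ∈ T)
    (htouch : ∀ y, Exp T q t y → ∃ f ∈ H, f ≠ insert (q t) t ∧ y ∈ f) :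
    ∀ y ∈ insert (q t) t, Exp T q t y := by
  classical
  have hqe := c.exp_new ht
  obtain ⟨y1, hy1n, hy1⟩ : ∃ y1, y1 ≠ q t ∧ Exp T q t y1 := by
    by_contra hno
    push Not at hno
    obtain ⟨f0, hf0, hne0, hq0⟩ := htouch (q t) hqe
    refine hne0 (c.inner t ht (fun y hy => ?_) f0 hf0 hq0)
    by_contra hyq
    exact hno y hyq hy
  have htB : insert (q t) t ∈ B :=
    c.blk.outer t ht y1 (Finset.mem_of_mem_insert_of_ne hy1.1 hy1n)
      fun s hs h => hy1.2 s hs (Finset.mem_insert_of_mem h)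
  by_contra hnot
  push Not at hnot
  obtain ⟨z, hz, hzE⟩ := hnot
  have h4 : (insert (q t) t).card = 4 := by
    rw [Finset.card_insert_of_notMem, c.three t ht]
    intro h
    exact c.new t ht (mem_ver.2 ⟨t, ht, h⟩)
  obtain ⟨X, hXdef⟩ : ∃ X, X = (insert (q t) t).filter fun y => Exp T q t y := ⟨_, rfl⟩
  have hXm : ∀ y, y ∈ X ↔ Exp T q t y := by
    intro y
    rw [hXdef, Finset.mem_filter]
    exact ⟨fun h => h.2, fun h => ⟨h.1, h⟩⟩
  have hX3 : X.card ≤ 3 := by
    have h5 : X ⊆ (insert (q t) t).erase z := by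
      intro y hy
      have hy' := (hXm y).1 hy
      refine Finset.mem_erase.2 ⟨?_, hy'.1⟩
      rintro rfl
      exact hzE hy'
    have h6 := Finset.card_le_card h5
    rw [Finset.card_erase_of_mem hz, h4] at h6
    omega
  have hother : ∀ y, Exp T q t y → ∃ y', y' ≠ y ∧ Exp T q t y' := by
    intro y _
    by_cases hyq : y = q t
    · exact ⟨y1, by rw [hyq]; exact hy1n, hy1⟩
    · exact ⟨q t, Ne.symm hyq, hqe⟩
  choose! F hFH hFne hFy using htouch
  obtain ⟨bl, hbl⟩ : ∃ bl : V → Finset (Finset V), bl = fun y =>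
    (B.erase (insert (q t) t)).filter fun b => ∃ x ∈ F y, x ≠ y ∧ x ∈ b := ⟨_, rfl⟩
  have hblm : ∀ y b, b ∈ bl y ↔ (b ≠ insert (q t) t ∧ b ∈ B) ∧ ∃ x ∈ F y, x ≠ y ∧ x ∈ b := by
    intro y b
    rw [hbl]
    simp only [Finset.mem_filter, Finset.mem_erase]
  have hbl3 : ∀ y ∈ X, 3 ≤ (bl y).card := by
    intro y hy
    have hyE := (hXm y).1 hy
    obtain ⟨h1, h2⟩ := c.touch ht hyE (hother y hyE) (hFH y hyE) (hFne y hyE) (hFy y hyE)
    have h1' : ∀ x : V, ∃ b : Finset V, x ∈ F y → x ≠ y → b ∈ B ∧ b ≠ insert (q t) t ∧ x ∈ b := by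
      intro x
      by_cases hx : x ∈ F y ∧ x ≠ y
      · obtain ⟨b, hb⟩ := h1 x hx.1 hx.2
        exact ⟨b, fun _ _ => hb⟩
      · exact ⟨∅, fun h h' => absurd ⟨h, h'⟩ hx⟩
    choose g hg using h1'
    have h5 : ((F y).erase y).card ≤ (bl y).card := by
      refine Finset.card_le_card_of_injOn g (fun x hx => ?_) fun x hx x' hx' e => ?_
      · rw [Finset.mem_coe, Finset.mem_erase] at hx
        obtain ⟨a1, a2, a3⟩ := hg x hx.2 hx.1
        rw [Finset.mem_coe, hblm]
        exact ⟨⟨a2, a1⟩, x, hx.2, hx.1, a3⟩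
      · rw [Finset.mem_coe, Finset.mem_erase] at hx hx'
        obtain ⟨a1, a2, a3⟩ := hg x hx.2 hx.1
        obtain ⟨b1, b2, b3⟩ := hg x' hx'.2 hx'.1
        rw [← e] at b3
        exact h2 _ a1 x hx.2 x' hx'.2 a3 b3
    rw [Finset.card_erase_of_mem (hFy y hyE)] at h5
    have h6 := c.size _ (hFH y hyE)
    omega
  have hqX : q t ∈ X := (hXm _).2 hqe
  obtain ⟨s, hs1, hs2⟩ := exists_system' X (by omega) bl hbl3
    (by
      have h5 : (bl (q t)).card ≤ (X.biUnion bl).card :=
        Finset.card_le_card (Finset.subset_biUnion_of_mem bl hqX)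
      have h6 := hbl3 _ hqX
      omega)
  have hw : ∀ y ∈ X, ∃ x ∈ F y, x ≠ y ∧ x ∈ s y := fun y hy => ((hblm y (s y)).1 (hs1 y hy)).2
  choose! w hw1 hw2 hw3 using hw
  refine c.no_system ht htB (W := X.image w) (fun x hx => ?_)
    (fun b hb x hx x' hx' e e' => ?_) fun y hy => ?_
  · obtain ⟨y, hy, rfl⟩ := Finset.mem_image.1 hx
    obtain ⟨⟨a1, a2⟩, -⟩ := (hblm y (s y)).1 (hs1 y hy)
    exact ⟨s y, a2, a1, hw3 y hy⟩
  · obtain ⟨y, hy, rfl⟩ := Finset.mem_image.1 hx
    obtain ⟨y', hy', rfl⟩ := Finset.mem_image.1 hx'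
    have a2 := ((hblm y (s y)).1 (hs1 y hy)).1.2
    have b2 := ((hblm y' (s y')).1 (hs1 y' hy')).1.2
    have e1 := c.blk.disj b hb _ a2 _ e (hw3 y hy)
    have e2 := c.blk.disj b hb _ b2 _ e' (hw3 y' hy')
    rw [hs2 y hy y' hy' (e1.symm.trans e2)]
  · have hyX := (hXm y).2 hy
    exact ⟨w y, Finset.mem_image_of_mem _ hyX, F y, hFH y hy, hw1 y hyX, hFy y hy⟩

end Pool.Agent.MP284513
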