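import Pool.Agent.Lib.MP_284513_co.Final

/-!
# The linear members of the list
-/

set_option linter.unusedSectionVars false

namespace Pool.Agent.MP284513

variable {V : Type} [DecidableEq V]

/-- the linear members of the list -/
inductive UnitL : Finset (Finset V) → Prop
  | edge {a b c : V} (h : [a, b, c].Nodup) : UnitL {{a, b, c}}
  | seven {x a₁ a₂ a₃ b₁ b₂ b₃ : V} (h : [x, a₁, a₂, a₃, b₁, b₂, b₃].Nodup) :
      UnitL (sevenFam x a₁ a₂ a₃ b₁ b₂ b₃)
  | eight {x y a₁ a₂ a₃ b₁ b₂ b₃ : V} (h : [x, y, a₁, a₂, a₃, b₁, b₂, b₃].Nodup) :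
      UnitL (eightFam x y a₁ a₂ a₃ b₁ b₂ b₃)

/-- disjoint unions of linear members of the list -/
inductive GoodL : Finset (Finset V) → Prop
  | empty : GoodL ∅
  | add {K T : Finset (Finset V)} (hK : UnitL K) (hT : GoodL T) (hd : Disjoint (ver K) (ver T)) :
      GoodL (K ∪ T)

/-- two members have at most one common vertex -/
def Lin (T : Finset (Finset V)) : Prop :=
  ∀ e ∈ T, ∀ f ∈ T, e ≠ f → ∀ x ∈ e, ∀ y ∈ e, x ∈ f → y ∈ f → x = y

private theorem lun_chain {K T : Finset (Finset V)} {a b c p q : V} (h : Chain K a b c p q)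
    (hs : K ⊆ T) (hl : Lin T) : False := by
  obtain ⟨e, f, hef, hse⟩ := Finset.card_eq_two.1 h.star_p
  have me : e ∈ star K p := by rw [hse]; simp
  have mf : f ∈ star K p := by rw [hse]; simp
  obtain ⟨e1, e2⟩ := mem_star.1 me
  obtain ⟨f1, f2⟩ := mem_star.1 mf
  have hn := h.nodup
  simp only [List.nodup_cons, List.mem_cons, not_or, List.not_mem_nil, not_false_eq_true,
    List.nodup_nil, and_true] at hn
  exact hn.2.2.2 (hl e (hs e1) f (hs f1) hef p e2 q ((h.twin e e1).1 e2) f2 ((h.twin f f1).1 f2))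

private theorem lun_mono {T T' : Finset (Finset V)} (hl : Lin T) (hs : T' ⊆ T) : Lin T' :=
  fun e he f hf => hl e (hs he) f (hs hf)

/-- every non-linear member of the list contains two sets with two common vertices: induction on
`h`, cases on `Unit3` (for chains, doubles and cycles: cases on the `Chain`) -/
theorem Good.goodL {T : Finset (Finset V)} (h : Good T) (hl : Lin T) : GoodL T := by
  induction h with
  | empty => exact GoodL.empty
  | @add K T hK hT hd ih =>
    have ihT := ih (lun_mono hl Finset.subset_union_right)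
    have hlK : Lin K := lun_mono hl Finset.subset_union_left
    clear ih hl
    cases hK with
    | edge h => exact GoodL.add (UnitL.edge h) ihT hd
    | chain h => exact (lun_chain h (Finset.Subset.refl _) hlK).elim
    | double h₁ h₂ h => exact (lun_chain h₁ Finset.subset_union_left hlK).elim
    | @four a b c d h =>
      simp only [List.nodup_cons, List.mem_cons, not_or, List.not_mem_nil, not_false_eq_true,
        List.nodup_nil, and_true] at h
      obtain ⟨⟨hab, hac, had⟩, ⟨hbc, hbd⟩, hcd⟩ := h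
      refine absurd (hlK {a, b, c} (by simp) {a, b, d} (by simp) ?_ a (by simp) b (by simp)
        (by simp) (by simp)) hab
      intro h
      have h1 : c ∈ ({a, b, d} : Finset V) := h ▸ (by simp : c ∈ ({a, b, c} : Finset V))
      simp only [Finset.mem_insert, Finset.mem_singleton] at h1
      rcases h1 with h1 | h1 | h1
      · exact hac h1.symm
      · exact hbc h1.symm
      · exact hcd h1
    | cycle h hx => exact (lun_chain h Finset.subset_union_left hlK).elim
    | seven h => exact GoodL.add (UnitL.seven h) ihT hd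
    | eight h => exact GoodL.add (UnitL.eight h) ihT hd

theorem UnitL.unit3 {K : Finset (Finset V)} (h : UnitL K) : Unit3 K := by
  cases h with
  | edge h => exact Unit3.edge h
  | seven h => exact Unit3.seven h
  | eight h => exact Unit3.eight h

theorem GoodL.good {T : Finset (Finset V)} (h : GoodL T) : Good T := by
  induction h with
  | empty => exact Good.empty
  | add hK _ hd ih => exact Good.add hK.unit3 ih hd

/-- as `Good.peel` (Units.lean) -/
theorem GoodL.peel {T : Finset (Finset V)} (h : GoodL T) {v : V} (hv : v ∈ ver T) :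
    ∃ K R, T = K ∪ R ∧ UnitL K ∧ GoodL R ∧ Disjoint (ver K) (ver R) ∧ v ∈ ver K := by
  induction h with
  | empty => simp [ver] at hv
  | @add K T hK hT hd ih =>
    rw [ver_union, Finset.mem_union] at hv
    by_cases hvK : v ∈ ver K
    · exact ⟨K, T, rfl, hK, hT, hd, hvK⟩
    · obtain ⟨K', R', rfl, hK', hR', hd', hv'⟩ := ih (hv.resolve_left hvK)
      rw [ver_union, Finset.disjoint_union_right] at hd
      refine ⟨K', K ∪ R', ?_, hK', GoodL.add hK hR' hd.2, ?_, hv'⟩
      · rw [← Finset.union_assoc, ← Finset.union_assoc, Finset.union_comm K K']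
      · rw [ver_union, Finset.disjoint_union_right]
        exact ⟨hd.1.symm, hd'⟩

theorem UnitL.ext {K : Finset (Finset V)} (h : UnitL K) : Ext K := by
  exact h.unit3.ext

theorem GoodL.ext {T : Finset (Finset V)} (h : GoodL T) : Ext T :=
  h.good.ext

/-- the set of the members of the list of which `T` is the disjoint union -/
theorem GoodL.family {T : Finset (Finset V)} (h : GoodL T) :
    ∃ 𝒦 : Finset (Finset (Finset V)), (∀ K ∈ 𝒦, UnitL K) ∧
      (∀ K ∈ 𝒦, ∀ K' ∈ 𝒦, ∀ v, v ∈ ver K → v ∈ ver K' → K = K') ∧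
      ∀ t, t ∈ T ↔ ∃ K ∈ 𝒦, t ∈ K := by
  induction h with
  | empty =>
    exact ⟨∅, fun K hK => absurd hK (Finset.notMem_empty _),
      fun K hK => absurd hK (Finset.notMem_empty _), fun t => by simp⟩
  | @add K T hK hT hd ih =>
    obtain ⟨F, h1, h2, h3⟩ := ih
    have hno : ∀ K' ∈ F, ∀ v, v ∈ ver K → v ∈ ver K' → False := by
      intro K' hK' v hv hv'
      obtain ⟨t, ht, hvt⟩ := mem_ver.1 hv'
      exact Finset.disjoint_left.1 hd hv (mem_ver.2 ⟨t, (h3 t).2 ⟨K', hK', ht⟩, hvt⟩)
    refine ⟨insert K F, fun K' hK' => ?_, fun K' hK' K'' hK'' v hv hv' => ?_, fun t => ?_⟩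
    · rcases Finset.mem_insert.1 hK' with rfl | hK'
      · exact hK
      · exact h1 K' hK'
    · rcases Finset.mem_insert.1 hK' with e1 | e1 <;>
        rcases Finset.mem_insert.1 hK'' with e2 | e2
      · rw [e1, e2]
      · exact (hno K'' e2 v (e1 ▸ hv) hv').elim
      · exact (hno K' e1 v (e2 ▸ hv') hv).elim
      · exact h2 K' e1 K'' e2 v hv hv'
    · rw [Finset.mem_union, h3 t]
      constructor
      · rintro (ht | ⟨K', hK', ht⟩)
        · exact ⟨K, Finset.mem_insert_self _ _, ht⟩
        · exact ⟨K', Finset.mem_insert_of_mem hK', ht⟩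
      · rintro ⟨K', hK', ht⟩
        rcases Finset.mem_insert.1 hK' with rfl | hK'
        · exact Or.inl ht
        · exact Or.inr ⟨K', hK', ht⟩

/-- use `cm (T.erase t)` and `Ext.dvd` -/
theorem Ext.erase {T : Finset (Finset V)} (h : Ext T) {t : Finset V} (ht : t ∈ T) :
    ∃ S, Trans (T.erase t) S ∧ 4 * (S.card + 1) ≤ (ver T).card + T.card := by
  obtain ⟨S, hS, hc⟩ := cm (T.erase t) fun e he => h.1 e (Finset.mem_of_mem_erase he)
  refine ⟨S, hS, ?_⟩
  obtain ⟨k, hk⟩ := h.dvd
  have h1 := Finset.card_le_card (ver_mono (Finset.erase_subset t T))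
  have h2 := Finset.card_erase_of_mem ht
  have h3 : 0 < T.card := Finset.card_pos.2 ⟨t, ht⟩
  omega

private theorem lun_closed {K : Finset (Finset V)} {t e : Finset V} (hc : Closed K {t})
    (he : e ∈ K) {v w : V} (hv : v ∈ e) (hvt : v ∈ t) (hw : w ∈ e) (hwt : w ∉ t) : False := by
  have h1 : e ∈ ({t} : Finset (Finset V)) :=
    hc.2 e he v hv (mem_ver.2 ⟨t, Finset.mem_singleton_self t, hvt⟩)
  rw [Finset.mem_singleton] at h1
  rw [h1] at hw
  exact hwt hw

/-- a closed member which lies in the part `K` is all of `K` (in `sevenFam`, `eightFam` every member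
meets another member) -/
theorem UnitL.eq_singleton {K : Finset (Finset V)} (h : UnitL K) {t : Finset V} (ht : t ∈ K)
    (hc : Closed K {t}) : K = {t} := by
  cases h with
  | edge h =>
    rw [Finset.mem_singleton] at ht
    rw [ht]
  | @seven x a₁ a₂ a₃ b₁ b₂ b₃ h =>
    simp only [List.nodup_cons, List.mem_cons, not_or, List.not_mem_nil, not_false_eq_true,
      List.nodup_nil, and_true] at h
    obtain ⟨⟨h1, h2, h3, h4, h5, h6⟩, ⟨g1, g2, g3, g4, g5⟩, ⟨f1, f2, f3, f4⟩, ⟨e1, e2, e3⟩,
      ⟨d1, d2⟩, c1⟩ := h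
    exfalso
    simp only [sevenFam, Finset.mem_insert, Finset.mem_singleton] at ht
    rcases ht with rfl | rfl | rfl | rfl | rfl
    · exact lun_closed hc (e := {x, a₁, b₁}) (by simp [sevenFam]) (v := a₁) (w := x) (by simp)
        (by simp) (by simp) (by simp [h1, h2, h3])
    · exact lun_closed hc (e := {x, a₁, b₁}) (by simp [sevenFam]) (v := b₁) (w := x) (by simp)
        (by simp) (by simp) (by simp [h4, h5, h6])
    · exact lun_closed hc (e := {x, a₂, b₂}) (by simp [sevenFam]) (v := x) (w := a₂) (by simp)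
        (by simp) (by simp) (by simp [Ne.symm h2, Ne.symm g1, f2])
    · exact lun_closed hc (e := {x, a₁, b₁}) (by simp [sevenFam]) (v := x) (w := a₁) (by simp)
        (by simp) (by simp) (by simp [Ne.symm h1, g1, g4])
    · exact lun_closed hc (e := {x, a₁, b₁}) (by simp [sevenFam]) (v := x) (w := a₁) (by simp)
        (by simp) (by simp) (by simp [Ne.symm h1, g2, g5])
  | @eight x y a₁ a₂ a₃ b₁ b₂ b₃ h =>
    simp only [List.nodup_cons, List.mem_cons, not_or, List.not_mem_nil, not_false_eq_true,
      List.nodup_nil, and_true] at h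
    obtain ⟨⟨i0, h1, h2, h3, h4, h5, h6⟩, ⟨i1, i2, i3, i4, i5, i6⟩, ⟨g1, g2, g3, g4, g5⟩,
      ⟨f1, f2, f3, f4⟩, ⟨e1, e2, e3⟩, ⟨d1, d2⟩, c1⟩ := h
    exfalso
    simp only [eightFam, sevenFam, Finset.mem_union, Finset.mem_insert, Finset.mem_singleton] at ht
    rcases ht with (rfl | rfl | rfl | rfl | rfl) | rfl | rfl | rfl
    · exact lun_closed hc (e := {x, a₁, b₁}) (by simp [eightFam, sevenFam]) (v := a₁) (w := x)
        (by simp) (by simp) (by simp) (by simp [h1, h2, h3])
    · exact lun_closed hc (e := {x, a₁, b₁}) (by simp [eightFam, sevenFam]) (v := b₁) (w := x)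
        (by simp) (by simp) (by simp) (by simp [h4, h5, h6])
    · exact lun_closed hc (e := {x, a₂, b₂}) (by simp [eightFam, sevenFam]) (v := x) (w := a₂)
        (by simp) (by simp) (by simp) (by simp [Ne.symm h2, Ne.symm g1, f2])
    · exact lun_closed hc (e := {x, a₁, b₁}) (by simp [eightFam, sevenFam]) (v := x) (w := a₁)
        (by simp) (by simp) (by simp) (by simp [Ne.symm h1, g1, g4])
    · exact lun_closed hc (e := {x, a₁, b₁}) (by simp [eightFam, sevenFam]) (v := x) (w := a₁)
        (by simp) (by simp) (by simp) (by simp [Ne.symm h1, g2, g5])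
    · exact lun_closed hc (e := {y, a₂, b₃}) (by simp [eightFam, sevenFam]) (v := y) (w := a₂)
        (by simp) (by simp) (by simp) (by simp [Ne.symm i2, Ne.symm g1, f3])
    · exact lun_closed hc (e := {y, a₁, b₂}) (by simp [eightFam, sevenFam]) (v := y) (w := a₁)
        (by simp) (by simp) (by simp) (by simp [Ne.symm i1, g1, g5])
    · exact lun_closed hc (e := {y, a₁, b₂}) (by simp [eightFam, sevenFam]) (v := y) (w := a₁)
        (by simp) (by simp) (by simp) (by simp [Ne.symm i1, g2, g3])

end Pool.Agent.MP284513
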