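import Pool.Agent.Lib.MP_284513_co.KBlocks
import Pool.Agent.Lib.MP_284513_co.LUnit

/-!
# The situation, and the private vertices of cover edges with only one private vertex
-/

set_option linter.unusedSectionVars false

namespace Pool.Agent.MP284513

variable {V : Type} [DecidableEq V]

/-- `y` is a vertex of `t + q t` and of no other enlarged member of `T`. -/
def Exp (T : Finset (Finset V)) (q : Finset V → V) (t : Finset V) (y : V) : Prop :=
  y ∈ insert (q t) t ∧ ∀ s ∈ T, y ∈ insert (q s) s → s = t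

/-- The vertices are those of `T` and the new vertices `q t`, `t ∈ T`; the sets `t + q t` are edges of
`H`; every dominating set of `H` has at least `(n + m) / 4` elements; the other edges are link
edges. -/
structure Lk (H T : Finset (Finset V)) (q : Finset V → V) (B : Finset (Finset V)) : Prop where
  three : ∀ t ∈ T, t.card = 3
  inj : ∀ s ∈ T, ∀ t ∈ T, q s = q t → s = t
  new : ∀ t ∈ T, q t ∉ ver T
  all : ∀ v, v ∈ ver T ∨ ∃ t ∈ T, v = q t
  size : ∀ f ∈ H, 4 ≤ f.card
  edge : ∀ t ∈ T, insert (q t) t ∈ H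
  low : ∀ D, Dominating H D → (ver T).card + T.card ≤ 4 * D.card
  blk : Blk T q B
  inner : ∀ t ∈ T, (∀ y, Exp T q t y → y = q t) → ∀ f ∈ H, q t ∈ f → f = insert (q t) t
  sep : ∀ t ∈ T, ∀ y, Exp T q t y → (∃ y', y' ≠ y ∧ Exp T q t y') → ∀ f ∈ H, y ∈ f →
    f ≠ insert (q t) t → ∀ s ∈ T, ∀ x ∈ f, ∀ x' ∈ f, x ∈ insert (q s) s →
    x' ∈ insert (q s) s → x = x'

/-- a set which contains `u` and meets all enlarged members except `t` is too large -/
private theorem ki_core {H T : Finset (Finset V)} {q : Finset V → V}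
    (hall : ∀ v, v ∈ ver T ∨ ∃ t ∈ T, v = q t) (hedge : ∀ t ∈ T, insert (q t) t ∈ H)
    (hlow : ∀ D, Dominating H D → (ver T).card + T.card ≤ 4 * D.card) {t : Finset V}
    (hin : ∀ v ∈ t, ∃ s ∈ T, s ≠ t ∧ v ∈ s) {f : Finset V} (hf : f ∈ H) (hq : q t ∈ f) {u : V}
    (hu : u ∈ f) {D : Finset V} (huD : u ∈ D)
    (hD : ∀ e ∈ T, e ≠ t → ∃ x ∈ D, x ∈ insert (q e) e) :
    (ver T).card + T.card ≤ 4 * D.card := by
  refine hlow D fun v _ => ?_
  have key : ∀ e ∈ T, v ∈ insert (q e) e → e ≠ t → ∃ x ∈ D, ∃ g ∈ H, x ∈ g ∧ v ∈ g := by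
    intro e he hv hne
    obtain ⟨x, hx, hxe⟩ := hD e he hne
    exact ⟨x, hx, _, hedge e he, hxe, hv⟩
  rcases hall v with hv | ⟨s, hs, rfl⟩
  · obtain ⟨e, he, hve⟩ := mem_ver.1 hv
    by_cases h1 : e = t
    · rw [h1] at hve
      obtain ⟨s, hs, hst, hvs⟩ := hin v hve
      exact key s hs (Finset.mem_insert_of_mem hvs) hst
    · exact key e he (Finset.mem_insert_of_mem hve) h1
  · by_cases h1 : s = t
    · rw [h1]
      exact ⟨u, huD, f, hf, hu, hq⟩
    · exact key s hs (Finset.mem_insert_self _ _) h1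

/-- Let `T = K ∪ R` with disjoint vertex sets, `t ∈ K` such that every vertex of `t` lies in another
member of `T`. Then `q t` is in no edge `f` with a vertex `u` of the part of `R`: take a transversal
of `K.erase t` with `(n + m) / 4 - 1` elements (`Ext.right` gives `Ext K`, `Ext R`; the number as in
`LUnit.Ext.erase`, from `cm` and `Ext.dvd`) and for `R` an optimal transversal through `u`
(`Ext.opt_mem`) if `u ∈ ver R`, or `q s` and a transversal of `R.erase s` if `u = q s`. The union
dominates. -/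
theorem inner_link {H T K R : Finset (Finset V)} {q : Finset V → V} (hT : Ext T)
    (hinj : ∀ s ∈ T, ∀ t ∈ T, q s = q t → s = t) (hnew : ∀ t ∈ T, q t ∉ ver T)
    (hall : ∀ v, v ∈ ver T ∨ ∃ t ∈ T, v = q t) (hedge : ∀ t ∈ T, insert (q t) t ∈ H)
    (hlow : ∀ D, Dominating H D → (ver T).card + T.card ≤ 4 * D.card) (hKR : T = K ∪ R)
    (hd : Disjoint (ver K) (ver R)) {t : Finset V} (ht : t ∈ K)
    (hin : ∀ v ∈ t, ∃ s ∈ T, s ≠ t ∧ v ∈ s) {f : Finset V} (hf : f ∈ H) (hq : q t ∈ f) {u : V}
    (hu : u ∈ f) (huK : ∀ s ∈ K, u ∉ insert (q s) s) : False := by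
  have hR : Ext R := by
    rw [hKR] at hT
    exact hT.right hd
  have hK : Ext K := by
    rw [hKR, Finset.union_comm] at hT
    exact hT.right hd.symm
  have hcard : (ver T).card + T.card = ((ver K).card + K.card) + ((ver R).card + R.card) := by
    rw [hKR, ver_union, Finset.card_union_of_disjoint hd,
      Finset.card_union_of_disjoint (disjoint_of_ver hK.1 hd)]
    omega
  obtain ⟨S, hS, hSc⟩ := hK.erase ht
  have hcase : u ∈ ver R ∨ ∃ s ∈ R, u = q s := by
    rcases hall u with h1 | ⟨s, hs, h1⟩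
    · obtain ⟨e, he, hue⟩ := mem_ver.1 h1
      rw [hKR, Finset.mem_union] at he
      rcases he with he | he
      · exact absurd (Finset.mem_insert_of_mem hue) (huK e he)
      · exact Or.inl (mem_ver.2 ⟨e, he, hue⟩)
    · rw [hKR, Finset.mem_union] at hs
      rcases hs with hs | hs
      · exact absurd (h1 ▸ Finset.mem_insert_self _ _) (huK s hs)
      · exact Or.inr ⟨s, hs, h1⟩
  rcases hcase with h1 | ⟨s, hs, h1⟩
  · obtain ⟨S', hS', huS⟩ := hR.opt_mem h1
    have h2 := ki_core hall hedge hlow hin hf hq hu (D := S ∪ S') (Finset.mem_union_right _ huS)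
      (fun e he hne => by
        rw [hKR, Finset.mem_union] at he
        rcases he with he | he
        · obtain ⟨x, hx, hxe⟩ := hS e (Finset.mem_erase.2 ⟨hne, he⟩)
          exact ⟨x, Finset.mem_union_left _ hx, Finset.mem_insert_of_mem hxe⟩
        · obtain ⟨x, hx, hxe⟩ := hS'.1 e he
          exact ⟨x, Finset.mem_union_right _ hx, Finset.mem_insert_of_mem hxe⟩)
    have h3 := Finset.card_union_le S S'
    have h4 := hS'.2
    omega
  · obtain ⟨S', hS', hSc'⟩ := hR.erase hs
    have h2 := ki_core hall hedge hlow hin hf hq hu (D := insert u (S ∪ S'))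
      (Finset.mem_insert_self _ _)
      (fun e he hne => by
        by_cases hes : e = s
        · exact ⟨u, Finset.mem_insert_self _ _, by rw [h1, hes]; exact Finset.mem_insert_self _ _⟩
        rw [hKR, Finset.mem_union] at he
        rcases he with he | he
        · obtain ⟨x, hx, hxe⟩ := hS e (Finset.mem_erase.2 ⟨hne, he⟩)
          exact ⟨x, Finset.mem_insert_of_mem (Finset.mem_union_left _ hx),
            Finset.mem_insert_of_mem hxe⟩
        · obtain ⟨x, hx, hxe⟩ := hS' e (Finset.mem_erase.2 ⟨hes, he⟩)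
          exact ⟨x, Finset.mem_insert_of_mem (Finset.mem_union_right _ hx),
            Finset.mem_insert_of_mem hxe⟩)
    have h3 := Finset.card_union_le S S'
    have h4 := Finset.card_insert_le u (S ∪ S')
    omega

end Pool.Agent.MP284513
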