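import Pool.Agent.Lib.MP_284513_co.LDefs
import Pool.Agent.Lib.MP_284513_co.Final

/-!
# The lower bound for the domination number of a disjoint union of units
-/

set_option linter.unusedSectionVars false

namespace Pool.Agent.MP284513

variable {V : Type} [DecidableEq V]

/-- a dominating set meets the edge of a vertex of degree one -/
private theorem meets {H : Finset (Finset V)} {D e : Finset V} {v : V}
    (hD : Dominating H D) (h : ∀ f, (f ∈ H ∧ v ∈ f) ↔ f = e) : ∃ y ∈ D, y ∈ e := by
  have hv : v ∈ e := ((h e).2 rfl).2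
  by_cases hvD : v ∈ D
  · exact ⟨v, hvD, hv⟩
  · obtain ⟨u, hu, f, hf, huf, hvf⟩ := hD v hvD
    have h1 : f = e := (h f).1 ⟨hf, hvf⟩
    exact ⟨u, hu, h1 ▸ huf⟩

private theorem corona_lower {H T : Finset (Finset V)} {U D : Finset V} (hT : Ext T)
    (hU : CoronaUnit H T U) (hD : Dominating H D) : U.card ≤ 4 * (D ∩ U).card := by
  classical
  obtain ⟨q, hinj, hq, hH, rfl⟩ := hU
  have hcard : (ver T ∪ Finset.univ.image q).card ≤ (ver T).card + T.card := by
    have h1 := Finset.card_union_le (ver T) (Finset.univ.image q)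
    have h2 : (Finset.univ.image q).card ≤ T.card := by
      refine Finset.card_image_le.trans ?_
      rw [Finset.card_univ, Fintype.card_coe]
    omega
  have hS : ∀ e : {e // e ∈ T}, ∃ y ∈ D ∩ (ver T ∪ Finset.univ.image q),
      y ∈ insert (q e) e.1 := by
    intro e
    obtain ⟨y, hy, hye⟩ := meets hD (hH e)
    refine ⟨y, Finset.mem_inter.2 ⟨hy, ?_⟩, hye⟩
    rcases Finset.mem_insert.1 hye with h | h
    · exact Finset.mem_union_right _ (Finset.mem_image.2 ⟨e, Finset.mem_univ _, h.symm⟩)
    · exact Finset.mem_union_left _ (mem_ver.2 ⟨e.1, e.2, h⟩)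
  generalize D ∩ (ver T ∪ Finset.univ.image q) = S at hS ⊢
  have hne : ∀ e : {e // e ∈ T}, ∃ x : V, x ∈ e.1 := by
    intro e
    have h1 : 0 < e.1.card := by rw [hT.1 e.1 e.2]; omega
    exact Finset.card_pos.1 h1
  choose r hr using hne
  let g : V → V := fun v => if h : ∃ e, q e = v then r h.choose else v
  have hS' : Trans T (S.image g) := by
    intro e he
    obtain ⟨y, hy, hye⟩ := hS ⟨e, he⟩
    refine ⟨g y, Finset.mem_image_of_mem _ hy, ?_⟩
    by_cases h : ∃ f, q f = y
    · have h2 : g y = r h.choose := dif_pos h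
      have h4 := h.choose_spec
      have h5 : h.choose = ⟨e, he⟩ := by
        rcases Finset.mem_insert.1 hye with h6 | h6
        · exact hinj (h4.trans h6)
        · exact absurd (mem_ver.2 ⟨e, he, h6⟩) (h4 ▸ hq _)
      rw [h2, h5]
      exact hr _
    · have h2 : g y = y := dif_neg h
      rw [h2]
      rcases Finset.mem_insert.1 hye with h6 | h6
      · exact absurd ⟨_, h6.symm⟩ h
      · exact h6
  have h1 := hT.2 _ hS'
  have h2 : (S.image g).card ≤ S.card := Finset.card_image_le
  omega

private theorem grid_card {g : Fin 4 → Fin 4 → V} {D : Finset V} (f : Fin 4 → Fin 4 × Fin 4)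
    (hinj : Function.Injective fun i => g (f i).1 (f i).2) (hD : ∀ i, g (f i).1 (f i).2 ∈ D) :
    4 ≤ (D ∩ Finset.univ.image fun z : Fin 4 × Fin 4 => g z.1 z.2).card := by
  have h1 : (Finset.univ.image fun i => g (f i).1 (f i).2).card = 4 := by
    rw [Finset.card_image_of_injective _ hinj, Finset.card_univ, Fintype.card_fin]
  refine h1.ge.trans (Finset.card_le_card ?_)
  intro v hv
  obtain ⟨i, -, rfl⟩ := Finset.mem_image.1 hv
  exact Finset.mem_inter.2 ⟨hD i, Finset.mem_image.2 ⟨f i, Finset.mem_univ _, rfl⟩⟩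

/-- Every unit contains at least a quarter of its vertices of every dominating set. Edge: the vertex
`v` of degree one must be dominated. Coronas (`K` = sevenFam or eightFam, which are `Ext`): replace
the new vertices in `D ∩ U` by a vertex of the edge, the result is a transversal of `K`. Grid:
otherwise some row and some column contain no vertex of `D`, and their common vertex is not
dominated. -/
theorem LinearUnit.lower {H : Finset (Finset V)} {U D : Finset V} (hU : LinearUnit H U)
    (hD : Dominating H D) : U.card ≤ 4 * (D ∩ U).card := by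
  cases hU with
  | edge h h4 =>
    obtain ⟨y, hy, hye⟩ := meets hD h
    have h1 : 0 < (D ∩ U).card := Finset.card_pos.2 ⟨y, Finset.mem_inter.2 ⟨hy, hye⟩⟩
    omega
  | seven h hU => exact corona_lower (seven_ext h) hU hD
  | eight h hU => exact corona_lower (eight_ext h) hU hD
  | @grid g hg h =>
    have hc : (Finset.univ.image fun z : Fin 4 × Fin 4 => g z.1 z.2).card ≤ 16 := by
      refine Finset.card_image_le.trans ?_
      simp
    have key : 4 ≤ (D ∩ Finset.univ.image fun z : Fin 4 × Fin 4 => g z.1 z.2).card := by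
      by_cases hr : ∀ i, ∃ j, g i j ∈ D
      · choose c hcD using hr
        refine grid_card (fun i => (i, c i)) ?_ hcD
        intro i k hik
        exact (hg _ _ _ _ hik).1
      · by_cases hcol : ∀ j, ∃ i, g i j ∈ D
        · choose c hcD using hcol
          refine grid_card (fun j => (c j, j)) ?_ hcD
          intro i k hik
          exact (hg _ _ _ _ hik).2
        · exfalso
          obtain ⟨i, hi⟩ := not_forall.1 hr
          obtain ⟨j, hj⟩ := not_forall.1 hcol
          have hi : ∀ k, g i k ∉ D := fun k hk => hi ⟨k, hk⟩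
          have hj : ∀ k, g k j ∉ D := fun k hk => hj ⟨k, hk⟩
          obtain ⟨u, hu, f, hf, huf, hvf⟩ := hD (g i j) (hi j)
          rcases (h f).1 ⟨hf, i, j, hvf⟩ with ⟨k, rfl⟩ | ⟨k, rfl⟩
          · obtain ⟨l, -, hl⟩ := Finset.mem_image.1 hvf
            obtain ⟨m, -, rfl⟩ := Finset.mem_image.1 huf
            have h1 := (hg _ _ _ _ hl).1
            subst h1
            exact hi _ hu
          · obtain ⟨l, -, hl⟩ := Finset.mem_image.1 hvf
            obtain ⟨m, -, rfl⟩ := Finset.mem_image.1 huf
            have h1 := (hg _ _ _ _ hl).2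
            subst h1
            exact hj _ hu
    omega

theorem card_le_of_units [Fintype V] {H : Finset (Finset V)} {D : Finset V}
    (hP : UnionOfUnits H) (hD : Dominating H D) : Fintype.card V ≤ 4 * D.card := by
  obtain ⟨P, hPU, hP⟩ := hP
  have hdis : ∀ v : V, ∀ U ∈ P, ∀ W ∈ P, v ∈ U → v ∈ W → U = W := by
    intro v U hU W hW hvU hvW
    exact (hP v).unique ⟨hU, hvU⟩ ⟨hW, hvW⟩
  have h1 : Fintype.card V ≤ ∑ U ∈ P, U.card := by
    have h2 : (Finset.univ : Finset V) ⊆ P.biUnion id := by
      intro v _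
      obtain ⟨U, ⟨hU, hv⟩, -⟩ := hP v
      exact Finset.mem_biUnion.2 ⟨U, hU, hv⟩
    have h3 := Finset.card_le_card h2
    rw [Finset.card_univ] at h3
    exact h3.trans Finset.card_biUnion_le
  have h2 : ∑ U ∈ P, (D ∩ U).card ≤ D.card := by
    rw [← Finset.card_biUnion]
    · apply Finset.card_le_card
      intro v hv
      obtain ⟨U, -, hvU⟩ := Finset.mem_biUnion.1 hv
      exact (Finset.mem_inter.1 hvU).1
    · intro U hU W hW hne
      refine Finset.disjoint_left.2 ?_
      intro v hv hw
      exact hne (hdis v U hU W hW (Finset.mem_inter.1 hv).2 (Finset.mem_inter.1 hw).2)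
  have h3 : ∑ U ∈ P, U.card ≤ ∑ U ∈ P, 4 * (D ∩ U).card :=
    Finset.sum_le_sum fun U hU => (hPU U hU).lower hD
  rw [← Finset.mul_sum] at h3
  omega

end Pool.Agent.MP284513
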