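import Pool.Agent.Lib.MP_284513_co.KGrid
import Pool.Agent.Lib.MP_284513_co.KDefs
import Pool.Agent.Lib.MP_284513_co.Explicit
import Pool.Agent.Lib.MP_284513_co.LLower

/-!
# Covers by edges with four vertices and link edges
-/

set_option linter.unusedSectionVars false

namespace Pool.Agent.MP284513

variable {V : Type} [DecidableEq V]

/-- the enlarged members are distinct -/
theorem plus_inj {T : Finset (Finset V)} {q : Finset V → V}
    (hinj : ∀ s ∈ T, ∀ t ∈ T, q s = q t → s = t) (hnew : ∀ t ∈ T, q t ∉ ver T) {s t : Finset V}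
    (hs : s ∈ T) (ht : t ∈ T) (h : q s ∈ insert (q t) t) : s = t := by
  rcases Finset.mem_insert.1 h with h1 | h1
  · exact hinj s hs t ht h1
  · exact absurd (mem_ver.2 ⟨t, ht, h1⟩) (hnew s hs)

theorem private_iff {T : Finset (Finset V)} {q : Finset V → V}
    (hinj : ∀ s ∈ T, ∀ t ∈ T, q s = q t → s = t) (hnew : ∀ t ∈ T, q t ∉ ver T) {t : Finset V}
    (ht : t ∈ T) {v : V} :
    Private (T.image fun s => insert (q s) s) (insert (q t) t) v ↔ Exp T q t v := by
  constructor
  · rintro ⟨h1, h2⟩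
    refine ⟨h1, fun s hs hv => ?_⟩
    have h3 := h2 _ (Finset.mem_image_of_mem _ hs) hv
    exact plus_inj hinj hnew hs ht (h3 ▸ Finset.mem_insert_self (q s) s)
  · rintro ⟨h1, h2⟩
    refine ⟨h1, fun e he hv => ?_⟩
    obtain ⟨s, hs, rfl⟩ := Finset.mem_image.1 he
    rw [h2 s hs hv]

theorem exists_lk [Fintype V] [Nonempty V] {H E : Finset (Finset V)} (h4 : ∀ e ∈ H, 4 ≤ e.card)
    (hEH : E ⊆ H) (hE : IsMinCover H E) (hlink : ∀ f ∈ H, f ∉ E → LinkEdge E f)
    (heq : 4 * domNumber H = Fintype.card V) :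
    ∃ T q B, Lk H T q B ∧ E = T.image fun t => insert (q t) t := by
  classical
  have hcov : ∀ v : V, ∃ e ∈ H, v ∈ e := fun v => by
    obtain ⟨c, hc, hv⟩ := hE.cover v
    exact ⟨c, hEH hc, hv⟩
  obtain ⟨T, q, hg, hinj, hnew, rfl⟩ := ((main_corona H h4 hcov).1 heq _ hE).total
  have hT := hg.ext
  have hall : ∀ v, v ∈ ver T ∨ ∃ t ∈ T, v = q t := by
    intro v
    obtain ⟨c, hc, hv⟩ := hE.cover v
    obtain ⟨t, ht, rfl⟩ := Finset.mem_image.1 hc
    rcases Finset.mem_insert.1 hv with rfl | hv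
    · exact Or.inr ⟨t, ht, rfl⟩
    · exact Or.inl (mem_ver.2 ⟨t, ht, hv⟩)
  have hedge : ∀ t ∈ T, insert (q t) t ∈ H := fun t ht => hEH (Finset.mem_image_of_mem _ ht)
  have hcard : (ver T).card + T.card ≤ Fintype.card V := by
    have h1 : (ver T ∪ T.image q).card = (ver T).card + (T.image q).card := by
      refine Finset.card_union_of_disjoint ?_
      rw [Finset.disjoint_left]
      intro v hv hv'
      obtain ⟨t, ht, rfl⟩ := Finset.mem_image.1 hv'
      exact hnew t ht hv
    have h2 : (T.image q).card = T.card := by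
      refine Finset.card_image_of_injOn ?_
      intro s hs t ht hst
      exact hinj s hs t ht hst
    have h3 := Finset.card_le_univ (ver T ∪ T.image q)
    omega
  have hlow : ∀ D, Dominating H D → (ver T).card + T.card ≤ 4 * D.card := by
    intro D hD
    have := domNumber_le hD
    omega
  obtain ⟨B, hB⟩ := hg.blk hinj hnew
  have hnotE : ∀ t ∈ T, ∀ y, Exp T q t y → ∀ f, y ∈ f → f ≠ insert (q t) t →
      f ∉ T.image fun t => insert (q t) t := by
    intro t ht y hy f hyf hne hf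
    obtain ⟨s, hs, rfl⟩ := Finset.mem_image.1 hf
    exact hne (by rw [hy.2 s hs hyf])
  refine ⟨T, q, B, ⟨hT.1, hinj, hnew, hall, h4, hedge, hlow, hB, ?_, ?_⟩, rfl⟩
  · -- the new vertices of inner members
    intro t ht honly f hf hq
    by_contra hne
    have hexp : Exp T q t (q t) := ⟨Finset.mem_insert_self _ _, fun s hs h =>
      (plus_inj hinj hnew ht hs h).symm⟩
    have hfE := hnotE t ht _ hexp f hq hne
    obtain ⟨A, hA, hfA, hfA'⟩ := (hlink f hf hfE _ (Finset.mem_image_of_mem _ ht) (q t) hq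
      ((private_iff hinj hnew ht).2 hexp)).2 fun w hw =>
        honly w ((private_iff hinj hnew ht).1 hw)
    have hin : ∀ v ∈ t, ∃ s ∈ T, s ≠ t ∧ v ∈ s := by
      intro v hv
      by_contra hcon
      push Not at hcon
      have h1 : Exp T q t v := by
        refine ⟨Finset.mem_insert_of_mem hv, fun s hs hvs => ?_⟩
        by_contra hst
        rcases Finset.mem_insert.1 hvs with rfl | h2
        · exact hnew s hs (mem_ver.2 ⟨t, ht, hv⟩)
        · exact hcon s hs hst h2
      exact hnew t ht (honly v h1 ▸ mem_ver.2 ⟨t, ht, hv⟩)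
    let T₁ := T.filter fun s => insert (q s) s ⊆ A
    let T₂ := T.filter fun s => Disjoint (insert (q s) s) A
    have hT12 : T = T₁ ∪ T₂ := by
      ext s
      simp only [T₁, T₂, Finset.mem_union, Finset.mem_filter]
      constructor
      · intro hs
        rcases hA _ (Finset.mem_image_of_mem _ hs) with h | h
        · exact Or.inl ⟨hs, h⟩
        · exact Or.inr ⟨hs, h⟩
      · rintro (⟨h, -⟩ | ⟨h, -⟩) <;> exact h
    have hd : Disjoint (ver T₁) (ver T₂) := by
      rw [Finset.disjoint_left]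
      intro v hv hv'
      obtain ⟨s, hs, hvs⟩ := mem_ver.1 hv
      obtain ⟨s', hs', hvs'⟩ := mem_ver.1 hv'
      exact Finset.disjoint_left.1 (Finset.mem_filter.1 hs').2 (Finset.mem_insert_of_mem hvs')
        ((Finset.mem_filter.1 hs).2 (Finset.mem_insert_of_mem hvs))
    have ht12 := ht
    rw [hT12, Finset.mem_union] at ht12
    rcases ht12 with h1 | h1
    · obtain ⟨u, hu, huA⟩ := Finset.not_subset.1 hfA
      exact inner_link hT hinj hnew hall hedge hlow hT12 hd h1 hin hf hq hu fun s hs hus =>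
        huA ((Finset.mem_filter.1 hs).2 hus)
    · obtain ⟨u, hu, huA⟩ := Finset.not_disjoint_iff.1 hfA'
      exact inner_link hT hinj hnew hall hedge hlow (by rw [Finset.union_comm]; exact hT12)
        hd.symm h1 hin hf hq hu fun s hs hus =>
        Finset.disjoint_left.1 (Finset.mem_filter.1 hs).2 hus huA
  · intro t ht y hy ⟨y', hy'y, hy'⟩ f hf hyf hne s hs x hx x' hx' hxs hxs'
    have hfE := hnotE t ht y hy f hyf hne
    have h1 := (hlink f hf hfE _ (Finset.mem_image_of_mem _ ht) y hyf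
      ((private_iff hinj hnew ht).2 hy)).1 ⟨y', hy'y, (private_iff hinj hnew ht).2 hy'⟩ _
      (Finset.mem_image_of_mem _ hs)
    exact Finset.card_le_one.1 h1 x (Finset.mem_inter.2 ⟨hxs, hx⟩) x'
      (Finset.mem_inter.2 ⟨hxs', hx'⟩)

theorem GridRow.around_unit {H E : Finset (Finset V)} {e : Finset V} (h : GridRow H E e) :
    LinearUnit H (around H e) := by
  obtain ⟨g, hg, hf, hE, i, rfl⟩ := h
  rw [around_row hf i]
  exact LinearUnit.grid hg hf

/-- an enlarged member which meets a grid is a row of it -/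
theorem GridRow.of_mem {H T : Finset (Finset V)} {q : Finset V → V}
    (hinj : ∀ s ∈ T, ∀ t ∈ T, q s = q t → s = t) (hnew : ∀ t ∈ T, q t ∉ ver T)
    (hEH : (T.image fun t => insert (q t) t) ⊆ H) {e : Finset V}
    (h : GridRow H (T.image fun t => insert (q t) t) e) {s : Finset V} (hs : s ∈ T) {v : V}
    (hv : v ∈ insert (q s) s) (hve : v ∈ around H e) :
    GridRow H (T.image fun t => insert (q t) t) (insert (q s) s) ∧
      around H (insert (q s) s) = around H e := by
  obtain ⟨g, hg, hf, hE, i, rfl⟩ := h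
  rw [around_row hf i] at hve ⊢
  obtain ⟨⟨k, l⟩, -, rfl⟩ := Finset.mem_image.1 hve
  have hsE : insert (q s) s ∈ T.image fun t => insert (q t) t := Finset.mem_image_of_mem _ hs
  rcases (hf (insert (q s) s)).1 ⟨hEH hsE, k, l, hv⟩ with ⟨r, hr⟩ | ⟨r, hr⟩
  · exact ⟨⟨g, hg, hf, hE, r, hr⟩, by rw [hr]; exact around_row hf r⟩
  · exfalso
    have h1 : q s ∈ Finset.univ.image fun i => g i r := by
      rw [← hr]
      exact Finset.mem_insert_self _ _
    obtain ⟨m, -, hm⟩ := Finset.mem_image.1 h1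
    obtain ⟨t, ht, htr⟩ := Finset.mem_image.1 (hE m)
    have h2 : q s ∈ insert (q t) t := by
      rw [htr]
      exact Finset.mem_image.2 ⟨r, Finset.mem_univ _, hm⟩
    have h3 := plus_inj hinj hnew hs ht h2
    subst h3
    have h4 : g (m + 1) r ∈ Finset.univ.image (g m) := by
      rw [← htr, hr]
      exact Finset.mem_image.2 ⟨m + 1, Finset.mem_univ _, rfl⟩
    obtain ⟨z, -, hz⟩ := Finset.mem_image.1 h4
    have h5 := (hg _ _ _ _ hz).1
    revert h5
    fin_cases m <;> decide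

theorem card_le_of_link [Fintype V] {H E : Finset (Finset V)} (hEH : E ⊆ H)
    (hcov : ∀ v : V, ∃ e ∈ E, v ∈ e) (hc : Corona E)
    (hdeg : ∀ e ∈ E, (∃ v ∈ e, ∀ f ∈ H, v ∈ f → f = e) ∨ GridRow H E e) {D : Finset V}
    (hD : Dominating H D) : Fintype.card V ≤ 4 * D.card := by
  classical
  rcases isEmpty_or_nonempty V with hV | hV
  · rw [Fintype.card_eq_zero]
    omega
  obtain ⟨T, q, hg, hinj, hnew, rfl⟩ := hc.total
  have hT := hg.ext
  let T₁ := T.filter fun t => GridRow H (T.image fun t => insert (q t) t) (insert (q t) t)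
  let T₂ := T.filter fun t => ¬ GridRow H (T.image fun t => insert (q t) t) (insert (q t) t)
  have hT12 : T = T₁ ∪ T₂ := by
    ext s
    simp only [T₁, T₂, Finset.mem_union, Finset.mem_filter]
    tauto
  have hself : ∀ t ∈ T, ∀ v ∈ insert (q t) t, v ∈ around H (insert (q t) t) := fun t ht v hv =>
    mem_around.2 ⟨_, hEH (Finset.mem_image_of_mem _ ht), ⟨v, hv, hv⟩, hv⟩
  have hd : Disjoint (ver T₁) (ver T₂) := by
    rw [Finset.disjoint_left]
    intro v hv hv'
    obtain ⟨t, ht, hvt⟩ := mem_ver.1 hv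
    obtain ⟨s, hs, hvs⟩ := mem_ver.1 hv'
    obtain ⟨ht1, ht2⟩ := Finset.mem_filter.1 ht
    obtain ⟨hs1, hs2⟩ := Finset.mem_filter.1 hs
    exact hs2 (ht2.of_mem hinj hnew hEH hs1 (Finset.mem_insert_of_mem hvs)
      (hself t ht1 v (Finset.mem_insert_of_mem hvt))).1
  have hT2 : Ext T₂ := by
    rw [hT12] at hT
    exact hT.right hd
  have hsub : ∀ t ∈ T₂, t ∈ T := fun t ht => (Finset.mem_filter.1 ht).1
  have hinj2 : ∀ s ∈ T₂, ∀ t ∈ T₂, q s = q t → s = t := fun s hs t ht =>
    hinj s (hsub s hs) t (hsub t ht)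
  have hnew2 : ∀ t ∈ T₂, q t ∉ ver T₂ := fun t ht h =>
    hnew t (hsub t ht) (ver_mono (Finset.filter_subset _ _) h)
  refine card_le_of_partition (P := insert (full T₂ q)
    (T₁.image fun t => around H (insert (q t) t))) ?_ ?_ ?_
  · intro v
    obtain ⟨e, he, hv⟩ := hcov v
    obtain ⟨t, ht, rfl⟩ := Finset.mem_image.1 he
    have ht' := ht
    rw [hT12, Finset.mem_union] at ht'
    rcases ht' with h | h
    · exact ⟨_, Finset.mem_insert_of_mem (Finset.mem_image_of_mem _ h), hself t ht v hv⟩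
    · exact ⟨_, Finset.mem_insert_self _ _, mem_full.2 ⟨t, h, hv⟩⟩
  · -- mixed case
    have hmix : ∀ t ∈ T₁, ∀ v, v ∈ full T₂ q → v ∈ around H (insert (q t) t) → False := by
      intro t ht v hv hv'
      obtain ⟨s, hs, hvs⟩ := mem_full.1 hv
      obtain ⟨ht1, ht2⟩ := Finset.mem_filter.1 ht
      obtain ⟨hs1, hs2⟩ := Finset.mem_filter.1 hs
      exact hs2 (ht2.of_mem hinj hnew hEH hs1 hvs hv').1
    intro U hU U' hU' v hv hv'
    rcases Finset.mem_insert.1 hU with rfl | hU
    · rcases Finset.mem_insert.1 hU' with rfl | hU'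
      · rfl
      · obtain ⟨t, ht, rfl⟩ := Finset.mem_image.1 hU'
        exact (hmix t ht v hv hv').elim
    · obtain ⟨t, ht, rfl⟩ := Finset.mem_image.1 hU
      rcases Finset.mem_insert.1 hU' with rfl | hU'
      · exact (hmix t ht v hv' hv).elim
      · obtain ⟨t', ht', rfl⟩ := Finset.mem_image.1 hU'
        -- the member through `v`
        obtain ⟨e, he, hve⟩ := hcov v
        obtain ⟨s, hs, rfl⟩ := Finset.mem_image.1 he
        rw [← ((Finset.mem_filter.1 ht).2.of_mem hinj hnew hEH hs hve hv).2,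
          ← ((Finset.mem_filter.1 ht').2.of_mem hinj hnew hEH hs hve hv').2]
  · intro U hU
    rcases Finset.mem_insert.1 hU with rfl | hU
    · refine (card_full_le T₂ q).trans (hT2.card_le_hit hinj2 hnew2 fun t ht => ?_)
      obtain ⟨ht1, ht2⟩ := Finset.mem_filter.1 ht
      obtain ⟨v, hv, hall⟩ := (hdeg _ (Finset.mem_image_of_mem _ ht1)).resolve_right ht2
      by_cases hvD : v ∈ D
      · exact ⟨v, Finset.mem_inter.2 ⟨hvD, mem_full.2 ⟨t, ht, hv⟩⟩, hv⟩
      · obtain ⟨u, hu, f, hf, huf, hvf⟩ := hD v hvD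
        rw [hall f hf hvf] at huf
        exact ⟨u, Finset.mem_inter.2 ⟨hu, mem_full.2 ⟨t, ht, huf⟩⟩, huf⟩
    · obtain ⟨t, ht, rfl⟩ := Finset.mem_image.1 hU
      exact (Finset.mem_filter.1 ht).2.around_unit.lower hD

theorem main_link [Fintype V] (H E : Finset (Finset V)) (h4 : ∀ e ∈ H, 4 ≤ e.card)
    (hEH : E ⊆ H) (hE : IsMinCover H E) (hlink : ∀ f ∈ H, f ∉ E → LinkEdge E f) :
    4 * domNumber H = Fintype.card V ↔
      Corona E ∧ ∀ e ∈ E, (∃ v ∈ e, ∀ f ∈ H, v ∈ f → f = e) ∨ GridRow H E e := by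
  classical
  have hcov : ∀ v : V, ∃ e ∈ H, v ∈ e := fun v => by
    obtain ⟨c, hc, hv⟩ := hE.cover v
    exact ⟨c, hEH hc, hv⟩
  constructor
  · intro heq
    refine ⟨(main_corona H h4 hcov).1 heq _ hE, fun e he => ?_⟩
    rcases isEmpty_or_nonempty V with hV | hV
    · have h1 := (hE.four e he).1
      obtain ⟨v, -⟩ := Finset.card_pos.1 (by rw [h1]; norm_num : 0 < e.card)
      exact hV.elim v
    obtain ⟨T, q, B, c, rfl⟩ := exists_lk h4 hEH hE hlink heq
    obtain ⟨t, ht, rfl⟩ := Finset.mem_image.1 he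
    by_cases h : ∃ v ∈ insert (q t) t, ∀ f ∈ H, v ∈ f → f = insert (q t) t
    · exact Or.inl h
    · right
      push Not at h
      obtain ⟨g, hg, hf, hrow, h0⟩ := c.grid ht fun y hy => by
        obtain ⟨f, hf, hyf, hne⟩ := h y hy.1
        exact ⟨f, hf, hne, hyf⟩
      refine ⟨g, hg, hf, fun i => ?_, 0, h0.symm⟩
      obtain ⟨s, hs, hsi⟩ := hrow i
      rw [hsi]
      exact Finset.mem_image_of_mem _ hs
  · rintro ⟨hc, hdeg⟩
    obtain ⟨D, hD, hDc⟩ := exists_dom H
    have h1 := card_le_of_link hEH hE.cover hc hdeg hD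
    have h3 := dom_le hE
    omega

end Pool.Agent.MP284513
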