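import Pool.Agent.Lib.MP_284513_co.LUnit

/-!
# Blocks
-/

set_option linter.unusedSectionVars false

namespace Pool.Agent.MP284513

variable {V : Type} [DecidableEq V]

/-- A system of pairwise disjoint blocks for `R`, whose members `t` are enlarged by a new vertex
`q t`: a single edge `t` gives the block `t + q t`; the hypergraph with seven vertices gives the
blocks `{a₁, a₂, a₃}`, `{b₁, b₂, b₃}`, `{x}`; the one with eight vertices also `{y}`. -/
structure BlockSystem (R : Finset (Finset V)) (q : Finset V → V) (B : Finset (Finset V)) :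
    Prop where
  disj : ∀ b ∈ B, ∀ b' ∈ B, ∀ v, v ∈ b → v ∈ b' → b = b'
  card : 4 * B.card ≤ (ver R).card + R.card
  hit : ∀ D : Finset V, (∀ b ∈ B, ∃ x ∈ D, x ∈ b) → ∀ t ∈ R, ∃ x ∈ D, x ∈ insert (q t) t
  mem : ∀ v ∈ ver R, ∃ b ∈ B, v ∈ b
  single : ∀ t ∈ R, Closed R {t} → insert (q t) t ∈ B
  kind : ∀ b ∈ B, b.Nonempty ∧ ((∃ t ∈ R, Closed R {t} ∧ b = insert (q t) t) ∨
    (b.card ≤ 3 ∧ ∃ t ∈ R, b ⊆ t))

section Cards

variable {x y a₁ a₂ a₃ b₁ b₂ b₃ : V}

private def lemb (l : List V) (h : l.Nodup) : Fin l.length ↪ V :=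
  ⟨l.get, List.nodup_iff_injective_get.1 h⟩

private theorem lcard_seven₀ : (sevenFam (0 : Fin 7) 1 2 3 4 5 6).card = 5 := by decide

private theorem lcard_eight₀ : (eightFam (0 : Fin 8) 1 2 3 4 5 6 7).card = 8 := by decide

private theorem ldisj {a b c d e f : V} (h1 : ¬ a = d) (h2 : ¬ a = e) (h3 : ¬ a = f) (h4 : ¬ b = d)
    (h5 : ¬ b = e) (h6 : ¬ b = f) (h7 : ¬ c = d) (h8 : ¬ c = e) (h9 : ¬ c = f) {v : V}
    (hv : v ∈ ({a, b, c} : Finset V)) (hv' : v ∈ ({d, e, f} : Finset V)) : False := by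
  simp only [Finset.mem_insert, Finset.mem_singleton] at hv hv'
  rcases hv with hv | hv | hv <;> rcases hv' with hv' | hv' | hv' <;>
    exact absurd (hv.symm.trans hv') (by assumption)

private theorem ldisj1 {a d e f : V} (h1 : ¬ a = d) (h2 : ¬ a = e) (h3 : ¬ a = f) {v : V}
    (hv : v ∈ ({a} : Finset V)) (hv' : v ∈ ({d, e, f} : Finset V)) : False := by
  simp only [Finset.mem_insert, Finset.mem_singleton] at hv hv'
  rcases hv' with hv' | hv' | hv' <;> exact absurd (hv.symm.trans hv') (by assumption)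

private theorem lcard_seven (h : [x, a₁, a₂, a₃, b₁, b₂, b₃].Nodup) :
    (sevenFam x a₁ a₂ a₃ b₁ b₂ b₃).card = 5 := by
  have h1 : sevenFam x a₁ a₂ a₃ b₁ b₂ b₃ =
      (sevenFam (0 : Fin 7) 1 2 3 4 5 6).map (Finset.mapEmbedding (lemb _ h)).toEmbedding := by
    simp only [sevenFam, Finset.map_insert, Finset.map_singleton, RelEmbedding.coe_toEmbedding,
      Finset.mapEmbedding_apply]
    rfl
  rw [h1, Finset.card_map]
  exact lcard_seven₀

private theorem lcard_eight (h : [x, y, a₁, a₂, a₃, b₁, b₂, b₃].Nodup) :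
    (eightFam x y a₁ a₂ a₃ b₁ b₂ b₃).card = 8 := by
  have h1 : eightFam x y a₁ a₂ a₃ b₁ b₂ b₃ =
      (eightFam (0 : Fin 8) 1 2 3 4 5 6 7).map (Finset.mapEmbedding (lemb _ h)).toEmbedding := by
    simp only [eightFam, sevenFam, Finset.map_union, Finset.map_insert, Finset.map_singleton,
      RelEmbedding.coe_toEmbedding, Finset.mapEmbedding_apply]
    rfl
  rw [h1, Finset.card_map]
  exact lcard_eight₀

private theorem lver_eight :
    ver (eightFam x y a₁ a₂ a₃ b₁ b₂ b₃) = {x, y, a₁, a₂, a₃, b₁, b₂, b₃} := by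
  unfold eightFam
  rw [ver_union, seven_ver]
  ext v
  simp only [ver, Finset.mem_biUnion, Finset.mem_union, Finset.mem_insert, Finset.mem_singleton,
    id_eq, exists_eq_or_imp, exists_eq_left]
  tauto

private theorem lver_seven_card (h : [x, a₁, a₂, a₃, b₁, b₂, b₃].Nodup) :
    (ver (sevenFam x a₁ a₂ a₃ b₁ b₂ b₃)).card = 7 := by
  rw [seven_ver]
  have := List.toFinset_card_of_nodup h
  simpa using this

private theorem lver_eight_card (h : [x, y, a₁, a₂, a₃, b₁, b₂, b₃].Nodup) :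
    (ver (eightFam x y a₁ a₂ a₃ b₁ b₂ b₃)).card = 8 := by
  rw [lver_eight]
  have := List.toFinset_card_of_nodup h
  simpa using this

end Cards

private theorem BlockSystem.of_edge {q : Finset V → V} {a b c : V} (h : [a, b, c].Nodup) :
    BlockSystem {{a, b, c}} q {insert (q {a, b, c}) {a, b, c}} := by
  have hcl : Closed ({{a, b, c}} : Finset (Finset V)) {{a, b, c}} := Closed.refl _
  have h3 : ({a, b, c} : Finset V).card = 3 := by
    have := List.toFinset_card_of_nodup h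
    simpa using this
  refine ⟨?_, ?_, ?_, ?_, ?_, ?_⟩
  · intro b hb b' hb' v _ _
    rw [Finset.mem_singleton.1 hb, Finset.mem_singleton.1 hb']
  · have h4 : ver ({{a, b, c}} : Finset (Finset V)) = {a, b, c} := by
      ext v
      simp [ver]
    rw [h4, h3]
    simp
  · intro D hD t ht
    rw [Finset.mem_singleton.1 ht]
    exact hD _ (Finset.mem_singleton_self _)
  · intro v hv
    obtain ⟨e, he, hve⟩ := mem_ver.1 hv
    rw [Finset.mem_singleton.1 he] at hve
    exact ⟨_, Finset.mem_singleton_self _, Finset.mem_insert_of_mem hve⟩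
  · intro t ht _
    rw [Finset.mem_singleton.1 ht]
    exact Finset.mem_singleton_self _
  · intro b' hb'
    rw [Finset.mem_singleton.1 hb']
    exact ⟨⟨_, Finset.mem_insert_self _ _⟩,
      Or.inl ⟨_, Finset.mem_singleton_self _, hcl, rfl⟩⟩

private theorem BlockSystem.of_seven {q : Finset V → V} {x a₁ a₂ a₃ b₁ b₂ b₃ : V}
    (h : [x, a₁, a₂, a₃, b₁, b₂, b₃].Nodup) :
    BlockSystem (sevenFam x a₁ a₂ a₃ b₁ b₂ b₃) q {{a₁, a₂, a₃}, {b₁, b₂, b₃}, {x}} := by
  have hc := lcard_seven h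
  have hv := lver_seven_card h
  have hcard : ∀ u v w : V, ({u, v, w} : Finset V).card ≤ 3 := fun u v w => Finset.card_le_three
  have hn := h
  simp only [List.nodup_cons, List.mem_cons, List.not_mem_nil, or_false, not_or, not_false_eq_true,
    List.nodup_nil, and_true] at hn
  obtain ⟨⟨x1, x2, x3, x4, x5, x6⟩, ⟨p1, p2, p3, p4, p5⟩, ⟨r1, r2, r3, r4⟩, ⟨s1, s2, s3⟩,
    ⟨t1, t2⟩, t3⟩ := hn
  have hab : ∀ {v : V}, v ∈ ({a₁, a₂, a₃} : Finset V) → v ∈ ({b₁, b₂, b₃} : Finset V) → False :=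
    fun h1 h2 => ldisj p3 p4 p5 r2 r3 r4 s1 s2 s3 h1 h2
  have hxa : ∀ {v : V}, v ∈ ({x} : Finset V) → v ∈ ({a₁, a₂, a₃} : Finset V) → False :=
    fun h1 h2 => ldisj1 x1 x2 x3 h1 h2
  have hxb : ∀ {v : V}, v ∈ ({x} : Finset V) → v ∈ ({b₁, b₂, b₃} : Finset V) → False :=
    fun h1 h2 => ldisj1 x4 x5 x6 h1 h2
  refine ⟨?_, ?_, ?_, ?_, ?_, ?_⟩
  · intro b hb b' hb' v hv hv'
    simp only [Finset.mem_insert, Finset.mem_singleton] at hb hb'
    rcases hb with hb | hb | hb <;> rcases hb' with hb' | hb' | hb' <;>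
      rw [hb] at hv <;> rw [hb'] at hv' <;> rw [hb, hb'] <;> exfalso
    · exact hab hv hv'
    · exact hxa hv' hv
    · exact hab hv' hv
    · exact hxb hv' hv
    · exact hxa hv hv'
    · exact hxb hv hv'
  · rw [hc, hv]
    have h1 : ({{a₁, a₂, a₃}, {b₁, b₂, b₃}, {x}} : Finset (Finset V)).card ≤ 3 :=
      Finset.card_le_three
    omega
  · intro D hD t ht
    simp only [Finset.mem_insert, Finset.mem_singleton, forall_eq_or_imp, forall_eq] at hD
    obtain ⟨h1, h2, h3⟩ := hD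
    obtain ⟨z, hz, rfl⟩ := h3
    simp only [sevenFam, Finset.mem_insert, Finset.mem_singleton] at ht
    rcases ht with rfl | rfl | rfl | rfl | rfl
    · obtain ⟨w, hw, hw'⟩ := h1
      exact ⟨w, hw, Finset.mem_insert_of_mem (by simpa using hw')⟩
    · obtain ⟨w, hw, hw'⟩ := h2
      exact ⟨w, hw, Finset.mem_insert_of_mem (by simpa using hw')⟩
    all_goals exact ⟨z, hz, Finset.mem_insert_of_mem (by simp)⟩
  · intro v hv
    rw [seven_ver] at hv
    simp only [Finset.mem_insert, Finset.mem_singleton] at hv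
    rcases hv with h | h | h | h | h | h | h
    · exact ⟨{x}, by simp, by simp [h]⟩
    · exact ⟨{a₁, a₂, a₃}, by simp, by simp [h]⟩
    · exact ⟨{a₁, a₂, a₃}, by simp, by simp [h]⟩
    · exact ⟨{a₁, a₂, a₃}, by simp, by simp [h]⟩
    · exact ⟨{b₁, b₂, b₃}, by simp, by simp [h]⟩
    · exact ⟨{b₁, b₂, b₃}, by simp, by simp [h]⟩
    · exact ⟨{b₁, b₂, b₃}, by simp, by simp [h]⟩
  · intro t ht hcl
    exfalso
    have h1 : ({a₁, a₂, a₃} : Finset V) ∈ sevenFam x a₁ a₂ a₃ b₁ b₂ b₃ := by simp [sevenFam]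
    have h2 : ({b₁, b₂, b₃} : Finset V) ∈ sevenFam x a₁ a₂ a₃ b₁ b₂ b₃ := by simp [sevenFam]
    have h3 := UnitL.eq_singleton (UnitL.seven h) ht hcl
    rw [h3, Finset.mem_singleton] at h1 h2
    have h4 : a₁ ∈ ({b₁, b₂, b₃} : Finset V) := by
      rw [h2, ← h1]
      simp
    exact hab (by simp : a₁ ∈ ({a₁, a₂, a₃} : Finset V)) h4
  · intro b hb
    simp only [Finset.mem_insert, Finset.mem_singleton] at hb
    rcases hb with rfl | rfl | rfl
    · exact ⟨⟨a₁, by simp⟩, Or.inr ⟨hcard _ _ _, _, by simp [sevenFam], Finset.Subset.refl _⟩⟩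
    · exact ⟨⟨b₁, by simp⟩, Or.inr ⟨hcard _ _ _, {b₁, b₂, b₃}, by simp [sevenFam],
        Finset.Subset.refl _⟩⟩
    · exact ⟨⟨x, by simp⟩, Or.inr ⟨by simp, {x, a₁, b₁}, by simp [sevenFam], by simp⟩⟩

private theorem BlockSystem.of_eight {q : Finset V → V} {x y a₁ a₂ a₃ b₁ b₂ b₃ : V}
    (h : [x, y, a₁, a₂, a₃, b₁, b₂, b₃].Nodup) :
    BlockSystem (eightFam x y a₁ a₂ a₃ b₁ b₂ b₃) q {{a₁, a₂, a₃}, {b₁, b₂, b₃}, {x}, {y}} := by
  have hc := lcard_eight h
  have hv := lver_eight_card h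
  have hcard : ∀ u v w : V, ({u, v, w} : Finset V).card ≤ 3 := fun u v w => Finset.card_le_three
  have hn := h
  simp only [List.nodup_cons, List.mem_cons, List.not_mem_nil, or_false, not_or, not_false_eq_true,
    List.nodup_nil, and_true] at hn
  obtain ⟨⟨x0, x1, x2, x3, x4, x5, x6⟩, ⟨y1, y2, y3, y4, y5, y6⟩, ⟨p1, p2, p3, p4, p5⟩,
    ⟨r1, r2, r3, r4⟩, ⟨s1, s2, s3⟩, ⟨t1, t2⟩, t3⟩ := hn
  have hab : ∀ {v : V}, v ∈ ({a₁, a₂, a₃} : Finset V) → v ∈ ({b₁, b₂, b₃} : Finset V) → False :=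
    fun h1 h2 => ldisj p3 p4 p5 r2 r3 r4 s1 s2 s3 h1 h2
  have hxa : ∀ {v : V}, v ∈ ({x} : Finset V) → v ∈ ({a₁, a₂, a₃} : Finset V) → False :=
    fun h1 h2 => ldisj1 x1 x2 x3 h1 h2
  have hxb : ∀ {v : V}, v ∈ ({x} : Finset V) → v ∈ ({b₁, b₂, b₃} : Finset V) → False :=
    fun h1 h2 => ldisj1 x4 x5 x6 h1 h2
  have hya : ∀ {v : V}, v ∈ ({y} : Finset V) → v ∈ ({a₁, a₂, a₃} : Finset V) → False :=
    fun h1 h2 => ldisj1 y1 y2 y3 h1 h2
  have hyb : ∀ {v : V}, v ∈ ({y} : Finset V) → v ∈ ({b₁, b₂, b₃} : Finset V) → False :=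
    fun h1 h2 => ldisj1 y4 y5 y6 h1 h2
  have hxy : ∀ {v : V}, v ∈ ({x} : Finset V) → v ∈ ({y} : Finset V) → False :=
    fun h1 h2 => x0 ((Finset.mem_singleton.1 h1).symm.trans (Finset.mem_singleton.1 h2))
  refine ⟨?_, ?_, ?_, ?_, ?_, ?_⟩
  · intro b hb b' hb' v hv hv'
    simp only [Finset.mem_insert, Finset.mem_singleton] at hb hb'
    rcases hb with hb | hb | hb | hb <;> rcases hb' with hb' | hb' | hb' | hb' <;>
      rw [hb] at hv <;> rw [hb'] at hv' <;> rw [hb, hb'] <;> exfalso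
    · exact hab hv hv'
    · exact hxa hv' hv
    · exact hya hv' hv
    · exact hab hv' hv
    · exact hxb hv' hv
    · exact hyb hv' hv
    · exact hxa hv hv'
    · exact hxb hv hv'
    · exact hxy hv hv'
    · exact hya hv hv'
    · exact hyb hv hv'
    · exact hxy hv' hv
  · rw [hc, hv]
    have h1 : ({{a₁, a₂, a₃}, {b₁, b₂, b₃}, {x}, {y}} : Finset (Finset V)).card ≤ 4 :=
      Finset.card_le_four
    omega
  · intro D hD t ht
    simp only [Finset.mem_insert, Finset.mem_singleton, forall_eq_or_imp, forall_eq] at hD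
    obtain ⟨h1, h2, h3, h4⟩ := hD
    obtain ⟨z, hz, hzx⟩ := h3
    obtain ⟨z', hz', hzy⟩ := h4
    subst hzx
    subst hzy
    simp only [eightFam, sevenFam, Finset.mem_union, Finset.mem_insert, Finset.mem_singleton] at ht
    rcases ht with (rfl | rfl | rfl | rfl | rfl) | (rfl | rfl | rfl)
    · obtain ⟨w, hw, hw'⟩ := h1
      exact ⟨w, hw, Finset.mem_insert_of_mem (by simpa using hw')⟩
    · obtain ⟨w, hw, hw'⟩ := h2
      exact ⟨w, hw, Finset.mem_insert_of_mem (by simpa using hw')⟩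
    · exact ⟨z, hz, Finset.mem_insert_of_mem (by simp)⟩
    · exact ⟨z, hz, Finset.mem_insert_of_mem (by simp)⟩
    · exact ⟨z, hz, Finset.mem_insert_of_mem (by simp)⟩
    all_goals exact ⟨z', hz', Finset.mem_insert_of_mem (by simp)⟩
  · intro v hv
    rw [lver_eight] at hv
    simp only [Finset.mem_insert, Finset.mem_singleton] at hv
    rcases hv with h | h | h | h | h | h | h | h
    · exact ⟨{x}, by simp, by simp [h]⟩
    · exact ⟨{y}, by simp, by simp [h]⟩
    · exact ⟨{a₁, a₂, a₃}, by simp, by simp [h]⟩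
    · exact ⟨{a₁, a₂, a₃}, by simp, by simp [h]⟩
    · exact ⟨{a₁, a₂, a₃}, by simp, by simp [h]⟩
    · exact ⟨{b₁, b₂, b₃}, by simp, by simp [h]⟩
    · exact ⟨{b₁, b₂, b₃}, by simp, by simp [h]⟩
    · exact ⟨{b₁, b₂, b₃}, by simp, by simp [h]⟩
  · intro t ht hcl
    exfalso
    have h1 : ({a₁, a₂, a₃} : Finset V) ∈ eightFam x y a₁ a₂ a₃ b₁ b₂ b₃ := by
      simp [eightFam, sevenFam]
    have h2 : ({b₁, b₂, b₃} : Finset V) ∈ eightFam x y a₁ a₂ a₃ b₁ b₂ b₃ := by
      simp [eightFam, sevenFam]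
    have h3 := UnitL.eq_singleton (UnitL.eight h) ht hcl
    rw [h3, Finset.mem_singleton] at h1 h2
    have h4 : a₁ ∈ ({b₁, b₂, b₃} : Finset V) := by
      rw [h2, ← h1]
      simp
    exact hab (by simp : a₁ ∈ ({a₁, a₂, a₃} : Finset V)) h4
  · intro b hb
    simp only [Finset.mem_insert, Finset.mem_singleton] at hb
    rcases hb with rfl | rfl | rfl | rfl
    · exact ⟨⟨a₁, by simp⟩, Or.inr ⟨hcard _ _ _, {a₁, a₂, a₃}, by simp [eightFam, sevenFam],
        Finset.Subset.refl _⟩⟩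
    · exact ⟨⟨b₁, by simp⟩, Or.inr ⟨hcard _ _ _, {b₁, b₂, b₃}, by simp [eightFam, sevenFam],
        Finset.Subset.refl _⟩⟩
    · exact ⟨⟨x, by simp⟩, Or.inr ⟨by simp, {x, a₁, b₁}, by simp [eightFam, sevenFam], by simp⟩⟩
    · exact ⟨⟨y, by simp⟩, Or.inr ⟨by simp, {y, a₁, b₂}, by simp [eightFam, sevenFam], by simp⟩⟩

private theorem UnitL.blockSystem {K : Finset (Finset V)} (h : UnitL K) (q : Finset V → V) :
    ∃ B, BlockSystem K q B := by
  cases h with
  | edge h => exact ⟨_, BlockSystem.of_edge h⟩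
  | seven h => exact ⟨_, BlockSystem.of_seven h⟩
  | eight h => exact ⟨_, BlockSystem.of_eight h⟩

private theorem UnitL.nonempty_mem {K : Finset (Finset V)} (h : UnitL K) {e : Finset V}
    (he : e ∈ K) : e.Nonempty := by
  cases h with
  | @edge a b c h =>
    rw [Finset.mem_singleton.1 he]
    exact ⟨a, by simp⟩
  | @seven x a₁ a₂ a₃ b₁ b₂ b₃ h =>
    simp only [sevenFam, Finset.mem_insert, Finset.mem_singleton] at he
    rcases he with rfl | rfl | rfl | rfl | rfl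
    · exact ⟨a₁, by simp⟩
    · exact ⟨b₁, by simp⟩
    all_goals exact ⟨x, by simp⟩
  | @eight x y a₁ a₂ a₃ b₁ b₂ b₃ h =>
    simp only [eightFam, sevenFam, Finset.mem_union, Finset.mem_insert, Finset.mem_singleton] at he
    rcases he with (rfl | rfl | rfl | rfl | rfl) | (rfl | rfl | rfl)
    · exact ⟨a₁, by simp⟩
    · exact ⟨b₁, by simp⟩
    · exact ⟨x, by simp⟩
    · exact ⟨x, by simp⟩
    · exact ⟨x, by simp⟩
    all_goals exact ⟨y, by simp⟩

private theorem BlockSystem.sub {R : Finset (Finset V)} {q : Finset V → V}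
    {B : Finset (Finset V)} (h : BlockSystem R q B) {b : Finset V} (hb : b ∈ B) :
    ∃ t ∈ R, b ⊆ insert (q t) t := by
  rcases (h.kind b hb).2 with ⟨t, ht, _, rfl⟩ | ⟨_, t, ht, hbt⟩
  · exact ⟨t, ht, Finset.Subset.refl _⟩
  · exact ⟨t, ht, hbt.trans (Finset.subset_insert _ _)⟩

private theorem closed_of_union {K R : Finset (Finset V)} {t : Finset V} (ht : t ∈ K)
    (h : Closed (K ∪ R) {t}) : Closed K {t} :=
  ⟨Finset.singleton_subset_iff.2 ht, fun e he v hv hv' =>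
    h.2 e (Finset.mem_union_left _ he) v hv hv'⟩

private theorem BlockSystem.union {K R : Finset (Finset V)} {q : Finset V → V}
    {B₁ B₂ : Finset (Finset V)} (h₁ : BlockSystem K q B₁) (h₂ : BlockSystem R q B₂)
    (hK : ∀ e ∈ K, e.Nonempty) (hd : Disjoint (ver K) (ver R))
    (hinj : ∀ s ∈ K ∪ R, ∀ t ∈ K ∪ R, q s = q t → s = t) (hnew : ∀ t ∈ K ∪ R, q t ∉ ver (K ∪ R)) :
    BlockSystem (K ∪ R) q (B₁ ∪ B₂) := by
  have hKR : ∀ t ∈ K, t ∉ R := by
    intro t ht ht'
    obtain ⟨v, hv⟩ := hK t ht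
    exact Finset.disjoint_left.1 hd (mem_ver.2 ⟨t, ht, hv⟩) (mem_ver.2 ⟨t, ht', hv⟩)
  have hcross : ∀ b ∈ B₁, ∀ b' ∈ B₂, ∀ v, v ∈ b → v ∉ b' := by
    intro b hb b' hb' v hv hv'
    obtain ⟨s, hs, hbs⟩ := h₁.sub hb
    obtain ⟨t, ht, hbt⟩ := h₂.sub hb'
    have hs' := Finset.mem_union_left R hs
    have ht' := Finset.mem_union_right K ht
    rcases Finset.mem_insert.1 (hbs hv) with h1 | h1
    · rcases Finset.mem_insert.1 (hbt hv') with h2 | h2
      · have h3 := hinj s hs' t ht' (h1.symm.trans h2)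
        rw [h3] at hs
        exact hKR _ hs ht
      · exact hnew s hs' (h1 ▸ mem_ver.2 ⟨t, ht', h2⟩)
    · rcases Finset.mem_insert.1 (hbt hv') with h2 | h2
      · exact hnew t ht' (h2 ▸ mem_ver.2 ⟨s, hs', h1⟩)
      · exact Finset.disjoint_left.1 hd (mem_ver.2 ⟨s, hs, h1⟩) (mem_ver.2 ⟨t, ht, h2⟩)
  refine ⟨?_, ?_, ?_, ?_, ?_, ?_⟩
  · intro b hb b' hb' v hv hv'
    rcases Finset.mem_union.1 hb with hb | hb <;> rcases Finset.mem_union.1 hb' with hb' | hb'
    · exact h₁.disj b hb b' hb' v hv hv'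
    · exact absurd hv' (hcross b hb b' hb' v hv)
    · exact absurd hv (hcross b' hb' b hb v hv')
    · exact h₂.disj b hb b' hb' v hv hv'
  · have h1 := Finset.card_union_le B₁ B₂
    have h2 : (ver (K ∪ R)).card = (ver K).card + (ver R).card := by
      rw [ver_union, Finset.card_union_of_disjoint hd]
    have h3 : (K ∪ R).card = K.card + R.card :=
      Finset.card_union_of_disjoint (Finset.disjoint_left.2 hKR)
    have h4 := h₁.card
    have h5 := h₂.card
    rw [h2, h3]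
    omega
  · intro D hD t ht
    rcases Finset.mem_union.1 ht with ht | ht
    · exact h₁.hit D (fun b hb => hD b (Finset.mem_union_left _ hb)) t ht
    · exact h₂.hit D (fun b hb => hD b (Finset.mem_union_right _ hb)) t ht
  · intro v hv
    rw [ver_union, Finset.mem_union] at hv
    rcases hv with hv | hv
    · obtain ⟨b, hb, hvb⟩ := h₁.mem v hv
      exact ⟨b, Finset.mem_union_left _ hb, hvb⟩
    · obtain ⟨b, hb, hvb⟩ := h₂.mem v hv
      exact ⟨b, Finset.mem_union_right _ hb, hvb⟩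
  · intro t ht hcl
    rcases Finset.mem_union.1 ht with ht | ht
    · exact Finset.mem_union_left _ (h₁.single t ht (closed_of_union ht hcl))
    · rw [Finset.union_comm] at hcl
      exact Finset.mem_union_right _ (h₂.single t ht (closed_of_union ht hcl))
  · intro b hb
    rcases Finset.mem_union.1 hb with hb | hb
    · obtain ⟨h1, h2⟩ := h₁.kind b hb
      refine ⟨h1, ?_⟩
      rcases h2 with ⟨t, ht, hcl, h3⟩ | ⟨h3, t, ht, h4⟩
      · exact Or.inl ⟨t, Finset.mem_union_left _ ht, hcl.left hd, h3⟩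
      · exact Or.inr ⟨h3, t, Finset.mem_union_left _ ht, h4⟩
    · obtain ⟨h1, h2⟩ := h₂.kind b hb
      refine ⟨h1, ?_⟩
      rcases h2 with ⟨t, ht, hcl, h3⟩ | ⟨h3, t, ht, h4⟩
      · exact Or.inl ⟨t, Finset.mem_union_right _ ht, hcl.right hd, h3⟩
      · exact Or.inr ⟨h3, t, Finset.mem_union_right _ ht, h4⟩

/-- induction on `h` -/
theorem GoodL.blocks {R : Finset (Finset V)} (h : GoodL R) {q : Finset V → V}
    (hinj : ∀ s ∈ R, ∀ t ∈ R, q s = q t → s = t) (hnew : ∀ t ∈ R, q t ∉ ver R) :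
    ∃ B, BlockSystem R q B := by
  induction h with
  | empty =>
    refine ⟨∅, ?_, ?_, ?_, ?_, ?_, ?_⟩
    · intro b hb
      simp at hb
    · simp
    · intro D _ t ht
      simp at ht
    · intro v hv
      simp [ver] at hv
    · intro t ht
      simp at ht
    · intro b hb
      simp at hb
  | @add K T hK hT hd ih =>
    obtain ⟨B₁, h₁⟩ := hK.blockSystem q
    obtain ⟨B₂, h₂⟩ := ih
      (fun s hs t ht => hinj s (Finset.mem_union_right _ hs) t (Finset.mem_union_right _ ht))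
      (fun t ht h => hnew t (Finset.mem_union_right _ ht)
        (ver_mono Finset.subset_union_right h))
    exact ⟨_, h₁.union h₂ (fun e he => hK.nonempty_mem he) hd hinj hnew⟩

end Pool.Agent.MP284513
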