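import Pool.Agent.Lib.MP_284513_co.LHall

/-!
# The columns
-/

set_option linter.unusedSectionVars false

namespace Pool.Agent.MP284513

variable {V : Type} [DecidableEq V]

/-- a choice of another edge through every vertex of `e₀` -/
private def Ch (H : Finset (Finset V)) (e₀ : Finset V) (F : V → Finset V) : Prop :=
  ∀ y ∈ e₀, F y ∈ H ∧ F y ≠ e₀ ∧ y ∈ F y

/-- the blocks which meet the edge `f` in a vertex different from `y` -/
private def bl (B : Finset (Finset V)) (f : Finset V) (y : V) : Finset (Finset V) :=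
  B.filter fun b => ∃ x ∈ f, x ≠ y ∧ x ∈ b

private theorem mem_bl {B : Finset (Finset V)} {f : Finset V} {y : V} {b : Finset V} :
    b ∈ bl B f y ↔ b ∈ B ∧ ∃ x ∈ f, x ≠ y ∧ x ∈ b := Finset.mem_filter

/-- the number of vertices of `f` different from `y` is the number of the blocks -/
private theorem bl_card {B : Finset (Finset V)} {f : Finset V} {y : V}
    (hd : ∀ b ∈ B, ∀ b' ∈ B, ∀ v, v ∈ b → v ∈ b' → b = b')
    (h1 : ∀ x ∈ f, x ≠ y → ∃ b ∈ B, x ∈ b)
    (h2 : ∀ b ∈ B, ∀ x ∈ f, ∀ x' ∈ f, x ∈ b → x' ∈ b → x = x') :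
    (bl B f y).card = (f.erase y).card := by
  choose! g hg using h1
  symm
  refine Finset.card_bij (fun x _ => g x) (fun x hx => ?_) (fun x hx x' hx' e => ?_) fun b hb => ?_
  · rw [Finset.mem_erase] at hx
    exact mem_bl.2 ⟨(hg x hx.2 hx.1).1, x, hx.2, hx.1, (hg x hx.2 hx.1).2⟩
  · rw [Finset.mem_erase] at hx hx'
    have a1 := hg x hx.2 hx.1
    have a2 := hg x' hx'.2 hx'.1
    rw [← e] at a2
    exact h2 _ a1.1 x hx.2 x' hx'.2 a1.2 a2.2
  · obtain ⟨hb1, x, hx, hxy, hxb⟩ := mem_bl.1 hb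
    have a1 := hg x hx hxy
    exact ⟨x, Finset.mem_erase.2 ⟨hxy, hx⟩, hd _ a1.1 _ hb1 x a1.2 hxb⟩

/-- for every choice all the sets of blocks are the same, they have three members, and the chosen edges are
disjoint -/
private theorem choice {H T : Finset (Finset V)} {q : Finset V → V} (c : Cor H T q)
    {t : Finset V} (ht : t ∈ T) (hc : Closed T {t}) {B : Finset (Finset V)}
    (hB : BlockSystem (T.erase t) q B) (h4 : (insert (q t) t).card = 4) {F : V → Finset V}
    (hF : Ch H (insert (q t) t) F) : ∃ C ⊆ B, C.card = 3 ∧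
      (∀ y ∈ insert (q t) t, bl B (F y) y = C ∧ (F y).card = 4) ∧
      ∀ y ∈ insert (q t) t, ∀ y' ∈ insert (q t) t, ∀ x, x ∈ F y → x ∈ F y' → y = y' := by
  have hto : ∀ y ∈ insert (q t) t, (∀ x ∈ F y, x ≠ y → x ∉ insert (q t) t) ∧
      (∀ x ∈ F y, x ≠ y → ∃ b ∈ B, x ∈ b) ∧
      ∀ b ∈ B, ∀ x ∈ F y, ∀ x' ∈ F y, x ∈ b → x' ∈ b → x = x' := fun y hy =>
    c.touch ht hc hB (hF y hy).1 (hF y hy).2.1 hy (hF y hy).2.2
  have hbc : ∀ y ∈ insert (q t) t, (bl B (F y) y).card = ((F y).erase y).card := fun y hy =>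
    bl_card hB.disj (hto y hy).2.1 (hto y hy).2.2
  have hb3 : ∀ y ∈ insert (q t) t, 3 ≤ (bl B (F y) y).card := by
    intro y hy
    rw [hbc y hy, Finset.card_erase_of_mem (hF y hy).2.2]
    have := c.size _ (hF y hy).1
    omega
  -- the union is small
  have hcard : Fintype.card {y // y ∈ insert (q t) t} = 4 := by
    rw [Fintype.card_coe, h4]
  have hsmall : ((Finset.univ : Finset {y // y ∈ insert (q t) t}).biUnion
      fun y => bl B (F y.1) y.1).card ≤ 3 := by
    by_contra hlt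
    obtain ⟨s, hs1, hs2⟩ := exists_system hcard (fun y => bl B (F y.1) y.1) (fun y => hb3 y.1 y.2)
      (by omega)
    have hw : ∀ y : {y // y ∈ insert (q t) t}, ∃ x ∈ F y.1, x ≠ y.1 ∧ x ∈ s y := fun y =>
      (mem_bl.1 (hs2 y)).2
    choose w hw1 hw2 hw3 using hw
    refine c.no_system ht hc hB (W := Finset.univ.image w) (fun x hx => ?_) (fun b hb x hx x' hx' e e' => ?_)
      fun y hy => ?_
    · obtain ⟨y, -, rfl⟩ := Finset.mem_image.1 hx
      exact ⟨s y, (mem_bl.1 (hs2 y)).1, hw3 y⟩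
    · obtain ⟨y, -, rfl⟩ := Finset.mem_image.1 hx
      obtain ⟨y', -, rfl⟩ := Finset.mem_image.1 hx'
      have e1 := hB.disj _ hb _ (mem_bl.1 (hs2 y)).1 _ e (hw3 y)
      have e2 := hB.disj _ hb _ (mem_bl.1 (hs2 y')).1 _ e' (hw3 y')
      rw [hs1 (e1.symm.trans e2)]
    · exact ⟨w ⟨y, hy⟩, Finset.mem_image_of_mem _ (Finset.mem_univ _), F y, (hF y hy).1, hw1 ⟨y, hy⟩,
        (hF y hy).2.2⟩
  obtain ⟨C, hC⟩ : ∃ C, C = (Finset.univ : Finset {y // y ∈ insert (q t) t}).biUnion
      fun y => bl B (F y.1) y.1 := ⟨_, rfl⟩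
  rw [← hC] at hsmall
  have heq : ∀ y ∈ insert (q t) t, bl B (F y) y = C := by
    intro y hy
    refine Finset.eq_of_subset_of_card_le (fun b hb => ?_) (hsmall.trans (hb3 y hy))
    rw [hC, Finset.mem_biUnion]
    exact ⟨⟨y, hy⟩, Finset.mem_univ _, hb⟩
  have hq : q t ∈ insert (q t) t := Finset.mem_insert_self _ _
  have hC3 : C.card = 3 := le_antisymm hsmall (by rw [← heq _ hq]; exact hb3 _ hq)
  have hCB : C ⊆ B := by
    rw [← heq _ hq]
    exact Finset.filter_subset _ _
  refine ⟨C, hCB, hC3, fun y hy => ⟨heq y hy, ?_⟩, ?_⟩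
  · have h5 := hbc y hy
    rw [heq y hy, hC3, Finset.card_erase_of_mem (hF y hy).2.2] at h5
    have := c.size _ (hF y hy).1
    omega
  -- disjoint
  intro y hy y' hy' x hx hx'
  by_contra hne
  have hxy : x ≠ y := by
    rintro rfl
    exact (hto y' hy').1 x hx' hne hy
  have hxy' : x ≠ y' := by
    rintro rfl
    exact (hto y hy).1 x hx (Ne.symm hne) hy'
  obtain ⟨b, hb, hxb⟩ := (hto y hy).2.1 x hx hxy
  have hbC : b ∈ C := by
    rw [← heq y hy]
    exact mem_bl.2 ⟨hb, x, hx, hxy, hxb⟩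
  have h6 : ((insert (q t) t).erase y).erase y' = (((insert (q t) t).erase y).erase y') := rfl
  have h7 : (((insert (q t) t).erase y).erase y').card = 2 := by
    rw [Finset.card_erase_of_mem (Finset.mem_erase.2 ⟨Ne.symm hne, hy'⟩), Finset.card_erase_of_mem hy, h4]
  obtain ⟨u, v, huv, huv2⟩ := Finset.card_eq_two.1 h7
  have h8 : (C.erase b).card = 2 := by
    rw [Finset.card_erase_of_mem hbC, hC3]
  obtain ⟨b1, b2, hb12, hb12'⟩ := Finset.card_eq_two.1 h8
  have hu : u ∈ insert (q t) t := by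
    have : u ∈ ((insert (q t) t).erase y).erase y' := by rw [huv2]; exact Finset.mem_insert_self _ _
    exact Finset.mem_of_mem_erase (Finset.mem_of_mem_erase this)
  have hv : v ∈ insert (q t) t := by
    have : v ∈ ((insert (q t) t).erase y).erase y' := by
      rw [huv2]; exact Finset.mem_insert_of_mem (Finset.mem_singleton_self _)
    exact Finset.mem_of_mem_erase (Finset.mem_of_mem_erase this)
  have hb1 : b1 ∈ C.erase b := by rw [hb12']; exact Finset.mem_insert_self _ _
  have hb2 : b2 ∈ C.erase b := by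
    rw [hb12']; exact Finset.mem_insert_of_mem (Finset.mem_singleton_self _)
  rw [Finset.mem_erase] at hb1 hb2
  obtain ⟨-, w1, hw1, -, hw1b⟩ := mem_bl.1 (by rw [heq u hu]; exact hb1.2 : b1 ∈ bl B (F u) u)
  obtain ⟨-, w2, hw2, -, hw2b⟩ := mem_bl.1 (by rw [heq v hv]; exact hb2.2 : b2 ∈ bl B (F v) v)
  have hBb1 := hCB hb1.2
  have hBb2 := hCB hb2.2
  refine c.no_system ht hc hB (W := {x, w1, w2}) (fun z hz => ?_) (fun a ha z hz z' hz' e e' => ?_)
    fun z hz => ?_
  · simp only [Finset.mem_insert, Finset.mem_singleton] at hz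
    rcases hz with rfl | rfl | rfl
    · exact ⟨b, hb, hxb⟩
    · exact ⟨b1, hBb1, hw1b⟩
    · exact ⟨b2, hBb2, hw2b⟩
  · simp only [Finset.mem_insert, Finset.mem_singleton] at hz hz'
    have k0 : ∀ z, z = x → z ∈ a → a = b := fun z hz e => by
      subst hz
      exact hB.disj _ ha _ hb _ e hxb
    have k1 : ∀ z, z = w1 → z ∈ a → a = b1 := fun z hz e => by
      subst hz
      exact hB.disj _ ha _ hBb1 _ e hw1b
    have k2 : ∀ z, z = w2 → z ∈ a → a = b2 := fun z hz e => by
      subst hz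
      exact hB.disj _ ha _ hBb2 _ e hw2b
    rcases hz with hz | hz | hz <;> rcases hz' with hz' | hz' | hz'
    · rw [hz, hz']
    · exact absurd ((k1 _ hz' e').symm.trans (k0 _ hz e)) hb1.1
    · exact absurd ((k2 _ hz' e').symm.trans (k0 _ hz e)) hb2.1
    · exact absurd ((k1 _ hz e).symm.trans (k0 _ hz' e')) hb1.1
    · rw [hz, hz']
    · exact absurd ((k1 _ hz e).symm.trans (k2 _ hz' e')) hb12
    · exact absurd ((k2 _ hz e).symm.trans (k0 _ hz' e')) hb2.1
    · exact absurd ((k1 _ hz' e').symm.trans (k2 _ hz e)) hb12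
    · rw [hz, hz']
  · by_cases h9 : z = y
    · exact ⟨x, by simp, F y, (hF y hy).1, hx, by rw [h9]; exact (hF y hy).2.2⟩
    by_cases h10 : z = y'
    · exact ⟨x, by simp, F y', (hF y' hy').1, hx', by rw [h10]; exact (hF y' hy').2.2⟩
    have h11 : z ∈ ({u, v} : Finset V) := by
      rw [← huv2]
      exact Finset.mem_erase.2 ⟨h10, Finset.mem_erase.2 ⟨h9, hz⟩⟩
    rw [Finset.mem_insert, Finset.mem_singleton] at h11
    rcases h11 with rfl | rfl
    · exact ⟨w1, by simp, F z, (hF z hu).1, hw1, (hF z hu).2.2⟩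
    · exact ⟨w2, by simp, F z, (hF z hv).1, hw2, (hF z hv).2.2⟩

/-- The columns of a touched single edge. Four blocks in total would give a system of distinct
representatives, so there are exactly three; every block has four elements, one in every column, and
this determines the columns. -/
theorem Cor.cross {H T : Finset (Finset V)} {q : Finset V → V} (c : Cor H T q)
    {t : Finset V} (ht : t ∈ T) (hc : Closed T {t})
    (htouch : ∀ y ∈ insert (q t) t, ∃ f ∈ H, f ≠ insert (q t) t ∧ y ∈ f) :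
    ∃ C F, Cross H T q t C F := by
  have hgood := (c.good.erase_single ht hc).1
  have hsub : ver (T.erase t) ⊆ ver T := ver_mono (Finset.erase_subset _ _)
  obtain ⟨B, hB⟩ := hgood.blocks (q := q)
    (fun s hs s' hs' e => c.inj s (Finset.mem_of_mem_erase hs) s' (Finset.mem_of_mem_erase hs') e)
    fun s hs hm => c.new s (Finset.mem_of_mem_erase hs) (hsub hm)
  have hins : ∀ s ∈ T, (insert (q s) s).card = 4 := by
    intro s hs
    rw [Finset.card_insert_of_notMem fun hm => c.new s hs (mem_ver.2 ⟨s, hs, hm⟩), c.good.ext.1 s hs]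
  have h4 := hins t ht
  choose! F hF using htouch
  have hCh : Ch H (insert (q t) t) F := fun y hy => hF y hy
  obtain ⟨C, hCB, hC3, hC, hdis⟩ := choice c ht hc hB h4 hCh
  have hmeet : ∀ y ∈ insert (q t) t, ∀ b ∈ C, ∃ x ∈ F y, x ∈ b := by
    intro y hy b hb
    rw [← (hC y hy).1] at hb
    obtain ⟨-, x, hx, -, hxb⟩ := mem_bl.1 hb
    exact ⟨x, hx, hxb⟩
  -- the blocks have four elements
  have hb4 : ∀ b ∈ C, 4 ≤ b.card := by
    intro b hb
    choose! g hg1 hg2 using fun y hy => hmeet y hy b hb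
    rw [← h4]
    refine Finset.card_le_card_of_injOn g (fun y hy => hg2 y hy) fun y hy y' hy' e => ?_
    exact hdis y hy y' hy' (g y) (hg1 y hy) (by rw [e]; exact hg1 y' hy')
  have hrow : ∀ b ∈ C, ∃ s ∈ T, s ≠ t ∧ Closed T {s} ∧ b = insert (q s) s := by
    intro b hb
    obtain ⟨-, h1 | ⟨h1, -⟩⟩ := hB.kind b (hCB hb)
    · obtain ⟨s, hs, hsc, hbs⟩ := h1
      have hsT := Finset.mem_of_mem_erase hs
      have hst := Finset.ne_of_mem_erase hs
      refine ⟨s, hsT, hst, ⟨Finset.singleton_subset_iff.2 hsT, fun e he v hv hvs => ?_⟩, hbs⟩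
      by_cases h2 : e = t
      · exfalso
        obtain ⟨s', hs', hvs'⟩ := mem_ver.1 hvs
        rw [Finset.mem_singleton] at hs'
        rw [hs'] at hvs'
        have h3 := hc.2 s hsT v hvs' (mem_ver.2 ⟨t, Finset.mem_singleton_self _, h2 ▸ hv⟩)
        exact hst (Finset.mem_singleton.1 h3)
      · exact hsc.2 e (Finset.mem_erase.2 ⟨h2, he⟩) v hv hvs
    · have := hb4 b hb
      omega
  have hb4' : ∀ b ∈ C, b.card = 4 := by
    intro b hb
    obtain ⟨s, hs, -, -, rfl⟩ := hrow b hb
    exact hins s hs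
  refine ⟨C, F, hC3, fun b hb b' hb' => hB.disj b (hCB hb) b' (hCB hb'), hrow,
    fun y hy => ⟨(hF y hy).1, (hF y hy).2.1, (hF y hy).2.2, (hC y hy).2⟩, hmeet, hdis, ?_⟩
  -- unique
  intro y hy f hf hfe hyf
  obtain ⟨F', hF'⟩ : ∃ F', F' = Function.update F y f := ⟨_, rfl⟩
  have e1 : F' y = f := by rw [hF', Function.update_self]
  have e2 : ∀ y', y' ≠ y → F' y' = F y' := fun y' h => by rw [hF', Function.update_of_ne h]
  have hCh' : Ch H (insert (q t) t) F' := by
    intro y' hy'
    by_cases h : y' = y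
    · subst h
      rw [e1]
      exact ⟨hf, hfe, hyf⟩
    · rw [e2 y' h]
      exact hF y' hy'
  obtain ⟨C', hCB', hC3', hC', hdis'⟩ := choice c ht hc hB h4 hCh'
  -- the same set of blocks
  have h5 : ((insert (q t) t).erase y).Nonempty := by
    rw [← Finset.card_pos, Finset.card_erase_of_mem hy, h4]
    omega
  obtain ⟨y0, hy0⟩ := h5
  rw [Finset.mem_erase] at hy0
  have hCC : C' = C := by
    rw [← (hC' y0 hy0.2).1, e2 y0 hy0.1]
    exact (hC y0 hy0.2).1
  rw [hCC] at hC'
  have hfb : bl B f y = C := by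
    have := (hC' y hy).1
    rwa [e1] at this
  have hf4 : f.card = 4 := by
    have := (hC' y hy).2
    rwa [e1] at this
  refine Finset.eq_of_subset_of_card_le (fun x hx => ?_) (by rw [(hC y hy).2, hf4])
  by_cases hxy : x = y
  · rw [hxy]
    exact (hF y hy).2.2
  obtain ⟨h6, h7, h8⟩ := c.touch ht hc hB hf hfe hy hyf
  obtain ⟨b, hb, hxb⟩ := h7 x hx hxy
  have hbC : b ∈ C := by
    rw [← hfb]
    exact mem_bl.2 ⟨hb, x, hx, hxy, hxb⟩
  obtain ⟨z, hz, hzb⟩ := hmeet y hy b hbC
  by_cases hxz : x = z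
  · rw [hxz]
    exact hz
  exfalso
  choose! g hg1 hg2 using fun y hy => hmeet y hy b hbC
  have h9 : (insert x (insert z (((insert (q t) t).erase y).image g))).card = 5 := by
    have hinj : (((insert (q t) t).erase y).image g).card = 3 := by
      rw [Finset.card_image_of_injOn, Finset.card_erase_of_mem hy, h4]
      intro a ha a' ha' e
      have ha2 := Finset.mem_of_mem_erase (Finset.mem_coe.1 ha)
      have ha2' := Finset.mem_of_mem_erase (Finset.mem_coe.1 ha')
      exact hdis a ha2 a' ha2' (g a) (hg1 a ha2) (by rw [e]; exact hg1 a' ha2')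
    rw [Finset.card_insert_of_notMem, Finset.card_insert_of_notMem, hinj]
    · intro hm
      obtain ⟨a, ha, e⟩ := Finset.mem_image.1 hm
      have ha2 := Finset.mem_of_mem_erase ha
      exact Finset.ne_of_mem_erase ha (hdis a ha2 y hy (g a) (hg1 a ha2) (by rw [e]; exact hz))
    · intro hm
      rcases Finset.mem_insert.1 hm with hm | hm
      · exact hxz hm
      obtain ⟨a, ha, e⟩ := Finset.mem_image.1 hm
      have ha2 := Finset.mem_of_mem_erase ha
      have ha3 := Finset.ne_of_mem_erase ha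
      refine ha3 (hdis' a ha2 y hy (g a) ?_ ?_)
      · rw [e2 a ha3]
        exact hg1 a ha2
      · rw [e1, e]
        exact hx
  have h10 : insert x (insert z (((insert (q t) t).erase y).image g)) ⊆ b := by
    intro w hw
    rcases Finset.mem_insert.1 hw with rfl | hw
    · exact hxb
    rcases Finset.mem_insert.1 hw with rfl | hw
    · exact hzb
    obtain ⟨a, ha, rfl⟩ := Finset.mem_image.1 hw
    exact hg2 a (Finset.mem_of_mem_erase ha)
  have h11 := Finset.card_le_card h10
  rw [h9, hb4' b hbC] at h11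
  omega

end Pool.Agent.MP284513
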