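import Pool.Agent.Lib.MP_284513_co.LUnit

/-!
# The finite hypergraphs with seven and with eight vertices
-/

set_option linter.unusedSectionVars false

namespace Pool.Agent.MP284513

variable {V : Type} [DecidableEq V]

/-- what we need about the two hypergraphs -/
structure Rigid (K : Finset (Finset V)) : Prop where
  two : ∀ t ∈ K, ∀ v ∈ t, ∃ t' ∈ K, t' ≠ t ∧ v ∈ t'
  hit : ∀ t ∈ K, ∀ v ∈ ver K, v ∉ t →
    ∃ S, v ∈ S ∧ Trans (K.erase t) S ∧ 4 * (S.card + 1) ≤ (ver K).card + K.card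
  pair : ∀ t ∈ K, ∀ t' ∈ K, Disjoint t t' →
    ∃ S, Trans ((K.erase t).erase t') S ∧ 4 * (S.card + 2) ≤ (ver K).card + K.card
  many : ∀ F ⊆ K, 4 ≤ F.card → (∀ t ∈ F, ∀ t' ∈ F, ¬ Disjoint t t') →
    ∃ t ∈ F, ∃ S, 4 * (S.card + 2) ≤ (ver K).card + K.card ∧ Trans (K \ F) S ∧
      ∀ v ∈ ver K, v ∈ t ∨ ∃ t' ∈ K, v ∈ t' ∧ ∃ u ∈ S, u ∈ t'

section Tr

variable {m : ℕ}

/-- the image of a family -/
private def im (f : Fin m ↪ V) (T : Finset (Finset (Fin m))) : Finset (Finset V) :=
  T.map (Finset.mapEmbedding f).toEmbedding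

private theorem mem_im {f : Fin m ↪ V} {T : Finset (Finset (Fin m))} {e : Finset V} :
    e ∈ im f T ↔ ∃ e' ∈ T, e'.map f = e := by
  simp [im]

private theorem ver_im (f : Fin m ↪ V) (T : Finset (Finset (Fin m))) :
    ver (im f T) = (ver T).map f := by
  ext v
  simp only [mem_ver, mem_im, Finset.mem_map]
  constructor
  · rintro ⟨e, ⟨e', he', rfl⟩, hv⟩
    obtain ⟨i, hi, rfl⟩ := Finset.mem_map.1 hv
    exact ⟨i, ⟨e', he', hi⟩, rfl⟩
  · rintro ⟨i, ⟨e', he', hi⟩, rfl⟩
    exact ⟨_, ⟨e', he', rfl⟩, Finset.mem_map_of_mem f hi⟩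

private theorem card_im (f : Fin m ↪ V) (T : Finset (Finset (Fin m))) :
    (im f T).card = T.card := Finset.card_map _

private theorem disj_map {f : Fin m ↪ V} {s t : Finset (Fin m)} :
    Disjoint (s.map f) (t.map f) ↔ Disjoint s t := Finset.disjoint_map f

private theorem rigid_im {f : Fin m ↪ V} {T : Finset (Finset (Fin m))} (h : Rigid T) :
    Rigid (im f T) := by
  refine ⟨fun t ht v hv => ?_, fun t ht v hv hvt => ?_, fun t ht t' ht' hd => ?_,
    fun F hF h4 hd => ?_⟩
  · obtain ⟨s, hs, rfl⟩ := mem_im.1 ht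
    obtain ⟨i, hi, rfl⟩ := Finset.mem_map.1 hv
    obtain ⟨s', hs', hne, hi'⟩ := h.two s hs i hi
    exact ⟨s'.map f, mem_im.2 ⟨s', hs', rfl⟩, fun hh => hne (Finset.map_injective f hh),
      Finset.mem_map_of_mem f hi'⟩
  · obtain ⟨s, hs, rfl⟩ := mem_im.1 ht
    rw [ver_im] at hv
    obtain ⟨i, hi, rfl⟩ := Finset.mem_map.1 hv
    obtain ⟨S, hiS, hS, hc⟩ := h.hit s hs i hi (fun hh => hvt (Finset.mem_map_of_mem f hh))
    refine ⟨S.map f, Finset.mem_map_of_mem f hiS, ?_, ?_⟩
    · intro e he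
      obtain ⟨hne, he⟩ := Finset.mem_erase.1 he
      obtain ⟨e', he', rfl⟩ := mem_im.1 he
      obtain ⟨j, hj, hje⟩ := hS e' (Finset.mem_erase.2 ⟨fun hh => hne (by rw [hh]), he'⟩)
      exact ⟨f j, Finset.mem_map_of_mem f hj, Finset.mem_map_of_mem f hje⟩
    · rw [ver_im, card_im, Finset.card_map, Finset.card_map]
      exact hc
  · obtain ⟨s, hs, rfl⟩ := mem_im.1 ht
    obtain ⟨s', hs', rfl⟩ := mem_im.1 ht'
    obtain ⟨S, hS, hc⟩ := h.pair s hs s' hs' (disj_map.1 hd)
    refine ⟨S.map f, ?_, ?_⟩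
    · intro e he
      obtain ⟨hne', he⟩ := Finset.mem_erase.1 he
      obtain ⟨hne, he⟩ := Finset.mem_erase.1 he
      obtain ⟨e', he', rfl⟩ := mem_im.1 he
      obtain ⟨j, hj, hje⟩ := hS e' (Finset.mem_erase.2 ⟨fun hh => hne' (by rw [hh]),
        Finset.mem_erase.2 ⟨fun hh => hne (by rw [hh]), he'⟩⟩)
      exact ⟨f j, Finset.mem_map_of_mem f hj, Finset.mem_map_of_mem f hje⟩
    · rw [ver_im, card_im, Finset.card_map, Finset.card_map]
      exact hc
  · have hF' : F = im f (T.filter fun e => e.map f ∈ F) := by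
      ext e
      rw [mem_im]
      constructor
      · intro he
        obtain ⟨e', he', rfl⟩ := mem_im.1 (hF he)
        exact ⟨e', Finset.mem_filter.2 ⟨he', he⟩, rfl⟩
      · rintro ⟨e', he', rfl⟩
        exact (Finset.mem_filter.1 he').2
    set G : Finset (Finset (Fin m)) := T.filter fun e => e.map f ∈ F with hG
    have hGT : G ⊆ T := Finset.filter_subset _ _
    have hGc : 4 ≤ G.card := by
      rw [hF', card_im] at h4
      exact h4
    obtain ⟨t, ht, S, hc, hS, hv⟩ := h.many G hGT hGc (by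
      intro t ht t' ht' hh
      exact hd (t.map f) (Finset.mem_filter.1 ht).2 (t'.map f) (Finset.mem_filter.1 ht').2
        (disj_map.2 hh))
    refine ⟨t.map f, (Finset.mem_filter.1 ht).2, S.map f, ?_, ?_, ?_⟩
    · rw [ver_im, card_im, Finset.card_map, Finset.card_map]
      exact hc
    · intro e he
      obtain ⟨he, hne⟩ := Finset.mem_sdiff.1 he
      obtain ⟨e', he', rfl⟩ := mem_im.1 he
      obtain ⟨j, hj, hje⟩ := hS e' (Finset.mem_sdiff.2 ⟨he', fun hh =>
        hne (Finset.mem_filter.1 hh).2⟩)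
      exact ⟨f j, Finset.mem_map_of_mem f hj, Finset.mem_map_of_mem f hje⟩
    · intro v hv'
      rw [ver_im] at hv'
      obtain ⟨i, hi, rfl⟩ := Finset.mem_map.1 hv'
      rcases hv i hi with h1 | ⟨t', ht', hit', u, hu, hut⟩
      · exact Or.inl (Finset.mem_map_of_mem f h1)
      · exact Or.inr ⟨t'.map f, mem_im.2 ⟨t', ht', rfl⟩, Finset.mem_map_of_mem f hit',
          f u, Finset.mem_map_of_mem f hu, Finset.mem_map_of_mem f hut⟩

private def emb (l : List V) (h : l.Nodup) : Fin l.length ↪ V := ⟨l.get, List.nodup_iff_injective_get.1 h⟩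

private theorem seven_im {x a₁ a₂ a₃ b₁ b₂ b₃ : V} (h : [x, a₁, a₂, a₃, b₁, b₂, b₃].Nodup) :
    sevenFam x a₁ a₂ a₃ b₁ b₂ b₃ = im (emb _ h) (sevenFam (0 : Fin 7) 1 2 3 4 5 6) := by
  simp only [im, sevenFam, Finset.map_insert, Finset.map_singleton, RelEmbedding.coe_toEmbedding,
    Finset.mapEmbedding_apply]
  rfl

private theorem eight_im {x y a₁ a₂ a₃ b₁ b₂ b₃ : V}
    (h : [x, y, a₁, a₂, a₃, b₁, b₂, b₃].Nodup) : ∃ f : Fin 8 ↪ V,
    eightFam x y a₁ a₂ a₃ b₁ b₂ b₃ = im f (eightFam (0 : Fin 8) 1 2 3 4 5 6 7) := by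
  refine ⟨emb _ h, ?_⟩
  simp only [im, eightFam, sevenFam, Finset.map_union, Finset.map_insert, Finset.map_singleton,
    RelEmbedding.coe_toEmbedding, Finset.mapEmbedding_apply]
  rfl

/-- the edge with number `i` -/
private def eset {k : ℕ} (inc : Fin k → Fin m → Bool) (i : Fin k) : Finset (Fin m) :=
  Finset.univ.filter fun v => inc i v = true

private theorem mem_eset {k : ℕ} {inc : Fin k → Fin m → Bool} {i : Fin k} {v : Fin m} :
    v ∈ eset inc i ↔ inc i v = true := by
  simp [eset]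

/-- two edges meet -/
private def Meet {k : ℕ} (inc : Fin k → Fin m → Bool) (i j : Fin k) : Prop :=
  ∃ v, inc i v = true ∧ inc j v = true

private instance {k : ℕ} (inc : Fin k → Fin m → Bool) (i j : Fin k) : Decidable (Meet inc i j) := by
  unfold Meet
  infer_instance

/-- the witness for four pairwise intersecting edges -/
private def Wit {k : ℕ} (inc : Fin k → Fin m → Bool) (big : Bool) (i j l p : Fin k) : Prop :=
  ∃ t w w', (t = i ∨ t = j ∨ t = l ∨ t = p) ∧ (big = false → w = w') ∧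
    (∀ e, e = i ∨ e = j ∨ e = l ∨ e = p ∨ inc e w = true ∨ inc e w' = true) ∧
    ∀ v, inc t v = true ∨ ∃ e, inc e v = true ∧ (inc e w = true ∨ inc e w' = true)

private instance {k : ℕ} (inc : Fin k → Fin m → Bool) (big : Bool) (i j l p : Fin k) :
    Decidable (Wit inc big i j l p) := by
  unfold Wit
  infer_instance

private theorem rigid_inc {k : ℕ} (inc : Fin k → Fin m → Bool) (big : Bool)
    (hn : m + k = if big then 16 else 12)
    (h0 : ∀ v, ∃ i, inc i v = true)
    (hinj : ∀ i j, (∀ v, inc i v = inc j v) → i = j)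
    (h1 : ∀ i v, inc i v = true → ∃ j, j ≠ i ∧ inc j v = true)
    (h2 : ∀ i v, inc i v = false → ∃ w w', (big = false → w = w') ∧
      ∀ j, j = i ∨ inc j v = true ∨ inc j w = true ∨ inc j w' = true)
    (h3 : ∀ i j, (∀ v, ¬ (inc i v = true ∧ inc j v = true)) → ∃ w w', (big = false → w = w') ∧
      ∀ l, l = i ∨ l = j ∨ inc l w = true ∨ inc l w' = true)
    (h4 : ∀ i j, i < j → Meet inc i j → ∀ l, j < l → Meet inc i l → Meet inc j l →
      ∀ p, l < p → Meet inc i p → Meet inc j p → Meet inc l p → Wit inc big i j l p) :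
    Rigid (Finset.univ.image (eset inc)) := by
  have hmem : ∀ t, t ∈ Finset.univ.image (eset inc) ↔ ∃ i, eset inc i = t := by
    intro t
    simp
  have hei : Function.Injective (eset inc) := by
    intro i j hij
    apply hinj
    intro v
    have h5 : v ∈ eset inc i ↔ v ∈ eset inc j := by rw [hij]
    rw [mem_eset, mem_eset] at h5
    cases hi : inc i v
    · cases hj : inc j v
      · rfl
      · rw [hi, hj] at h5
        exact absurd (h5.2 rfl) (by decide)
    · cases hj : inc j v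
      · rw [hi, hj] at h5
        exact absurd (h5.1 rfl) (by decide)
      · rfl
  have hver : ver (Finset.univ.image (eset inc)) = Finset.univ := by
    ext v
    rw [mem_ver]
    simp only [Finset.mem_univ, iff_true]
    obtain ⟨i, hi⟩ := h0 v
    exact ⟨eset inc i, (hmem _).2 ⟨i, rfl⟩, mem_eset.2 hi⟩
  have hcard : (ver (Finset.univ.image (eset inc))).card + (Finset.univ.image (eset inc)).card
      = if big then 16 else 12 := by
    rw [hver, Finset.card_image_of_injective _ hei, Finset.card_univ, Finset.card_univ,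
      Fintype.card_fin, Fintype.card_fin]
    exact hn
  have c3 : ∀ v w w' : Fin m, (big = false → w = w') →
      4 * (({v, w, w'} : Finset (Fin m)).card + 1) ≤ if big then 16 else 12 := by
    intro v w w' hw
    cases hb : big
    · rw [hw hb]
      have h5 : ({v, w', w'} : Finset (Fin m)).card ≤ 2 := by
        rw [Finset.pair_eq_singleton]
        exact Finset.card_le_two
      simp only [Bool.false_eq_true, if_false]
      omega
    · have h5 : ({v, w, w'} : Finset (Fin m)).card ≤ 3 := Finset.card_le_three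
      simp only [if_true]
      omega
  have c2 : ∀ w w' : Fin m, (big = false → w = w') →
      4 * (({w, w'} : Finset (Fin m)).card + 2) ≤ if big then 16 else 12 := by
    intro w w' hw
    cases hb : big
    · rw [hw hb, Finset.pair_eq_singleton, Finset.card_singleton]
      simp
    · have h5 : ({w, w'} : Finset (Fin m)).card ≤ 2 := Finset.card_le_two
      simp only [if_true]
      omega
  refine ⟨fun t ht v hv => ?_, fun t ht v _ hvt => ?_, fun t ht t' ht' hd => ?_,
    fun F hF hF4 hd => ?_⟩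
  · obtain ⟨i, rfl⟩ := (hmem t).1 ht
    obtain ⟨j, hj, hjv⟩ := h1 i v (mem_eset.1 hv)
    exact ⟨eset inc j, (hmem _).2 ⟨j, rfl⟩, fun hh => hj (hei hh), mem_eset.2 hjv⟩
  · obtain ⟨i, rfl⟩ := (hmem t).1 ht
    have h5 : inc i v = false := by
      cases hi : inc i v
      · rfl
      · exact absurd (mem_eset.2 hi) hvt
    obtain ⟨w, w', hw, h6⟩ := h2 i v h5
    refine ⟨{v, w, w'}, Finset.mem_insert_self _ _, ?_, ?_⟩
    · intro e he
      obtain ⟨hne, he⟩ := Finset.mem_erase.1 he
      obtain ⟨j, rfl⟩ := (hmem e).1 he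
      rcases h6 j with h7 | h7 | h7 | h7
      · exact absurd (by rw [h7]) hne
      · exact ⟨v, by simp, mem_eset.2 h7⟩
      · exact ⟨w, by simp, mem_eset.2 h7⟩
      · exact ⟨w', by simp, mem_eset.2 h7⟩
    · rw [hcard]
      exact c3 v w w' hw
  · obtain ⟨i, rfl⟩ := (hmem t).1 ht
    obtain ⟨j, rfl⟩ := (hmem t').1 ht'
    have h5 : ∀ v, ¬ (inc i v = true ∧ inc j v = true) := by
      intro v hv
      exact Finset.disjoint_left.1 hd (mem_eset.2 hv.1) (mem_eset.2 hv.2)
    obtain ⟨w, w', hw, h6⟩ := h3 i j h5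
    refine ⟨{w, w'}, ?_, ?_⟩
    · intro e he
      obtain ⟨hne', he⟩ := Finset.mem_erase.1 he
      obtain ⟨hne, he⟩ := Finset.mem_erase.1 he
      obtain ⟨l, rfl⟩ := (hmem e).1 he
      rcases h6 l with h7 | h7 | h7 | h7
      · exact absurd (by rw [h7]) hne
      · exact absurd (by rw [h7]) hne'
      · exact ⟨w, by simp, mem_eset.2 h7⟩
      · exact ⟨w', by simp, mem_eset.2 h7⟩
    · rw [hcard]
      exact c2 w w' hw
  · have h5 : F = (Finset.univ.filter fun i => eset inc i ∈ F).image (eset inc) := by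
      ext e
      rw [Finset.mem_image]
      constructor
      · intro he
        obtain ⟨i, rfl⟩ := (hmem e).1 (hF he)
        exact ⟨i, Finset.mem_filter.2 ⟨Finset.mem_univ _, he⟩, rfl⟩
      · rintro ⟨i, hi, rfl⟩
        exact (Finset.mem_filter.1 hi).2
    have h6 : 4 ≤ (Finset.univ.filter fun i => eset inc i ∈ F).card := by
      rw [h5, Finset.card_image_of_injective _ hei] at hF4
      exact hF4
    obtain ⟨J, hJ, hJ4⟩ := Finset.exists_subset_card_eq h6
    have h7 : ∀ i ∈ J, eset inc i ∈ F := fun i hi => (Finset.mem_filter.1 (hJ hi)).2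
    have h8 : ∀ i ∈ J, ∀ j ∈ J, Meet inc i j := by
      intro i hi j hj
      by_contra hh
      apply hd _ (h7 i hi) _ (h7 j hj)
      rw [Finset.disjoint_left]
      intro v hv hv'
      exact hh ⟨v, mem_eset.1 hv, mem_eset.1 hv'⟩
    have ho : ∀ a, J.orderEmbOfFin hJ4 a ∈ J := fun a => Finset.orderEmbOfFin_mem J hJ4 a
    have hlt : ∀ a b : Fin 4, a < b → J.orderEmbOfFin hJ4 a < J.orderEmbOfFin hJ4 b :=
      fun a b hab => (J.orderEmbOfFin hJ4).strictMono hab
    obtain ⟨t, w, w', ht, hw, h9, h10⟩ := h4 (J.orderEmbOfFin hJ4 0) (J.orderEmbOfFin hJ4 1)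
      (hlt 0 1 (by decide)) (h8 _ (ho _) _ (ho _)) (J.orderEmbOfFin hJ4 2) (hlt 1 2 (by decide))
      (h8 _ (ho _) _ (ho _)) (h8 _ (ho _) _ (ho _)) (J.orderEmbOfFin hJ4 3) (hlt 2 3 (by decide))
      (h8 _ (ho _) _ (ho _)) (h8 _ (ho _) _ (ho _)) (h8 _ (ho _) _ (ho _))
    have htJ : t ∈ J := by
      rcases ht with h | h | h | h <;> rw [h] <;> exact ho _
    refine ⟨eset inc t, h7 t htJ, {w, w'}, ?_, ?_, ?_⟩
    · rw [hcard]
      exact c2 w w' hw
    · intro e he
      obtain ⟨he, hne⟩ := Finset.mem_sdiff.1 he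
      obtain ⟨l, rfl⟩ := (hmem e).1 he
      have hl : l ∉ J := fun hh => hne (h7 l hh)
      rcases h9 l with h | h | h | h | h | h
      · exact absurd (h ▸ ho 0) hl
      · exact absurd (h ▸ ho 1) hl
      · exact absurd (h ▸ ho 2) hl
      · exact absurd (h ▸ ho 3) hl
      · exact ⟨w, by simp, mem_eset.2 h⟩
      · exact ⟨w', by simp, mem_eset.2 h⟩
    · intro v _
      rcases h10 v with h | ⟨e, he, h | h⟩
      · exact Or.inl (mem_eset.2 h)
      · exact Or.inr ⟨eset inc e, (hmem _).2 ⟨e, rfl⟩, mem_eset.2 he, w, by simp, mem_eset.2 h⟩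
      · exact Or.inr ⟨eset inc e, (hmem _).2 ⟨e, rfl⟩, mem_eset.2 he, w', by simp, mem_eset.2 h⟩

/-- the edges of the seven-point hypergraph as binary numbers -/
private def inc7 (i : Fin 5) (v : Fin 7) : Bool := Nat.testBit ([14, 112, 19, 37, 73].getD i 0) v

/-- the edges of the eight-point hypergraph as binary numbers -/
private def inc8 (i : Fin 8) (v : Fin 8) : Bool :=
  Nat.testBit ([28, 224, 37, 73, 145, 70, 138, 50].getD i 0) v

private theorem seven_eq : sevenFam (0 : Fin 7) 1 2 3 4 5 6 = Finset.univ.image (eset inc7) := by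
  decide +kernel

private theorem eight_eq :
    eightFam (0 : Fin 8) 1 2 3 4 5 6 7 = Finset.univ.image (eset inc8) := by
  decide +kernel

private theorem rigid_seven₀ : Rigid (sevenFam (0 : Fin 7) 1 2 3 4 5 6) := by
  rw [seven_eq]
  exact rigid_inc inc7 false (by simp) (by decide +kernel) (by decide +kernel)
    (by decide +kernel) (by decide +kernel) (by decide +kernel) (by decide +kernel)

private theorem rigid_eight₀ : Rigid (eightFam (0 : Fin 8) 1 2 3 4 5 6 7) := by
  rw [eight_eq]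
  exact rigid_inc inc8 true (by simp) (by decide +kernel) (by decide +kernel)
    (by decide +kernel) (by decide +kernel) (by decide +kernel) (by decide +kernel)

end Tr

theorem rigid_seven {x a₁ a₂ a₃ b₁ b₂ b₃ : V} (h : [x, a₁, a₂, a₃, b₁, b₂, b₃].Nodup) :
    Rigid (sevenFam x a₁ a₂ a₃ b₁ b₂ b₃) := by
  rw [seven_im h]
  exact rigid_im rigid_seven₀

theorem rigid_eight {x y a₁ a₂ a₃ b₁ b₂ b₃ : V} (h : [x, y, a₁, a₂, a₃, b₁, b₂, b₃].Nodup) :
    Rigid (eightFam x y a₁ a₂ a₃ b₁ b₂ b₃) := by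
  obtain ⟨f, hf⟩ := eight_im h
  rw [hf]
  exact rigid_im rigid_eight₀

end Pool.Agent.MP284513
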