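import Pool.Agent.Lib.MP_284513_co.LDefs
import Pool.Agent.Lib.MP_284513_co.LRigid

/-!
# The situation: a cover by linear edges with four vertices
-/

set_option linter.unusedSectionVars false

namespace Pool.Agent.MP284513

variable {V : Type} [DecidableEq V]

/-- The vertices are those of `T` and the new vertices `q t`, `t ∈ T`; the sets `t + q t` are linear
edges of `H`; every dominating set of `H` has at least `(n + m) / 4` elements. -/
structure Cor (H T : Finset (Finset V)) (q : Finset V → V) : Prop where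
  good : GoodL T
  inj : ∀ s ∈ T, ∀ t ∈ T, q s = q t → s = t
  new : ∀ t ∈ T, q t ∉ ver T
  all : ∀ v, v ∈ ver T ∨ ∃ t ∈ T, v = q t
  size : ∀ f ∈ H, 4 ≤ f.card
  edge : ∀ t ∈ T, LinearEdge H (insert (q t) t)
  low : ∀ D, Dominating H D → (ver T).card + T.card ≤ 4 * D.card

theorem dominating_of_forall {H : Finset (Finset V)} {D : Finset V}
    (h : ∀ v, ∃ u ∈ D, ∃ e ∈ H, u ∈ e ∧ v ∈ e) : Dominating H D := fun v _ => h v

/-- the intersection with another edge -/
theorem Cor.lin {H T : Finset (Finset V)} {q : Finset V → V} (c : Cor H T q) {t f : Finset V}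
    (ht : t ∈ T) (hf : f ∈ H) {x y : V} (hx : x ∈ insert (q t) t) (hy : y ∈ insert (q t) t)
    (hxf : x ∈ f) (hyf : y ∈ f) (hxy : x ≠ y) : f = insert (q t) t := by
  by_contra hne
  have h1 := (c.edge t ht).2 f hf hne
  have h2 : ({x, y} : Finset V) ⊆ insert (q t) t ∩ f := by
    intro z hz
    rw [Finset.mem_insert, Finset.mem_singleton] at hz
    rw [Finset.mem_inter]
    rcases hz with rfl | rfl
    · exact ⟨hx, hxf⟩
    · exact ⟨hy, hyf⟩
  have h3 := Finset.card_le_card h2
  rw [Finset.card_pair hxy] at h3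
  omega

/-- Peel off the part `K` which contains `t` (`GoodL.peel` at a vertex of `t`). If `v` is in the other
part `R`: `K.ext.erase` and `R.ext.opt_mem`. If `v ∈ ver K`: `Rigid.hit` and `R.ext.exists_opt`. -/
theorem GoodL.hit {T : Finset (Finset V)} (h : GoodL T) {t : Finset V} (ht : t ∈ T) {v : V}
    (hv : v ∈ ver T) (hvt : v ∉ t) :
    ∃ S, v ∈ S ∧ Trans (T.erase t) S ∧ 4 * (S.card + 1) ≤ (ver T).card + T.card := by
  have ht3 := h.ext.1 t ht
  obtain ⟨w, hw⟩ := Finset.card_pos.1 (show 0 < t.card by omega)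
  obtain ⟨K, R, rfl, hK, hR, hd, hwK⟩ := h.peel (mem_ver.2 ⟨t, ht, hw⟩)
  have htK : t ∈ K := by
    rcases Finset.mem_union.1 ht with h1 | h1
    · exact h1
    · exact absurd (mem_ver.2 ⟨t, h1, hw⟩) (Finset.disjoint_left.1 hd hwK)
  have key : ∀ S₁ S₂ : Finset V, Trans (K.erase t) S₁ →
      4 * (S₁.card + 1) ≤ (ver K).card + K.card → Opt R S₂ → v ∈ S₁ ∪ S₂ →
      ∃ S, v ∈ S ∧ Trans ((K ∪ R).erase t) S ∧
        4 * (S.card + 1) ≤ (ver (K ∪ R)).card + (K ∪ R).card := by
    intro S₁ S₂ h1 h2 h3 h4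
    refine ⟨S₁ ∪ S₂, h4, (h1.union h3.1).anti ?_, ?_⟩
    · intro e he
      obtain ⟨hne, he⟩ := Finset.mem_erase.1 he
      rcases Finset.mem_union.1 he with he | he
      · exact Finset.mem_union_left _ (Finset.mem_erase.2 ⟨hne, he⟩)
      · exact Finset.mem_union_right _ he
    · rw [ver_union, Finset.card_union_of_disjoint hd,
        Finset.card_union_of_disjoint (disjoint_of_ver hK.ext.1 hd)]
      have h5 := Finset.card_union_le S₁ S₂
      have h6 := h3.2
      omega
  rw [ver_union, Finset.mem_union] at hv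
  by_cases hvR : v ∈ ver R
  · obtain ⟨S₁, h1, h2⟩ := hK.ext.erase htK
    obtain ⟨S₂, h3, h4⟩ := hR.ext.opt_mem hvR
    exact key S₁ S₂ h1 h2 h3 (Finset.mem_union_right _ h4)
  · have hvK : v ∈ ver K := hv.resolve_right hvR
    have hrig : ∃ S, v ∈ S ∧ Trans (K.erase t) S ∧
        4 * (S.card + 1) ≤ (ver K).card + K.card := by
      cases hK with
      | edge hn =>
        exfalso
        obtain ⟨t', ht', hvt'⟩ := mem_ver.1 hvK
        rw [Finset.mem_singleton] at ht' htK
        exact hvt (by rw [htK, ← ht']; exact hvt')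
      | seven hn => exact (rigid_seven hn).hit t htK v hvK hvt
      | eight hn => exact (rigid_eight hn).hit t htK v hvK hvt
    obtain ⟨S₁, h0, h1, h2⟩ := hrig
    obtain ⟨S₂, h3⟩ := hR.ext.exists_opt
    exact key S₁ S₂ h1 h2 h3 (Finset.mem_union_left _ h0)

/-- a minimal cover by linear edges and private vertices -/
private theorem lctx_min [Fintype V] [Nonempty V] (H : Finset (Finset V))
    (hcov : ∀ v : V, ∃ e, LinearEdge H e ∧ v ∈ e) :
    ∃ (E : Finset (Finset V)) (p : Finset V → V), (∀ e ∈ E, LinearEdge H e) ∧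
      (∀ v : V, ∃ e ∈ E, v ∈ e) ∧ (∀ e ∈ E, p e ∈ e) ∧
      ∀ e ∈ E, ∀ f ∈ E, p e ∈ f → f = e := by
  classical
  let F : Finset (Finset (Finset V)) := Finset.univ.filter fun E =>
    (∀ e ∈ E, LinearEdge H e) ∧ ∀ v : V, ∃ e ∈ E, v ∈ e
  have hF : F.Nonempty := by
    choose c hc1 hc2 using hcov
    refine ⟨Finset.univ.image c, ?_⟩
    rw [Finset.mem_filter]
    refine ⟨Finset.mem_univ _, ?_, fun v => ⟨c v, Finset.mem_image_of_mem _ (Finset.mem_univ v),
      hc2 v⟩⟩
    intro d hd
    obtain ⟨v, -, rfl⟩ := Finset.mem_image.1 hd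
    exact hc1 v
  obtain ⟨E, hEF, hmin⟩ := Finset.exists_min_image F Finset.card hF
  obtain ⟨-, hE1, hE2⟩ := Finset.mem_filter.1 hEF
  have hpr : ∀ e, e ∈ E → ∃ v : V, v ∈ e ∧ ∀ f ∈ E, v ∈ f → f = e := by
    intro e he
    by_contra hcon
    push Not at hcon
    have h1 : E.erase e ∈ F := by
      rw [Finset.mem_filter]
      refine ⟨Finset.mem_univ _, fun f hf => hE1 f (Finset.mem_of_mem_erase hf), fun v => ?_⟩
      obtain ⟨f, hf, hvf⟩ := hE2 v
      by_cases hfe : f = e
      · rw [hfe] at hvf
        obtain ⟨g, hg, hvg, hge⟩ := hcon v hvf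
        exact ⟨g, Finset.mem_erase.2 ⟨hge, hg⟩, hvg⟩
      · exact ⟨f, Finset.mem_erase.2 ⟨hfe, hf⟩, hvf⟩
    have h2 := hmin _ h1
    have h3 := Finset.card_erase_lt_of_mem he
    omega
  choose! p hp1 hp2 using hpr
  exact ⟨E, p, hE1, hE2, hp1, hp2⟩

/-- Let `E` be a minimal set of linear edges which covers all vertices, `p e` a private vertex of `e`,
`t e` a subset of `e` without `p e` with three elements, `T` the set of all `t e`. Every transversal
of `T` dominates; hence `|ver T| + |T| = |V|`, `T` is `Ext`, `ver T` consists of the vertices which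
are not of the form `p e`, and `t` is injective (see `link`, `shrink` for similar arguments). `T` is
`Good` (`ext_iff_good`) and linear, so `GoodL`. If `v ∈ e` is neither `p e` nor in `t e` then the set
`S` of `GoodL.hit` dominates: contradiction. So `e = insert (p e) (t e)`. -/
theorem exists_cor [Fintype V] [Nonempty V] (H : Finset (Finset V)) (h4 : ∀ e ∈ H, 4 ≤ e.card)
    (hcov : ∀ v : V, ∃ e, LinearEdge H e ∧ v ∈ e) (heq : 4 * domNumber H = Fintype.card V) :
    ∃ T q, Cor H T q := by
  classical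
  obtain ⟨E, p, hE, hE1, hp1, hp2⟩ := lctx_min H hcov
  -- the sets with three elements
  have h3 : ∀ e, e ∈ E → ∃ t ⊆ e.erase (p e), t.card = 3 := by
    intro e he
    apply Finset.exists_subset_card_eq
    rw [Finset.card_erase_of_mem (hp1 e he)]
    have := h4 e (hE e he).1
    omega
  choose! t ht1 ht2 using h3
  have hte : ∀ e ∈ E, t e ⊆ e := fun e he => (ht1 e he).trans (Finset.erase_subset _ _)
  have htp : ∀ e ∈ E, ∀ f ∈ E, p e ∉ t f := by
    intro e he f hf hmem
    have h5 := hp2 e he f hf (hte f hf hmem)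
    rw [h5] at hmem
    exact (Finset.mem_erase.1 (ht1 e he hmem)).1 rfl
  have hpinj : Set.InjOn p (E : Set (Finset V)) := by
    intro e he f hf hef
    exact hp2 f hf e he (hef ▸ hp1 e he)
  set T := E.image t with hT
  have hdom : ∀ S : Finset V, Trans T S → Dominating H S := by
    intro S hS
    refine dominating_of_forall fun v => ?_
    obtain ⟨e, he, hve⟩ := hE1 v
    obtain ⟨u, hu, hue⟩ := hS _ (Finset.mem_image_of_mem t he)
    exact ⟨u, hu, e, (hE e he).1, hte e he hue, hve⟩
  have hT3 : ∀ e ∈ T, e.card = 3 := by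
    intro e he
    obtain ⟨f, hf, rfl⟩ := Finset.mem_image.1 he
    exact ht2 f hf
  have hle : ∀ S : Finset V, Trans T S → Fintype.card V ≤ 4 * S.card := by
    intro S hS
    have := domNumber_le (hdom S hS)
    omega
  have hsub : ver T ⊆ Finset.univ \ E.image p := by
    intro v hv
    rw [Finset.mem_sdiff]
    refine ⟨Finset.mem_univ v, fun h5 => ?_⟩
    obtain ⟨e, he, rfl⟩ := Finset.mem_image.1 h5
    obtain ⟨f, hf, hvf⟩ := mem_ver.1 hv
    obtain ⟨g, hg, rfl⟩ := Finset.mem_image.1 hf
    exact htp e he g hg hvf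
  have hcp : (E.image p).card = E.card := Finset.card_image_of_injOn hpinj
  have hcs : (Finset.univ \ E.image p).card + E.card = Fintype.card V := by
    rw [← hcp, Finset.card_sdiff_of_subset (Finset.subset_univ _), Finset.card_univ]
    have := Finset.card_le_univ (E.image p)
    omega
  have hTE : T.card ≤ E.card := Finset.card_image_le
  have hcT : T.card = E.card ∧ (ver T).card = (Finset.univ \ E.image p).card := by
    obtain ⟨S, hS, hc⟩ := cm T hT3
    have h5 := hle S hS
    have h6 := Finset.card_le_card hsub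
    omega
  have hverT : ver T = Finset.univ \ E.image p := Finset.eq_of_subset_of_card_le hsub hcT.2.ge
  have hinj : Set.InjOn t (E : Set (Finset V)) := Finset.injOn_of_card_image_eq hcT.1
  have hext : Ext T := by
    refine ⟨hT3, fun S hS => ?_⟩
    have := hle S hS
    omega
  have hlin : Lin T := by
    intro a ha b hb hab x hx y hy hx' hy'
    obtain ⟨e, he, rfl⟩ := Finset.mem_image.1 ha
    obtain ⟨f, hf, rfl⟩ := Finset.mem_image.1 hb
    have hne : f ≠ e := fun h => hab (by rw [h])
    have h5 := (hE e he).2 f (hE f hf).1 hne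
    by_contra hxy
    have h6 : ({x, y} : Finset V) ⊆ e ∩ f := by
      intro z hz
      rw [Finset.mem_insert, Finset.mem_singleton] at hz
      rw [Finset.mem_inter]
      rcases hz with rfl | rfl
      · exact ⟨hte e he hx, hte f hf hx'⟩
      · exact ⟨hte e he hy, hte f hf hy'⟩
    have h7 := Finset.card_le_card h6
    rw [Finset.card_pair hxy] at h7
    omega
  have hgood : GoodL T := ((ext_iff_good T).1 hext).goodL hlin
  have hfull : ∀ e ∈ E, e = insert (p e) (t e) := by
    intro e he
    apply Finset.Subset.antisymm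
    · intro v hv
      by_contra hcon
      rw [Finset.mem_insert, not_or] at hcon
      have hvT : v ∈ ver T := by
        rw [hverT, Finset.mem_sdiff]
        refine ⟨Finset.mem_univ v, fun h5 => ?_⟩
        obtain ⟨f, hf, rfl⟩ := Finset.mem_image.1 h5
        have h6 := hp2 f hf e he hv
        exact hcon.1 (by rw [h6])
      obtain ⟨S, hvS, hS, hc⟩ := hgood.hit (Finset.mem_image_of_mem t he) hvT hcon.2
      have h5 : Dominating H S := by
        refine dominating_of_forall fun w => ?_
        obtain ⟨f, hf, hwf⟩ := hE1 w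
        by_cases hfe : f = e
        · rw [hfe] at hwf
          exact ⟨v, hvS, e, (hE e he).1, hv, hwf⟩
        · have h6 : t f ∈ T.erase (t e) := by
            rw [Finset.mem_erase]
            exact ⟨fun h7 => hfe (hinj hf he h7), Finset.mem_image_of_mem t hf⟩
          obtain ⟨u, hu, huf⟩ := hS _ h6
          exact ⟨u, hu, f, (hE f hf).1, hte f hf huf, hwf⟩
      have h6 := domNumber_le h5
      omega
    · intro v hv
      rcases Finset.mem_insert.1 hv with rfl | hv
      · exact hp1 e he
      · exact hte e he hv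
  -- the inverse of `t`
  have hr : ∀ s, s ∈ T → ∃ e ∈ E, t e = s := fun s hs => by
    obtain ⟨e, he, hes⟩ := Finset.mem_image.1 hs
    exact ⟨e, he, hes⟩
  choose! r hr1 hr2 using hr
  have hrt : ∀ e ∈ E, r (t e) = e := fun e he =>
    hinj (hr1 _ (Finset.mem_image_of_mem t he)) he (hr2 _ (Finset.mem_image_of_mem t he))
  have hins : ∀ s ∈ T, insert (p (r s)) s = r s := by
    intro s hs
    have h5 := hfull (r s) (hr1 s hs)
    rw [hr2 s hs] at h5
    exact h5.symm
  refine ⟨T, fun s => p (r s), hgood, ?_, ?_, ?_, h4, ?_, ?_⟩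
  · intro s hs s' hs' h5
    have h6 : r s = r s' := hpinj (hr1 s hs) (hr1 s' hs') h5
    rw [← hr2 s hs, ← hr2 s' hs', h6]
  · intro s hs h5
    rw [hverT, Finset.mem_sdiff] at h5
    exact h5.2 (Finset.mem_image_of_mem p (hr1 s hs))
  · intro v
    by_cases h5 : v ∈ E.image p
    · obtain ⟨e, he, rfl⟩ := Finset.mem_image.1 h5
      exact Or.inr ⟨t e, Finset.mem_image_of_mem t he, by rw [hrt e he]⟩
    · left
      rw [hverT, Finset.mem_sdiff]
      exact ⟨Finset.mem_univ v, h5⟩
  · intro s hs
    show LinearEdge H (insert (p (r s)) s)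
    rw [hins s hs]
    exact hE _ (hr1 s hs)
  · intro D hD
    have h5 := domNumber_le hD
    omega

end Pool.Agent.MP284513
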