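import Pool.Agent.Lib.MP_284513_co.Defs

/-!
# Units of hypergraphs in which every vertex lies in a linear edge
-/

namespace Pool.Agent.MP284513

variable {V : Type} [DecidableEq V]

/-- `e` is a linear edge of `H`: it has at most one vertex in common with every other edge of `H`. -/
def LinearEdge (H : Finset (Finset V)) (e : Finset V) : Prop :=
  e ∈ H ∧ ∀ f ∈ H, f ≠ e → (e ∩ f).card ≤ 1

/-- `U` consists of the vertices of `T` and one further vertex `q e` for every member `e` of `T`,
and the only edge of `H` which contains `q e` is the set `e` together with `q e`. -/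
def CoronaUnit (H T : Finset (Finset V)) (U : Finset V) : Prop :=
  ∃ q : {e // e ∈ T} → V, Function.Injective q ∧ (∀ e, q e ∉ ver T) ∧
    (∀ e f, (f ∈ H ∧ q e ∈ f) ↔ f = insert (q e) e.1) ∧ U = ver T ∪ Finset.univ.image q

/-- Units of `H`: an edge with four vertices one of which lies in no other edge, the coronas of the
linear hypergraphs with seven and with eight vertices, and the grids: sixteen vertices in a square
such that the edges which contain at least one of them are the four rows and the four columns. -/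
inductive LinearUnit (H : Finset (Finset V)) : Finset V → Prop
  | edge {e : Finset V} {v : V} (h : ∀ f, (f ∈ H ∧ v ∈ f) ↔ f = e) (h4 : e.card = 4) :
      LinearUnit H e
  | seven {U : Finset V} {x a₁ a₂ a₃ b₁ b₂ b₃ : V} (h : [x, a₁, a₂, a₃, b₁, b₂, b₃].Nodup)
      (hU : CoronaUnit H (sevenFam x a₁ a₂ a₃ b₁ b₂ b₃) U) : LinearUnit H U
  | eight {U : Finset V} {x y a₁ a₂ a₃ b₁ b₂ b₃ : V}
      (h : [x, y, a₁, a₂, a₃, b₁, b₂, b₃].Nodup)
      (hU : CoronaUnit H (eightFam x y a₁ a₂ a₃ b₁ b₂ b₃) U) : LinearUnit H U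
  | grid {g : Fin 4 → Fin 4 → V} (hg : ∀ i j k l, g i j = g k l → i = k ∧ j = l)
      (h : ∀ f, (f ∈ H ∧ ∃ i j, g i j ∈ f) ↔
        (∃ i, f = Finset.univ.image (g i)) ∨ ∃ j, f = Finset.univ.image fun i => g i j) :
      LinearUnit H (Finset.univ.image fun z : Fin 4 × Fin 4 => g z.1 z.2)

/-- The vertex set is the disjoint union of units of `H`. -/
def UnionOfUnits (H : Finset (Finset V)) : Prop :=
  ∃ P : Finset (Finset V), (∀ U ∈ P, LinearUnit H U) ∧ ∀ v : V, ∃! U, U ∈ P ∧ v ∈ U

end Pool.Agent.MP284513
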