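import Pool.Agent.Lib.MP_284513_co.LCross

/-!
# Grids
-/

set_option linter.unusedSectionVars false

namespace Pool.Agent.MP284513

variable {V : Type} [DecidableEq V]

/-- a row has four elements -/
private theorem Cor.row_card {H T : Finset (Finset V)} {q : Finset V → V} (c : Cor H T q)
    {t : Finset V} (ht : t ∈ T) : (insert (q t) t).card = 4 := by
  have h1 : q t ∉ t := fun h => c.new t ht (Finset.mem_biUnion.2 ⟨t, ht, h⟩)
  rw [Finset.card_insert_of_notMem h1, c.good.ext.1 t ht]

/-- different closed members give disjoint rows -/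
private theorem Cor.row_disj {H T : Finset (Finset V)} {q : Finset V → V} (c : Cor H T q)
    {s t : Finset V} (hs : s ∈ T) (ht : t ∈ T) (hc : Closed T {t}) {x : V}
    (hxs : x ∈ insert (q s) s) (hxt : x ∈ insert (q t) t) : s = t := by
  have hver : ∀ r ∈ T, ∀ v ∈ r, v ∈ ver T := fun r hr v hv => Finset.mem_biUnion.2 ⟨r, hr, hv⟩
  rcases Finset.mem_insert.1 hxs with h1 | h1
  · rcases Finset.mem_insert.1 hxt with h2 | h2
    · exact c.inj s hs t ht (h1 ▸ h2)
    · exact absurd (hver t ht x h2) (h1 ▸ c.new s hs)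
  · rcases Finset.mem_insert.1 hxt with h2 | h2
    · exact absurd (hver s hs x h1) (h2 ▸ c.new t ht)
    · have h3 := hc.2 s hs x h1 (Finset.mem_biUnion.2 ⟨t, Finset.mem_singleton_self t, h2⟩)
      exact Finset.mem_singleton.1 h3

/-- The rows are `t + q t` and the three members of `C`, the columns are the sets `F y`. Every row
meets every column in exactly one vertex (`Cor.lin`), `g i j` is this vertex. The rows are pairwise
disjoint and so are the columns, and each of them has four elements, so row `i` is the image of `g i`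
and column `j` is the image of `fun i => g i j`. Every vertex of a row `s + q s` lies in a column, so
`Cor.cross` can be applied to every row, and `Cross.uniq` shows that an edge of `H` which contains a
vertex of the grid is a row or a column. -/
theorem Cor.grid {H T : Finset (Finset V)} {q : Finset V → V} (c : Cor H T q)
    {t : Finset V} (ht : t ∈ T) (hc : Closed T {t})
    (htouch : ∀ y ∈ insert (q t) t, ∃ f ∈ H, f ≠ insert (q t) t ∧ y ∈ f) :
    ∃ g : Fin 4 → Fin 4 → V, (∀ i j k l, g i j = g k l → i = k ∧ j = l) ∧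
      (∀ f, (f ∈ H ∧ ∃ i j, g i j ∈ f) ↔
        (∃ i, f = Finset.univ.image (g i)) ∨ ∃ j, f = Finset.univ.image fun i => g i j) ∧
      (∀ i, ∃ s ∈ T, Closed T {s} ∧ Finset.univ.image (g i) = insert (q s) s) ∧
      Finset.univ.image (g 0) = insert (q t) t := by
  classical
  obtain ⟨C, F, hx⟩ := c.cross ht hc htouch
  let e : C ≃ Fin 3 := Finset.equivFinOfCardEq hx.card
  let e₀ : {x // x ∈ insert (q t) t} ≃ Fin 4 := Finset.equivFinOfCardEq (c.row_card ht)
  let y : Fin 4 → V := fun j => (e₀.symm j).1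
  have hy : ∀ j, y j ∈ insert (q t) t := fun j => (e₀.symm j).2
  have hyinj : ∀ j l, y j = y l → j = l := by
    intro j l h
    exact e₀.symm.injective (Subtype.ext h)
  have hysurj : ∀ x ∈ insert (q t) t, ∃ j, y j = x := fun x hxm =>
    ⟨e₀ ⟨x, hxm⟩, congrArg Subtype.val (e₀.symm_apply_apply ⟨x, hxm⟩)⟩
  let r : Fin 4 → Finset V := Fin.cons (insert (q t) t) fun k => (e.symm k).1
  have hr0 : r 0 = insert (q t) t := rfl
  have hrs : ∀ k : Fin 3, r k.succ = (e.symm k).1 := fun k => rfl
  have hrow : ∀ i, ∃ s ∈ T, Closed T {s} ∧ r i = insert (q s) s := by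
    intro i
    refine Fin.cases ?_ (fun k => ?_) i
    · exact ⟨t, ht, hc, rfl⟩
    · obtain ⟨s, hs, -, hcs, hb⟩ := hx.row _ (e.symm k).2
      exact ⟨s, hs, hcs, hb⟩
  have hdisj : ∀ i k x, x ∈ r i → x ∈ r k → i = k := by
    have h1 : ∀ (k : Fin 3) (x : V), x ∈ r 0 → x ∈ r k.succ → False := by
      intro k x h0 hk
      obtain ⟨s, hs, hne, hcs, hb⟩ := hx.row _ (e.symm k).2
      rw [hrs, hb] at hk
      rw [hr0] at h0
      exact hne (c.row_disj hs ht hc hk h0)
    intro i k x
    refine Fin.cases ?_ (fun i => ?_) i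
    · refine Fin.cases (fun _ _ => rfl) (fun k h0 hk => (h1 k x h0 hk).elim) k
    · refine Fin.cases (fun hi h0 => (h1 i x h0 hi).elim) (fun k hi hk => ?_) k
      rw [hrs] at hi hk
      have h2 := hx.disj _ (e.symm i).2 _ (e.symm k).2 x hi hk
      rw [e.symm.injective (Subtype.ext h2)]
  have hmeet : ∀ i j, ∃ x, x ∈ r i ∧ x ∈ F (y j) := by
    intro i j
    refine Fin.cases ?_ (fun k => ?_) i
    · exact ⟨y j, hy j, (hx.mem (y j) (hy j)).2.2.1⟩
    · obtain ⟨x, hx1, hx2⟩ := hx.meet (y j) (hy j) _ (e.symm k).2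
      exact ⟨x, hx2, hx1⟩
  choose g hgr hgF using hmeet
  have hinj : ∀ i j k l, g i j = g k l → i = k ∧ j = l := by
    intro i j k l h
    refine ⟨hdisj i k (g i j) (hgr i j) (h ▸ hgr k l), ?_⟩
    exact hyinj j l (hx.disjF _ (hy j) _ (hy l) (g i j) (hgF i j) (h ▸ hgF k l))
  have hcard : ∀ i, (r i).card = 4 := by
    intro i
    obtain ⟨s, hs, -, h⟩ := hrow i
    rw [h, c.row_card hs]
  have hrowim : ∀ i, Finset.univ.image (g i) = r i := by
    intro i
    refine Finset.eq_of_subset_of_card_le ?_ ?_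
    · intro x hxm
      obtain ⟨j, -, rfl⟩ := Finset.mem_image.1 hxm
      exact hgr i j
    · rw [hcard, Finset.card_image_of_injective _ fun j l h => (hinj i j i l h).2]
      simp
  have hcolim : ∀ j, (Finset.univ.image fun i => g i j) = F (y j) := by
    intro j
    refine Finset.eq_of_subset_of_card_le ?_ ?_
    · intro x hxm
      obtain ⟨i, -, rfl⟩ := Finset.mem_image.1 hxm
      exact hgF i j
    · rw [(hx.mem _ (hy j)).2.2.2,
        Finset.card_image_of_injective _ fun i k h => (hinj i j k j h).1]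
      simp
  have hcolne : ∀ i j, F (y j) ≠ r i := by
    intro i j h
    by_cases hi : i = 0
    · rw [hi, hr0] at h
      exact (hx.mem _ (hy j)).2.1 h
    · have h1 : g 0 j ∈ r i := h ▸ hgF 0 j
      exact hi (hdisj i 0 _ h1 (hgr 0 j))
  refine ⟨g, hinj, fun f => ⟨?_, ?_⟩, ?_, ?_⟩
  · rintro ⟨hf, i, j, hij⟩
    by_cases hfr : f = r i
    · exact Or.inl ⟨i, by rw [hrowim, hfr]⟩
    right
    refine ⟨j, ?_⟩
    rw [hcolim]
    obtain ⟨s, hs, hcs, hri⟩ := hrow i
    have hst : ∀ z ∈ insert (q s) s, ∃ f' ∈ H, f' ≠ insert (q s) s ∧ z ∈ f' := by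
      intro z hz
      rw [← hri, ← hrowim, Finset.mem_image] at hz
      obtain ⟨l, -, rfl⟩ := hz
      exact ⟨F (y l), (hx.mem _ (hy l)).1, by rw [← hri]; exact hcolne i l, hgF i l⟩
    obtain ⟨C', F', hx'⟩ := c.cross hs hcs hst
    have hgi : g i j ∈ insert (q s) s := by
      rw [← hri]
      exact hgr i j
    have h1 := hx'.uniq _ hgi f hf (by rw [← hri]; exact hfr) hij
    have h2 := hx'.uniq _ hgi (F (y j)) (hx.mem _ (hy j)).1 (by rw [← hri]; exact hcolne i j)
      (hgF i j)
    rw [h1, h2]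
  · rintro (⟨i, rfl⟩ | ⟨j, rfl⟩)
    · refine ⟨?_, i, 0, Finset.mem_image_of_mem _ (Finset.mem_univ _)⟩
      obtain ⟨s, hs, -, hri⟩ := hrow i
      rw [hrowim, hri]
      exact (c.edge s hs).1
    · refine ⟨?_, 0, j, Finset.mem_image.2 ⟨0, Finset.mem_univ _, rfl⟩⟩
      rw [hcolim]
      exact (hx.mem _ (hy j)).1
  · intro i
    obtain ⟨s, hs, hcs, hri⟩ := hrow i
    exact ⟨s, hs, hcs, by rw [hrowim, hri]⟩
  · rw [hrowim, hr0]

end Pool.Agent.MP284513
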