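import Pool.Agent.Lib.MP_284513_co.LInner
import Pool.Agent.Lib.MP_284513_co.LBlocks

/-!
# Single edges all of whose vertices lie in other edges
-/

set_option linter.unusedSectionVars false

namespace Pool.Agent.MP284513

variable {V : Type} [DecidableEq V]

/-- Peel at a vertex of `t` and use `UnitL.eq_singleton`. -/
theorem GoodL.erase_single {T : Finset (Finset V)} (h : GoodL T) {t : Finset V} (ht : t ∈ T)
    (hc : Closed T {t}) : GoodL (T.erase t) ∧
      (ver (T.erase t)).card + (T.erase t).card + 4 = (ver T).card + T.card := by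
  have hE := h.ext
  have h3 : t.card = 3 := hE.1 t ht
  obtain ⟨v, hv⟩ : t.Nonempty := Finset.card_pos.1 (by rw [h3]; omega)
  obtain ⟨K, R, hTKR, hK, hR, hd, hvK⟩ := h.peel (mem_ver.2 ⟨t, ht, hv⟩)
  have htR : t ∉ R := fun htR =>
    Finset.disjoint_left.1 hd hvK (mem_ver.2 ⟨t, htR, hv⟩)
  have htK : t ∈ K := by
    rw [hTKR, Finset.mem_union] at ht
    exact ht.resolve_right htR
  have hcK : Closed K {t} := by
    refine ⟨Finset.singleton_subset_iff.2 htK, fun e he w hw hw' => hc.2 e ?_ w hw hw'⟩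
    rw [hTKR]
    exact Finset.mem_union_left _ he
  have hKt : K = {t} := hK.eq_singleton htK hcK
  have her : T.erase t = R := by
    rw [hTKR, hKt]
    ext e
    rw [Finset.mem_erase, Finset.mem_union, Finset.mem_singleton]
    constructor
    · rintro ⟨h1, h2 | h2⟩
      · exact absurd h2 h1
      · exact h2
    · intro h1
      exact ⟨fun h2 => htR (h2 ▸ h1), Or.inr h1⟩
  have hvt : ver ({t} : Finset (Finset V)) = t := by
    ext w
    rw [mem_ver]
    constructor
    · rintro ⟨e, he, hw⟩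
      rw [Finset.mem_singleton] at he
      exact he ▸ hw
    · intro hw
      exact ⟨t, Finset.mem_singleton_self _, hw⟩
  have hver : (ver T).card = 3 + (ver R).card := by
    rw [hTKR, ver_union, Finset.card_union_of_disjoint hd, hKt, hvt, h3]
  have hcard : T.card = R.card + 1 := by
    have h1 := Finset.card_erase_of_mem ht
    rw [her] at h1
    have h2 := Finset.card_pos.2 ⟨t, ht⟩
    omega
  rw [her]
  exact ⟨hR, by omega⟩

/-- A partial system of representatives of the blocks does not dominate all vertices of `t + q t`: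
otherwise choose a vertex of every other block, the result dominates and is too small. -/
theorem Cor.no_system {H T : Finset (Finset V)} {q : Finset V → V} (c : Cor H T q)
    {t : Finset V} (ht : t ∈ T) (hc : Closed T {t}) {B : Finset (Finset V)}
    (hB : BlockSystem (T.erase t) q B) {W : Finset V} (hW : ∀ w ∈ W, ∃ b ∈ B, w ∈ b)
    (hWd : ∀ b ∈ B, ∀ w ∈ W, ∀ w' ∈ W, w ∈ b → w' ∈ b → w = w')
    (hdom : ∀ y ∈ insert (q t) t, ∃ w ∈ W, ∃ f ∈ H, w ∈ f ∧ y ∈ f) : False := by
  have hch : ∀ b : Finset V, ∃ x : V, b ∈ B → x ∈ b ∧ ((∃ w ∈ W, w ∈ b) → x ∈ W) := by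
    intro b
    by_cases hb : b ∈ B
    · by_cases hw : ∃ w ∈ W, w ∈ b
      · obtain ⟨w, hwW, hwb⟩ := hw
        exact ⟨w, fun _ => ⟨hwb, fun _ => hwW⟩⟩
      · obtain ⟨x, hx⟩ := (hB.kind b hb).1
        exact ⟨x, fun _ => ⟨hx, fun h => absurd h hw⟩⟩
    · exact ⟨q t, fun h => absurd h hb⟩
  choose g hg using hch
  have hWg : W ⊆ B.image g := by
    intro w hw
    obtain ⟨b, hb, hwb⟩ := hW w hw
    have h1 := hg b hb
    have h2 : g b ∈ W := h1.2 ⟨w, hw, hwb⟩
    rw [Finset.mem_image]
    exact ⟨b, hb, hWd b hb (g b) h2 w hw h1.1 hwb⟩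
  have hhit := hB.hit (B.image g) (fun b hb => ⟨g b, Finset.mem_image_of_mem _ hb, (hg b hb).1⟩)
  have hD : Dominating H (B.image g) := by
    refine dominating_of_forall fun v => ?_
    by_cases hv : v ∈ insert (q t) t
    · obtain ⟨w, hw, f, hf, hwf, hvf⟩ := hdom v hv
      exact ⟨w, hWg hw, f, hf, hwf, hvf⟩
    · have h1 : ∃ s ∈ T, v ∈ insert (q s) s := by
        rcases c.all v with h2 | ⟨s, hs, rfl⟩
        · obtain ⟨s, hs, hvs⟩ := mem_ver.1 h2
          exact ⟨s, hs, Finset.mem_insert_of_mem hvs⟩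
        · exact ⟨s, hs, Finset.mem_insert_self _ _⟩
      obtain ⟨s, hs, hvs⟩ := h1
      have hst : s ≠ t := by
        rintro rfl
        exact hv hvs
      obtain ⟨x, hx, hxs⟩ := hhit s (Finset.mem_erase.2 ⟨hst, hs⟩)
      exact ⟨x, hx, insert (q s) s, (c.edge s hs).1, hxs, hvs⟩
  have h1 := c.low _ hD
  have h2 := (c.good.erase_single ht hc).2
  have h3 := hB.card
  have h4 : (B.image g).card ≤ B.card := Finset.card_image_le
  omega

/-- Another edge `f` through a vertex `y` of `t + q t`: its other vertices are in blocks (a new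
vertex of a member which is not closed has degree one, `Cor.inner`), and they are in distinct blocks
(`Cor.lin`). -/
theorem Cor.touch {H T : Finset (Finset V)} {q : Finset V → V} (c : Cor H T q)
    {t : Finset V} (ht : t ∈ T) (hc : Closed T {t}) {B : Finset (Finset V)}
    (hB : BlockSystem (T.erase t) q B) {f : Finset V} (hf : f ∈ H) (hne : f ≠ insert (q t) t)
    {y : V} (hy : y ∈ insert (q t) t) (hyf : y ∈ f) :
    (∀ x ∈ f, x ≠ y → x ∉ insert (q t) t) ∧ (∀ x ∈ f, x ≠ y → ∃ b ∈ B, x ∈ b) ∧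
      ∀ b ∈ B, ∀ x ∈ f, ∀ x' ∈ f, x ∈ b → x' ∈ b → x = x' := by
  -- the edges of the corona at `t` and at another member are disjoint
  have hdis : ∀ s ∈ T, s ≠ t → y ∉ insert (q s) s := by
    intro s hs hst hys
    rw [Finset.mem_insert] at hys hy
    rcases hys with h1 | h1
    · rcases hy with h2 | h2
      · exact hst (c.inj s hs t ht (h1.symm.trans h2))
      · exact c.new s hs (h1 ▸ mem_ver.2 ⟨t, ht, h2⟩)
    · rcases hy with h2 | h2
      · exact c.new t ht (h2 ▸ mem_ver.2 ⟨s, hs, h1⟩)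
      · exact hst (Finset.mem_singleton.1
          (hc.2 s hs y h1 (mem_ver.2 ⟨t, Finset.mem_singleton_self _, h2⟩)))
  have h1 : ∀ x ∈ f, x ≠ y → x ∉ insert (q t) t := fun x hx hxy hxt =>
    hne (c.lin ht hf hxt hy hx hyf hxy)
  refine ⟨h1, fun x hx hxy => ?_, fun b hb x hx x' hx' hxb hxb' => ?_⟩
  · have hxt := h1 x hx hxy
    rcases c.all x with h2 | ⟨s, hs, rfl⟩
    · obtain ⟨s, hs, hxs⟩ := mem_ver.1 h2
      have hst : s ≠ t := by
        rintro rfl
        exact hxt (Finset.mem_insert_of_mem hxs)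
      exact hB.mem x (mem_ver.2 ⟨s, Finset.mem_erase.2 ⟨hst, hs⟩, hxs⟩)
    · have hst : s ≠ t := by
        rintro rfl
        exact hxt (Finset.mem_insert_self _ _)
      by_cases hcs : Closed T {s}
      · refine ⟨insert (q s) s, hB.single s (Finset.mem_erase.2 ⟨hst, hs⟩) ⟨?_, ?_⟩,
          Finset.mem_insert_self _ _⟩
        · exact Finset.singleton_subset_iff.2 (Finset.mem_erase.2 ⟨hst, hs⟩)
        · intro e he v hv hv'
          exact hcs.2 e (Finset.mem_of_mem_erase he) v hv hv'
      · have h3 := c.inner hs hcs hf hx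
        exact absurd (h3 ▸ hyf) (hdis s hs hst)
  · by_contra hxx
    have h2 : ∃ s ∈ T, s ≠ t ∧ b ⊆ insert (q s) s := by
      rcases (hB.kind b hb).2 with ⟨s, hs, _, hbs⟩ | ⟨_, s, hs, hbs⟩
      · exact ⟨s, Finset.mem_of_mem_erase hs, Finset.ne_of_mem_erase hs, hbs.subset⟩
      · exact ⟨s, Finset.mem_of_mem_erase hs, Finset.ne_of_mem_erase hs,
          hbs.trans (Finset.subset_insert _ _)⟩
    obtain ⟨s, hs, hst, hbs⟩ := h2
    have h3 := c.lin hs hf (hbs hxb) (hbs hxb') hx hx' hxx
    exact hdis s hs hst (h3 ▸ hyf)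

/-- Four sets with at least three elements each and at least four elements in total have a system of
distinct representatives (`Finset.all_card_le_biUnion_card_iff_exists_injective`). -/
theorem exists_system {ι α : Type} [Fintype ι] [DecidableEq ι] [DecidableEq α]
    (hι : Fintype.card ι = 4) (F : ι → Finset α) (h3 : ∀ k, 3 ≤ (F k).card)
    (h4 : 4 ≤ (Finset.univ.biUnion F).card) :
    ∃ s : ι → α, Function.Injective s ∧ ∀ k, s k ∈ F k := by
  rw [← Finset.all_card_le_biUnion_card_iff_exists_injective]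
  intro A
  rcases A.eq_empty_or_nonempty with rfl | ⟨k, hk⟩
  · simp
  · by_cases hA : A = Finset.univ
    · rw [hA, Finset.card_univ, hι]
      exact h4
    · have h5 : A.card < 4 := by
        rw [← hι, ← Finset.card_univ]
        exact Finset.card_lt_card (Finset.ssubset_univ_iff.2 hA)
      have h6 : (F k).card ≤ (A.biUnion F).card :=
        Finset.card_le_card (Finset.subset_biUnion_of_mem F hk)
      have h7 := h3 k
      omega

/-- The columns through the vertices of `t + q t`: `C` is a set of three blocks, `F y` is the only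
other edge through `y`. -/
structure Cross (H T : Finset (Finset V)) (q : Finset V → V) (t : Finset V)
    (C : Finset (Finset V)) (F : V → Finset V) : Prop where
  card : C.card = 3
  disj : ∀ b ∈ C, ∀ b' ∈ C, ∀ v, v ∈ b → v ∈ b' → b = b'
  row : ∀ b ∈ C, ∃ s ∈ T, s ≠ t ∧ Closed T {s} ∧ b = insert (q s) s
  mem : ∀ y ∈ insert (q t) t, F y ∈ H ∧ F y ≠ insert (q t) t ∧ y ∈ F y ∧ (F y).card = 4
  meet : ∀ y ∈ insert (q t) t, ∀ b ∈ C, ∃ x ∈ F y, x ∈ b
  disjF : ∀ y ∈ insert (q t) t, ∀ y' ∈ insert (q t) t, ∀ x, x ∈ F y → x ∈ F y' → y = y'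
  uniq : ∀ y ∈ insert (q t) t, ∀ f ∈ H, f ≠ insert (q t) t → y ∈ f → f = F y

end Pool.Agent.MP284513
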