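import Pool.Agent.Lib.MP_284513_co.LCtx

/-!
# The new vertices of the coronas of the hypergraphs with seven and with eight vertices
-/

set_option linter.unusedSectionVars false

namespace Pool.Agent.MP284513

variable {V : Type} [DecidableEq V]

/-- Peel at a vertex of `t`; if the part is a single edge then `{t}` is closed. -/
theorem GoodL.rigid {T : Finset (Finset V)} (h : GoodL T) {t : Finset V} (ht : t ∈ T)
    (hns : ¬ Closed T {t}) : ∃ K R, T = K ∪ R ∧ Rigid K ∧ Ext K ∧ GoodL R ∧
      Disjoint (ver K) (ver R) ∧ t ∈ K := by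
  have h3 := h.ext.1 t ht
  obtain ⟨v, hv⟩ : t.Nonempty := Finset.card_pos.1 (by omega)
  obtain ⟨K, R, hT, hK, hR, hd, hvK⟩ := h.peel (mem_ver.2 ⟨t, ht, hv⟩)
  have htK : t ∈ K := by
    rw [hT, Finset.mem_union] at ht
    refine ht.resolve_right fun h1 => ?_
    exact Finset.disjoint_left.1 hd hvK (mem_ver.2 ⟨t, h1, hv⟩)
  have hE := hK.ext
  cases hK with
  | edge h1 =>
    exfalso
    refine hns ⟨Finset.singleton_subset_iff.2 ht, fun e he w hw hwt => ?_⟩
    have h2 := Finset.mem_singleton.1 htK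
    rw [hT, Finset.mem_union] at he
    rcases he with he | he
    · rw [Finset.mem_singleton] at he ⊢
      rw [he, h2]
    · exfalso
      obtain ⟨t1, ht1, hw1⟩ := mem_ver.1 hwt
      rw [Finset.mem_singleton] at ht1
      subst ht1
      exact Finset.disjoint_left.1 hd (mem_ver.2 ⟨t1, htK, hw1⟩) (mem_ver.2 ⟨e, he, hw⟩)
  | seven h1 => exact ⟨_, R, hT, rigid_seven h1, hE, hR, hd, htK⟩
  | eight h1 => exact ⟨_, R, hT, rigid_eight h1, hE, hR, hd, htK⟩

/-- a vertex of a member which has a common vertex with `D` is dominated -/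
private theorem Cor.dom {H T : Finset (Finset V)} {q : Finset V → V} (c : Cor H T q)
    {t : Finset V} (ht : t ∈ T) {D : Finset V} {u v : V} (hu : u ∈ D) (hut : u ∈ insert (q t) t)
    (hv : v ∈ insert (q t) t) : ∃ u ∈ D, ∃ e ∈ H, u ∈ e ∧ v ∈ e :=
  ⟨u, hu, _, (c.edge t ht).1, hut, hv⟩

/-- `f` contains no vertex `w` of `T`: otherwise `f` and `t + q t` have only `q t` in common, so
`w ∉ t`, and the set `S` of `GoodL.hit` dominates (the vertices of `t` lie in other members by
`Rigid.two`, and `q t` is dominated through `f`). -/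
theorem Cor.inner_core {H T : Finset (Finset V)} {q : Finset V → V} (c : Cor H T q)
    {t : Finset V} (ht : t ∈ T) (hns : ¬ Closed T {t}) {f : Finset V} (hf : f ∈ H)
    (hq : q t ∈ f) (hne : f ≠ insert (q t) t) : ∀ w ∈ f, w ∉ ver T := by
  intro w hw hwT
  have hqw : q t ≠ w := fun h => c.new t ht (h ▸ hwT)
  have hwt : w ∉ t := fun h => hne (c.lin ht hf (Finset.mem_insert_self _ _)
    (Finset.mem_insert_of_mem h) hq hw hqw)
  obtain ⟨S, hwS, hS, hc⟩ := c.good.hit ht hwT hwt
  obtain ⟨K, R, hT, hK, -, -, -, htK⟩ := c.good.rigid ht hns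
  have hdom : Dominating H S := by
    refine dominating_of_forall fun v => ?_
    rcases c.all v with hv | ⟨t', ht', rfl⟩
    · obtain ⟨t1, ht1, hv1⟩ := mem_ver.1 hv
      obtain ⟨t2, ht2, hne2, hv2⟩ : ∃ t2 ∈ T, t2 ≠ t ∧ v ∈ t2 := by
        by_cases h1 : t1 = t
        · subst h1
          obtain ⟨t2, ht2, h2, h3⟩ := hK.two t1 htK v hv1
          exact ⟨t2, by rw [hT]; exact Finset.mem_union_left _ ht2, h2, h3⟩
        · exact ⟨t1, ht1, h1, hv1⟩
      obtain ⟨u, hu, hut⟩ := hS t2 (Finset.mem_erase.2 ⟨hne2, ht2⟩)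
      exact c.dom ht2 hu (Finset.mem_insert_of_mem hut) (Finset.mem_insert_of_mem hv2)
    · by_cases h1 : t' = t
      · subst h1
        exact ⟨w, hwS, f, hf, hw, hq⟩
      · obtain ⟨u, hu, hut⟩ := hS t' (Finset.mem_erase.2 ⟨h1, ht'⟩)
        exact c.dom ht' hu (Finset.mem_insert_of_mem hut) (Finset.mem_insert_self _ _)
  have h1 := c.low S hdom
  omega

/-- the numbers of the vertices and of the members of a disjoint union -/
private theorem card_parts {K R : Finset (Finset V)} (hK : Ext K) (hd : Disjoint (ver K) (ver R)) :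
    (ver (K ∪ R)).card + (K ∪ R).card
      = ((ver K).card + K.card) + ((ver R).card + R.card) := by
  rw [ver_union, Finset.card_union_of_disjoint hd,
    Finset.card_union_of_disjoint (disjoint_of_ver hK.1 hd)]
  omega

/-- if `q t'` also lies in `f` then `t` and `t'` intersect: otherwise (`Rigid.pair` if `t'` is in the
same part, `Ext.erase` twice if not) there is `S` with `4 * (S.card + 2) ≤ n + m` which meets all
members except `t`, `t'`, and `insert (q t') S` dominates -/
theorem Cor.inner_pair {H T : Finset (Finset V)} {q : Finset V → V} (c : Cor H T q)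
    {t : Finset V} (ht : t ∈ T) (hns : ¬ Closed T {t}) {f : Finset V} (hf : f ∈ H)
    (hq : q t ∈ f) (hne : f ≠ insert (q t) t) {t' : Finset V} (ht' : t' ∈ T) (hq' : q t' ∈ f) :
    ¬ Disjoint t t' := by
  intro hdis
  obtain ⟨K, R, hT, hK, hKE, hR, hd, htK⟩ := c.good.rigid ht hns
  obtain ⟨S, hS, hc⟩ : ∃ S : Finset V, (∀ e ∈ T, e ≠ t → e ≠ t' → ∃ x ∈ S, x ∈ e) ∧
      4 * (S.card + 2) ≤ (ver T).card + T.card := by
    have hcp := card_parts hKE hd
    rw [← hT] at hcp
    have ht2 := ht'
    rw [hT, Finset.mem_union] at ht2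
    rcases ht2 with h1 | h1
    · obtain ⟨S1, hS1, hc1⟩ := hK.pair t htK t' h1 hdis
      obtain ⟨S2, hS2, hc2⟩ := hR.ext.exists_opt
      have hu := Finset.card_union_le S1 S2
      refine ⟨S1 ∪ S2, fun e he het het' => ?_, by omega⟩
      rw [hT, Finset.mem_union] at he
      rcases he with he | he
      · obtain ⟨x, hx, hxe⟩ := hS1 e (Finset.mem_erase.2 ⟨het', Finset.mem_erase.2 ⟨het, he⟩⟩)
        exact ⟨x, Finset.mem_union_left _ hx, hxe⟩
      · obtain ⟨x, hx, hxe⟩ := hS2 e he
        exact ⟨x, Finset.mem_union_right _ hx, hxe⟩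
    · obtain ⟨S1, hS1, hc1⟩ := hKE.erase htK
      obtain ⟨S2, hS2, hc2⟩ := hR.ext.erase h1
      have hu := Finset.card_union_le S1 S2
      refine ⟨S1 ∪ S2, fun e he het het' => ?_, by omega⟩
      rw [hT, Finset.mem_union] at he
      rcases he with he | he
      · obtain ⟨x, hx, hxe⟩ := hS1 e (Finset.mem_erase.2 ⟨het, he⟩)
        exact ⟨x, Finset.mem_union_left _ hx, hxe⟩
      · obtain ⟨x, hx, hxe⟩ := hS2 e (Finset.mem_erase.2 ⟨het', he⟩)
        exact ⟨x, Finset.mem_union_right _ hx, hxe⟩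
  have hdom : Dominating H (insert (q t') S) := by
    refine dominating_of_forall fun v => ?_
    have key : ∀ t2 ∈ T, v ∈ insert (q t2) t2 → t2 ≠ t →
        ∃ u ∈ insert (q t') S, ∃ e ∈ H, u ∈ e ∧ v ∈ e := by
      intro t2 ht2 hv2 hne2
      by_cases h1 : t2 = t'
      · subst h1
        exact c.dom ht2 (Finset.mem_insert_self _ _) (Finset.mem_insert_self _ _) hv2
      · obtain ⟨u, hu, hut⟩ := hS t2 ht2 hne2 h1
        exact c.dom ht2 (Finset.mem_insert_of_mem hu) (Finset.mem_insert_of_mem hut) hv2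
    rcases c.all v with hv | ⟨t1, ht1, rfl⟩
    · obtain ⟨t1, ht1, hv1⟩ := mem_ver.1 hv
      by_cases h1 : t1 = t
      · subst h1
        obtain ⟨t2, ht2, h2, h3⟩ := hK.two t1 htK v hv1
        exact key t2 (by rw [hT]; exact Finset.mem_union_left _ ht2)
          (Finset.mem_insert_of_mem h3) h2
      · exact key t1 ht1 (Finset.mem_insert_of_mem hv1) h1
    · by_cases h1 : t1 = t
      · subst h1
        exact ⟨q t', Finset.mem_insert_self _ _, f, hf, hq', hq⟩
      · exact key t1 ht1 (Finset.mem_insert_self _ _) h1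
  have h1 := c.low _ hdom
  have h2 := Finset.card_insert_le (q t') S
  omega

/-- The new vertex of a member of a part with seven or eight vertices has degree one in `H`: by
`inner_core` and `Cor.all` all vertices of `f` are new vertices, by `inner_pair` they belong to
members of the same part `K` which pairwise intersect, by `Cor.size` there are at least four of them;
with `F = K.filter (q · ∈ f)` use `Rigid.many`: `insert (q t) S` together with an optimal transversal
of the rest dominates. -/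
theorem Cor.inner {H T : Finset (Finset V)} {q : Finset V → V} (c : Cor H T q)
    {t : Finset V} (ht : t ∈ T) (hns : ¬ Closed T {t}) {f : Finset V} (hf : f ∈ H)
    (hq : q t ∈ f) : f = insert (q t) t := by
  by_contra hne
  have hcore := c.inner_core ht hns hf hq hne
  obtain ⟨K, R, hT, hK, hKE, hR, hd, htK⟩ := c.good.rigid ht hns
  have hKT : ∀ e ∈ K, e ∈ T := fun e he => by rw [hT]; exact Finset.mem_union_left _ he
  have hnonempty : ∀ e ∈ T, e.Nonempty := fun e he =>
    Finset.card_pos.1 (by rw [c.good.ext.1 e he]; omega)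
  -- the new vertices in `f` belong to members of `K`
  have hinK : ∀ t' ∈ T, q t' ∈ f → t' ∈ K := by
    intro t' ht' hq'
    have h1 := c.inner_pair ht hns hf hq hne ht' hq'
    have h2 := ht'
    rw [hT, Finset.mem_union] at h2
    refine h2.resolve_right fun h3 => h1 ?_
    rw [Finset.disjoint_left]
    intro v hv hv'
    exact Finset.disjoint_left.1 hd (mem_ver.2 ⟨t, htK, hv⟩) (mem_ver.2 ⟨t', h3, hv'⟩)
  obtain ⟨F, hF⟩ : ∃ F, F = K.filter fun e => q e ∈ f := ⟨_, rfl⟩
  have hmF : ∀ e, e ∈ F ↔ e ∈ K ∧ q e ∈ f := fun e => by rw [hF, Finset.mem_filter]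
  have hFc : 4 ≤ F.card := by
    have h1 : f ⊆ F.image q := by
      intro w hw
      rcases c.all w with h2 | ⟨t', ht', rfl⟩
      · exact absurd h2 (hcore w hw)
      · exact Finset.mem_image_of_mem _ ((hmF _).2 ⟨hinK t' ht' hw, hw⟩)
    exact (c.size f hf).trans ((Finset.card_le_card h1).trans Finset.card_image_le)
  have hpair : ∀ t1 ∈ F, ∀ t2 ∈ F, ¬ Disjoint t1 t2 := by
    intro t1 h1 t2 h2
    obtain ⟨h1K, h1q⟩ := (hmF _).1 h1
    obtain ⟨h2K, h2q⟩ := (hmF _).1 h2
    have hns1 : ¬ Closed T {t1} := by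
      intro hc
      obtain ⟨v, hv⟩ := hnonempty t1 (hKT _ h1K)
      obtain ⟨t3, ht3, hne3, hv3⟩ := hK.two t1 h1K v hv
      exact hne3 (Finset.mem_singleton.1 (hc.2 t3 (hKT _ ht3) v hv3
        (mem_ver.2 ⟨t1, Finset.mem_singleton_self _, hv⟩)))
    have hne1 : f ≠ insert (q t1) t1 := by
      intro hc
      obtain ⟨v, hv⟩ := hnonempty t1 (hKT _ h1K)
      exact hcore v (by rw [hc]; exact Finset.mem_insert_of_mem hv)
        (mem_ver.2 ⟨t1, hKT _ h1K, hv⟩)
    exact c.inner_pair (hKT _ h1K) hns1 hf h1q hne1 (hKT _ h2K) h2q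
  obtain ⟨t0, ht0, S1, hc1, hS1, hcov⟩ := hK.many F (by rw [hF]; exact Finset.filter_subset _ _)
    hFc hpair
  obtain ⟨S2, hS2, hc2⟩ := hR.ext.exists_opt
  obtain ⟨ht0K, ht0q⟩ := (hmF _).1 ht0
  have hdom : Dominating H (insert (q t0) (S1 ∪ S2)) := by
    refine dominating_of_forall fun v => ?_
    rcases c.all v with hv | ⟨t1, ht1, rfl⟩
    · rw [hT, ver_union, Finset.mem_union] at hv
      rcases hv with hv | hv
      · rcases hcov v hv with h1 | ⟨t', ht', hvt', u, hu, hut'⟩
        · exact c.dom (hKT _ ht0K) (Finset.mem_insert_self _ _) (Finset.mem_insert_self _ _)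
            (Finset.mem_insert_of_mem h1)
        · exact c.dom (hKT _ ht') (Finset.mem_insert_of_mem (Finset.mem_union_left _ hu))
            (Finset.mem_insert_of_mem hut') (Finset.mem_insert_of_mem hvt')
      · obtain ⟨t1, ht1, hv1⟩ := mem_ver.1 hv
        obtain ⟨u, hu, hut⟩ := hS2 t1 ht1
        exact c.dom (by rw [hT]; exact Finset.mem_union_right _ ht1)
          (Finset.mem_insert_of_mem (Finset.mem_union_right _ hu))
          (Finset.mem_insert_of_mem hut) (Finset.mem_insert_of_mem hv1)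
    · by_cases h1 : q t1 ∈ f
      · exact ⟨q t0, Finset.mem_insert_self _ _, f, hf, ht0q, h1⟩
      · have ht1' := ht1
        rw [hT, Finset.mem_union] at ht1'
        rcases ht1' with h2 | h2
        · obtain ⟨u, hu, hut⟩ := hS1 t1 (Finset.mem_sdiff.2 ⟨h2, fun h3 => h1 ((hmF _).1 h3).2⟩)
          exact c.dom ht1 (Finset.mem_insert_of_mem (Finset.mem_union_left _ hu))
            (Finset.mem_insert_of_mem hut) (Finset.mem_insert_self _ _)
        · obtain ⟨u, hu, hut⟩ := hS2 t1 h2
          exact c.dom ht1 (Finset.mem_insert_of_mem (Finset.mem_union_right _ hu))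
            (Finset.mem_insert_of_mem hut) (Finset.mem_insert_self _ _)
  have h1 := c.low _ hdom
  have h2 := Finset.card_insert_le (q t0) (S1 ∪ S2)
  have h3 := Finset.card_union_le S1 S2
  have hcp := card_parts hKE hd
  rw [← hT] at hcp
  omega

end Pool.Agent.MP284513
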