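import Pool.Agent.Lib.MP_284513_co.LGrid
import Pool.Agent.Lib.MP_284513_co.LLower
import Pool.Agent.Lib.MP_284513_co.Around

/-!
# Hypergraphs in which every vertex lies in a linear edge
-/

set_option linter.unusedSectionVars false

namespace Pool.Agent.MP284513

variable {V : Type} [DecidableEq V]

/-- two members whose enlargements have a common vertex, one of them a single edge -/
theorem Cor.eq_of_closed {H T : Finset (Finset V)} {q : Finset V → V} (c : Cor H T q)
    {s t : Finset V} (hs : s ∈ T) (ht : t ∈ T) (hc : Closed T {s}) {v : V}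
    (hvs : v ∈ insert (q s) s) (hvt : v ∈ insert (q t) t) : s = t := by
  rcases Finset.mem_insert.1 hvs with rfl | hvs
  · rcases Finset.mem_insert.1 hvt with h | h
    · exact c.inj s hs t ht h
    · exact absurd (mem_ver.2 ⟨t, ht, h⟩) (c.new s hs)
  · rcases Finset.mem_insert.1 hvt with rfl | hvt
    · exact absurd (mem_ver.2 ⟨s, hs, hvs⟩) (c.new t ht)
    · have h1 := hc.2 t ht v hvt (mem_ver.2 ⟨s, Finset.mem_singleton_self s, hvs⟩)
      exact (Finset.mem_singleton.1 h1).symm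

/-- every vertex of `t + q t` lies in another edge -/
def Touched (H : Finset (Finset V)) (q : Finset V → V) (t : Finset V) : Prop :=
  ∀ y ∈ insert (q t) t, ∃ f ∈ H, f ≠ insert (q t) t ∧ y ∈ f

/-- the grid of a touched single edge -/
theorem Cor.grid_unit {H T : Finset (Finset V)} {q : Finset V → V} (c : Cor H T q)
    {t : Finset V} (ht : t ∈ T) (hc : Closed T {t}) (htouch : Touched H q t) :
    LinearUnit H (around H (insert (q t) t)) ∧
      ∀ v ∈ around H (insert (q t) t), ∃ s ∈ T, Closed T {s} ∧ Touched H q s ∧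
        v ∈ insert (q s) s ∧ around H (insert (q s) s) = around H (insert (q t) t) := by
  obtain ⟨g, hg, h, hrow, h0⟩ := c.grid ht hc htouch
  have e0 : around H (insert (q t) t) =
      Finset.univ.image fun z : Fin 4 × Fin 4 => g z.1 z.2 := by
    rw [← h0]
    exact around_row h 0
  rw [e0]
  refine ⟨LinearUnit.grid hg h, fun v hv => ?_⟩
  obtain ⟨⟨i, j⟩, -, rfl⟩ := Finset.mem_image.1 hv
  obtain ⟨s, hs, hsc, hsr⟩ := hrow i
  refine ⟨s, hs, hsc, ?_, ?_, ?_⟩
  · intro y hy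
    rw [← hsr] at hy ⊢
    obtain ⟨k, -, rfl⟩ := Finset.mem_image.1 hy
    refine ⟨Finset.univ.image fun i => g i k, ((h _).2 (Or.inr ⟨k, rfl⟩)).1, fun heq => ?_,
      Finset.mem_image.2 ⟨i, Finset.mem_univ _, rfl⟩⟩
    have h1 : g (i + 1) k ∈ Finset.univ.image (g i) := by
      rw [← heq]
      exact Finset.mem_image.2 ⟨i + 1, Finset.mem_univ _, rfl⟩
    obtain ⟨l, -, hl⟩ := Finset.mem_image.1 h1
    have h2 := (hg _ _ _ _ hl).1
    revert h2
    fin_cases i <;> decide
  · rw [← hsr]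
    exact Finset.mem_image.2 ⟨j, Finset.mem_univ _, rfl⟩
  · rw [← hsr]
    exact around_row h i

theorem corona_unit {H T : Finset (Finset V)} {q : Finset V → V} (c : Cor H T q)
    {K : Finset (Finset V)} (hK : K ⊆ T) (hr : Rigid K) : CoronaUnit H K (full K q) := by
  refine ⟨fun e => q e.1, ?_, ?_, ?_, ?_⟩
  · intro e f hef
    exact Subtype.ext (c.inj _ (hK e.2) _ (hK f.2) hef)
  · intro e h
    exact c.new _ (hK e.2) (ver_mono hK h)
  · intro e f
    constructor
    · rintro ⟨hf, hq⟩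
      refine c.inner (hK e.2) (fun hcl => ?_) hf hq
      have h3 := c.good.ext.1 _ (hK e.2)
      obtain ⟨v, hv⟩ := Finset.card_pos.1 (by rw [h3]; norm_num : 0 < e.1.card)
      obtain ⟨t', ht', hne, hv'⟩ := hr.two _ e.2 v hv
      exact hne (Finset.mem_singleton.1 (hcl.2 t' (hK ht') v hv'
        (mem_ver.2 ⟨_, Finset.mem_singleton_self _, hv⟩)))
    · rintro rfl
      exact ⟨(c.edge _ (hK e.2)).1, Finset.mem_insert_self _ _⟩
  · unfold full
    congr 1
    ext v
    simp only [Finset.mem_image, Finset.mem_univ, true_and, Subtype.exists, exists_prop]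

theorem Cor.units {H T : Finset (Finset V)} {q : Finset V → V} (c : Cor H T q) :
    UnionOfUnits H := by
  classical
  obtain ⟨𝒦, hU, hd, hT⟩ := c.good.family
  have hsub : ∀ K ∈ 𝒦, K ⊆ T := fun K hK t ht => (hT t).2 ⟨K, hK, ht⟩
  have hne : ∀ t ∈ T, ∃ v, v ∈ t := fun t ht =>
    Finset.card_pos.1 (by rw [c.good.ext.1 t ht]; norm_num)
  have hfull : ∀ K ∈ 𝒦, ∀ K' ∈ 𝒦, ∀ v, v ∈ full K q → v ∈ full K' q → K = K' := by
    intro K hK K' hK' v hv hv'
    obtain ⟨t, ht, hvt⟩ := mem_full.1 hv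
    obtain ⟨s, hs, hvs⟩ := mem_full.1 hv'
    rcases Finset.mem_insert.1 hvt with rfl | hvt
    · rcases Finset.mem_insert.1 hvs with h | h
      · have h1 := c.inj t (hsub K hK ht) s (hsub K' hK' hs) h
        subst h1
        obtain ⟨w, hw⟩ := hne t (hsub K hK ht)
        exact hd K hK K' hK' w (mem_ver.2 ⟨t, ht, hw⟩) (mem_ver.2 ⟨t, hs, hw⟩)
      · exact absurd (mem_ver.2 ⟨s, hsub K' hK' hs, h⟩) (c.new t (hsub K hK ht))
    · rcases Finset.mem_insert.1 hvs with rfl | hvs
      · exact absurd (mem_ver.2 ⟨t, hsub K hK ht, hvt⟩) (c.new s (hsub K' hK' hs))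
      · exact hd K hK K' hK' v (mem_ver.2 ⟨t, ht, hvt⟩) (mem_ver.2 ⟨s, hs, hvs⟩)
  -- the parts which are touched single edges
  let bad : Finset (Finset V) → Prop := fun K => ∃ t ∈ T, K = {t} ∧ Touched H q t
  have hbadc : ∀ t ∈ T, ({t} : Finset (Finset V)) ∈ 𝒦 → Closed T {t} := by
    intro t ht hK
    refine ⟨Finset.singleton_subset_iff.2 ht, fun e he v hv hv' => ?_⟩
    obtain ⟨K', hK', heK'⟩ := (hT e).1 he
    have := hd _ hK _ hK' v hv' (mem_ver.2 ⟨e, heK', hv⟩)
    rw [this]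
    exact heK'
  have hsingle : ∀ s ∈ T, Closed T {s} → ({s} : Finset (Finset V)) ∈ 𝒦 := by
    intro s hs hc
    obtain ⟨K, hK, hsK⟩ := (hT s).1 hs
    have h1 : Closed K {s} := ⟨Finset.singleton_subset_iff.2 hsK, fun e he v hv hv' =>
      hc.2 e (hsub K hK he) v hv hv'⟩
    rw [← (hU K hK).eq_singleton hsK h1]
    exact hK
  let P : Finset (Finset V) := (𝒦.filter fun K => ¬ bad K).image (fun K => full K q) ∪
    (𝒦.filter fun K => bad K).image fun K => around H (full K q)
  have hP : ∀ U, U ∈ P ↔ (∃ K ∈ 𝒦, ¬ bad K ∧ U = full K q) ∨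
      ∃ t ∈ T, Closed T {t} ∧ Touched H q t ∧ U = around H (insert (q t) t) := by
    intro U
    simp only [P, Finset.mem_union, Finset.mem_image, Finset.mem_filter]
    have hf1 : ∀ t, full {t} q = insert (q t) t := by
      intro t
      ext v
      rw [mem_full]
      simp
    constructor
    · rintro (⟨K, ⟨hK, hb⟩, rfl⟩ | ⟨K, ⟨hK, hb⟩, rfl⟩)
      · exact Or.inl ⟨K, hK, hb, rfl⟩
      · obtain ⟨t, ht, rfl, htt⟩ := hb
        exact Or.inr ⟨t, ht, hbadc t ht hK, htt, by rw [hf1]⟩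
    · rintro (⟨K, hK, hb, rfl⟩ | ⟨t, ht, hc, htt, rfl⟩)
      · exact Or.inl ⟨K, ⟨hK, hb⟩, rfl⟩
      · exact Or.inr ⟨{t}, ⟨hsingle t ht hc, t, ht, rfl, htt⟩, by rw [hf1]⟩
  refine ⟨P, fun U hUP => ?_, fun v => ?_⟩
  · rcases (hP U).1 hUP with ⟨K, hK, hb, rfl⟩ | ⟨t, ht, hc, htt, rfl⟩
    · have hKT := hsub K hK
      cases hU K hK with
      | @edge a b d h =>
        have ht : ({a, b, d} : Finset V) ∈ T := hKT (Finset.mem_singleton_self _)
        have h1 : ¬ Touched H q {a, b, d} := fun htt => hb ⟨_, ht, rfl, htt⟩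
        unfold Touched at h1
        push Not at h1
        obtain ⟨y, hy, hall⟩ := h1
        have hf1 : full {({a, b, d} : Finset V)} q = insert (q {a, b, d}) {a, b, d} := by
          ext v
          rw [mem_full]
          simp
        rw [hf1]
        refine LinearUnit.edge (v := y) (fun f => ⟨fun ⟨hf, hyf⟩ => ?_, ?_⟩) ?_
        · by_contra hne'
          exact hall f hf hne' hyf
        · rintro rfl
          exact ⟨(c.edge _ ht).1, hy⟩
        · rw [Finset.card_insert_of_notMem fun h => c.new _ ht (mem_ver.2 ⟨_, ht, h⟩),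
            c.good.ext.1 _ ht]
      | seven h => exact LinearUnit.seven h (corona_unit c hKT (rigid_seven h))
      | eight h => exact LinearUnit.eight h (corona_unit c hKT (rigid_eight h))
    · exact (c.grid_unit ht hc htt).1
  · -- every vertex lies in exactly one of the sets
    obtain ⟨t, ht, hvt⟩ : ∃ t ∈ T, v ∈ insert (q t) t := by
      rcases c.all v with h | ⟨t, ht, rfl⟩
      · obtain ⟨t, ht, hv⟩ := mem_ver.1 h
        exact ⟨t, ht, Finset.mem_insert_of_mem hv⟩
      · exact ⟨t, ht, Finset.mem_insert_self _ _⟩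
    -- mixed case
    have hmix : ∀ K ∈ 𝒦, ¬ bad K → v ∈ full K q → ∀ s ∈ T, Closed T {s} → Touched H q s →
        v ∈ around H (insert (q s) s) → False := by
      intro K hK hb hvK s hs hsc hst hvs
      obtain ⟨r, hr, hrc, hrt, hvr, -⟩ := (c.grid_unit hs hsc hst).2 v hvs
      have h1 : v ∈ full {r} q := mem_full.2 ⟨r, Finset.mem_singleton_self _, hvr⟩
      have h2 := hfull K hK {r} (hsingle r hr hrc) v hvK h1
      exact hb ⟨r, hr, h2, hrt⟩
    obtain ⟨K, hK, htK⟩ := (hT t).1 ht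
    by_cases hb : bad K
    · obtain ⟨s, hs, rfl, hst⟩ := hb
      have hts := Finset.mem_singleton.1 htK
      subst hts
      have hcl := hbadc t ht hK
      have hmem : v ∈ around H (insert (q t) t) :=
        mem_around.2 ⟨_, (c.edge t ht).1, ⟨v, hvt, hvt⟩, hvt⟩
      refine ⟨around H (insert (q t) t), ⟨(hP _).2 (Or.inr ⟨t, ht, hcl, hst, rfl⟩), hmem⟩, ?_⟩
      rintro U ⟨hUP, hvU⟩
      rcases (hP U).1 hUP with ⟨K', hK', hb', rfl⟩ | ⟨r, hr, hrc, hrt, rfl⟩
      · exact (hmix K' hK' hb' hvU t ht hcl hst hmem).elim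
      · obtain ⟨s₁, hs₁, hsc₁, -, hvs₁, e₁⟩ := (c.grid_unit hr hrc hrt).2 v hvU
        obtain ⟨s₂, hs₂, -, -, hvs₂, e₂⟩ := (c.grid_unit ht hcl hst).2 v hmem
        have := c.eq_of_closed hs₁ hs₂ hsc₁ hvs₁ hvs₂
        rw [← e₁, ← e₂, this]
    · have hvK : v ∈ full K q := mem_full.2 ⟨t, htK, hvt⟩
      refine ⟨full K q, ⟨(hP _).2 (Or.inl ⟨K, hK, hb, rfl⟩), hvK⟩, ?_⟩
      rintro U ⟨hUP, hvU⟩
      rcases (hP U).1 hUP with ⟨K', hK', hb', rfl⟩ | ⟨r, hr, hrc, hrt, rfl⟩
      · rw [hfull K' hK' K hK v hvU hvK]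
      · exact (hmix K hK hb hvK r hr hrc hrt hvU).elim

theorem main_linear [Fintype V] (H : Finset (Finset V)) (h4 : ∀ e ∈ H, 4 ≤ e.card)
    (hcov : ∀ v : V, ∃ e, LinearEdge H e ∧ v ∈ e) :
    4 * domNumber H = Fintype.card V ↔ UnionOfUnits H := by
  constructor
  · intro h
    rcases isEmpty_or_nonempty V with hV | hV
    · exact ⟨∅, fun U hU => absurd hU (Finset.notMem_empty U), fun v => hV.elim v⟩
    obtain ⟨T, q, c⟩ := exists_cor H h4 hcov h
    exact c.units
  · intro h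
    obtain ⟨D, hD, hDc⟩ := exists_dom H
    have h1 := card_le_of_units h hD
    have h2 : ∀ v : V, ∃ e ∈ H, v ∈ e := fun v => by
      obtain ⟨e, he, hve⟩ := hcov v
      exact ⟨e, he.1, hve⟩
    obtain ⟨C, hC, -⟩ := exists_minCover h4 h2
      (S := Finset.univ) (fun v hv => absurd (Finset.mem_univ v) hv)
    have h3 := dom_le hC
    omega

end Pool.Agent.MP284513
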