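import Pool.Agent.Lib.MP_284513_co.CM

/-!
# Domination number and minimal covers
-/

set_option linter.unusedSectionVars false

namespace Pool.Agent.MP284513

variable {V : Type} [DecidableEq V]

/-- The transversal number of `T`. -/
noncomputable def transNumber (T : Finset (Finset V)) : ℕ :=
  sInf {k | ∃ S : Finset V, Trans T S ∧ S.card = k}

/-- `p` chooses in every member `c` of `C` a private vertex, that is, a vertex which lies in no other
member of `C`. -/
def IsPrivate (C : Finset (Finset V)) (p : Finset V → V) : Prop :=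
  ∀ c ∈ C, p c ∈ c ∧ ∀ d ∈ C, p c ∈ d → d = c

/-- `T` is 3-uniform and its transversal number is equal to one quarter of the number of the vertices
plus the number of the edges. -/
def Extremal (T : Finset (Finset V)) : Prop :=
  (∀ e ∈ T, e.card = 3) ∧ 4 * transNumber T = (ver T).card + T.card

theorem transNumber_le {T : Finset (Finset V)} {S : Finset V} (h : Trans T S) :
    transNumber T ≤ S.card := Nat.sInf_le ⟨S, h, rfl⟩

theorem exists_trans {T : Finset (Finset V)} (h : ∀ e ∈ T, e.Nonempty) :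
    ∃ S, Trans T S ∧ S.card = transNumber T := by
  have h1 : ({k | ∃ S : Finset V, Trans T S ∧ S.card = k} : Set ℕ).Nonempty := by
    refine ⟨_, ver T, ?_, rfl⟩
    intro e he
    obtain ⟨x, hx⟩ := h e he
    exact ⟨x, mem_ver.2 ⟨e, he, hx⟩, hx⟩
  exact Nat.sInf_mem h1

theorem domNumber_le {H : Finset (Finset V)} {S : Finset V} (h : Dominating H S) :
    domNumber H ≤ S.card := Nat.sInf_le ⟨S, h, rfl⟩

theorem exists_dom [Fintype V] (H : Finset (Finset V)) :
    ∃ S, Dominating H S ∧ S.card = domNumber H := by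
  have h1 : ({k | ∃ S : Finset V, Dominating H S ∧ S.card = k} : Set ℕ).Nonempty :=
    ⟨_, Finset.univ, fun v hv => absurd (Finset.mem_univ v) hv, rfl⟩
  exact Nat.sInf_mem h1

theorem nonempty_of_three {e : Finset V} (h : e.card = 3) : e.Nonempty :=
  Finset.card_pos.1 (by omega)

theorem extremal_iff {T : Finset (Finset V)} : Extremal T ↔ Ext T := by
  constructor
  · rintro ⟨h3, h⟩
    refine ⟨h3, fun S hS => ?_⟩
    have := transNumber_le hS
    omega
  · rintro ⟨h3, h⟩
    refine ⟨h3, ?_⟩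
    obtain ⟨S, hS, hc⟩ := exists_trans fun e he => nonempty_of_three (h3 e he)
    have h1 := h S hS
    obtain ⟨S', hS', hc'⟩ := cm T h3
    have h2 := transNumber_le hS'
    omega

theorem IsMinCover.exists_private {H C : Finset (Finset V)} (h : IsMinCover H C) {c : Finset V}
    (hc : c ∈ C) : ∃ v ∈ c, ∀ d ∈ C, v ∈ d → d = c := by
  obtain ⟨v, hv⟩ := h.minimal (C.erase c) (Finset.erase_ssubset hc)
  obtain ⟨d, hd, hvd⟩ := h.cover v
  have hall : ∀ d ∈ C, v ∈ d → d = c := by
    intro d hd hvd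
    by_contra hne
    exact hv d (Finset.mem_erase.2 ⟨hne, hd⟩) hvd
  exact ⟨v, hall d hd hvd ▸ hvd, hall⟩

/-- the hypergraph obtained from `C` by deleting the private vertices -/
def shrink (C : Finset (Finset V)) (p : Finset V → V) : Finset (Finset V) :=
  C.image fun c => c.erase (p c)

section

variable [Fintype V] {H C : Finset (Finset V)} {p : Finset V → V}

theorem shrink_three (hC : IsMinCover H C) (hp : IsPrivate C p) :
    ∀ e ∈ shrink C p, e.card = 3 := by
  intro e he
  obtain ⟨c, hc, rfl⟩ := Finset.mem_image.1 he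
  rw [Finset.card_erase_of_mem (hp c hc).1, (hC.four c hc).1]

theorem card_image_private (hp : IsPrivate C p) : (C.image p).card = C.card := by
  refine Finset.card_image_of_injOn ?_
  intro c hc d hd hcd
  have hcd' : p c = p d := hcd
  exact (hp d hd).2 c hc (hcd' ▸ (hp c hc).1)

theorem ver_shrink (hC : IsMinCover H C) (hp : IsPrivate C p) :
    ver (shrink C p) = Finset.univ \ C.image p := by
  ext v
  rw [mem_ver, Finset.mem_sdiff]
  constructor
  · rintro ⟨e, he, hv⟩
    obtain ⟨c, hc, rfl⟩ := Finset.mem_image.1 he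
    refine ⟨Finset.mem_univ v, fun h1 => ?_⟩
    obtain ⟨d, hd, hpd⟩ := Finset.mem_image.1 h1
    obtain ⟨h2, h3⟩ := Finset.mem_erase.1 hv
    have h4 := (hp d hd).2 c hc (hpd ▸ h3)
    rw [h4] at h2
    exact h2 hpd.symm
  · rintro ⟨-, h1⟩
    obtain ⟨c, hc, hvc⟩ := hC.cover v
    refine ⟨c.erase (p c), Finset.mem_image_of_mem _ hc, Finset.mem_erase.2 ⟨?_, hvc⟩⟩
    rintro rfl
    exact h1 (Finset.mem_image_of_mem _ hc)

theorem card_ver_shrink (hC : IsMinCover H C) (hp : IsPrivate C p) :
    (ver (shrink C p)).card + C.card = Fintype.card V := by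
  rw [ver_shrink hC hp, ← card_image_private hp, Finset.card_sdiff_of_subset
    (Finset.subset_univ _), Finset.card_univ]
  have := Finset.card_le_univ (C.image p)
  omega

/-- a transversal of the shrunk cover dominates -/
theorem dominating_of_trans (hC : IsMinCover H C) {S : Finset V} (hS : Trans (shrink C p) S) :
    Dominating H S := by
  intro v _
  obtain ⟨c, hc, hvc⟩ := hC.cover v
  obtain ⟨x, hx, hxc⟩ := hS _ (Finset.mem_image_of_mem _ hc)
  obtain ⟨e, he, hce⟩ := (hC.four c hc).2
  exact ⟨x, hx, e, he, hce (Finset.mem_of_mem_erase hxc), hce hvc⟩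

/-- a minimal cover all of whose members meet the dominating set `S` -/
theorem exists_minCover (h4 : ∀ e ∈ H, 4 ≤ e.card) (h1 : ∀ v : V, ∃ e ∈ H, v ∈ e)
    {S : Finset V} (hS : Dominating H S) : ∃ C, IsMinCover H C ∧ Trans C S := by
  classical
  have hcov : ∀ v : V, ∃ c : Finset V, c.card = 4 ∧ (∃ e ∈ H, c ⊆ e) ∧ v ∈ c ∧
      ∃ x ∈ S, x ∈ c := by
    intro v
    obtain ⟨u, hu, e, he, hue, hve⟩ : ∃ u ∈ S, ∃ e ∈ H, u ∈ e ∧ v ∈ e := by
      by_cases hv : v ∈ S
      · obtain ⟨e, he, hve⟩ := h1 v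
        exact ⟨v, hv, e, he, hve, hve⟩
      · exact hS v hv
    have h2 : ({u, v} : Finset V) ⊆ e := by
      intro z hz
      rw [Finset.mem_insert, Finset.mem_singleton] at hz
      rcases hz with rfl | rfl <;> assumption
    obtain ⟨c, hc1, hc2, hc3⟩ := Finset.exists_subsuperset_card_eq h2
      (Finset.card_le_two.trans (by norm_num)) (h4 e he)
    exact ⟨c, hc3, ⟨e, he, hc2⟩, hc1 (by simp), u, hu, hc1 (by simp)⟩
  let F : Finset (Finset (Finset V)) := Finset.univ.filter fun C =>
    (∀ c ∈ C, c.card = 4 ∧ (∃ e ∈ H, c ⊆ e) ∧ ∃ x ∈ S, x ∈ c) ∧ ∀ v : V, ∃ c ∈ C, v ∈ c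
  have hF : F.Nonempty := by
    choose c hc1 hc2 hc3 hc4 using hcov
    refine ⟨Finset.univ.image c, ?_⟩
    rw [Finset.mem_filter]
    refine ⟨Finset.mem_univ _, ?_, fun v => ⟨c v, Finset.mem_image_of_mem _ (Finset.mem_univ v),
      hc3 v⟩⟩
    intro d hd
    obtain ⟨v, -, rfl⟩ := Finset.mem_image.1 hd
    exact ⟨hc1 v, hc2 v, hc4 v⟩
  obtain ⟨C, hC, hmin⟩ := Finset.exists_min_image F Finset.card hF
  obtain ⟨-, hC1, hC2⟩ := Finset.mem_filter.1 hC
  refine ⟨C, ⟨fun c hc => ⟨(hC1 c hc).1, (hC1 c hc).2.1⟩, hC2, ?_⟩, fun c hc => (hC1 c hc).2.2⟩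
  intro D hD
  by_contra hcon
  push Not at hcon
  have h5 : D ∈ F := by
    rw [Finset.mem_filter]
    exact ⟨Finset.mem_univ _, fun c hc => hC1 c (hD.1 hc), hcon⟩
  have h6 := hmin D h5
  have h7 := Finset.card_lt_card hD
  omega

/-- from a transversal of the cover to one of the shrunk cover -/
theorem exists_trans_shrink (hC : IsMinCover H C) (hp : IsPrivate C p) {S : Finset V}
    (hS : Trans C S) : ∃ S', Trans (shrink C p) S' ∧ S'.card ≤ S.card := by
  classical
  have h1 : ∀ c : Finset V, ∃ x : V, c ∈ C → x ∈ c ∧ x ≠ p c := by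
    intro c
    by_cases hc : c ∈ C
    · have h2 : 0 < (c.erase (p c)).card := by
        rw [Finset.card_erase_of_mem (hp c hc).1, (hC.four c hc).1]
        norm_num
      obtain ⟨x, hx⟩ := Finset.card_pos.1 h2
      obtain ⟨h3, h4⟩ := Finset.mem_erase.1 hx
      exact ⟨x, fun _ => ⟨h4, h3⟩⟩
    · exact ⟨p c, fun h => absurd h hc⟩
  choose q hq using h1
  -- the map which moves the private vertices
  let g : V → V := fun v => if h : ∃ c ∈ C, p c = v then q h.choose else v
  refine ⟨S.image g, ?_, Finset.card_image_le⟩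
  intro e he
  obtain ⟨c, hc, rfl⟩ := Finset.mem_image.1 he
  obtain ⟨x, hx, hxc⟩ := hS c hc
  refine ⟨g x, Finset.mem_image_of_mem _ hx, ?_⟩
  rw [Finset.mem_erase]
  by_cases h : ∃ d ∈ C, p d = x
  · have h2 : g x = q h.choose := dif_pos h
    obtain ⟨h3, h4⟩ := h.choose_spec
    have h5 : c = h.choose := (hp _ h3).2 c hc (h4.symm ▸ hxc)
    rw [h2, ← h5]
    exact ⟨(hq c hc).2, (hq c hc).1⟩
  · have h2 : g x = x := dif_neg h
    rw [h2]
    refine ⟨?_, hxc⟩
    rintro rfl
    exact h ⟨c, hc, rfl⟩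

end

/-- **The reduction.** -/
theorem main [Fintype V] (H : Finset (Finset V)) (h4 : ∀ e ∈ H, 4 ≤ e.card)
    (h1 : ∀ v : V, ∃ e ∈ H, v ∈ e) :
    4 * domNumber H = Fintype.card V ↔
      ∀ C, IsMinCover H C → ∀ p, IsPrivate C p →
        Set.InjOn (fun c => c.erase (p c)) (C : Set (Finset V)) ∧ Extremal (shrink C p) := by
  constructor
  · intro h C hC p hp
    have h3 := shrink_three hC hp
    obtain ⟨S, hS, hc⟩ := cm (shrink C p) h3
    have h5 := domNumber_le (dominating_of_trans hC hS)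
    have h6 := card_ver_shrink hC hp
    have h7 : (shrink C p).card ≤ C.card := Finset.card_image_le
    have h8 : (shrink C p).card = C.card := by omega
    refine ⟨Finset.card_image_iff.1 h8, ?_⟩
    rw [extremal_iff]
    refine ⟨h3, fun S' hS' => ?_⟩
    have h9 := domNumber_le (dominating_of_trans hC hS')
    omega
  · intro h
    rcases isEmpty_or_nonempty V with hV | hV
    · have h2 : Dominating H ∅ := fun v => (hV.false v).elim
      have h3 := domNumber_le h2
      rw [Finset.card_empty] at h3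
      rw [Fintype.card_eq_zero]
      omega
    obtain ⟨S, hS, hSc⟩ := exists_dom H
    obtain ⟨C, hC, hCS⟩ := exists_minCover h4 h1 hS
    have hpr : ∀ c ∈ C, ∃ v : V, v ∈ c ∧ ∀ d ∈ C, v ∈ d → d = c := fun c hc =>
      hC.exists_private hc
    choose! p hp using hpr
    obtain ⟨h5, h6⟩ := h C hC p hp
    rw [extremal_iff] at h6
    have h7 : (shrink C p).card = C.card := Finset.card_image_iff.2 h5
    have h8 := card_ver_shrink hC hp
    obtain ⟨S', hS', hc'⟩ := exists_trans_shrink hC hp hCS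
    have h9 := h6.2 S' hS'
    obtain ⟨S'', hS'', hc''⟩ := cm (shrink C p) h6.1
    have h10 := domNumber_le (dominating_of_trans hC hS'')
    omega

end Pool.Agent.MP284513
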