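import Pool.Agent.Lib.MP_284513_co.Fwd3
import Pool.Agent.Lib.MP_284513_co.Reduction

/-!
# The list of the extremal 3-uniform hypergraphs, and the hypergraphs with domination number `n / 4`
-/

set_option linter.unusedSectionVars false

namespace Pool.Agent.MP284513

variable {V : Type} [DecidableEq V]

/-- two of the three edges through `x` have a second common vertex -/
theorem Ctx.common {T : Finset (Finset V)} {x : V} {β : V → V} (c : Ctx T x β)
    {e₁ e₂ e₃ : Finset V} (hs : star T x = {e₁, e₂, e₃}) (h12 : e₁ ≠ e₂) (h13 : e₁ ≠ e₃)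
    (h23 : e₂ ≠ e₃) {s : V} (hsx : s ≠ x) (h1 : s ∈ e₁) (h2 : s ∈ e₂) : Good T := by
  have m1 : e₁ ∈ star T x := by rw [hs]; simp
  have m2 : e₂ ∈ star T x := by rw [hs]; simp
  have m3 : e₃ ∈ star T x := by rw [hs]; simp
  have c1 := c.ext.1 e₁ (mem_star.1 m1).1
  have c2 := c.ext.1 e₂ (mem_star.1 m2).1
  have c3 := c.ext.1 e₃ (mem_star.1 m3).1
  have hs3 : s ∉ e₃ := by
    intro h3
    have h4 := star_add c.ext (star T x) (Finset.Subset.refl _) (z := s) (by
      intro e he
      rw [hs] at he
      simp only [Finset.mem_insert, Finset.mem_singleton] at he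
      rcases he with rfl | rfl | rfl <;> assumption) (c.keep e₁ m1 s h1 hsx)
    have h5 := card_star_pos (c.keep e₁ m1 s h1 hsx)
    rw [hs, Finset.card_eq_three.2 ⟨e₁, e₂, e₃, h12, h13, h23, rfl⟩] at h4
    omega
  obtain ⟨t₁, ht₁x, ht₁s, rfl⟩ := three_pair c1 (mem_star.1 m1).2 h1 hsx.symm
  obtain ⟨t₂, ht₂x, ht₂s, rfl⟩ := three_pair c2 (mem_star.1 m2).2 h2 hsx.symm
  obtain ⟨u, v, hux, hvx, huv, rfl⟩ := three_one c3 (mem_star.1 m3).2
  simp only [Finset.mem_insert, Finset.mem_singleton, not_or] at hs3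
  refine c.alpha hs hsx ht₁x ht₂x hux hvx ht₁s.symm ht₂s.symm ?_ huv hs3.2.1 hs3.2.2
  rintro rfl
  exact h12 rfl

/-- the vertices which vanish with `x` -/
theorem lost_mem {T : Finset (Finset V)} {x y : V} (hy' : y ∉ ver (del T x)) :
    ∀ f ∈ T, y ∈ f → x ∈ f := by
  intro f hf hyf
  by_contra hx
  exact hy' (mem_ver.2 ⟨f, mem_del.2 ⟨hf, hx⟩, hyf⟩)

/-- no twins: the vertices with `drop = 4` have degree three -/
theorem caseB {T : Finset (Finset V)} (h : Ext T)
    (ih : ∀ T' : Finset (Finset V), T'.card < T.card → Ext T' → Good T') (hnt : NoTwins T)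
    (hne : T.Nonempty) : Good T := by
  obtain ⟨x, hx, hdrop⟩ := h.exists_drop hne
  have h4 : 4 + (ver (del T x)).card ≤ (star T x).card + (ver T).card := hdrop.ge
  have hT' : Ext (del T x) := h.delete h4
  have hpos := card_star_pos hx
  have hdeg := h.deg_le hx
  have hlt : (del T x).card < T.card := by
    have := card_star_add_del T x
    omega
  obtain ⟨β, hβ⟩ := (ih _ hlt hT').blocks
  have hsub : ver (del T x) ⊆ ver T := ver_mono (del_subset T x)
  have hlost := Finset.card_sdiff_add_card_eq_card hsub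
  have hxl : x ∈ ver T \ ver (del T x) := Finset.mem_sdiff.2 ⟨hx, notMem_ver_del T x⟩
  have hcase : (star T x).card = 1 ∨ (star T x).card = 2 ∨ (star T x).card = 3 := by omega
  rcases hcase with hd | hd | hd
  · -- degree one
    exfalso
    have h1 : 1 < (ver T \ ver (del T x)).card := by omega
    obtain ⟨y, hy, hyx⟩ := Finset.exists_mem_ne h1 x
    obtain ⟨hyT, hyd⟩ := Finset.mem_sdiff.1 hy
    obtain ⟨e, hse⟩ := Finset.card_eq_one.1 hd
    have hall : ∀ f ∈ T, x ∈ f → f = e := by
      intro f hf hxf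
      have : f ∈ star T x := mem_star.2 ⟨hf, hxf⟩
      rwa [hse, Finset.mem_singleton] at this
    have hyx' := lost_mem hyd
    have hye : y ∈ e := by
      obtain ⟨f, hf, hyf⟩ := mem_ver.1 hyT
      rw [← hall f hf (hyx' f hf hyf)]
      exact hyf
    refine hnt x y hyx.symm hx fun f hf => ⟨fun hxf => ?_, hyx' f hf⟩
    rw [hall f hf hxf]
    exact hye
  · -- degree two
    exfalso
    have h1 : (ver T \ ver (del T x)).card = 2 := by omega
    obtain ⟨y, hy, hyx⟩ := Finset.exists_mem_ne (by omega :
      1 < (ver T \ ver (del T x)).card) x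
    obtain ⟨hyT, hyd⟩ := Finset.mem_sdiff.1 hy
    have hL : ver T \ ver (del T x) = {x, y} := by
      refine (Finset.eq_of_subset_of_card_le ?_ ?_).symm
      · intro z hz
        rw [Finset.mem_insert, Finset.mem_singleton] at hz
        rcases hz with rfl | rfl <;> assumption
      · rw [h1, Finset.card_pair hyx.symm]
    have hkeep : ∀ z ∈ ver T, z ≠ x → z ≠ y → z ∈ ver (del T x) := by
      intro z hz hzx hzy
      by_contra hcon
      have : z ∈ ver T \ ver (del T x) := Finset.mem_sdiff.2 ⟨hz, hcon⟩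
      rw [hL, Finset.mem_insert, Finset.mem_singleton] at this
      rcases this with h | h
      · exact hzx h
      · exact hzy h
    obtain ⟨e₁, e₂, h12, hse⟩ := Finset.card_eq_two.1 hd
    have hyx' := lost_mem hyd
    -- the situation up to the order of the edges
    have key : ∀ e₁ e₂ : Finset V, e₁ ≠ e₂ → star T x = {e₁, e₂} → y ∈ e₁ → y ∉ e₂ → False := by
      intro e₁ e₂ h12 hse hy₁ hy₂
      have m1 : e₁ ∈ star T x := by rw [hse]; simp
      have m2 : e₂ ∈ star T x := by rw [hse]; simp
      obtain ⟨he₁, hx₁⟩ := mem_star.1 m1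
      obtain ⟨he₂, hx₂⟩ := mem_star.1 m2
      obtain ⟨z, hzx, hzy, rfl⟩ := three_pair (h.1 e₁ he₁) hx₁ hy₁ hyx.symm
      obtain ⟨u, v, hux, hvx, huv, rfl⟩ := three_one (h.1 e₂ he₂) hx₂
      simp only [Finset.mem_insert, Finset.mem_singleton, not_or] at hy₂
      have hz' := hkeep z (mem_ver.2 ⟨_, he₁, by simp⟩) hzx hzy
      have hu' := hkeep u (mem_ver.2 ⟨_, he₂, by simp⟩) hux (Ne.symm hy₂.2.1)
      have hv' := hkeep v (mem_ver.2 ⟨_, he₂, by simp⟩) hvx (Ne.symm hy₂.2.2)
      have lz := low_of_star h m1 (z := z) (by simp) hz'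
      have lu := low_of_star h m2 (z := u) (by simp) hu'
      have lv := low_of_star h m2 (z := v) (by simp) hv'
      have hno : ∀ S, Opt (del T x) S → z ∈ S → (u ∈ S ∨ v ∈ S) → False := by
        intro S hS hzS huS
        refine h.not_trans h4 hS (trans_of_star hS.1 fun e he => ?_)
        rw [hse, Finset.mem_insert, Finset.mem_singleton] at he
        rcases he with rfl | rfl
        · exact ⟨z, hzS, by simp⟩
        · rcases huS with h | h
          · exact ⟨u, h, by simp⟩
          · exact ⟨v, h, by simp⟩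
      have hzu : z ≠ u := by
        rintro rfl
        obtain ⟨S, hS, hzS⟩ := hT'.opt_mem hz'
        exact hno S hS hzS (Or.inl hzS)
      have hzv : z ≠ v := by
        rintro rfl
        obtain ⟨S, hS, hzS⟩ := hT'.opt_mem hz'
        exact hno S hS hzS (Or.inr hzS)
      have ezu := hβ.same lz lu fun S hS h1 h2 => hno S hS h1 (Or.inl h2)
      have ezv := hβ.same lz lv fun S hS h1 h2 => hno S hS h1 (Or.inr h2)
      obtain ⟨-, hk⟩ := kind3 hβ lz lu lv hzu hzv huv ezu ezv
      rcases hk with hc | ⟨K, a, b, d, p, q, hK, hc, hiff, hp, hq⟩ | ⟨y', b₁, b₂, b₃, hn, hc⟩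
      · refine hnt u v huv (hsub hu') fun f hf => ?_
        by_cases hxf : x ∈ f
        · have h5 : f ∈ star T x := mem_star.2 ⟨hf, hxf⟩
          rw [hse] at h5
          simp only [Finset.mem_insert, Finset.mem_singleton] at h5
          rcases h5 with rfl | rfl <;> simp only [Finset.mem_insert, Finset.mem_singleton] <;>
            grind
        · have h5 := mem_del.2 ⟨hf, hxf⟩
          constructor
          · intro h6
            have h7 := hc.2 f h5 u h6 (by simp [mem_ver])
            rw [Finset.mem_singleton] at h7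
            rw [h7]
            simp
          · intro h6
            have h7 := hc.2 f h5 v h6 (by simp [mem_ver])
            rw [Finset.mem_singleton] at h7
            rw [h7]
            simp
      · obtain ⟨ha, hb, hdv, hpv, hqv⟩ := hK.mem_ver
        have hn := hK.nodup
        simp only [List.nodup_cons, List.mem_cons, List.not_mem_nil] at hn
        have hxK : ∀ t ∈ ver K, t ≠ x ∧ t ≠ y := by
          intro t ht
          constructor
          · rintro rfl
            exact notMem_ver_del T t (ver_mono hc.1 ht)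
          · rintro rfl
            exact hyd (ver_mono hc.1 ht)
        have hp1 := hxK p hpv
        have hq1 := hxK q hqv
        have hz1 := (hiff z).2 (by simp)
        have hu1 := (hiff u).2 (by simp)
        have hv1 := (hiff v).2 (by simp)
        refine no_twin_chain hnt hK hc ?_ ?_
        · intro e he
          rw [hse] at he
          simp only [Finset.mem_insert, Finset.mem_singleton] at he
          rcases he with rfl | rfl <;> simp only [Finset.mem_insert, Finset.mem_singleton] <;>
            grind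
        · intro e he
          rw [hse] at he
          simp only [Finset.mem_insert, Finset.mem_singleton] at he
          rcases he with rfl | rfl <;> simp only [Finset.mem_insert, Finset.mem_singleton] <;>
            grind
      · obtain ⟨S', hS', hSS⟩ := hc.opt hT' (seven_opt_a hn)
        exact hno S' hS' (hSS (by simp)) (Or.inl (hSS (by simp)))
    have m1 : e₁ ∈ star T x := by rw [hse]; simp
    have m2 : e₂ ∈ star T x := by rw [hse]; simp
    have hy12 : y ∈ e₁ ∨ y ∈ e₂ := by
      obtain ⟨f, hf, hyf⟩ := mem_ver.1 hyT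
      have h5 : f ∈ star T x := mem_star.2 ⟨hf, hyx' f hf hyf⟩
      rw [hse, Finset.mem_insert, Finset.mem_singleton] at h5
      rcases h5 with rfl | rfl
      · exact Or.inl hyf
      · exact Or.inr hyf
    by_cases hy₁ : y ∈ e₁
    · by_cases hy₂ : y ∈ e₂
      · refine hnt x y hyx.symm hx fun f hf => ⟨fun hxf => ?_, hyx' f hf⟩
        have h5 : f ∈ star T x := mem_star.2 ⟨hf, hxf⟩
        rw [hse, Finset.mem_insert, Finset.mem_singleton] at h5
        rcases h5 with rfl | rfl <;> assumption
      · exact key e₁ e₂ h12 hse hy₁ hy₂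
    · exact key e₂ e₁ h12.symm (by rw [hse, Finset.pair_comm]) (hy12.resolve_left hy₁) hy₁
  · -- degree three
    have h1 : (ver T \ ver (del T x)).card = 1 := by omega
    have hL : ver T \ ver (del T x) = {x} := by
      refine (Finset.eq_of_subset_of_card_le ?_ ?_).symm
      · intro z hz
        rw [Finset.mem_singleton] at hz
        rw [hz]
        exact hxl
      · rw [h1, Finset.card_singleton]
    have c : Ctx T x β := by
      refine ⟨h, ih, hnt, h4, hβ, fun e he v hv hvx => ?_⟩
      by_contra hcon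
      have : v ∈ ver T \ ver (del T x) :=
        Finset.mem_sdiff.2 ⟨mem_ver.2 ⟨e, (mem_star.1 he).1, hv⟩, hcon⟩
      rw [hL, Finset.mem_singleton] at this
      exact hvx this
    obtain ⟨e₁, e₂, e₃, h12, h13, h23, hse⟩ := Finset.card_eq_three.1 hd
    by_cases k12 : ∃ s, s ≠ x ∧ s ∈ e₁ ∧ s ∈ e₂
    · obtain ⟨s, hsx, hs1, hs2⟩ := k12
      exact c.common hse h12 h13 h23 hsx hs1 hs2
    by_cases k13 : ∃ s, s ≠ x ∧ s ∈ e₁ ∧ s ∈ e₃
    · obtain ⟨s, hsx, hs1, hs2⟩ := k13
      exact c.common (by rw [hse, Finset.pair_comm e₂]) h13 h12 h23.symm hsx hs1 hs2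
    by_cases k23 : ∃ s, s ≠ x ∧ s ∈ e₂ ∧ s ∈ e₃
    · obtain ⟨s, hsx, hs1, hs2⟩ := k23
      exact c.common (by rw [hse, Finset.insert_comm, Finset.pair_comm e₁]) h23 h12.symm h13.symm
        hsx hs1 hs2
    push Not at k12 k13 k23
    have m1 : e₁ ∈ star T x := by rw [hse]; simp
    have m2 : e₂ ∈ star T x := by rw [hse]; simp
    have m3 : e₃ ∈ star T x := by rw [hse]; simp
    obtain ⟨u₁, v₁, hu₁, hv₁, huv₁, rfl⟩ := three_one (h.1 e₁ (mem_star.1 m1).1) (mem_star.1 m1).2
    obtain ⟨u₂, v₂, hu₂, hv₂, huv₂, rfl⟩ := three_one (h.1 e₂ (mem_star.1 m2).1) (mem_star.1 m2).2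
    obtain ⟨u₃, v₃, hu₃, hv₃, huv₃, rfl⟩ := three_one (h.1 e₃ (mem_star.1 m3).1) (mem_star.1 m3).2
    have a1 := k12 u₁ hu₁ (by simp)
    have a2 := k12 v₁ hv₁ (by simp)
    have a3 := k13 u₁ hu₁ (by simp)
    have a4 := k13 v₁ hv₁ (by simp)
    have a5 := k23 u₂ hu₂ (by simp)
    have a6 := k23 v₂ hv₂ (by simp)
    simp only [Finset.mem_insert, Finset.mem_singleton, not_or] at a1 a2 a3 a4 a5 a6
    have hdem : Dem T x u₁ v₁ u₂ v₂ u₃ v₃ := by
      refine ⟨hse, ?_⟩
      simp only [List.nodup_cons, List.mem_cons, List.not_mem_nil, List.nodup_nil]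
      grind
    exact hdem.good c

/-- **The list of the extremal 3-uniform hypergraphs.** -/
theorem ext_iff_good (T : Finset (Finset V)) : Ext T ↔ Good T := by
  refine ⟨fun h => ?_, Good.ext⟩
  induction hm : T.card using Nat.strong_induction_on generalizing T with
  | _ m ih =>
    subst hm
    have ih' : ∀ T' : Finset (Finset V), T'.card < T.card → Ext T' → Good T' :=
      fun T' hT' hx => ih T'.card hT' T' hx rfl
    rcases T.eq_empty_or_nonempty with rfl | hne
    · exact Good.empty
    by_cases hnt : NoTwins T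
    · exact caseB h ih' hnt hne
    · unfold NoTwins at hnt
      push Not at hnt
      obtain ⟨u, v, huv, hu, htw, -⟩ := hnt
      exact caseA h ih' huv hu htw

theorem main_list [Fintype V] (H : Finset (Finset V)) (h4 : ∀ e ∈ H, 4 ≤ e.card)
    (hcov : ∀ v : V, ∃ e ∈ H, v ∈ e) :
    4 * domNumber H = Fintype.card V ↔
      ∀ C, IsMinCover H C → ∀ p, IsPrivate C p →
        Set.InjOn (fun c => c.erase (p c)) (C : Set (Finset V)) ∧ Good (shrink C p) := by
  rw [main H h4 hcov]
  simp only [extremal_iff, ext_iff_good]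

end Pool.Agent.MP284513
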