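import Pool.Agent.Lib.MP_284513_co.Base

/-!
# Linear hypergraphs in which every vertex has degree two
-/

namespace Pool.Agent.MP284513

variable {V : Type} [DecidableEq V]

theorem Indep.no_aug {T : Finset (Finset V)} {X : Finset V} (hX : Indep T X)
    (hmax : ∀ Y, Indep T Y → Y.card ≤ X.card) (R A : Finset V) (hR : R ⊆ X) (hA : A ⊆ ver T)
    (hcard : R.card < A.card)
    (h1 : ∀ e ∈ T, ∀ a ∈ A, a ∈ e → ∀ s ∈ X, s ∈ e → s ∈ R)
    (h2 : ∀ e ∈ T, ∀ a ∈ A, ∀ b ∈ A, a ∈ e → b ∈ e → a = b) : False := by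
  have hdis : Disjoint (X \ R) A := by
    rw [Finset.disjoint_left]
    intro s hs hsA
    rw [Finset.mem_sdiff] at hs
    obtain ⟨e, he, hse⟩ := mem_ver.1 (hX.1 hs.1)
    exact hs.2 (h1 e he s hsA hse s hs.1 hse)
  have hI : Indep T ((X \ R) ∪ A) := by
    refine ⟨Finset.union_subset (Finset.sdiff_subset.trans hX.1) hA, ?_⟩
    intro e he x hx y hy hxe hye
    rw [Finset.mem_union, Finset.mem_sdiff] at hx hy
    rcases hx with hx | hx <;> rcases hy with hy | hy
    · exact hX.2 e he x hx.1 y hy.1 hxe hye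
    · exact absurd (h1 e he y hy hye x hx.1 hxe) hx.2
    · exact absurd (h1 e he x hx hxe y hy.1 hye) hy.2
    · exact h2 e he x hx y hy hxe hye
  have h3 := hmax _ hI
  rw [Finset.card_union_of_disjoint hdis, Finset.card_sdiff_of_subset hR] at h3
  have h4 := Finset.card_le_card hR
  omega

section

variable {T : Finset (Finset V)} (h : Reg2 T) {X : Finset V} (hX : Indep T X)
  (hmax : ∀ Y, Indep T Y → Y.card ≤ X.card)

include h hX hmax

/-- a vertex lies in at most one unmatched edge -/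
theorem Reg2.unm {u u' : Finset V} (hu : u ∈ T) (hu' : u' ∈ T) (hU : ∀ x ∈ X, x ∉ u)
    (hU' : ∀ x ∈ X, x ∉ u') {y : V} (hy : y ∈ u) (hy' : y ∈ u') : u = u' := by
  by_contra hne
  obtain ⟨f, hf, hfu, hyf, hall⟩ := h.other hu hy
  have hfu' : u' = f := by
    rcases hall u' hu' hy' with h1 | h1
    · exact absurd h1.symm hne
    · exact h1
  subst hfu'
  refine hX.no_aug hmax ∅ {y} (Finset.empty_subset _) ?_ (by simp) ?_ ?_
  · rw [Finset.singleton_subset_iff]
    exact mem_ver.2 ⟨u, hu, hy⟩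
  · intro e he a ha hae s hs hse
    rw [Finset.mem_singleton] at ha
    subst ha
    rcases hall e he hae with rfl | rfl
    · exact absurd hse (hU s hs)
    · exact absurd hse (hU' s hs)
  · intro e he a ha b hb _ _
    rw [Finset.mem_singleton] at ha hb
    rw [ha, hb]

/-- the augmentation of length three -/
theorem Reg2.aug {x y y' : V} {a b u u' : Finset V} (hx : x ∈ X) (ha : a ∈ T) (hb : b ∈ T)
    (hab : a ≠ b) (hxa : x ∈ a) (hxb : x ∈ b) (hu : u ∈ T) (hu' : u' ∈ T)
    (hU : ∀ s ∈ X, s ∉ u) (hU' : ∀ s ∈ X, s ∉ u') (hya : y ∈ a) (hyu : y ∈ u) (hyb : y' ∈ b)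
    (hyu' : y' ∈ u') : u = u' := by
  by_contra hne
  have hau : a ≠ u := fun h1 => hU x hx (h1 ▸ hxa)
  have hau' : a ≠ u' := fun h1 => hU' x hx (h1 ▸ hxa)
  have hbu : b ≠ u := fun h1 => hU x hx (h1 ▸ hxb)
  have hbu' : b ≠ u' := fun h1 => hU' x hx (h1 ▸ hxb)
  have hy : ∀ g ∈ T, y ∈ g → g = a ∨ g = u := by
    obtain ⟨f, hf, hfa, hyf, hall⟩ := h.other ha hya
    intro g hg hyg
    rcases hall u hu hyu with h1 | h1
    · exact absurd h1.symm hau
    · rw [h1]
      exact hall g hg hyg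
  have hy' : ∀ g ∈ T, y' ∈ g → g = b ∨ g = u' := by
    obtain ⟨f, hf, hfa, hyf, hall⟩ := h.other hb hyb
    intro g hg hyg
    rcases hall u' hu' hyu' with h1 | h1
    · exact absurd h1.symm hbu'
    · rw [h1]
      exact hall g hg hyg
  have hyy : y ≠ y' := by
    rintro rfl
    rcases hy b hb hyb with h1 | h1
    · exact hab h1.symm
    · exact hbu h1
  refine hX.no_aug hmax {x} {y, y'} (by simpa using hx) ?_ ?_ ?_ ?_
  · intro z hz
    rw [Finset.mem_insert, Finset.mem_singleton] at hz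
    rcases hz with rfl | rfl
    · exact mem_ver.2 ⟨a, ha, hya⟩
    · exact mem_ver.2 ⟨b, hb, hyb⟩
  · rw [Finset.card_singleton, Finset.card_pair hyy]
    norm_num
  · intro e he z hz hze s hs hse
    rw [Finset.mem_insert, Finset.mem_singleton] at hz
    rw [Finset.mem_singleton]
    rcases hz with rfl | rfl
    · rcases hy e he hze with rfl | rfl
      · exact hX.2 _ he s hs x hx hse hxa
      · exact absurd hse (hU s hs)
    · rcases hy' e he hze with rfl | rfl
      · exact hX.2 _ he s hs x hx hse hxb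
      · exact absurd hse (hU' s hs)
  · have key : ∀ e ∈ T, y ∈ e → y' ∈ e → False := by
      intro e he h1 h2
      rcases hy e he h1 with rfl | rfl
      · rcases hy' _ he h2 with h3 | h3
        · exact hab h3
        · exact hau' h3
      · rcases hy' _ he h2 with h3 | h3
        · exact hbu h3.symm
        · exact hne h3
    intro e he z hz w hw hze hwe
    rw [Finset.mem_insert, Finset.mem_singleton] at hz hw
    rcases hz with rfl | rfl <;> rcases hw with rfl | rfl
    · rfl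
    · exact absurd hwe fun h1 => key e he hze h1
    · exact absurd hze fun h1 => key e he hwe h1
    · rfl

end

/-- a linear 3-uniform hypergraph in which every vertex has degree two has a small transversal -/
theorem Reg2.small {T : Finset (Finset V)} (h : Reg2 T) (hne : T.Nonempty) :
    ∃ S, Trans T S ∧ 4 * S.card < (ver T).card + T.card := by
  classical
  obtain ⟨X, hX, hmax⟩ := exists_max_indep T
  set U : Finset (Finset V) := T.filter fun e => ∀ x ∈ X, x ∉ e with hUdef
  set M : Finset (Finset V) := T.filter fun e => ¬ ∀ x ∈ X, x ∉ e with hMdef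
  have hMU : U.card + M.card = T.card := Finset.card_filter_add_card_filter_not _
  have hUm : ∀ u, u ∈ U ↔ u ∈ T ∧ ∀ x ∈ X, x ∉ u := fun u => by rw [hUdef, Finset.mem_filter]
  have hM : M.card = 2 * X.card := by
    have h1 : M = X.biUnion (star T) := by
      ext e
      rw [hMdef, Finset.mem_filter, Finset.mem_biUnion]
      push Not
      constructor
      · rintro ⟨he, x, hx, hxe⟩
        exact ⟨x, hx, mem_star.2 ⟨he, hxe⟩⟩
      · rintro ⟨x, hx, hxe⟩
        exact ⟨(mem_star.1 hxe).1, x, hx, (mem_star.1 hxe).2⟩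
    rw [h1, Finset.card_biUnion]
    · rw [Finset.sum_congr rfl fun x hx => h.two x (hX.1 hx), Finset.sum_const, smul_eq_mul,
        mul_comm]
    · intro x hx y hy hxy
      show Disjoint (star T x) (star T y)
      rw [Finset.disjoint_left]
      intro e he he'
      exact hxy (hX.2 e (mem_star.1 he).1 x hx y hy (mem_star.1 he).2 (mem_star.1 he').2)
  -- the vertices of the unmatched edges
  set N : Finset V := ver U with hN
  have hNm : ∀ y, y ∈ N ↔ ∃ u ∈ U, y ∈ u := fun y => mem_ver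
  have hNcard : N.card = 3 * U.card := by
    have h1 : ∀ e ∈ U, (id e : Finset V).card = 3 := fun e he => h.three e ((hUm e).1 he).1
    rw [hN, ver, Finset.card_biUnion]
    · rw [Finset.sum_congr rfl h1, Finset.sum_const, smul_eq_mul, mul_comm]
    · intro u hu v hv huv
      show Disjoint u v
      rw [Finset.disjoint_left]
      intro y hy hy'
      exact huv (h.unm hX hmax ((hUm u).1 hu).1 ((hUm v).1 hv).1 ((hUm u).1 hu).2
        ((hUm v).1 hv).2 hy hy')
  set Nx : V → Finset V := fun x => N ∩ ver (star T x) with hNx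
  have hNxm : ∀ x y, y ∈ Nx x ↔ y ∈ N ∧ ∃ a ∈ T, x ∈ a ∧ y ∈ a := by
    intro x y
    simp only [hNx, Finset.mem_inter, mem_ver, mem_star]
    constructor
    · rintro ⟨h1, a, ⟨h2, h3⟩, h4⟩
      exact ⟨h1, a, h2, h3, h4⟩
    · rintro ⟨h1, a, h2, h3, h4⟩
      exact ⟨h1, a, ⟨h2, h3⟩, h4⟩
  have hcov : N = X.biUnion Nx := by
    ext y
    rw [Finset.mem_biUnion]
    constructor
    · intro hy
      obtain ⟨u, hu, hyu⟩ := (hNm y).1 hy
      obtain ⟨f, hf, hfu, hyf, -⟩ := h.other ((hUm u).1 hu).1 hyu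
      have hfU : ¬ ∀ x ∈ X, x ∉ f := by
        intro h1
        exact hfu (h.unm hX hmax hf ((hUm u).1 hu).1 h1 ((hUm u).1 hu).2 hyf hyu)
      push Not at hfU
      obtain ⟨x, hx, hxf⟩ := hfU
      exact ⟨x, hx, (hNxm x y).2 ⟨hy, f, hf, hxf, hyf⟩⟩
    · rintro ⟨x, _, hy⟩
      exact ((hNxm x y).1 hy).1
  have hNdis : ∀ x ∈ X, ∀ x' ∈ X, x ≠ x' → Disjoint (Nx x) (Nx x') := by
    intro x hx x' hx' hxx
    rw [Finset.disjoint_left]
    intro y hy hy'
    obtain ⟨hyN, a, ha, hxa, hya⟩ := (hNxm x y).1 hy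
    obtain ⟨-, b, hb, hxb, hyb⟩ := (hNxm x' y).1 hy'
    obtain ⟨u, hu, hyu⟩ := (hNm y).1 hyN
    obtain ⟨f, hf, hfu, hyf, hall⟩ := h.other ((hUm u).1 hu).1 hyu
    have ha' : a = f := by
      rcases hall a ha hya with h1 | h1
      · exact absurd (h1 ▸ hxa) (((hUm u).1 hu).2 x hx)
      · exact h1
    have hb' : b = f := by
      rcases hall b hb hyb with h1 | h1
      · exact absurd (h1 ▸ hxb) (((hUm u).1 hu).2 x' hx')
      · exact h1
    subst ha'
    subst hb'
    exact hxx (hX.2 _ ha x hx x' hx' hxa hxb)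
  have hNsum : N.card = ∑ x ∈ X, (Nx x).card := by
    conv_lhs => rw [hcov]
    exact Finset.card_biUnion fun x hx y hy hxy => hNdis x hx y hy hxy
  -- the two edges of a vertex of `X`
  have hedges : ∀ x ∈ X, ∃ a ∈ T, ∃ b ∈ T, a ≠ b ∧ x ∈ a ∧ x ∈ b ∧
      ∀ g ∈ T, x ∈ g → g = a ∨ g = b := by
    intro x hx
    obtain ⟨a, ha, hxa⟩ := mem_ver.1 (hX.1 hx)
    obtain ⟨b, hb, hba, hxb, hall⟩ := h.other ha hxa
    exact ⟨a, ha, b, hb, hba.symm, hxa, hxb, hall⟩
  have hxN : ∀ x ∈ X, x ∉ N := by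
    intro x hx h1
    obtain ⟨u, hu, hxu⟩ := (hNm x).1 h1
    exact ((hUm u).1 hu).2 x hx hxu
  -- one side empty
  have hside : ∀ x ∈ X, ∀ a ∈ T, ∀ b ∈ T, x ∈ a → x ∈ b → (∀ g ∈ T, x ∈ g → g = a ∨ g = b) →
      (∀ y ∈ N, y ∉ b) → Nx x ⊆ a.erase x := by
    intro x hx a ha b hb hxa hxb hall hNb y hy
    obtain ⟨hyN, g, hg, hxg, hyg⟩ := (hNxm x y).1 hy
    rw [Finset.mem_erase]
    refine ⟨fun h1 => hxN x hx (h1 ▸ hyN), ?_⟩
    rcases hall g hg hxg with rfl | rfl
    · exact hyg
    · exact absurd hyg (hNb y hyN)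
  -- both sides nonempty
  have hboth : ∀ x ∈ X, ∀ a ∈ T, ∀ b ∈ T, a ≠ b → x ∈ a → x ∈ b →
      (∀ g ∈ T, x ∈ g → g = a ∨ g = b) → (∃ y ∈ N, y ∈ a) → (∃ y ∈ N, y ∈ b) →
      ∃ u ∈ U, Nx x ⊆ u ∧ (Nx x).card ≤ 2 := by
    rintro x hx a ha b hb hab hxa hxb hall ⟨y, hyN, hya⟩ ⟨y', hyN', hyb⟩
    obtain ⟨u, hu, hyu⟩ := (hNm y).1 hyN
    have hsub : ∀ z ∈ Nx x, z ∈ u := by
      have hkey : ∀ z ∈ N, z ∈ b → z ∈ u := by
        intro z hz hzb
        obtain ⟨w, hw, hzw⟩ := (hNm z).1 hz
        have h1 := h.aug hX hmax hx ha hb hab hxa hxb ((hUm u).1 hu).1 ((hUm w).1 hw).1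
          ((hUm u).1 hu).2 ((hUm w).1 hw).2 hya hyu hzb hzw
        rw [h1]
        exact hzw
      intro z hz
      obtain ⟨hzN, g, hg, hxg, hzg⟩ := (hNxm x z).1 hz
      rcases hall g hg hxg with rfl | rfl
      · obtain ⟨w, hw, hzw⟩ := (hNm z).1 hzN
        have h1 := h.aug hX hmax hx ha hb hab hxa hxb ((hUm w).1 hw).1 ((hUm u).1 hu).1
          ((hUm w).1 hw).2 ((hUm u).1 hu).2 hzg hzw hyb (hkey y' hyN' hyb)
        rw [← h1]
        exact hzw
      · exact hkey z hzN hzg
    refine ⟨u, hu, hsub, ?_⟩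
    have h1 : Nx x ⊆ (Nx x ∩ a) ∪ (Nx x ∩ b) := by
      intro z hz
      obtain ⟨hzN, g, hg, hxg, hzg⟩ := (hNxm x z).1 hz
      rcases hall g hg hxg with rfl | rfl
      · exact Finset.mem_union_left _ (Finset.mem_inter.2 ⟨hz, hzg⟩)
      · exact Finset.mem_union_right _ (Finset.mem_inter.2 ⟨hz, hzg⟩)
    have hau : a ≠ u := fun h2 => ((hUm u).1 hu).2 x hx (h2 ▸ hxa)
    have hbu : b ≠ u := fun h2 => ((hUm u).1 hu).2 x hx (h2 ▸ hxb)
    have h2 : (Nx x ∩ a).card ≤ 1 := by
      rw [Finset.card_le_one]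
      intro z hz w hw
      rw [Finset.mem_inter] at hz hw
      exact h.lin a ha u ((hUm u).1 hu).1 hau z hz.2 w hw.2 (hsub z hz.1) (hsub w hw.1)
    have h3 : (Nx x ∩ b).card ≤ 1 := by
      rw [Finset.card_le_one]
      intro z hz w hw
      rw [Finset.mem_inter] at hz hw
      exact h.lin b hb u ((hUm u).1 hu).1 hbu z hz.2 w hw.2 (hsub z hz.1) (hsub w hw.1)
    have h4 := (Finset.card_le_card h1).trans (Finset.card_union_le _ _)
    omega
  have hle : ∀ x ∈ X, (Nx x).card ≤ 2 := by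
    intro x hx
    obtain ⟨a, ha, b, hb, hab, hxa, hxb, hall⟩ := hedges x hx
    have hall' : ∀ g ∈ T, x ∈ g → g = b ∨ g = a := fun g hg hxg => (hall g hg hxg).symm
    by_cases h1 : ∃ y ∈ N, y ∈ b
    · by_cases h2 : ∃ y ∈ N, y ∈ a
      · obtain ⟨_, _, _, h3⟩ := hboth x hx a ha b hb hab hxa hxb hall h2 h1
        exact h3
      · push Not at h2
        have h3 := Finset.card_le_card (hside x hx b hb a ha hxb hxa hall' h2)
        rw [Finset.card_erase_of_mem hxb, h.three b hb] at h3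
        exact h3
    · push Not at h1
      have h3 := Finset.card_le_card (hside x hx a ha b hb hxa hxb hall h1)
      rw [Finset.card_erase_of_mem hxa, h.three a ha] at h3
      exact h3
  -- the strict inequality
  have hstrict : 3 * U.card < 2 * X.card := by
    by_contra hcon
    push Not at hcon
    have h1 : ∑ x ∈ X, (Nx x).card ≤ ∑ x ∈ X, 2 := Finset.sum_le_sum hle
    rw [Finset.sum_const, smul_eq_mul] at h1
    have heq : ∀ x ∈ X, (Nx x).card = 2 := by
      have h2 : ∑ x ∈ X, (Nx x).card = ∑ x ∈ X, 2 := by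
        rw [Finset.sum_const, smul_eq_mul]
        omega
      exact (Finset.sum_eq_sum_iff_of_le hle).1 h2
    -- no side is empty
    have hno : ∀ x ∈ X, ∀ a ∈ T, ∀ b ∈ T, a ≠ b → x ∈ a → x ∈ b →
        (∀ g ∈ T, x ∈ g → g = a ∨ g = b) → ∃ y ∈ N, y ∈ b := by
      intro x hx a ha b hb hab hxa hxb hall
      by_contra hNb
      push Not at hNb
      have h2 := hside x hx a ha b hb hxa hxb hall hNb
      obtain ⟨y1, y2, hy12, hNxe⟩ := Finset.card_eq_two.1 (heq x hx)
      have hy1 : y1 ∈ Nx x := by rw [hNxe]; simp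
      have hy2 : y2 ∈ Nx x := by rw [hNxe]; simp
      have hy1N := ((hNxm x y1).1 hy1).1
      have hy2N := ((hNxm x y2).1 hy2).1
      have hy1a := Finset.mem_of_mem_erase (h2 hy1)
      have hy2a := Finset.mem_of_mem_erase (h2 hy2)
      obtain ⟨u1, hu1, hyu1⟩ := (hNm y1).1 hy1N
      obtain ⟨u2, hu2, hyu2⟩ := (hNm y2).1 hy2N
      have hau1 : a ≠ u1 := fun h3 => ((hUm u1).1 hu1).2 x hx (h3 ▸ hxa)
      have hu12 : u1 ≠ u2 := by
        rintro rfl
        exact hy12 (h.lin a ha u1 ((hUm u1).1 hu1).1 hau1 y1 hy1a y2 hy2a hyu1 hyu2)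
      -- the third edge
      have hb3 : 0 < (b.erase x).card := by
        rw [Finset.card_erase_of_mem hxb, h.three b hb]
        norm_num
      obtain ⟨c, hc⟩ := Finset.card_pos.1 hb3
      obtain ⟨hcx, hcb⟩ := Finset.mem_erase.1 hc
      have hcN : c ∉ N := fun h3 => hNb c h3 hcb
      obtain ⟨k, hk, hkb, hck, hcall⟩ := h.other hb hcb
      have hkU : ¬ ∀ s ∈ X, s ∉ k := fun h3 => hcN ((hNm c).2 ⟨k, (hUm k).2 ⟨hk, h3⟩, hck⟩)
      push Not at hkU
      obtain ⟨x2, hx2, hx2k⟩ := hkU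
      have hca : c ∉ a := fun h3 => hcx (h.lin a ha b hb hab c h3 x hxa hcb hxb)
      have hxx2 : x ≠ x2 := by
        rintro rfl
        rcases hall k hk hx2k with h3 | h3
        · exact hca (h3 ▸ hck)
        · exact hkb h3
      obtain ⟨l, hl, hlk, hx2l, hall2⟩ := h.other hk hx2k
      -- `N` meets `l`
      have hNl : ∃ y3 ∈ N, y3 ∈ l := by
        by_contra h3
        push Not at h3
        have h4 := hside x2 hx2 k hk l hl hx2k hx2l hall2 h3
        have h5 : Nx x2 ⊆ (k.erase x2).erase c := by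
          intro z hz
          rw [Finset.mem_erase]
          refine ⟨?_, h4 hz⟩
          rintro rfl
          exact hcN ((hNxm x2 z).1 hz).1
        have h6 := Finset.card_le_card h5
        have hcx2 : c ≠ x2 := by
          rintro rfl
          exact hxx2 (hX.2 b hb x hx c hx2 hxb hcb)
        rw [Finset.card_erase_of_mem (Finset.mem_erase.2 ⟨hcx2, hck⟩),
          Finset.card_erase_of_mem hx2k, h.three k hk, heq x2 hx2] at h6
        omega
      obtain ⟨y3, hy3N, hy3l⟩ := hNl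
      obtain ⟨u3, hu3, hyu3⟩ := (hNm y3).1 hy3N
      -- choose `i` with `u_i ≠ u_3`
      obtain ⟨y, u, hyN, hu, hyu, hya, huu3⟩ : ∃ y u, y ∈ N ∧ u ∈ U ∧ y ∈ u ∧ y ∈ a ∧ u ≠ u3 := by
        by_cases h3 : u1 = u3
        · exact ⟨y2, u2, hy2N, hu2, hyu2, hy2a, fun h4 => hu12 (h3.trans h4.symm)⟩
        · exact ⟨y1, u1, hy1N, hu1, hyu1, hy1a, h3⟩
      have hau : a ≠ u := fun h3 => ((hUm u).1 hu).2 x hx (h3 ▸ hxa)
      have hlu3 : l ≠ u3 := fun h3 => ((hUm u3).1 hu3).2 x2 hx2 (h3 ▸ hx2l)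
      have hyall : ∀ g ∈ T, y ∈ g → g = a ∨ g = u := by
        obtain ⟨f, hf, hfa, hyf, hall3⟩ := h.other ha hya
        intro g hg hyg
        rcases hall3 u ((hUm u).1 hu).1 hyu with h3 | h3
        · exact absurd h3.symm hau
        · rw [h3]
          exact hall3 g hg hyg
      have hy3all : ∀ g ∈ T, y3 ∈ g → g = l ∨ g = u3 := by
        obtain ⟨f, hf, hfa, hyf, hall3⟩ := h.other hl hy3l
        intro g hg hyg
        rcases hall3 u3 ((hUm u3).1 hu3).1 hyu3 with h3 | h3
        · exact absurd h3.symm hlu3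
        · rw [h3]
          exact hall3 g hg hyg
      have hUx : ∀ v ∈ U, ∀ s ∈ X, s ∉ v := fun v hv => ((hUm v).1 hv).2
      have hyc : y ≠ c := fun h3 => hcN (h3 ▸ hyN)
      have hy3c : y3 ≠ c := fun h3 => hcN (h3 ▸ hy3N)
      have hyy3 : y ≠ y3 := by
        rintro rfl
        exact huu3 (h.unm hX hmax ((hUm u).1 hu).1 ((hUm u3).1 hu3).1 (hUx u hu) (hUx u3 hu3)
          hyu hyu3)
      have ne_ak : a ≠ k := fun h3 => hca (h3 ▸ hck)
      have ne_al : a ≠ l := fun h3 => hxx2 (hX.2 a ha x hx x2 hx2 hxa (h3 ▸ hx2l))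
      have ne_au3 : a ≠ u3 := fun h3 => hUx u3 hu3 x hx (h3 ▸ hxa)
      have ne_bu : b ≠ u := fun h3 => hUx u hu x hx (h3 ▸ hxb)
      have ne_ku : k ≠ u := fun h3 => hUx u hu x2 hx2 (h3 ▸ hx2k)
      have ne_lu : l ≠ u := fun h3 => hUx u hu x2 hx2 (h3 ▸ hx2l)
      have ne_bl : b ≠ l := fun h3 => hxx2 (hX.2 b hb x hx x2 hx2 hxb (h3 ▸ hx2l))
      have ne_bu3 : b ≠ u3 := fun h3 => hUx u3 hu3 x hx (h3 ▸ hxb)
      have ne_ku3 : k ≠ u3 := fun h3 => hUx u3 hu3 x2 hx2 (h3 ▸ hx2k)
      refine hX.no_aug hmax {x, x2} {y, c, y3} ?_ ?_ ?_ ?_ ?_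
      · intro z hz
        rw [Finset.mem_insert, Finset.mem_singleton] at hz
        rcases hz with rfl | rfl
        · exact hx
        · exact hx2
      · intro z hz
        simp only [Finset.mem_insert, Finset.mem_singleton] at hz
        rcases hz with rfl | rfl | rfl
        · exact mem_ver.2 ⟨a, ha, hya⟩
        · exact mem_ver.2 ⟨b, hb, hcb⟩
        · exact mem_ver.2 ⟨l, hl, hy3l⟩
      · rw [Finset.card_pair hxx2, Finset.card_eq_three.2 ⟨y, c, y3, hyc, hyy3, hy3c.symm, rfl⟩]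
        norm_num
      · intro e he z hz hze s hs hse
        simp only [Finset.mem_insert, Finset.mem_singleton] at hz ⊢
        rcases hz with rfl | rfl | rfl
        · rcases hyall e he hze with rfl | rfl
          · exact Or.inl (hX.2 _ he s hs x hx hse hxa)
          · exact absurd hse (hUx _ hu s hs)
        · rcases hcall e he hze with rfl | rfl
          · exact Or.inl (hX.2 _ he s hs x hx hse hxb)
          · exact Or.inr (hX.2 _ he s hs x2 hx2 hse hx2k)
        · rcases hy3all e he hze with rfl | rfl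
          · exact Or.inr (hX.2 _ he s hs x2 hx2 hse hx2l)
          · exact absurd hse (hUx _ hu3 s hs)
      · have k1 : ∀ e ∈ T, y ∈ e → c ∈ e → False := by
          intro e he h3 h4
          rcases hyall e he h3 with rfl | rfl <;> rcases hcall _ he h4 with h5 | h5
          · exact hab h5
          · exact ne_ak h5
          · exact ne_bu h5.symm
          · exact ne_ku h5.symm
        have k2 : ∀ e ∈ T, y ∈ e → y3 ∈ e → False := by
          intro e he h3 h4
          rcases hyall e he h3 with rfl | rfl <;> rcases hy3all _ he h4 with h5 | h5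
          · exact ne_al h5
          · exact ne_au3 h5
          · exact ne_lu h5.symm
          · exact huu3 h5
        have k3 : ∀ e ∈ T, c ∈ e → y3 ∈ e → False := by
          intro e he h3 h4
          rcases hcall e he h3 with rfl | rfl <;> rcases hy3all _ he h4 with h5 | h5
          · exact ne_bl h5
          · exact ne_bu3 h5
          · exact hlk h5.symm
          · exact ne_ku3 h5
        intro e he z hz w hw hze hwe
        simp only [Finset.mem_insert, Finset.mem_singleton] at hz hw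
        rcases hz with rfl | rfl | rfl <;> rcases hw with rfl | rfl | rfl
        · rfl
        · exact (k1 e he hze hwe).elim
        · exact (k2 e he hze hwe).elim
        · exact (k1 e he hwe hze).elim
        · rfl
        · exact (k3 e he hze hwe).elim
        · exact (k2 e he hwe hze).elim
        · exact (k3 e he hwe hze).elim
        · rfl
    -- all pairs lie in one unmatched edge
    have hpair : ∀ x ∈ X, ∃ u ∈ U, Nx x ⊆ u := by
      intro x hx
      obtain ⟨a, ha, b, hb, hab, hxa, hxb, hall⟩ := hedges x hx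
      have hall' : ∀ g ∈ T, x ∈ g → g = b ∨ g = a := fun g hg hxg => (hall g hg hxg).symm
      obtain ⟨u, hu, hs, -⟩ := hboth x hx a ha b hb hab hxa hxb hall
        (hno x hx b hb a ha hab.symm hxb hxa hall') (hno x hx a ha b hb hab hxa hxb hall)
      exact ⟨u, hu, hs⟩
    have hUne : U.Nonempty := by
      rw [Finset.nonempty_iff_ne_empty]
      intro h2
      rw [h2, Finset.card_empty] at hcon hMU
      have h3 := hne.card_pos
      omega
    obtain ⟨u, hu⟩ := hUne
    have hpar : u = (X.filter fun x => Nx x ⊆ u).biUnion Nx := by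
      ext y
      rw [Finset.mem_biUnion]
      constructor
      · intro hy
        have hyN : y ∈ N := (hNm y).2 ⟨u, hu, hy⟩
        rw [hcov, Finset.mem_biUnion] at hyN
        obtain ⟨x, hx, hyx⟩ := hyN
        obtain ⟨v, hv, hsv⟩ := hpair x hx
        have : v = u := h.unm hX hmax ((hUm v).1 hv).1 ((hUm u).1 hu).1 ((hUm v).1 hv).2
          ((hUm u).1 hu).2 (hsv hyx) hy
        exact ⟨x, Finset.mem_filter.2 ⟨hx, this ▸ hsv⟩, hyx⟩
      · rintro ⟨x, hx, hy⟩
        exact (Finset.mem_filter.1 hx).2 hy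
    have hu3 := h.three u ((hUm u).1 hu).1
    rw [hpar, Finset.card_biUnion, Finset.sum_congr rfl fun x hx =>
      heq x (Finset.mem_filter.1 hx).1, Finset.sum_const, smul_eq_mul] at hu3
    · omega
    · intro x hx y hy hxy
      exact hNdis x (Finset.mem_filter.1 hx).1 y (Finset.mem_filter.1 hy).1 hxy
  -- the transversal
  have hpick : ∀ u ∈ U, ∃ y, y ∈ u := by
    intro u hu
    have h1 : 0 < u.card := by rw [h.three u ((hUm u).1 hu).1]; norm_num
    exact Finset.card_pos.1 h1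
  have : Nonempty V := by
    obtain ⟨e, he⟩ := hne
    have h1 : 0 < e.card := by rw [h.three e he]; norm_num
    obtain ⟨y, -⟩ := Finset.card_pos.1 h1
    exact ⟨y⟩
  choose! pick hpick using hpick
  refine ⟨X ∪ U.image pick, ?_, ?_⟩
  · intro e he
    by_cases h1 : ∀ x ∈ X, x ∉ e
    · exact ⟨pick e, Finset.mem_union_right _ (Finset.mem_image_of_mem _ ((hUm e).2 ⟨he, h1⟩)),
        hpick e ((hUm e).2 ⟨he, h1⟩)⟩
    · push Not at h1
      obtain ⟨x, hx, hxe⟩ := h1
      exact ⟨x, Finset.mem_union_left _ hx, hxe⟩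
  · have h1 : (X ∪ U.image pick).card ≤ X.card + U.card :=
      (Finset.card_union_le _ _).trans (Nat.add_le_add_left Finset.card_image_le _)
    have h2 := h.double
    omega

end Pool.Agent.MP284513
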