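import Pool.Agent.Lib.MP_284513_co.CM

/-!
# The list of the connected extremal 3-uniform hypergraphs
-/

set_option linter.unusedSectionVars false

namespace Pool.Agent.MP284513

variable {V : Type} [DecidableEq V]

/-- `S` is a transversal of `T` with at most `(n + m) / 4` elements. -/
def Opt (T : Finset (Finset V)) (S : Finset V) : Prop :=
  Trans T S ∧ 4 * S.card ≤ (ver T).card + T.card

/-- `K` is a part of `T`, and no other member of `T` meets `K`. -/
def Closed (T K : Finset (Finset V)) : Prop :=
  K ⊆ T ∧ ∀ e ∈ T, ∀ v ∈ e, v ∈ ver K → e ∈ K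

/-- vertices of degree at most two -/
def Low (T : Finset (Finset V)) (v : V) : Prop := v ∈ ver T ∧ (star T v).card ≤ 2

theorem ver_union (K T : Finset (Finset V)) : ver (K ∪ T) = ver K ∪ ver T := by
  ext v
  simp only [mem_ver, Finset.mem_union]
  constructor
  · rintro ⟨e, he | he, hv⟩
    · exact Or.inl ⟨e, he, hv⟩
    · exact Or.inr ⟨e, he, hv⟩
  · rintro (⟨e, he, hv⟩ | ⟨e, he, hv⟩)
    · exact ⟨e, Or.inl he, hv⟩
    · exact ⟨e, Or.inr he, hv⟩

theorem star_union (K T : Finset (Finset V)) (v : V) : star (K ∪ T) v = star K v ∪ star T v := by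
  simp [star, Finset.filter_union]

theorem star_eq_empty {T : Finset (Finset V)} {v : V} (h : v ∉ ver T) : star T v = ∅ := by
  rw [Finset.eq_empty_iff_forall_notMem]
  intro e he
  exact h (mem_ver.2 ⟨e, (mem_star.1 he).1, (mem_star.1 he).2⟩)

theorem disjoint_of_ver {K T : Finset (Finset V)} (h3 : ∀ e ∈ K, e.card = 3)
    (hd : Disjoint (ver K) (ver T)) : Disjoint K T := by
  rw [Finset.disjoint_left]
  intro e he he'
  have h1 : 0 < e.card := by rw [h3 e he]; omega
  obtain ⟨v, hv⟩ := Finset.card_pos.1 h1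
  exact Finset.disjoint_left.1 hd (mem_ver.2 ⟨e, he, hv⟩) (mem_ver.2 ⟨e, he', hv⟩)

theorem Trans.union {K T : Finset (Finset V)} {S S' : Finset V} (h : Trans K S)
    (h' : Trans T S') : Trans (K ∪ T) (S ∪ S') := by
  intro e he
  rcases Finset.mem_union.1 he with he | he
  · obtain ⟨x, hx, hxe⟩ := h e he
    exact ⟨x, Finset.mem_union_left _ hx, hxe⟩
  · obtain ⟨x, hx, hxe⟩ := h' e he
    exact ⟨x, Finset.mem_union_right _ hx, hxe⟩

theorem Trans.mono {T : Finset (Finset V)} {S S' : Finset V} (h : Trans T S) (hS : S ⊆ S') :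
    Trans T S' := by
  intro e he
  obtain ⟨x, hx, hxe⟩ := h e he
  exact ⟨x, hS hx, hxe⟩

theorem Trans.anti {T T' : Finset (Finset V)} {S : Finset V} (h : Trans T S) (hT : T' ⊆ T) :
    Trans T' S := fun e he => h e (hT he)

theorem Opt.union {K T : Finset (Finset V)} {S S' : Finset V} (h : Opt K S) (h' : Opt T S')
    (h3 : ∀ e ∈ K, e.card = 3) (hd : Disjoint (ver K) (ver T)) : Opt (K ∪ T) (S ∪ S') := by
  refine ⟨h.1.union h'.1, ?_⟩
  rw [ver_union, Finset.card_union_of_disjoint hd,
    Finset.card_union_of_disjoint (disjoint_of_ver h3 hd)]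
  have h1 := Finset.card_union_le S S'
  have h2 := h.2
  have h4 := h'.2
  omega

/-- a transversal can be restricted to the vertices of the hypergraph -/
theorem Trans.inter {T : Finset (Finset V)} {S : Finset V} (h : Trans T S) :
    Trans T (S ∩ ver T) := by
  intro e he
  obtain ⟨x, hx, hxe⟩ := h e he
  exact ⟨x, Finset.mem_inter.2 ⟨hx, mem_ver.2 ⟨e, he, hxe⟩⟩, hxe⟩

theorem Ext.union {K T : Finset (Finset V)} (h : Ext K) (h' : Ext T)
    (hd : Disjoint (ver K) (ver T)) : Ext (K ∪ T) := by
  refine ⟨fun e he => ?_, fun S hS => ?_⟩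
  · rcases Finset.mem_union.1 he with he | he
    · exact h.1 e he
    · exact h'.1 e he
  · rw [ver_union, Finset.card_union_of_disjoint hd,
      Finset.card_union_of_disjoint (disjoint_of_ver h.1 hd)]
    have h1 := h.2 _ (hS.anti Finset.subset_union_left).inter
    have h2 := h'.2 _ (hS.anti Finset.subset_union_right).inter
    have h3 : (S ∩ ver K ∪ S ∩ ver T).card = (S ∩ ver K).card + (S ∩ ver T).card :=
      Finset.card_union_of_disjoint (Finset.disjoint_of_subset_left Finset.inter_subset_right
        (Finset.disjoint_of_subset_right Finset.inter_subset_right hd))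
    have h4 : (S ∩ ver K ∪ S ∩ ver T).card ≤ S.card :=
      Finset.card_le_card (Finset.union_subset Finset.inter_subset_left Finset.inter_subset_left)
    omega

theorem Ext.right {K T : Finset (Finset V)} (h : Ext (K ∪ T)) (hd : Disjoint (ver K) (ver T)) :
    Ext T := by
  have h3 : ∀ e ∈ K, e.card = 3 := fun e he => h.1 e (Finset.mem_union_left _ he)
  refine ⟨fun e he => h.1 e (Finset.mem_union_right _ he), fun S hS => ?_⟩
  obtain ⟨S', hS', hc⟩ := cm K h3
  have h1 := h.2 _ (hS'.union hS)
  rw [ver_union, Finset.card_union_of_disjoint hd,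
    Finset.card_union_of_disjoint (disjoint_of_ver h3 hd)] at h1
  have h2 := Finset.card_union_le S' S
  omega

theorem Ext.exists_opt {T : Finset (Finset V)} (h : Ext T) : ∃ S, Opt T S := cm T h.1

/-- the number `n + m` is divisible by four -/
theorem Ext.dvd {T : Finset (Finset V)} (h : Ext T) : ∃ k, (ver T).card + T.card = 4 * k := by
  obtain ⟨S, hS, hc⟩ := cm T h.1
  exact ⟨S.card, le_antisymm (h.2 S hS) hc⟩

/-- every vertex lies in an optimal transversal -/
theorem Ext.opt_mem {T : Finset (Finset V)} (h : Ext T) {v : V} (hv : v ∈ ver T) :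
    ∃ S, Opt T S ∧ v ∈ S := by
  obtain ⟨S, hS, hc⟩ := cm (del T v) fun e he => h.1 e (del_subset T v he)
  refine ⟨insert v S, ⟨hS.insert, ?_⟩, Finset.mem_insert_self _ _⟩
  have h1 := card_star_add_del T v
  have h2 := card_star_pos hv
  have h3 := card_ver_add {v} (del_subset T v) (by simpa using hv) (by
    intro y hy
    rw [Finset.mem_singleton] at hy
    rw [hy]
    exact notMem_ver_del T v)
  rw [Finset.card_singleton] at h3
  have h4 := Finset.card_insert_le v S
  obtain ⟨k, hk⟩ := h.dvd
  omega

theorem Ext.deg_le {T : Finset (Finset V)} (h : Ext T) {v : V} (hv : v ∈ ver T) :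
    (star T v).card ≤ 3 := by
  have h1 := h.drop_le v
  have h3 := card_ver_add {v} (del_subset T v) (by simpa using hv) (by
    intro y hy
    rw [Finset.mem_singleton] at hy
    rw [hy]
    exact notMem_ver_del T v)
  rw [Finset.card_singleton] at h3
  omega

/-- the attachment condition -/
theorem Ext.not_trans {T : Finset (Finset V)} (h : Ext T) {x : V}
    (hx : 4 + (ver (del T x)).card ≤ (star T x).card + (ver T).card) {S : Finset V}
    (hS : Opt (del T x) S) : ¬ Trans T S := by
  intro hT
  have h1 := h.2 _ hT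
  have h2 := hS.2
  have h3 := card_star_add_del T x
  omega

theorem Closed.sdiff {T K : Finset (Finset V)} (h : Closed T K) :
    Disjoint (ver K) (ver (T \ K)) := by
  rw [Finset.disjoint_left]
  intro v hv hv'
  obtain ⟨e, he, hve⟩ := mem_ver.1 hv'
  obtain ⟨he1, he2⟩ := Finset.mem_sdiff.1 he
  exact he2 (h.2 e he1 v hve hv)

theorem Closed.eq {T K : Finset (Finset V)} (h : Closed T K) : K ∪ (T \ K) = T :=
  Finset.union_sdiff_of_subset h.1

theorem Closed.union {T K K' : Finset (Finset V)} (h : Closed T K) (h' : Closed T K') :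
    Closed T (K ∪ K') := by
  refine ⟨Finset.union_subset h.1 h'.1, fun e he v hv hv' => ?_⟩
  rw [ver_union, Finset.mem_union] at hv'
  rcases hv' with hv' | hv'
  · exact Finset.mem_union_left _ (h.2 e he v hv hv')
  · exact Finset.mem_union_right _ (h'.2 e he v hv hv')

/-- a closed part of the hypergraph without `x` together with the star of `x` -/
theorem Closed.attach {T K : Finset (Finset V)} {x : V} (h : Closed (del T x) K)
    (he : ∀ e ∈ star T x, ∀ v ∈ e, v ∈ ver K ∨ v ∉ ver (del T x)) :
    Closed T (K ∪ star T x) := by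
  refine ⟨Finset.union_subset (h.1.trans (del_subset T x)) (Finset.filter_subset _ _), ?_⟩
  intro f hf v hv hv'
  by_cases hx : x ∈ f
  · exact Finset.mem_union_right _ (mem_star.2 ⟨hf, hx⟩)
  · have hfd : f ∈ del T x := mem_del.2 ⟨hf, hx⟩
    rw [ver_union, Finset.mem_union] at hv'
    have hvK : v ∈ ver K := by
      rcases hv' with hv' | hv'
      · exact hv'
      · obtain ⟨e, hes, hve⟩ := mem_ver.1 hv'
        rcases he e hes v hve with h1 | h1
        · exact h1
        · exact absurd (mem_ver.2 ⟨f, hfd, hv⟩) h1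
    exact Finset.mem_union_left _ (h.2 f hfd v hv hvK)

theorem Good.peel {T : Finset (Finset V)} (h : Good T) {v : V} (hv : v ∈ ver T) :
    ∃ K R, T = K ∪ R ∧ Unit3 K ∧ Good R ∧ Disjoint (ver K) (ver R) ∧ v ∈ ver K := by
  induction h with
  | empty => simp [ver] at hv
  | @add K T hK hT hd ih =>
    rw [ver_union, Finset.mem_union] at hv
    by_cases hvK : v ∈ ver K
    · exact ⟨K, T, rfl, hK, hT, hd, hvK⟩
    · obtain ⟨K', R', rfl, hK', hR', hd', hv'⟩ := ih (hv.resolve_left hvK)
      rw [ver_union, Finset.disjoint_union_right] at hd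
      refine ⟨K', K ∪ R', ?_, hK', Good.add hK hR' hd.2, ?_, hv'⟩
      · rw [← Finset.union_assoc, ← Finset.union_assoc, Finset.union_comm K K']
      · rw [ver_union, Finset.disjoint_union_right]
        exact ⟨hd.1.symm, hd'⟩

end Pool.Agent.MP284513
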